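import Pool.Agent.Lib.MP_786755_nt.Main
import Pool.Agent.Lib.MP_30b5ba_nt.Variance

/-! The count of the integers that are not sums of four cubes. -/

namespace Pool.Agent.Lib.MP_786755_nt

open Finset Pool.Agent.Lib.MP_028aa5_nt MeasureTheory

/-- `n` is not a sum of four cubes -/
def Exc (n : ℤ) : Prop := ¬∃ a b c d : ℤ, n = a ^ 3 + b ^ 3 + c ^ 3 + d ^ 3

lemma int_ff {n : ℕ} (h : Exc n) (A U P : ℕ) (τ : ℝ) :
    ∫ α in τ..τ + 1, ff A U P α * e (-(α * n)) = 0 := by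
  have e1 : ∀ α, ff A U P α * e (-(α * n)) =
      ∑ i ∈ (Ioc A (2 * A) ×ˢ Ioc P (2 * P)) ×ˢ (Ioc U (4 * U) ×ˢ Ioc P (2 * P)),
        (wt i.1.1 i.1.2 : ℂ) * e (α * ((i.1.1 + i.2.1) ^ 3 + (i.1.1 - i.2.1) ^ 3 + i.1.2 ^ 3 +
          i.2.2 ^ 3 - n : ℤ)) := fun α => by
    simp only [ff, ga, gc, Fq, sum_product, sum_mul, mul_sum]
    rw [sum_comm]
    refine sum_congr rfl fun a _ => ?_
    rw [sum_comm]
    refine sum_congr rfl fun z _ => ?_
    rw [sum_comm]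
    refine sum_congr rfl fun u _ => sum_congr rfl fun w _ => ?_
    rw [show α * (((a + u) ^ 3 + (a - u) ^ 3 + z ^ 3 + w ^ 3 - n : ℤ) : ℝ) =
      α * (6 * a * u ^ 2) + α * (2 * a ^ 3) + α * z ^ 3 + α * w ^ 3 + -(α * n) by push_cast; ring]
    simp only [e_add]
    ring
  simp only [e1]
  rw [int_sum]
  exact sum_eq_zero fun i _ => if_neg fun h0 => h ⟨_, _, _, _, (sub_eq_zero.1 h0).symm⟩

lemma int_MM (A U P Q n : ℕ) {δ τ : ℝ} (hδ : 0 < δ) (hτ : τ = 1 / (2 * Q)) (h : δ ≤ τ) :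
    ∫ α in τ..τ + 1, MM A U P Q δ α * e (-(α * n)) =
      (∑ q ∈ Icc 1 Q, An n q) * ∫ β in (-δ)..δ, tent δ β * f0 A U P β * e (-(β * n)) := by
  classical
  set g : ℝ → ℂ := fun β => tent δ β * f0 A U P β * e (-(β * n)) with hg
  have hs : ∀ {a b : ℝ}, a ≤ -δ → δ ≤ b → ∫ β in a..b, g β = ∫ β, g β := fun ha hb =>
    intervalIntegral.integral_eq_integral_of_support_subset fun β hβ => by
      have : |β| < δ := not_le.1 fun h => hβ (by simp [hg, tent_eq_zero hδ h])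
      obtain ⟨h1, h2⟩ := abs_lt.1 this
      exact ⟨by linarith, by linarith⟩
  simp only [MM, sum_mul]
  rw [intervalIntegral.integral_finsetSum fun i _ =>
    Continuous.intervalIntegrable (by fun_prop) _ _]
  refine sum_congr rfl fun q hq => ?_
  obtain ⟨h1, h2⟩ := mem_Icc.1 hq
  have hq0 : (0 : ℝ) < q := by exact_mod_cast h1
  have hq1 : (q : ℝ) ≤ Q := by exact_mod_cast h2
  rw [intervalIntegral.integral_finsetSum fun i _ =>
    Continuous.intervalIntegrable (by fun_prop) _ _, An, ← sum_Icc_per (per_An n q), sum_filter,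
    sum_mul]
  refine sum_congr rfl fun r hr => ?_
  simp only [Nat.isCoprime_iff_coprime]
  split_ifs
  swap
  · simp
  obtain ⟨h3, h4⟩ := mem_Icc.1 hr
  have e1 : ∀ α : ℝ, cc q r * tent δ (α - r / q) * f0 A U P (α - r / q) * e (-(α * n)) =
      cc q r * ec q (-(r * n)) * g (α - r / q) := fun α => by
    have := e_add_div q r (-n) (α - r / q)
    push_cast at this
    rw [add_sub_cancel] at this
    simp only [hg, mul_neg] at this ⊢
    rw [this]
    ring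
  simp only [e1]
  have e2 : (r : ℝ) / q ≤ 1 := by rw [div_le_one hq0]; exact_mod_cast h4
  have e3 : 2 * τ ≤ r / q := by
    rw [hτ, show 2 * (1 / (2 * (Q : ℝ))) = 1 / Q by ring]
    gcongr
    exact_mod_cast h3
  rw [intervalIntegral.integral_const_mul, intervalIntegral.integral_comp_sub_right,
    hs (by linarith) (by linarith), hs le_rfl le_rfl]

open Classical in
theorem window : ∃ c C : ℝ, 0 < c ∧ 0 < C ∧ ∀ (X : ℕ) (E : ℝ), 100 ≤ X →
    (∀ m, 1 ≤ m → m ≤ 1000 * X ^ 48 → (#m.divisors : ℝ) ≤ E) →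
    (∀ m : ℕ, 1 ≤ m → m ≤ 1000 * X ^ 48 → 1 + Real.log m ≤ E) →
    E ^ 17 ≤ c * (X : ℝ) ^ (3 / 4 : ℝ) →
    (#((Icc (32 * X ^ 48) (96 * X ^ 48)).filter fun n : ℕ => Exc n) : ℝ) ≤ C * E ^ 26 * X ^ 42 := by
  obtain ⟨c, C, hc, hC, h⟩ := sing_lower
  refine ⟨c / (2 * C), 10 ^ 14 * (1296 / c) ^ 2, by positivity, by positivity,
    fun X E hX hE hL hEX => ?_⟩
  have hX0 : (0 : ℝ) < X := by exact_mod_cast (by omega : 0 < X)
  have hX1 : (1 : ℝ) ≤ X := by exact_mod_cast (by omega : 1 ≤ X)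
  have h1p : ∀ i, 1 ≤ X ^ i := fun i => Nat.one_le_pow _ _ (by omega)
  have hE1 : 1 ≤ E := by simpa using hL 1 le_rfl (by have := h1p 48; omega)
  have e0 : (0 : ℝ) < 1 / (216 * X ^ 39) := by positivity
  have h1 := (bessel_int (by fun_prop)
    ((Icc (32 * X ^ 48) (96 * X ^ 48)).filter fun n : ℕ => Exc n) _).trans (ms_bound hX rfl hE hL)
  have h2 := card_nsmul_le_sum ((Icc (32 * X ^ 48) (96 * X ^ 48)).filter fun n : ℕ => Exc n)
    (fun n : ℕ => ‖∫ α in (1 / (2 * (X ^ 3 : ℕ)) : ℝ)..1 / (2 * (X ^ 3 : ℕ)) + 1,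
      (ff (X ^ 4) (X ^ 22) (X ^ 16) α - MM (X ^ 4) (X ^ 22) (X ^ 16) (X ^ 3) (1 / (216 * X ^ 39)) α) *
        e (-(α * n))‖ ^ 2) ((c / (2 * E) * (X ^ 10 / 648)) ^ 2) fun n hn => by
      obtain ⟨h3, h4⟩ := mem_filter.1 hn
      obtain ⟨h5, h6⟩ := mem_Icc.1 h3
      have h7 := h1p 48
      refine pow_le_pow_left₀ (by positivity) ?_ 2
      simp only [sub_mul]
      rw [intervalIntegral.integral_sub (Continuous.intervalIntegrable (by fun_prop) _ _)
        (Continuous.intervalIntegrable (by fun_prop) _ _), int_ff h4, zero_sub, norm_neg,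
        int_MM _ _ _ _ _ e0 rfl, norm_mul]
      · refine mul_le_mul (le_trans ?_ (h n (X ^ 3) E (by omega) (hE n (by omega) (by omega))
          (h1p 3))) (le_trans (le_of_eq ?_) (J_lower (l := X ^ 13) e0 (h1p _) ?_
            (h6.trans (le_of_eq (by ring))) (le_of_eq (by push_cast; field_simp))))
          (by positivity) (norm_nonneg _)
        · have e1 : ((X ^ 3 : ℕ) : ℝ) ^ (1 / 4 : ℝ) = (X : ℝ) ^ (3 / 4 : ℝ) := by
            rw [Nat.cast_pow, ← Real.rpow_natCast, ← Real.rpow_mul hX0.le]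
            norm_num
          have e2 : C * E ^ 16 / (X : ℝ) ^ (3 / 4 : ℝ) ≤ c / (2 * E) := by
            rw [div_le_div_iff₀ (by positivity) (by positivity)]
            calc _ = 2 * C * E ^ 17 := by ring
              _ ≤ 2 * C * (c / (2 * C) * (X : ℝ) ^ (3 / 4 : ℝ)) := by gcongr
              _ = _ := by field_simp
          have e3 : c / E = c / (2 * E) + c / (2 * E) := by field_simp; ring
          rw [e1]
          linarith
        · push_cast
          field_simp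
          ring
        · linarith [pw hX (show 12 < 48 by norm_num), pw hX (show 39 < 48 by norm_num),
            pw hX (show 30 < 48 by norm_num)]
      · push_cast
        refine one_div_le_one_div_of_le (by positivity) ?_
        linarith [pow_le_pow_right₀ hX1 (show 3 ≤ 39 by norm_num), pow_pos hX0 39]
  rw [nsmul_eq_mul, ← le_div_iff₀ (by positivity)] at h2
  refine h2.trans ((div_le_div_of_nonneg_right h1 (by positivity)).trans (le_of_eq ?_))
  field_simp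
  ring

lemma exists_E {η : ℝ} (hη : 0 < η) : ∃ D : ℝ, 0 < D ∧ ∀ X m : ℕ, 1 ≤ m → m ≤ 1000 * X ^ 48 →
    (#m.divisors : ℝ) ≤ D * (X : ℝ) ^ η ∧ 1 + Real.log m ≤ D * (X : ℝ) ^ η := by
  obtain ⟨k, hk⟩ := exists_nat_gt (48 / η)
  have hk0 : (0 : ℝ) < k := lt_trans (by positivity) hk
  obtain ⟨C, hC⟩ := MP_30b5ba_nt.card_divisors_pow_le k
  refine ⟨((C : ℝ) ^ (1 / k : ℝ) + 1 + k) * 1000 ^ (1 / k : ℝ), by positivity,
    fun X m h1 h2 => ?_⟩
  have hX : 1 ≤ X := by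
    rcases Nat.eq_zero_or_pos X with rfl | h
    · simp at h2; omega
    · exact h
  have hX1 : (1 : ℝ) ≤ X := by exact_mod_cast hX
  have hm : (1 : ℝ) ≤ m := by exact_mod_cast h1
  have e1 : (m : ℝ) ^ (1 / k : ℝ) ≤ 1000 ^ (1 / k : ℝ) * (X : ℝ) ^ η := by
    have e2 : (m : ℝ) ≤ 1000 * X ^ 48 := by exact_mod_cast h2
    refine (Real.rpow_le_rpow (by positivity) e2 (by positivity)).trans ?_
    rw [Real.mul_rpow (by norm_num) (by positivity), ← Real.rpow_natCast,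
      ← Real.rpow_mul (by positivity)]
    gcongr
    rw [mul_one_div, div_le_iff₀ hk0]
    rw [div_lt_iff₀ hη] at hk
    push_cast
    linarith
  have e2 : 1 ≤ (m : ℝ) ^ (1 / k : ℝ) := Real.one_le_rpow hm (by positivity)
  have e3 : (#m.divisors : ℝ) ≤ (C : ℝ) ^ (1 / k : ℝ) * (m : ℝ) ^ (1 / k : ℝ) := by
    rw [← Real.mul_rpow (by positivity) (by positivity), one_div,
      Real.le_rpow_inv_iff_of_pos (by positivity) (by positivity) hk0, Real.rpow_natCast]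
    exact_mod_cast hC m (by omega)
  have e4 := Real.log_le_rpow_div (x := m) (by positivity) (ε := 1 / k) (by positivity)
  rw [div_div_eq_mul_div, div_one] at e4
  have e5 : 0 ≤ (C : ℝ) ^ (1 / k : ℝ) * (m : ℝ) ^ (1 / k : ℝ) := by positivity
  have e6 : 0 ≤ (m : ℝ) ^ (1 / k : ℝ) * k := by positivity
  have e7 := mul_le_mul_of_nonneg_left e1 (by positivity : 0 ≤ (C : ℝ) ^ (1 / k : ℝ) + 1 + k)
  constructor <;> linarith

open Classical in
theorem window' {ε : ℝ} (hε : 0 < ε) : ∃ (C : ℝ) (X₀ : ℕ), 0 < C ∧ ∀ X : ℕ, X₀ ≤ X →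
    (#((Icc (32 * X ^ 48) (96 * X ^ 48)).filter fun n : ℕ => Exc n) : ℝ) ≤
      C * ((X ^ 48 : ℕ) : ℝ) ^ (7 / 8 + ε) := by
  obtain ⟨c, C, hc, hC, h⟩ := window
  obtain ⟨D, hD, hE⟩ := exists_E (η := min ε (1 / 34)) (lt_min hε (by norm_num))
  refine ⟨C * D ^ 26, ⌈(D ^ 17 / c) ^ 4⌉₊ + 100, by positivity, fun X hX => ?_⟩
  have hX1 : (1 : ℝ) ≤ X := by exact_mod_cast (by omega : 1 ≤ X)
  have hp : ∀ k : ℕ, ((X : ℝ) ^ min ε (1 / 34)) ^ k = (X : ℝ) ^ (min ε (1 / 34) * k) := fun k => by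
    rw [Real.rpow_mul (by positivity), Real.rpow_natCast]
  refine (h X _ (by omega) (fun m h1 h2 => (hE X m h1 h2).1) (fun m h1 h2 => (hE X m h1 h2).2)
    ?_).trans ?_
  · have e1 : D ^ 17 / c ≤ (X : ℝ) ^ (1 / 4 : ℝ) := by
      rw [one_div, Real.le_rpow_inv_iff_of_pos (by positivity) (by positivity) (by norm_num)]
      have := Nat.ceil_le.1 (by omega : ⌈(D ^ 17 / c) ^ 4⌉₊ ≤ X)
      exact_mod_cast this
    rw [div_le_iff₀' hc] at e1
    rw [mul_pow, hp, show (3 / 4 : ℝ) = 1 / 4 + 1 / 2 by norm_num, Real.rpow_add (by positivity),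
      ← mul_assoc]
    gcongr
    push_cast
    linarith [min_le_right ε (1 / 34)]
  · rw [mul_pow, hp, Nat.cast_pow, ← Real.rpow_natCast _ 42, ← Real.rpow_natCast _ 48,
      ← Real.rpow_mul (by positivity), mul_assoc, mul_assoc, ← Real.rpow_add (by positivity),
      mul_assoc]
    gcongr
    push_cast
    linarith [min_le_left ε (1 / 34)]

lemma exists_X {X₀ N : ℕ} (h0 : 144 ≤ X₀) (hN : 96 * X₀ ^ 48 < N) :
    ∃ X, X₀ ≤ X ∧ N ≤ 96 * X ^ 48 ∧ 64 * X ^ 48 ≤ N := by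
  have hex : ∃ X, N ≤ 96 * X ^ 48 :=
    ⟨N, (Nat.le_self_pow (by norm_num) N).trans (Nat.le_mul_of_pos_left _ (by norm_num))⟩
  have h1 := Nat.find_spec hex
  have h2 : X₀ < Nat.find hex := by
    by_contra h
    have := Nat.pow_le_pow_left (not_lt.1 h) 48
    omega
  obtain ⟨Y, hY⟩ : ∃ Y, Nat.find hex = Y + 1 := ⟨Nat.find hex - 1, by omega⟩
  have h3 := Nat.find_min hex (by omega : Y < Nat.find hex)
  rw [hY] at h1 h2
  refine ⟨Y + 1, h2.le, h1, le_trans ?_ (not_le.1 h3).le⟩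
  have h4 : (144 : ℝ) ≤ Y := by exact_mod_cast (by omega : 144 ≤ Y)
  have h5 : 1 / ((Y : ℝ) + 1) ≤ 1 / 144 := one_div_le_one_div_of_le (by norm_num) (by linarith)
  have h9 : 0 < ((Y : ℝ) + 1) ^ 48 := pow_pos (by linarith) 48
  have h6 := one_add_mul_le_pow (a := -(1 / ((Y : ℝ) + 1))) (by linarith) 48
  rw [show 1 + -(1 / ((Y : ℝ) + 1)) = Y / (Y + 1) by field_simp; ring, div_pow,
    le_div_iff₀ h9] at h6
  have h7 : 2 / 3 * ((Y : ℝ) + 1) ^ 48 ≤ Y ^ 48 :=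
    le_trans (mul_le_mul_of_nonneg_right (by push_cast; linarith) h9.le) h6
  have h8 : 64 * ((Y : ℝ) + 1) ^ 48 ≤ 96 * Y ^ 48 := by linarith
  exact_mod_cast h8

open Classical in
theorem count_nat {ε : ℝ} (hε : 0 < ε) : ∃ C : ℝ, 0 < C ∧ ∀ N : ℕ,
    (#((Icc 1 N).filter fun n : ℕ => Exc n) : ℝ) ≤ C * (N : ℝ) ^ (7 / 8 + ε) := by
  obtain ⟨C, X₀, hC, h⟩ := window' hε
  obtain ⟨B, hB⟩ : ∃ B : ℕ, ∀ N, B < N → ∃ X, X₀ + 144 ≤ X ∧ N ≤ 96 * X ^ 48 ∧ 64 * X ^ 48 ≤ N :=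
    ⟨_, fun N hN => exists_X (Nat.le_add_left _ _) hN⟩
  refine ⟨4 * C + B, by positivity, fun N => ?_⟩
  induction N using Nat.strong_induction_on with
  | _ N ih =>
  rcases Nat.eq_zero_or_pos N with rfl | hN
  · simp only [show Icc 1 0 = ∅ from rfl, filter_empty, card_empty, Nat.cast_zero]
    positivity
  have hN1 : (1 : ℝ) ≤ N := by exact_mod_cast hN
  have h1 : 1 ≤ (N : ℝ) ^ (7 / 8 + ε) := Real.one_le_rpow hN1 (by positivity)
  rcases le_or_gt N B with h2 | h2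
  · have : #((Icc 1 N).filter fun n : ℕ => Exc n) ≤ B := (card_filter_le _ _).trans (by simpa)
    calc _ ≤ (4 * C + B) * 1 := by
          have : (#((Icc 1 N).filter fun n : ℕ => Exc n) : ℝ) ≤ B := by exact_mod_cast this
          linarith
      _ ≤ _ := by gcongr
  obtain ⟨X, h3, h4, h5⟩ := hB N h2
  have h6 : #((Icc 1 N).filter fun n : ℕ => Exc n) ≤ #((Icc 1 (N / 2)).filter fun n : ℕ => Exc n) +
      #((Icc (32 * X ^ 48) (96 * X ^ 48)).filter fun n : ℕ => Exc n) := by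
    refine le_trans (card_le_card fun n hn => ?_) (card_union_le _ _)
    simp only [mem_union, mem_filter, mem_Icc] at hn ⊢
    by_cases h7 : n ≤ N / 2
    · exact Or.inl ⟨⟨hn.1.1, h7⟩, hn.2⟩
    · exact Or.inr ⟨⟨by omega, by omega⟩, hn.2⟩
  have h7 := ih (N / 2) (by omega)
  have h8 := h X (by omega)
  have h9 : ((X ^ 48 : ℕ) : ℝ) ^ (7 / 8 + ε) ≤ (N : ℝ) ^ (7 / 8 + ε) :=
    Real.rpow_le_rpow (by positivity) (by exact_mod_cast (by omega : X ^ 48 ≤ N)) (by positivity)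
  have h10 : ((N / 2 : ℕ) : ℝ) ^ (7 / 8 + ε) ≤ 3 / 4 * (N : ℝ) ^ (7 / 8 + ε) := by
    have e1 : ((N / 2 : ℕ) : ℝ) ≤ 1 / 2 * N := by
      have := Nat.cast_div_le (α := ℝ) (m := N) (n := 2)
      push_cast at this
      linarith
    refine (Real.rpow_le_rpow (by positivity) e1 (by positivity)).trans ?_
    rw [Real.mul_rpow (by norm_num) (by positivity)]
    gcongr
    refine (Real.rpow_le_rpow_of_exponent_ge (by norm_num) (by norm_num)
      (by linarith : (2 : ℝ)⁻¹ ≤ 7 / 8 + ε)).trans ?_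
    rw [Real.rpow_inv_le_iff_of_pos (by norm_num) (by norm_num) (by norm_num)]
    norm_num
  have h11 : (#((Icc 1 N).filter fun n : ℕ => Exc n) : ℝ) ≤
      #((Icc 1 (N / 2)).filter fun n : ℕ => Exc n) +
      #((Icc (32 * X ^ 48) (96 * X ^ 48)).filter fun n : ℕ => Exc n) := by exact_mod_cast h6
  have h12 := mul_le_mul_of_nonneg_left h10 (by positivity : 0 ≤ 4 * C + B)
  have h13 := mul_le_mul_of_nonneg_left h9 hC.le
  have h14 : 0 ≤ (B : ℝ) * (N : ℝ) ^ (7 / 8 + ε) := by positivity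
  linarith

open Classical in
theorem count_int {ε : ℝ} (hε : 0 < ε) : ∃ C : ℝ, ∀ N : ℕ,
    (#((Icc (-(N : ℤ)) N).filter Exc) : ℝ) ≤ C * (N : ℝ) ^ (7 / 8 + ε) := by
  obtain ⟨C, -, h⟩ := count_nat hε
  refine ⟨2 * C, fun N => ?_⟩
  have h1 : #((Icc (-(N : ℤ)) N).filter Exc) ≤ 2 * #((Icc 1 N).filter fun n : ℕ => Exc n) := by
    refine card_le_mul_card_image_of_maps_to (f := Int.natAbs) (fun n hn => ?_) 2 fun m _ => ?_
    · obtain ⟨h1, h2⟩ := mem_filter.1 hn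
      have h3 := mem_Icc.1 h1
      have h4 : n ≠ 0 := fun h => h2 ⟨0, 0, 0, 0, by simp [h]⟩
      refine mem_filter.2 ⟨mem_Icc.2 (by omega), fun ⟨a, b, c, d, h5⟩ => h2 ?_⟩
      rcases Int.natAbs_eq n with h6 | h6
      · exact ⟨a, b, c, d, h6.trans h5⟩
      · exact ⟨-a, -b, -c, -d, by rw [h6, h5]; ring⟩
    · refine (card_le_card fun n hn => ?_).trans (card_le_two (a := (m : ℤ)) (b := -m))
      have := (mem_filter.1 hn).2
      simp only [mem_insert, mem_singleton]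
      omega
  have h2 : (#((Icc (-(N : ℤ)) N).filter Exc) : ℝ) ≤
      2 * #((Icc 1 N).filter fun n : ℕ => Exc n) := by exact_mod_cast h1
  linarith [h N]

end Pool.Agent.Lib.MP_786755_nt
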