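import Pool.Agent.Lib.MP_786755_nt.Tools

/-! Weyl bounds for the averaged quadratic sums and for the cubic sum. -/

namespace Pool.Agent.Lib.MP_786755_nt

open Finset Pool.Agent.Lib.MP_028aa5_nt

lemma sum_pair_le {X Y c : ℕ} (hc : 1 ≤ c) {E : ℝ} (F : ℕ → ℝ) (hF : ∀ k, 0 ≤ F k)
    (hE : ∀ k, 1 ≤ k → k ≤ c * X * Y → (#k.divisors : ℝ) ≤ E) :
    ∑ x ∈ Icc 1 X, ∑ y ∈ Icc 1 Y, F (c * x * y) ≤ E * ∑ k ∈ Icc 1 (c * X * Y), F k := by
  rw [← sum_product']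
  have h1 : ∀ p ∈ Icc 1 X ×ˢ Icc 1 Y, c * p.1 * p.2 ∈ Icc 1 (c * X * Y) := by
    intro p hp
    simp only [mem_product, mem_Icc] at hp ⊢
    refine ⟨Nat.mul_pos (Nat.mul_pos hc hp.1.1) hp.2.1, ?_⟩
    have := hp.1.2
    have := hp.2.2
    gcongr
  rw [← sum_fiberwise_of_maps_to h1, mul_sum]
  refine sum_le_sum fun k hk => ?_
  rw [sum_congr rfl (g := fun _ => F k) fun p hp => by rw [(mem_filter.1 hp).2], sum_const,
    nsmul_eq_mul]
  rw [mem_Icc] at hk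
  gcongr
  · exact hF k
  refine le_trans ?_ (hE k hk.1 hk.2)
  norm_cast
  refine card_le_card_of_injOn (fun p => p.1) (fun p hp => ?_) fun p hp p' hp' h => ?_
  · have := (mem_filter.1 hp).2
    exact Nat.mem_divisors.2 ⟨⟨c * p.2, by rw [← this]; ring⟩, by omega⟩
  · have e1 := (mem_filter.1 hp).2
    have e2 := (mem_filter.1 hp').2
    have e3 := (mem_Icc.1 (mem_product.1 (mem_filter.1 hp).1).1).1
    simp only at h
    refine Prod.ext h ?_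
    rw [← e2, ← h] at e1
    exact Nat.eq_of_mul_eq_mul_left (Nat.mul_pos hc e3) e1

/-- the quadratic sum -/
noncomputable def Fq (U a : ℕ) (α : ℝ) : ℂ := ∑ u ∈ Ioc U (4 * U), e (α * (6 * a * u ^ 2))

/-- the cubic sum -/
noncomputable def gc (P : ℕ) (α : ℝ) : ℂ := ∑ z ∈ Ioc P (2 * P), e (α * z ^ 3)

theorem far_bound {α E : ℝ} {q A U : ℕ} {r : ℤ} (hq : 1 ≤ q) (hr : IsCoprime r q)
    (hα : |α - r / q| ≤ 1 / (q : ℝ) ^ 2)
    (hE : ∀ k, 1 ≤ k → k ≤ 12 * (2 * A) * (3 * U) → (#k.divisors : ℝ) ≤ E) (hE0 : 0 ≤ E) :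
    ∑ a ∈ Ioc A (2 * A), ‖Fq U a α‖ ^ 2 ≤
      3 * A * U + 4 * E * ((144 * A * U / q + 1) * (9 * U + 4 * q * (1 + Real.log q))) := by
  have h1 : ∀ a ∈ Ioc A (2 * A), ‖Fq U a α‖ ^ 2 ≤
      3 * U + 4 * ∑ h ∈ Icc 1 (3 * U), gm (3 * U) ((12 * a * h : ℕ) * α) := by
    intro a _
    have := vdC (fun u => α * (6 * a * u ^ 2)) (a := U) (b := 4 * U) (N := 3 * U) (by omega)
    refine this.trans ?_
    push_cast
    rw [show (4 : ℝ) * ∑ h ∈ Icc 1 (3 * U), gm (3 * U) (12 * a * h * α) =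
      2 * ∑ h ∈ Icc 1 (3 * U), 2 * gm (3 * U) (12 * a * h * α) by rw [← mul_sum]; ring]
    gcongr with h hh
    refine geom_gm (fun n => α * (6 * a * ((n : ℝ) + h) ^ 2) - α * (6 * a * n ^ 2)) (fun n => ?_)
      (by positivity) ?_
    · push_cast; ring
    · have : ((4 * U - h : ℕ) : ℝ) ≤ (4 * U : ℕ) := by exact_mod_cast Nat.sub_le _ _
      push_cast at this
      linarith
  refine (sum_le_sum h1).trans ?_
  rw [sum_add_distrib, sum_const, Nat.card_Ioc, ← mul_sum, nsmul_eq_mul,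
    show 2 * A - A = A by omega]
  have h2 : ∑ a ∈ Ioc A (2 * A), ∑ h ∈ Icc 1 (3 * U), gm (3 * U) ((12 * a * h : ℕ) * α) ≤
      ∑ a ∈ Icc 1 (2 * A), ∑ h ∈ Icc 1 (3 * U), gm (3 * U) ((12 * a * h : ℕ) * α) :=
    sum_le_sum_of_subset_of_nonneg (fun a ha => by simp only [mem_Ioc, mem_Icc] at ha ⊢; omega)
      fun a _ _ => sum_nonneg fun h _ => gm_nonneg (by positivity) _
  have h3 := sum_pair_le (X := 2 * A) (Y := 3 * U) (c := 12) (by norm_num)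
    (fun k => gm (3 * U) (k * α)) (fun k => gm_nonneg (by positivity) _) hE
  have h4 := vino_sum hq hr hα (Y := 3 * U) (by positivity) (12 * (2 * A) * (3 * U))
  have h5 := mul_le_mul_of_nonneg_left h4 hE0
  have e1 : (2 * ((12 * (2 * A) * (3 * U) : ℕ) : ℝ) / q + 1) *
      (3 * (3 * U) + 4 * q * (1 + Real.log q)) =
      (144 * A * U / q + 1) * (9 * U + 4 * q * (1 + Real.log q)) := by push_cast; ring
  rw [e1] at h5
  nlinarith

theorem weyl_cube {α E : ℝ} {q P : ℕ} {r : ℤ} (hq : 1 ≤ q) (hr : IsCoprime r q)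
    (hα : |α - r / q| ≤ 1 / (q : ℝ) ^ 2)
    (hE : ∀ k, 1 ≤ k → k ≤ 6 * P * P → (#k.divisors : ℝ) ≤ E) (hE0 : 0 ≤ E) :
    ‖gc P α‖ ^ 4 ≤ 10 * (P : ℝ) ^ 3 +
      32 * P * E * ((12 * P ^ 2 / q + 1) * (3 * P + 4 * q * (1 + Real.log q))) := by
  rcases Nat.eq_zero_or_pos P with rfl | hP
  · simp [gc]
  have hP1 : (1 : ℝ) ≤ P := by exact_mod_cast hP
  set T : ℕ → ℝ := fun h => ‖∑ n ∈ Ioc P (2 * P - h),
    e (α * ((n + h : ℕ) : ℝ) ^ 3 - α * (n : ℝ) ^ 3)‖ with hT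
  have h1 : ‖gc P α‖ ^ 2 ≤ P + 2 * ∑ h ∈ Icc 1 P, T h :=
    vdC (fun u => α * (u : ℝ) ^ 3) (a := P) (b := 2 * P) (N := P) (by omega)
  have h2 : ∀ h ∈ Icc 1 P, T h ^ 2 ≤ P + 4 * ∑ k ∈ Icc 1 P, gm P ((6 * h * k : ℕ) * α) := by
    intro h _
    have := vdC (fun n => α * ((n + h : ℕ) : ℝ) ^ 3 - α * (n : ℝ) ^ 3) (a := P) (b := 2 * P - h)
      (N := P) (by omega)
    refine this.trans ?_
    rw [show (4 : ℝ) * ∑ k ∈ Icc 1 P, gm P ((6 * h * k : ℕ) * α) =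
      2 * ∑ k ∈ Icc 1 P, 2 * gm P ((6 * h * k : ℕ) * α) by rw [← mul_sum]; ring]
    gcongr with k hk
    refine geom_gm (fun n => α * ((n + k + h : ℕ) : ℝ) ^ 3 - α * ((n + k : ℕ) : ℝ) ^ 3 -
      (α * ((n + h : ℕ) : ℝ) ^ 3 - α * (n : ℝ) ^ 3)) (fun n => ?_) (by positivity) ?_
    · push_cast; ring
    · have : ((2 * P - h - k : ℕ) : ℝ) ≤ (2 * P : ℕ) := by exact_mod_cast (by omega)
      push_cast at this
      linarith
  have h3 : (∑ h ∈ Icc 1 P, T h) ^ 2 ≤ P * ∑ h ∈ Icc 1 P, T h ^ 2 := by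
    have := sq_sum_le_card_mul_sum_sq (s := Icc 1 P) (f := T)
    simpa using this
  have h4 := sum_le_sum h2
  rw [sum_add_distrib, sum_const, Nat.card_Icc, ← mul_sum, nsmul_eq_mul,
    show P + 1 - 1 = P by omega] at h4
  have h5 := sum_pair_le (X := P) (Y := P) (c := 6) (by norm_num)
    (fun k => gm P (k * α)) (fun k => gm_nonneg (by positivity) _) hE
  have h6 := vino_sum hq hr hα (Y := P) (by positivity) (6 * P * P)
  have h7 := mul_le_mul_of_nonneg_left h6 hE0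
  have e1 : (2 * ((6 * P * P : ℕ) : ℝ) / q + 1) * (3 * P + 4 * q * (1 + Real.log q)) =
      (12 * P ^ 2 / q + 1) * (3 * P + 4 * q * (1 + Real.log q)) := by push_cast; ring
  rw [e1] at h7
  set W := (12 * (P : ℝ) ^ 2 / q + 1) * (3 * P + 4 * q * (1 + Real.log q))
  set S := ∑ h ∈ Icc 1 P, T h
  have hS : 0 ≤ S := sum_nonneg fun h _ => norm_nonneg _
  have h8 : S ^ 2 ≤ P * (P * P + 4 * (E * W)) := by
    refine h3.trans ?_
    gcongr
    linarith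
  calc ‖gc P α‖ ^ 4 = (‖gc P α‖ ^ 2) ^ 2 := by ring
    _ ≤ (P + 2 * S) ^ 2 := by gcongr
    _ ≤ 2 * P ^ 2 + 8 * S ^ 2 := by nlinarith [sq_nonneg (P - 2 * S)]
    _ ≤ 2 * P ^ 3 + 8 * (P * (P * P + 4 * (E * W))) := by
        gcongr
        norm_num
    _ = _ := by ring

end Pool.Agent.Lib.MP_786755_nt
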