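import Pool.Agent.Lib.MP_786755_nt.Piece
import Pool.Agent.Lib.MP_786755_nt.WeylB

/-! Major arc approximations and decay of the generating functions near zero. -/

namespace Pool.Agent.Lib.MP_786755_nt

open Finset Pool.Agent.Lib.MP_028aa5_nt

lemma decay_aux {S L x c : ℝ} (hx : 0 ≤ x) (hL : 0 ≤ L) (h1 : S ≤ L) (h2 : 0 < x → S ≤ c / x)
    (hc : c ≤ L) : S ≤ 2 * L / (1 + x) := by
  rw [le_div_iff₀ (by positivity)]
  rcases le_or_gt x 1 with h | h
  · nlinarith
  · have h3 := h2 (by linarith)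
    rw [le_div_iff₀ (by linarith)] at h3
    nlinarith

lemma norm_Fq_le (U a : ℕ) (α : ℝ) : ‖Fq U a α‖ ≤ 3 * U := by
  refine (norm_sum_e_le _ fun u => α * (6 * a * u ^ 2)).trans ?_
  rw [Nat.card_Ioc, show 4 * U - U = 3 * U by omega]
  simp

lemma norm_gc_le (P : ℕ) (α : ℝ) : ‖gc P α‖ ≤ P := by
  refine (norm_sum_e_le _ fun u => α * u ^ 3).trans ?_
  rw [Nat.card_Ioc, show 2 * P - P = P by omega]

theorem Fq_decay {A U a : ℕ} {β : ℝ} (hA : 1 ≤ A) (hU : 1 ≤ U) (ha : a ∈ Ioc A (2 * A))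
    (hβ : |β| * (216 * A * U) ≤ 1) : ‖Fq U a β‖ ≤ 6 * U / (1 + A * U ^ 2 * |β|) := by
  have hA1 : (1 : ℝ) ≤ A := by exact_mod_cast hA
  have hU1 : (1 : ℝ) ≤ U := by exact_mod_cast hU
  have ha1 : (A : ℝ) ≤ a := by exact_mod_cast (mem_Ioc.1 ha).1.le
  have ha2 : (a : ℝ) ≤ 2 * A := by exact_mod_cast (mem_Ioc.1 ha).2
  have := decay_aux (x := A * U ^ 2 * |β|) (c := U / 12) (by positivity) (by positivity)
    (norm_Fq_le U a β) (fun hx => ?_) (by linarith)
  · rwa [show 2 * (3 * (U : ℝ)) = 6 * U by ring] at this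
  have hβ0 : β ≠ 0 := fun h => by simp [h] at hx
  have hb := abs_pos.2 hβ0
  refine (KL' (fun n => 6 * a * (n : ℝ) ^ 2) (l := 12 * A * U) (by positivity) hβ0
    (fun n h h' => ?_) fun n _ _ => ?_).trans (le_of_eq ?_)
  · have h1 : (U : ℝ) ≤ n := by exact_mod_cast h.le
    have h2 : (n : ℝ) ≤ 4 * U := by exact_mod_cast h'
    push_cast
    have e1 : 6 * (a : ℝ) * (n + 1) ^ 2 - 6 * a * n ^ 2 = 6 * (a * (2 * n + 1)) := by ring
    rw [e1]
    constructor
    · have : (A : ℝ) * (2 * U) ≤ a * (2 * n + 1) := by gcongr; linarith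
      linarith
    · have : (a : ℝ) * (2 * n + 1) ≤ 2 * A * (9 * U) := by gcongr; linarith
      nlinarith
  · push_cast
    nlinarith [(by positivity : (0 : ℝ) ≤ a)]
  · field_simp

theorem gc_decay {P : ℕ} {β : ℝ} (hP : 1 ≤ P) (hβ : |β| * (38 * P ^ 2) ≤ 1) :
    ‖gc P β‖ ≤ 2 * P / (1 + P ^ 3 * |β|) := by
  have hP1 : (1 : ℝ) ≤ P := by exact_mod_cast hP
  refine decay_aux (c := P / 3) (by positivity) (by positivity) (norm_gc_le P β) (fun hx => ?_)
    (by linarith)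
  have hβ0 : β ≠ 0 := fun h => by simp [h] at hx
  have hb := abs_pos.2 hβ0
  refine (KL' (fun n => (n : ℝ) ^ 3) (l := 3 * P ^ 2) (by positivity) hβ0
    (fun n h h' => ?_) fun n _ _ => ?_).trans (le_of_eq ?_)
  · have h1 : (P : ℝ) ≤ n := by exact_mod_cast h.le
    have h2 : (n : ℝ) ≤ 2 * P := by exact_mod_cast h'
    push_cast
    have e1 : ((n : ℝ) + 1) ^ 3 - n ^ 3 = 3 * n ^ 2 + 3 * n + 1 := by ring
    rw [e1]
    constructor
    · nlinarith
    · have : 3 * (n : ℝ) ^ 2 + 3 * n + 1 ≤ 19 * P ^ 2 := by nlinarith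
      nlinarith
  · push_cast
    nlinarith [(by positivity : (0 : ℝ) ≤ n)]
  · field_simp

lemma fourier_inv {q : ℕ} (hq : 0 < q) {f : ℤ → ℂ} (hf : Per q f) (u : ℤ) :
    ∑ t ∈ range q, (∑ x ∈ range q, f x * ec q (t * x)) * ec q (-(t * u)) = q * f u := by
  simp only [sum_mul]
  rw [sum_comm, ← sum_shift (f := fun x => ∑ t ∈ range q, f x * ec q (t * x) * ec q (-(t * u)))
    (fun x y h => by simp only [hf x y h, ec_congr (h.mul_left _)]) u]
  have h1 : ∀ x ∈ range q, ∑ t ∈ range q, f (x + u) * ec q (t * (x + u)) * ec q (-(t * u)) =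
      f (x + u) * if (q : ℤ) ∣ (x : ℤ) then (q : ℂ) else 0 := by
    intro x _
    rw [← sum_ec hq, mul_sum]
    refine sum_congr rfl fun t _ => ?_
    rw [mul_assoc, ← ec_add]
    congr 2; ring
  rw [sum_congr rfl h1, sum_eq_single 0]
  · simp [mul_comm]
  · intro x hx h0
    rw [if_neg, mul_zero]
    intro h
    have := Nat.le_of_dvd (by omega) (Int.natCast_dvd_natCast.1 h)
    have := mem_range.1 hx
    omega
  · intro h; exact absurd (mem_range.2 hq) h

lemma sum_inv_min_le (q : ℕ) :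
    ∑ t ∈ (range q).erase 0, (1 / t + 1 / (q - t) : ℝ) ≤ 2 * (1 + Real.log q) := by
  have h1 : ∑ t ∈ (range q).erase 0, (1 / t : ℝ) ≤ 1 + Real.log q :=
    (sum_le_sum_of_subset_of_nonneg (fun t ht => by
      simp only [mem_erase, mem_range, mem_Icc] at ht ⊢; omega) fun _ _ _ => by positivity).trans
      (sum_inv_le_log q)
  have h2 : ∑ t ∈ (range q).erase 0, (1 / (q - t) : ℝ) = ∑ t ∈ (range q).erase 0, (1 / t : ℝ) := by
    refine sum_nbij' (fun t => q - t) (fun t => q - t) ?_ ?_ ?_ ?_ ?_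
    all_goals
      intro t ht
      simp only [mem_erase, mem_range] at ht ⊢
    · omega
    · omega
    · omega
    · omega
    · rw [Nat.cast_sub ht.2.le]
  rw [sum_add_distrib, h2]
  linarith

theorem Fq_approx {A U a q : ℕ} {r : ℤ} {β : ℝ} (hq : 0 < q) (hr : IsCoprime r q) (hU : 1 ≤ U)
    (ha : a ≤ 2 * A) (hβ : |β| * (216 * A * U * q) ≤ 1) :
    ‖Fq U a (r / q + β) - s2 q (6 * a * r) * Fq U a β‖ ^ 2 ≤
      192 * (1 + Real.log q) ^ 2 * (q * Nat.gcd a q) := by
  have hq0 : (0 : ℝ) < q := by exact_mod_cast hq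
  have hqc : (q : ℂ) ≠ 0 := by exact_mod_cast hq.ne'
  have hU1 : (1 : ℝ) ≤ U := by exact_mod_cast hU
  have ha2 : (a : ℝ) ≤ 2 * A := by exact_mod_cast ha
  set S : ℕ → ℂ := fun t => ∑ x ∈ range q, ec q (6 * a * r * x ^ 2) * ec q (t * x) with hS
  set W : ℕ → ℂ := fun t => ∑ u ∈ Ioc U (4 * U),
    e (β * (6 * a * u ^ 2) + (1 - t / q) * u) with hW
  have h1 : Fq U a (r / q + β) = (∑ t ∈ range q, S t * W t) / q := by
    simp only [hW, mul_sum]
    rw [sum_comm, sum_div]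
    refine sum_congr rfl fun u _ => ?_
    have h2 := fourier_inv hq (f := fun x => ec q (6 * a * r * x ^ 2))
      (fun x y h => ec_congr ((h.pow 2).mul_left _)) u
    have h3 : ∀ t : ℕ, e (β * (6 * a * u ^ 2) + (1 - t / q) * u) =
        ec q (-(t * u)) * e (β * (6 * a * u ^ 2)) := by
      intro t
      rw [ec, ← e_add, ← e_sub_int _ (u : ℤ)]
      congr 1
      push_cast; ring
    rw [sum_congr rfl (g := fun t => S t * ec q (-(t * u)) * e (β * (6 * a * u ^ 2))) fun t _ => by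
      rw [h3, mul_assoc (S t)], ← sum_mul, h2, ec, mul_assoc (q : ℂ), mul_div_cancel_left₀ _ hqc,
      ← e_add]
    congr 1
    push_cast; ring
  have h2 : s2 q (6 * a * r) * Fq U a β = S 0 * W 0 / q := by
    have : W 0 = Fq U a β := sum_congr rfl fun u _ => by
      rw [← e_sub_int _ (u : ℤ)]
      congr 1
      push_cast; ring
    rw [this, s2, av]
    simp only [hS, Nat.cast_zero, zero_mul, ec_zero, mul_one]
    ring
  set G : ℝ := √(q * (12 * Nat.gcd a q)) with hG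
  have hSle : ∀ t, ‖S t‖ ≤ G := by
    intro t
    refine Real.le_sqrt_of_sq_le ?_
    simp only [hS, ← ec_add]
    refine (quad_bound hq _ _).trans ?_
    gcongr
    exact_mod_cast gcd_twelve_le hq hr a
  have hWle : ∀ t ∈ (range q).erase 0, ‖W t‖ ≤ 2 * q * (1 / t + 1 / (q - t)) := by
    intro t ht
    simp only [mem_erase, mem_range] at ht
    have t1 : (1 : ℝ) ≤ t := by exact_mod_cast Nat.one_le_iff_ne_zero.2 ht.1
    have t2 : (t : ℝ) + 1 ≤ q := by exact_mod_cast ht.2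
    have t3 : 0 < (q : ℝ) - t := by linarith
    set l : ℝ := min (t : ℝ) (q - t) / (2 * q) with hl
    have hm : 0 < min (t : ℝ) (q - t) := lt_min (by linarith) t3
    refine (KL (fun u => β * (6 * a * (u : ℝ) ^ 2) + (1 - t / q) * u) (l := l) (by positivity)
      (fun n h h' => ?_) ?_).trans ?_
    · have n2 : (n : ℝ) ≤ 4 * U := by exact_mod_cast h'
      have e1 : β * (6 * a * ((n + 1 : ℕ) : ℝ) ^ 2) + (1 - t / q) * ((n + 1 : ℕ) : ℝ) -
          (β * (6 * a * (n : ℝ) ^ 2) + (1 - t / q) * n) =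
          β * (6 * (a * (2 * n + 1))) + (1 - t / q) := by push_cast; ring
      have e2 : |β * (6 * (a * (2 * n + 1)))| ≤ 1 / (2 * q) := by
        rw [abs_mul, abs_of_nonneg (by positivity : (0 : ℝ) ≤ 6 * (a * (2 * n + 1))),
          le_div_iff₀ (by positivity)]
        have : (a : ℝ) * (2 * n + 1) ≤ 2 * A * (9 * U) := by gcongr; linarith
        calc |β| * (6 * (a * (2 * n + 1))) * (2 * q) ≤ |β| * (6 * (2 * A * (9 * U))) * (2 * q) := by
              gcongr
          _ = |β| * (216 * A * U * q) := by ring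
          _ ≤ 1 := hβ
      rw [e1]
      have e3 := abs_le.1 e2
      have e4 : l ≤ 1 - t / q - 1 / (2 * q) := by
        rw [hl, div_le_iff₀ (by positivity)]
        have := min_le_right (t : ℝ) (q - t)
        have e5 : (1 - t / q - 1 / (2 * q) : ℝ) * (2 * q) = 2 * (q - t) - 1 := by field_simp
        linarith
      have e6 : l ≤ t / q - 1 / (2 * q) := by
        rw [hl, div_le_iff₀ (by positivity)]
        have := min_le_left (t : ℝ) (q - t)
        have e5 : (t / q - 1 / (2 * q) : ℝ) * (2 * q) = 2 * t - 1 := by field_simp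
        linarith
      constructor <;> linarith [e3.1, e3.2]
    · have ha0 : (0 : ℝ) ≤ a := by positivity
      rcases le_total 0 β with hb | hb
      · refine Or.inl fun n _ _ => ?_
        push_cast
        nlinarith [mul_nonneg hb ha0]
      · refine Or.inr fun n _ _ => ?_
        push_cast
        nlinarith [mul_nonneg (neg_nonneg.2 hb) ha0]
    · rw [hl, one_div_div, div_eq_mul_one_div]
      gcongr
      rcases min_choice (t : ℝ) (q - t) with h | h <;> rw [h]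
      · have : 0 ≤ 1 / ((q : ℝ) - t) := by positivity
        linarith
      · have : 0 ≤ 1 / (t : ℝ) := by positivity
        linarith
  have h3 : ‖Fq U a (r / q + β) - s2 q (6 * a * r) * Fq U a β‖ ≤ 4 * (1 + Real.log q) * G := by
    rw [h1, h2, ← sub_div, ← add_sum_erase _ _ (mem_range.2 hq), add_sub_cancel_left, norm_div,
      Complex.norm_natCast, div_le_iff₀ hq0]
    refine (norm_sum_le _ _).trans ?_
    calc ∑ t ∈ (range q).erase 0, ‖S t * W t‖
        ≤ ∑ t ∈ (range q).erase 0, G * (2 * q * (1 / t + 1 / (q - t))) := by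
          refine sum_le_sum fun t ht => ?_
          rw [norm_mul]
          exact mul_le_mul (hSle t) (hWle t ht) (norm_nonneg _) (Real.sqrt_nonneg _)
      _ ≤ G * (2 * q * (2 * (1 + Real.log q))) := by
          rw [← mul_sum, ← mul_sum]
          gcongr
          exact sum_inv_min_le q
      _ = _ := by ring
  refine (pow_le_pow_left₀ (norm_nonneg _) h3 2).trans (le_of_eq ?_)
  rw [mul_pow, hG, Real.sq_sqrt (by positivity)]
  ring

lemma sum_dvd_Ioc {p : ℕ} (hp : 0 < p) (y : ℕ) (F : ℤ → ℂ) :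
    ∑ z ∈ Ioc 0 y, (if (p : ℤ) ∣ (z : ℤ) then F z else 0) = ∑ x ∈ Ioc 0 (y / p), F (p * x) := by
  rw [← sum_filter]
  symm
  refine sum_bij (fun x _ => p * x) (fun x hx => ?_) (fun y _ y' _ h => ?_) (fun z hz => ?_)
    fun y _ => by push_cast; rfl
  · obtain ⟨h1, h2⟩ := mem_Ioc.1 hx
    rw [Nat.le_div_iff_mul_le hp, mul_comm] at h2
    exact mem_filter.2 ⟨mem_Ioc.2 ⟨Nat.mul_pos hp h1, h2⟩, by simp⟩
  · exact Nat.eq_of_mul_eq_mul_left hp h
  · obtain ⟨h1, h2⟩ := mem_filter.1 hz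
    obtain ⟨x, rfl⟩ := Int.natCast_dvd_natCast.1 h2
    obtain ⟨h3, h4⟩ := mem_Ioc.1 h1
    refine ⟨x, mem_Ioc.2 ⟨Nat.pos_of_mul_pos_left h3, ?_⟩, rfl⟩
    rw [Nat.le_div_iff_mul_le hp, mul_comm]
    exact h4

lemma disc {q : ℕ} (hq : 0 < q) (S : Finset ℕ) (hS : ∀ p ∈ S, p.Prime ∧ ¬p ∣ q) {B : ℝ} :
    ∀ f : ℤ → ℂ, Per q f → (∀ x, ‖f x‖ ≤ B) → ∀ y : ℕ,
      ‖∑ z ∈ Ioc 0 y, f z * ∏ p ∈ S, (wp p z : ℂ) - y * av q f‖ ≤ 5 ^ #S * (2 * q * B) := by
  induction S using Finset.induction_on with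
  | empty => intro f hf hB y; simpa using norm_sum_sub_av hq hf hB y
  | insert p S hpS ih =>
    intro f hf hB y
    have hB0 : 0 ≤ B := le_trans (norm_nonneg _) (hB 0)
    obtain ⟨hp, hpq⟩ := hS p (mem_insert_self _ _)
    have hS' : ∀ p ∈ S, p.Prime ∧ ¬p ∣ q := fun p hp => hS p (mem_insert_of_mem hp)
    have hp2 : (2 : ℝ) ≤ p := by exact_mod_cast hp.two_le
    have hcop : IsCoprime (p : ℤ) q := Nat.isCoprime_iff_coprime.2 (hp.coprime_iff_not_dvd.2 hpq)
    have i1 := ih hS' f hf hB y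
    have i2 := ih hS' (fun x => f (p * x)) (fun x y h => hf _ _ (h.mul_left _)) (fun x => hB _) (y / p)
    have e1 : av q (fun x => f (p * x)) = av q f := by simpa using av_affine hf hcop 0
    have e2 : ∀ x : ℤ, ∏ l ∈ S, (wp l (p * x) : ℂ) = ∏ l ∈ S, (wp l x : ℂ) := by
      refine fun x => prod_congr rfl fun l hl => ?_
      have hl' := (hS' l hl).1
      have : (l : ℤ) ∣ p * x ↔ (l : ℤ) ∣ x := by
        refine ⟨fun h => ((Nat.prime_iff_prime_int.1 hl').dvd_or_dvd h).resolve_left fun h => ?_,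
          fun h => h.mul_left _⟩
        rw [(Nat.prime_dvd_prime_iff_eq hl' hp).1 (Int.natCast_dvd_natCast.1 h)] at hl
        exact hpS hl
      simp only [wp, this]
    have e3 := sum_dvd_Ioc hp.pos y fun z => f z * ∏ l ∈ S, (wp l z : ℂ)
    simp only [e2] at e3
    rw [e1, ← e3] at i2
    set μ := av q f
    have hμ : ‖μ‖ ≤ B := norm_av_le hB0 hB
    set c : ℝ := p / (p - 1) with hc
    have hc0 : 0 ≤ c := div_nonneg (by linarith) (by linarith)
    have hc2 : c ≤ 2 := by rw [hc, div_le_iff₀ (by linarith)]; linarith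
    set ρ : ℝ := ((y % p : ℕ) : ℝ) / (p - 1) with hρ
    have hρ0 : 0 ≤ ρ := div_nonneg (by positivity) (by linarith)
    have hρ1 : ρ ≤ 1 := by
      rw [hρ, div_le_one (by linarith)]
      have : ((y % p : ℕ) : ℝ) + 1 ≤ p := by exact_mod_cast Nat.mod_lt y hp.pos
      linarith
    have e4 : ∑ z ∈ Ioc 0 y, f z * ∏ l ∈ insert p S, (wp l z : ℂ) =
        c * (∑ z ∈ Ioc 0 y, f z * ∏ l ∈ S, (wp l z : ℂ) -
          ∑ z ∈ Ioc 0 y, if (p : ℤ) ∣ (z : ℤ) then f z * ∏ l ∈ S, (wp l z : ℂ) else 0) := by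
      rw [← sum_sub_distrib, mul_sum]
      refine sum_congr rfl fun z _ => ?_
      rw [prod_insert hpS, wp]
      split_ifs
      · simp
      · rw [← hc]; ring
    have e5 : (c : ℂ) * (y - (y / p : ℕ)) = y + ρ := by
      have : c * (y - (y / p : ℕ)) = y + ρ := by
        have h0 : (y : ℝ) = p * (y / p : ℕ) + (y % p : ℕ) := by
          exact_mod_cast (Nat.div_add_mod y p).symm
        have h1 : (p : ℝ) - 1 ≠ 0 := by linarith
        rw [hc, hρ]
        field_simp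
        linarith
      exact_mod_cast this
    set X := ∑ z ∈ Ioc 0 y, f z * ∏ l ∈ S, (wp l z : ℂ)
    set Y := ∑ z ∈ Ioc 0 y, if (p : ℤ) ∣ (z : ℤ) then f z * ∏ l ∈ S, (wp l z : ℂ) else 0
    have e6 : c * (X - Y) - y * μ = c * ((X - y * μ) - (Y - (y / p : ℕ) * μ)) + ρ * μ := by
      linear_combination μ * e5
    rw [e4, e6, card_insert_of_notMem hpS, pow_succ]
    set D := 5 ^ #S * (2 * q * B) with hD
    have hD1 : B ≤ D := by
      have h1 : (1 : ℝ) ≤ 5 ^ #S := one_le_pow₀ (by norm_num)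
      have h2 : (1 : ℝ) ≤ q := by exact_mod_cast hq
      have h3 : B ≤ 2 * q * B := by nlinarith
      nlinarith
    have n1 : ‖(c : ℂ) * ((X - y * μ) - (Y - (y / p : ℕ) * μ))‖ ≤ 2 * (D + D) := by
      rw [norm_mul, Complex.norm_real, Real.norm_of_nonneg hc0]
      exact mul_le_mul hc2 ((norm_sub_le _ _).trans (add_le_add i1 i2)) (norm_nonneg _) (by norm_num)
    have n2 : ‖(ρ : ℂ) * μ‖ ≤ B := by
      rw [norm_mul, Complex.norm_real, Real.norm_of_nonneg hρ0]
      nlinarith [norm_nonneg μ]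
    refine (norm_add_le _ _).trans ?_
    rw [show 5 ^ #S * 5 * (2 * q * B) = 5 * D by rw [hD]; ring]
    linarith

lemma cube_approx {q P : ℕ} (hq : 0 < q) (hP : 1 ≤ P) (S : Finset ℕ)
    (hS : ∀ p ∈ S, p.Prime ∧ ¬p ∣ q) {B : ℝ} {f : ℤ → ℂ} (hf : Per q f) (hB : ∀ x, ‖f x‖ ≤ B)
    (β : ℝ) :
    ‖∑ z ∈ Ioc P (2 * P), f z * (∏ p ∈ S, (wp p z : ℂ)) * e (β * z ^ 3) - av q f * gc P β‖ ≤
      5 ^ #S * (4 * q * B) * (1 + 133 * (P ^ 3 * |β|)) := by
  have hP1 : (1 : ℝ) ≤ P := by exact_mod_cast hP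
  have h1 := abel_one (fun z : ℕ => f z * ∏ p ∈ S, (wp p z : ℂ) - av q f)
    (fun z : ℕ => e (β * z ^ 3)) (a := P) (b := 2 * P) (by omega) (D := 5 ^ #S * (4 * q * B))
    (V := 1 + 133 * (P ^ 3 * |β|)) (fun x h _ => ?_) ?_
  · rw [gc, mul_sum, ← sum_sub_distrib]
    simpa only [sub_mul] using h1
  · have e1 : ∑ z ∈ Ioc P x, (f z * ∏ p ∈ S, (wp p z : ℂ) - av q f) =
        (∑ z ∈ Ioc 0 x, f z * ∏ p ∈ S, (wp p z : ℂ) - x * av q f) -
        (∑ z ∈ Ioc 0 P, f z * ∏ p ∈ S, (wp p z : ℂ) - P * av q f) := by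
      rw [← sum_Ioc_consecutive _ (Nat.zero_le P) h, sum_sub_distrib, sum_const, Nat.card_Ioc,
        nsmul_eq_mul, Nat.cast_sub h]
      ring
    rw [e1]
    refine (norm_sub_le _ _).trans ?_
    have := disc hq S hS f hf hB x
    have := disc hq S hS f hf hB P
    linarith
  · rw [norm_e]
    gcongr
    refine (sum_le_card_nsmul _ _ (7 * (19 * P ^ 2 * |β|)) fun n hn => ?_).trans (le_of_eq ?_)
    · refine (norm_e_sub_le _ _).trans ?_
      have h2 : (n : ℝ) ≤ 2 * P := by exact_mod_cast (mem_Ico.1 hn).2.le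
      have h3 : (0 : ℝ) ≤ n := by positivity
      push_cast
      rw [show β * ((n : ℝ) + 1) ^ 3 - β * n ^ 3 = (3 * n ^ 2 + 3 * n + 1) * β by ring, abs_mul,
        abs_of_nonneg (by positivity)]
      gcongr
      nlinarith
    · rw [Nat.card_Ico, show 2 * P - P = P by omega, nsmul_eq_mul]; ring

/-- normalised indicator of the `z` coprime to `6 a` -/
noncomputable def wt (a z : ℕ) : ℝ := wq (6 * a) (6 * a) z

/-- the cubic sum over `z` coprime to `6 a` -/
noncomputable def ga (P a : ℕ) (α : ℝ) : ℂ := ∑ z ∈ Ioc P (2 * P), wt a z * e (α * z ^ 3)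

lemma wt_nonneg (a z : ℕ) : 0 ≤ wt a z := wq_nonneg _ _ _

lemma wt_le {a : ℕ} (ha : a ≠ 0) {E : ℝ} (hE : (#(6 * a).divisors : ℝ) ≤ E) (z : ℕ) :
    wt a z ≤ E := by
  have := pow_omega_le (q := 6 * a) (by omega) hE (c := 2) (k := 1) (by norm_num)
  exact (wq_le _ _ _).trans (by simpa using this)

lemma e_add_div (q : ℕ) (r m : ℤ) (β : ℝ) : e ((r / q + β) * m) = ec q (r * m) * e (β * m) := by
  rw [ec, ← e_add]
  congr 1
  push_cast; ring

theorem gc_approx {q P : ℕ} (hq : 0 < q) (hP : 1 ≤ P) (r : ℤ) (β : ℝ) :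
    ‖gc P (r / q + β) - s3 q r 1 * gc P β‖ ≤ 4 * q * (1 + 133 * (P ^ 3 * |β|)) := by
  have h := cube_approx hq hP ∅ (by simp) (B := 1) (per_cube q r 1) (fun x => by simp [wq_one]) β
  simp only [prod_empty, mul_one, card_empty, pow_zero, one_mul, wq_one, Complex.ofReal_one] at h
  have e1 : gc P (r / q + β) = ∑ z ∈ Ioc P (2 * P), ec q (r * z ^ 3) * e (β * z ^ 3) :=
    sum_congr rfl fun z _ => by
      have := e_add_div q r ((z : ℤ) ^ 3) β
      push_cast at this
      exact this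
  rw [e1, s3]
  simpa only [wq_one, Complex.ofReal_one, one_mul] using h

theorem ga_approx {q P a : ℕ} (hq : 0 < q) (hP : 1 ≤ P) (ha : a ≠ 0) {E : ℝ}
    (hE : (#q.divisors : ℝ) ≤ E) (hE' : (#(6 * a).divisors : ℝ) ≤ E) (r : ℤ) (β : ℝ) :
    ‖ga P a (r / q + β) - s3 q r (6 * a) * gc P β‖ ≤
      E ^ 4 * (4 * q) * (1 + 133 * (P ^ 3 * |β|)) := by
  have hE1 := one_le_of_div hq.ne' hE
  have h := cube_approx hq hP ((6 * a).primeFactors \ q.primeFactors) (fun p hp => by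
      obtain ⟨h1, h2⟩ := mem_sdiff.1 hp
      have h3 := Nat.prime_of_mem_primeFactors h1
      exact ⟨h3, fun h => h2 (Nat.mem_primeFactors.2 ⟨h3, h, hq.ne'⟩)⟩)
    (B := E) (per_cube q r (6 * a)) (fun x => by
      rw [norm_mul, norm_ec, mul_one, Complex.norm_real, Real.norm_of_nonneg (wq_nonneg _ _ _)]
      have := pow_omega_le hq.ne' hE (c := 2) (k := 1) (by norm_num)
      exact (wq_le _ _ _).trans (by simpa using this)) β
  have e0 : ∀ z : ℕ, wt a z =
      wq q (6 * a) z * ∏ p ∈ (6 * a).primeFactors \ q.primeFactors, wp p z := by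
    intro z
    have e1 : wt a z = ∏ p ∈ (6 * a).primeFactors, wp p z := by
      unfold wt wq
      exact prod_congr rfl fun p hp => if_pos (by exact_mod_cast Nat.dvd_of_mem_primeFactors hp)
    have e2 : wq q (6 * a) z = ∏ p ∈ (6 * a).primeFactors ∩ q.primeFactors, wp p z := by
      rw [wq, ← prod_filter]
      refine prod_congr ?_ fun _ _ => rfl
      ext p
      simp only [mem_filter, mem_inter, Nat.mem_primeFactors]
      constructor
      · exact fun h => ⟨⟨h.1.1, by exact_mod_cast h.2, by omega⟩, h.1⟩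
      · exact fun h => ⟨h.2, by exact_mod_cast h.1.2.1⟩
    rw [e1, e2, prod_inter_mul_prod_sdiff]
  have e1 : ga P a (r / q + β) = ∑ z ∈ Ioc P (2 * P), wq q (6 * a) z * ec q (r * z ^ 3) *
      (∏ p ∈ (6 * a).primeFactors \ q.primeFactors, (wp p z : ℂ)) * e (β * z ^ 3) := by
    refine sum_congr rfl fun z _ => ?_
    have := e_add_div q r ((z : ℤ) ^ 3) β
    push_cast at this
    rw [this, e0]
    push_cast; ring
  rw [e1, s3]
  refine h.trans ?_
  have h5 : (5 : ℝ) ^ #((6 * a).primeFactors \ q.primeFactors) ≤ E ^ 3 := by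
    refine le_trans (pow_le_pow_right₀ (by norm_num) (card_le_card sdiff_subset)) ?_
    exact_mod_cast pow_omega_le (q := 6 * a) (by omega) hE' (c := 5) (k := 3) (by norm_num)
  gcongr ?_ * _
  calc _ ≤ E ^ 3 * (4 * q * E) := by gcongr
    _ = _ := by ring

end Pool.Agent.Lib.MP_786755_nt
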