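import Pool.Agent.Lib.MP_786755_nt.Pell

/-! Assembly over the rationals. -/

namespace Pool.Agent.Lib.MP_786755_nt

open Polynomial

lemma four_const {R : Type} [CommRing R] [IsDomain R] [CharZero R] (x y : R[X])
    (h1 : (x + y).natDegree = 0) (h2 : (x - y).natDegree = 0) :
    x.natDegree = 0 ∧ y.natDegree = 0 := by
  have two : (2 : R) ≠ 0 := two_ne_zero
  constructor
  · have e : C 2 * x = (x + y) + (x - y) := by rw [map_ofNat]; ring
    have := natDegree_add_le (x + y) (x - y)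
    rw [← e, natDegree_C_mul two] at this
    omega
  · have e : C 2 * y = (x + y) - (x - y) := by rw [map_ofNat]; ring
    have := natDegree_sub_le (x + y) (x - y)
    rw [← e, natDegree_C_mul two] at this
    omega

lemma core_int (x y z w : ℤ[X]) (M r α β : ℤ) (hr : r % 9 = 4)
    (h : x ^ 3 + y ^ 3 + z ^ 3 + w ^ 3 = C M * X + C r)
    (hx : ∀ i, 0 < i → (3 : ℤ) ∣ x.coeff i) (hy : ∀ i, 0 < i → (3 : ℤ) ∣ y.coeff i)
    (hz : ∀ i, 0 < i → (3 : ℤ) ∣ z.coeff i) (hw : ∀ i, 0 < i → (3 : ℤ) ∣ w.coeff i)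
    (hab : ¬ (3 : ℤ) ∣ α - β) (hc : (C α * (x + y) + C β * (z + w)).natDegree = 0) :
    x.natDegree = 0 ∧ y.natDegree = 0 ∧ z.natDegree = 0 ∧ w.natDegree = 0 := by
  have h0 := congrArg (fun f => coeff f 0) h
  simp only [coeff_add, coeff_zero_eq_eval_zero, eval_pow, eval_mul, eval_X, eval_C, eval_add,
    mul_zero, zero_add] at h0
  simp only [← coeff_zero_eq_eval_zero] at h0
  obtain ⟨c1, c2, c3, c4⟩ := classes _ _ _ _ r h0 hr
  set a0 := x.coeff 0 + y.coeff 0 with ha0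
  set b0 := z.coeff 0 + w.coeff 0 with hb0
  set a := x + y - C a0 with ha
  set b := z + w - C b0 with hb
  have dv : ∀ (f g : ℤ[X]), (∀ i, 0 < i → (3 : ℤ) ∣ f.coeff i) →
      (∀ i, 0 < i → (3 : ℤ) ∣ g.coeff i) →
      ∀ i, (3 : ℤ) ∣ (f + g - C (f.coeff 0 + g.coeff 0)).coeff i := by
    intro f g hf hg i
    rcases Nat.eq_zero_or_pos i with rfl | hi
    · simp
    · rw [coeff_sub, coeff_add, coeff_C, if_neg hi.ne', sub_zero]
      exact dvd_add (hf i hi) (hg i hi)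
  obtain ⟨s, hs⟩ : ∃ s, 4 * r = a0 ^ 3 + b0 ^ 3 + 9 * s := by
    obtain ⟨p, hp⟩ : ∃ p, a0 = 3 * p + 2 := ⟨a0 / 3, by omega⟩
    obtain ⟨q, hq⟩ : ∃ q, b0 = 3 * q + 2 := ⟨b0 / 3, by omega⟩
    obtain ⟨t, ht⟩ : ∃ t, r = 9 * t + 4 := ⟨r / 9, by omega⟩
    exact ⟨4 * t - (3 * p ^ 3 + 6 * p ^ 2 + 4 * p) - (3 * q ^ 3 + 6 * q ^ 2 + 4 * q),
      by rw [hp, hq, ht]; ring⟩
  have main : (C a0 + a) ^ 3 + (C b0 + b) ^ 3 +
      3 * ((C a0 + a) * (x - y) ^ 2 + (C b0 + b) * (z - w) ^ 2) =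
      C (4 * M) * X + C (a0 ^ 3 + b0 ^ 3 + 9 * s) := by
    rw [← hs, ha, hb, map_mul, map_mul, map_ofNat]
    linear_combination 4 * h
  have m1 : ∀ t : ℤ, t % 3 = 2 → (t : ZMod 3) = -1 := by
    intro t ht
    have := (ZMod.intCast_zmod_eq_zero_iff_dvd (t + 1) 3).mpr (by omega)
    push_cast at this
    linear_combination this
  have hz0 : a = 0 ∧ b = 0 := by
    by_contra hne
    obtain ⟨j, c, A, B, hj, hcc, hA, hB, hAB⟩ := first_radius a b (by tauto) (by simp [ha, ha0])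
      (by simp [hb, hb0]) (dv x y hx hy) (dv z w hz hw)
    have e1 := key a0 b0 _ s a b _ _ j c A B hj hcc hA hB (m1 _ (by omega)) (m1 _ (by omega)) main
    have e2 : C α * a + C β * b = 0 := by
      have e3 := eq_C_of_natDegree_eq_zero hc
      simp only [coeff_add, coeff_C_mul, map_add, map_mul] at e3
      rw [ha, hb, ha0, hb0, map_add, map_add]
      linear_combination e3
    have e4 := (hA.cmul α).add (hB.cmul β)
    rw [e2] at e4
    have e5 := e4.uniq (by omega) hcc.pos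
    have e6 : C ((α - β : ℤ) : ZMod 3) * A = 0 := by
      push_cast
      rw [map_sub]
      linear_combination e5 - C (β : ZMod 3) * e1
    have e7 : A = 0 := (mul_eq_zero.mp e6).resolve_left fun h =>
      hab ((ZMod.intCast_zmod_eq_zero_iff_dvd _ 3).mp (C_eq_zero.mp h))
    rw [e7, zero_add] at e1
    tauto
  obtain ⟨a1, b1⟩ := hz0
  rw [a1, b1, add_zero, add_zero] at main
  obtain ⟨k1, k2⟩ := const_uv a0 b0 (x - y) (z - w) (C (4 * M) * X + C (9 * s))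
    natDegree_linear_le (by omega) (by omega)
    (by simp only [map_add, map_pow] at main; linear_combination main)
  have k3 : (x + y).natDegree = 0 := by rw [sub_eq_zero.mp a1, natDegree_C]
  have k4 : (z + w).natDegree = 0 := by rw [sub_eq_zero.mp b1, natDegree_C]
  exact ⟨(four_const x y k3 k1).1, (four_const x y k3 k1).2, (four_const z w k4 k2).1,
    (four_const z w k4 k2).2⟩

lemma lift (P : ℚ[X]) (b : ℤ) (hb : ∀ j, ∃ n : ℤ, b * P.coeff j = n)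
    (h0 : ∃ n : ℤ, P.eval 0 = n) : ∃ x : ℤ[X], x.map (Int.castRingHom ℚ) =
      P.comp (C (3 * b : ℚ) * X) ∧ ∀ i, 0 < i → (3 : ℤ) ∣ x.coeff i := by
  have k : ∀ i : ℕ, ∃ n : ℤ, (P.comp (C (3 * b : ℚ) * X)).coeff (i + 1) = 3 * n := by
    intro i
    obtain ⟨n, hn⟩ := hb (i + 1)
    refine ⟨n * (3 * b) ^ i, ?_⟩
    rw [comp_C_mul_X_coeff]
    push_cast
    rw [← hn]
    ring
  have : P.comp (C (3 * b : ℚ) * X) ∈ lifts (Int.castRingHom ℚ) := by
    rw [lifts_iff_coeff_lifts]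
    intro i
    rcases i with _ | i
    · obtain ⟨n, hn⟩ := h0
      exact ⟨n, by rw [comp_C_mul_X_coeff, coeff_zero_eq_eval_zero, hn]; simp⟩
    · obtain ⟨n, hn⟩ := k i
      exact ⟨3 * n, by rw [hn]; simp⟩
  obtain ⟨x, hx⟩ := (mem_lifts _).mp this
  refine ⟨x, hx, fun i hi => ?_⟩
  obtain ⟨i, rfl⟩ := Nat.exists_eq_succ_of_ne_zero hi.ne'
  obtain ⟨n, hn⟩ := k i
  rw [← hx, coeff_map, eq_intCast] at hn
  exact ⟨n, by exact_mod_cast hn⟩

lemma denom (P : ℚ[X]) : ∃ b : ℤ, b ≠ 0 ∧ ∀ j, ∃ n : ℤ, b * P.coeff j = n := by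
  obtain ⟨⟨b, hb⟩, hi⟩ := IsLocalization.exist_integer_multiples (nonZeroDivisors ℤ) P.support
    P.coeff
  refine ⟨b, nonZeroDivisors.ne_zero hb, fun j => ?_⟩
  by_cases hj : j ∈ P.support
  · obtain ⟨n, hn⟩ := hi j hj
    exact ⟨n, by simpa using hn.symm⟩
  · exact ⟨0, by simp [notMem_support_iff.mp hj]⟩

lemma case1 (x y z w : ℚ[X]) (M : ℚ) (r α β : ℤ) (hr : r % 9 = 4)
    (h : x ^ 3 + y ^ 3 + z ^ 3 + w ^ 3 = C M * X + C (r : ℚ))
    (hx : ∃ n : ℤ, x.eval 0 = n) (hy : ∃ n : ℤ, y.eval 0 = n) (hz : ∃ n : ℤ, z.eval 0 = n)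
    (hw : ∃ n : ℤ, w.eval 0 = n) (hab : ¬ (3 : ℤ) ∣ α - β)
    (hc : (C (α : ℚ) * (x + y) + C (β : ℚ) * (z + w)).natDegree = 0) :
    x.natDegree = 0 ∧ y.natDegree = 0 ∧ z.natDegree = 0 ∧ w.natDegree = 0 := by
  obtain ⟨b1, n1, d1⟩ := denom x
  obtain ⟨b2, n2, d2⟩ := denom y
  obtain ⟨b3, n3, d3⟩ := denom z
  obtain ⟨b4, n4, d4⟩ := denom w
  have ext : ∀ (P : ℚ[X]) (b c d : ℤ), (∀ j, ∃ n : ℤ, b * P.coeff j = n) → d = b * c →
      ∀ j, ∃ n : ℤ, (d : ℚ) * P.coeff j = n := by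
    rintro P b c _ hb rfl j
    obtain ⟨n, hn⟩ := hb j
    exact ⟨n * c, by push_cast; rw [← hn]; ring⟩
  set b : ℤ := b1 * b2 * b3 * b4 * M.den with hb
  have hb0 : (3 * b : ℚ) ≠ 0 := by
    have : b ≠ 0 := by
      have := M.den_nz
      positivity
    exact mul_ne_zero three_ne_zero (by exact_mod_cast this)
  obtain ⟨x', x1, x2⟩ := lift x b (ext x b1 (b2 * b3 * b4 * M.den) b d1 (by rw [hb]; ring)) hx
  obtain ⟨y', y1, y2⟩ := lift y b (ext y b2 (b1 * b3 * b4 * M.den) b d2 (by rw [hb]; ring)) hy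
  obtain ⟨z', z1, z2⟩ := lift z b (ext z b3 (b1 * b2 * b4 * M.den) b d3 (by rw [hb]; ring)) hz
  obtain ⟨w', w1, w2⟩ := lift w b (ext w b4 (b1 * b2 * b3 * M.den) b d4 (by rw [hb]; ring)) hw
  have inj : Function.Injective (Int.castRingHom ℚ) := Int.cast_injective
  have deg : ∀ (P : ℚ[X]) (p : ℤ[X]), p.map (Int.castRingHom ℚ) = P.comp (C (3 * b : ℚ) * X) →
      p.natDegree = P.natDegree := by
    intro P p hp
    rw [← natDegree_map_eq_of_injective inj, hp, natDegree_comp, natDegree_C_mul_X _ hb0, mul_one]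
  have hM : ((3 * (b1 * b2 * b3 * b4) * M.num : ℤ) : ℚ) = M * (3 * b) := by
    rw [hb]
    push_cast
    rw [← Rat.mul_den_eq_num M]
    ring
  have := core_int x' y' z' w' (3 * (b1 * b2 * b3 * b4) * M.num) r α β hr
    (by
      apply map_injective _ inj
      have := congrArg (fun f => comp f (C (3 * b : ℚ) * X)) h
      simp only [add_comp, pow_comp, mul_comp, C_comp, X_comp] at this
      simp only [Polynomial.map_add, Polynomial.map_pow, Polynomial.map_mul, map_C, map_X, x1, y1,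
        z1, w1, eq_intCast (Int.castRingHom ℚ), hM, this]
      rw [map_mul C M, mul_assoc])
    x2 y2 z2 w2 hab (by
      rw [← hc]
      apply deg
      simp only [Polynomial.map_add, Polynomial.map_mul, map_C, x1, y1, z1, w1,
        eq_intCast (Int.castRingHom ℚ), add_comp, mul_comp, C_comp])
  rwa [deg x x' x1, deg y y' y1, deg z z' z1, deg w w' w1] at this

lemma consts (x y z w : ℚ[X]) (M : ℚ) (r : ℤ) (hr : r % 9 = 4)
    (h : x ^ 3 + y ^ 3 + z ^ 3 + w ^ 3 = C M * X + C (r : ℚ))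
    (hx : ∃ n : ℤ, x.eval 0 = n) (hy : ∃ n : ℤ, y.eval 0 = n) (hz : ∃ n : ℤ, z.eval 0 = n)
    (hw : ∃ n : ℤ, w.eval 0 = n) : ∃ n1 n2 n3 n4 : ℤ, x.coeff 0 = n1 ∧ y.coeff 0 = n2 ∧
      z.coeff 0 = n3 ∧ w.coeff 0 = n4 ∧ n1 % 3 = 1 ∧ n2 % 3 = 1 ∧ n3 % 3 = 1 ∧ n4 % 3 = 1 := by
  obtain ⟨n1, e1⟩ := hx
  obtain ⟨n2, e2⟩ := hy
  obtain ⟨n3, e3⟩ := hz
  obtain ⟨n4, e4⟩ := hw
  have h0 := congrArg (fun f => eval 0 f) h
  simp only [eval_pow, eval_mul, eval_X, eval_C, eval_add, mul_zero, zero_add, e1, e2, e3,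
    e4] at h0
  simp only [coeff_zero_eq_eval_zero]
  exact ⟨n1, n2, n3, n4, e1, e2, e3, e4, classes _ _ _ _ r (by exact_mod_cast h0) hr⟩

lemma case2 (x y z w : ℚ[X]) (M : ℚ) (r : ℤ) (hr : r % 9 = 4)
    (h : x ^ 3 + y ^ 3 + z ^ 3 + w ^ 3 = C M * X + C (r : ℚ))
    (hx : ∃ n : ℤ, x.eval 0 = n) (hy : ∃ n : ℤ, y.eval 0 = n) (hz : ∃ n : ℤ, z.eval 0 = n)
    (hw : ∃ n : ℤ, w.eval 0 = n) (hc : (x + y + (z + w)).natDegree = 0) :
    x.natDegree = 0 ∧ y.natDegree = 0 ∧ z.natDegree = 0 ∧ w.natDegree = 0 := by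
  obtain ⟨n1, n2, n3, n4, e1, e2, e3, e4, c1, c2, c3, c4⟩ := consts x y z w M r hr h hx hy hz hw
  set e : ℤ := n1 + n2 + n3 + n4 with he
  have he3 : ¬ (3 : ℤ) ∣ e := by omega
  have he0 : (e : ℚ) ≠ 0 := by
    have : e ≠ 0 := by omega
    exact_mod_cast this
  have hE : x + y + (z + w) = C (e : ℚ) := by
    rw [eq_C_of_natDegree_eq_zero hc]
    simp [e1, e2, e3, e4, he, add_assoc]
  have sm : ∀ (f : ℚ[X]) (n : ℤ), f.coeff 0 = n → (3 : ℤ) ∣ n → Sm ((C (e : ℚ)⁻¹ * f).coeff 0) := by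
    rintro f n hf ⟨k, rfl⟩
    refine ⟨k, e, he3, ?_⟩
    rw [coeff_C_mul, hf]
    push_cast
    field_simp
  have hi : C (e : ℚ)⁻¹ * C (e : ℚ) = 1 := by rw [← map_mul, inv_mul_cancel₀ he0, map_one]
  have h3 : C (3 : ℚ)⁻¹ * 3 = 1 := by
    rw [← map_ofNat C 3, ← map_mul, inv_mul_cancel₀ three_ne_zero, map_one]
  have key := markoff (C (3 : ℚ)⁻¹ * (C ((e : ℚ)⁻¹ ^ 3 * 16 * M) * X +
      C ((e : ℚ)⁻¹ ^ 3 * 16 * r - 1))) ((natDegree_C_mul_le _ _).trans natDegree_linear_le) _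
    (C (e : ℚ)⁻¹ * (x + y - (z + w))) (C (e : ℚ)⁻¹ * (x - y + (z - w)))
    (C (e : ℚ)⁻¹ * (x - y - (z - w))) rfl
    (by
      simp only [map_mul, map_sub, map_pow, map_ofNat, map_one]
      have hw' : w = C (e : ℚ) - x - y - z := by linear_combination hE
      set i := C (e : ℚ)⁻¹
      set t := C (3 : ℚ)⁻¹
      set E := C (e : ℚ)
      have k1 : E ^ 3 + 3 * E * ((x + y - (z + w)) ^ 2 + (x - y + (z - w)) ^ 2 +
          (x - y - (z - w)) ^ 2) + 6 * (x + y - (z + w)) * (x - y + (z - w)) * (x - y - (z - w)) =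
          16 * (C M * X + C (r : ℚ)) := by
        rw [← h, ← hE]
        ring
      linear_combination t * i ^ 3 * k1 - (t * ((i * E) ^ 2 + i * E + 1) +
        3 * t * i ^ 2 * ((x + y - (z + w)) ^ 2 + (x - y + (z - w)) ^ 2 +
          (x - y - (z - w)) ^ 2)) * hi - (i ^ 2 * ((x + y - (z + w)) ^ 2 +
          (x - y + (z - w)) ^ 2 + (x - y - (z - w)) ^ 2) + 2 * i ^ 3 * (x + y - (z + w)) *
          (x - y + (z - w)) * (x - y - (z - w))) * h3)
    (sm _ (n1 + n2 - (n3 + n4)) (by simp [e1, e2, e3, e4]) (by omega))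
    (sm _ (n1 - n2 + (n3 - n4)) (by simp [e1, e2, e3, e4]) (by omega))
    (sm _ (n1 - n2 - (n3 - n4)) (by simp [e1, e2, e3, e4]) (by omega))
  rw [natDegree_C_mul (inv_ne_zero he0), natDegree_C_mul (inv_ne_zero he0),
    natDegree_C_mul (inv_ne_zero he0)] at key
  obtain ⟨k1, k2⟩ := four_const (x + y) (z + w) hc (by omega)
  obtain ⟨k3, k4⟩ := four_const (x - y) (z - w) (by omega) (by omega)
  exact ⟨(four_const x y k1 k3).1, (four_const x y k1 k3).2, (four_const z w k2 k4).1,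
    (four_const z w k2 k4).2⟩

lemma case3 (x y z w : ℚ[X]) (M : ℚ) (r : ℤ) (hr : r % 9 = 4)
    (h : x ^ 3 + y ^ 3 + z ^ 3 + w ^ 3 = C M * X + C (r : ℚ))
    (hx : ∃ n : ℤ, x.eval 0 = n) (hy : ∃ n : ℤ, y.eval 0 = n) (hz : ∃ n : ℤ, z.eval 0 = n)
    (hw : ∃ n : ℤ, w.eval 0 = n) (h1 : (x + y).natDegree ≤ 1) (h2 : (z + w).natDegree ≤ 1) :
    x.natDegree = 0 ∧ y.natDegree = 0 ∧ z.natDegree = 0 ∧ w.natDegree = 0 := by
  obtain ⟨n1, n2, n3, n4, e1, e2, e3, e4, c1, c2, c3, c4⟩ := consts x y z w M r hr h hx hy hz hw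
  have f1 := eq_X_add_C_of_natDegree_le_one h1
  have f2 := eq_X_add_C_of_natDegree_le_one h2
  by_cases l0 : (x + y).coeff 1 = 0
  · refine case1 x y z w M r 1 0 hr h hx hy hz hw (by norm_num) ?_
    rw [f1, l0]
    simp
  by_cases m0 : (z + w).coeff 1 = 0
  · refine case1 x y z w M r 0 1 hr h hx hy hz hw (by norm_num) ?_
    rw [f2, m0]
    simp
  exfalso
  have g1 : (x + y).coeff 0 = ((n1 + n2 : ℤ) : ℚ) := by simp [e1, e2]
  have g2 : (z + w).coeff 0 = ((n3 + n4 : ℤ) : ℚ) := by simp [e3, e4]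
  rw [g1, add_comm (C _ * X)] at f1
  rw [g2, add_comm (C _ * X)] at f2
  have sm : ∀ (f : ℚ[X]) (n : ℤ), f.coeff 0 = n → (3 : ℤ) ∣ n → Sm (f.coeff 0) := by
    rintro f n hf ⟨k, rfl⟩
    exact ⟨k, 1, by norm_num, by rw [hf]; simp⟩
  refine pell (n1 + n2) (n3 + n4) (by omega) (by omega) _ _ l0 m0
    (C (4 * M) * X + C (4 * r : ℚ)) natDegree_linear_le
    ((x - y).natDegree + (z - w).natDegree) (x - y) (z - w) (by omega) (by omega)
    (sm _ (n1 - n2) (by simp [e1, e2]) (by omega))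
    (sm _ (n3 - n4) (by simp [e3, e4]) (by omega)) ?_
  rw [← f1, ← f2, map_mul, map_mul, map_ofNat]
  linear_combination 4 * h

end Pool.Agent.Lib.MP_786755_nt
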