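import Pool.Agent.Lib.MP_786755_nt.Approx

/-! Mean square over all fractions of the sum over `a` after the quadratic sum is replaced. -/

namespace Pool.Agent.Lib.MP_786755_nt

open Finset Pool.Agent.Lib.MP_028aa5_nt

/-- the sum over `a` with the quadratic sum replaced by its approximation near `r / q` -/
noncomputable def Hs (A U P q : ℕ) (r : ℤ) (β : ℝ) : ℂ :=
  ∑ a ∈ Ioc A (2 * A),
    s2 q (6 * a * r) * Fq U a β * e ((r / q + β) * (2 * a ^ 3)) * ga P a (r / q + β)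

lemma m_inj {A P : ℕ} (h : 16 * A ^ 3 ≤ 3 * P ^ 2) {i j : ℕ × ℕ}
    (hi : i ∈ Ioc A (2 * A) ×ˢ Ioc P (2 * P)) (hj : j ∈ Ioc A (2 * A) ×ˢ Ioc P (2 * P))
    (hm : 2 * i.1 ^ 3 + i.2 ^ 3 = 2 * j.1 ^ 3 + j.2 ^ 3) : i = j := by
  have key : ∀ a a' z z' : ℕ, a ≤ 2 * A → P < z → 2 * a ^ 3 + z ^ 3 = 2 * a' ^ 3 + z' ^ 3 →
      z' ≤ z := by
    intro a a' z z' h1 h2 h3
    by_contra h4
    have h5 : (z + 1) ^ 3 ≤ z' ^ 3 := Nat.pow_le_pow_left (by omega) 3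
    have h6 : a ^ 3 ≤ (2 * A) ^ 3 := Nat.pow_le_pow_left h1 3
    have h7 : P ^ 2 ≤ z ^ 2 := Nat.pow_le_pow_left h2.le 2
    rw [show (z + 1) ^ 3 = z ^ 3 + 3 * z ^ 2 + 3 * z + 1 by ring] at h5
    rw [show (2 * A) ^ 3 = 8 * A ^ 3 by ring] at h6
    omega
  obtain ⟨a, z⟩ := i
  obtain ⟨a', z'⟩ := j
  simp only [mem_product, mem_Ioc] at hi hj hm
  have h1 := key a a' z z' hi.1.2 hi.2.1 hm
  have h2 := key a' a z' z hj.1.2 hj.2.1 hm.symm
  obtain rfl : z = z' := by omega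
  obtain rfl : a = a' := Nat.pow_left_injective three_ne_zero (by simp only; omega)
  rfl

lemma card_dvd_le {M Q : ℕ} {E : ℝ} (hE : ∀ m, 1 ≤ m → m ≤ M → (#m.divisors : ℝ) ≤ E)
    {x y : ℕ} (hx : x ≤ M) (hy : y ≤ M) (h : x ≠ y) :
    (#((Icc 1 Q).filter fun q : ℕ => (q : ℤ) ∣ (x : ℤ) - y) : ℝ) ≤ E := by
  refine le_trans ?_ (hE ((x : ℤ) - y).natAbs (by omega) (by omega))
  have h0 : ((x : ℤ) - y).natAbs ≠ 0 := by omega
  exact_mod_cast card_le_card fun q hq =>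
    Nat.mem_divisors.2 ⟨Int.natCast_dvd.1 (mem_filter.1 hq).2, h0⟩

theorem H_bound {A U P Q M : ℕ} {E θ β : ℝ} (hE : ∀ m, 1 ≤ m → m ≤ M → (#m.divisors : ℝ) ≤ E)
    (hAP : 16 * A ^ 3 ≤ 3 * P ^ 2) (hQ : Q ≤ M) (hA : 12 * A ≤ M)
    (hM : 16 * A ^ 3 + 8 * P ^ 3 ≤ M) (hθ : ∀ a ∈ Ioc A (2 * A), ‖Fq U a β‖ ≤ θ) (hθ0 : 0 ≤ θ)
    (hE1 : 1 ≤ E) :
    ∑ q ∈ Icc 1 Q, ∑ r ∈ Rq q, ‖Hs A U P q r β‖ ^ 2 ≤
      48 * E ^ 7 * θ ^ 2 * (Q * A * P + A ^ 2 * P ^ 2) := by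
  classical
  set S := Ioc A (2 * A) ×ˢ Ioc P (2 * P) with hS
  set m : ℕ × ℕ → ℕ := fun i => 2 * i.1 ^ 3 + i.2 ^ 3 with hm
  set γ : ℕ × ℕ → ℂ := fun i => Fq U i.1 β * wt i.1 i.2 * e (β * (m i : ℤ)) with hγ
  have hS1 : ∀ i ∈ S, A < i.1 ∧ i.1 ≤ 2 * A := fun i hi => mem_Ioc.1 (mem_product.1 hi).1
  have hmM : ∀ i ∈ S, m i ≤ M := fun i hi => by
    have h1 : i.1 ^ 3 ≤ (2 * A) ^ 3 := Nat.pow_le_pow_left (hS1 i hi).2 3
    have h2 : i.2 ^ 3 ≤ (2 * P) ^ 3 := Nat.pow_le_pow_left (mem_Ioc.1 (mem_product.1 hi).2).2 3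
    simp only [hm]
    nlinarith
  have hγ1 : ∀ i ∈ S, ‖γ i‖ ≤ θ * E := fun i hi => by
    have h1 := hS1 i hi
    simp only [hγ, norm_mul, norm_e, mul_one, Complex.norm_real,
      Real.norm_of_nonneg (wt_nonneg _ _)]
    exact mul_le_mul (hθ _ (mem_Ioc.2 h1)) (wt_le (by omega) (hE _ (by omega) (by omega)) _)
      (wt_nonneg _ _) hθ0
  set t : ℕ → ℕ × ℕ → ℕ × ℕ → ℝ := fun q i j => (if i = j then (Nat.gcd q i.1 : ℝ) else 0) +
    if i ≠ j ∧ (q : ℤ) ∣ (m i : ℤ) - m j then (Nat.gcd j.1 i.1 : ℝ) else 0 with ht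
  have h1 : ∀ q ∈ Icc 1 Q, ∑ r ∈ Rq q, ‖Hs A U P q r β‖ ^ 2 ≤
      24 * E ^ 5 * θ ^ 2 * ∑ i ∈ S, ∑ j ∈ S, t q i j := by
    intro q hq
    obtain ⟨hq1, hq2⟩ := mem_Icc.1 hq
    have hq0 : (0 : ℝ) < q := by exact_mod_cast hq1
    have hEq := hE q hq1 (hq2.trans hQ)
    have e1 : ∀ r : ℤ, Hs A U P q r β =
        ∑ i ∈ S, s2 q (6 * (i.1 : ℤ) * r) * (γ i * ec q (r * (m i : ℤ))) := fun r => by
      rw [Hs, hS, sum_product]
      refine sum_congr rfl fun a _ => ?_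
      rw [ga, mul_sum]
      refine sum_congr rfl fun z _ => ?_
      have := e_add_div q r (m (a, z) : ℤ) β
      rw [show ((r : ℝ) / q + β) * ((m (a, z) : ℤ) : ℝ) =
        (r / q + β) * (2 * a ^ 3) + (r / q + β) * z ^ 3 by simp only [hm]; push_cast; ring,
        e_add] at this
      simp only [hγ]
      linear_combination s2 q (6 * a * r) * Fq U a β * wt a z * this
    simp only [e1]
    refine (ms hq1 S (fun i => i.1) (fun i => m i) γ (fun r x => s2 q (6 * x * r))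
      (fun i => 12 * Nat.gcd i.1 q / q) (fun r x y h => h.s2_eq r) fun r hr i _ => ?_).trans ?_
    · refine (norm_s2_sq_le hq1 _).trans ?_
      gcongr
      exact_mod_cast gcd_twelve_le hq1 hr i.1
    have e2 : (#q.divisors * 4 ^ #q.primeFactors : ℝ) ≤ E * E ^ 2 := by
      gcongr
      exact_mod_cast pow_omega_le (by omega) hEq (c := 4) (k := 2) (by norm_num)
    have e3 : ∀ i ∈ S, ∀ j ∈ S, (if Rel q i.1 j.1 ∧ (q : ℤ) ∣ (m i : ℤ) - m j then
        (12 * Nat.gcd i.1 q / q : ℝ) * (‖γ i‖ * ‖γ j‖) else 0) ≤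
        12 / q * (θ * E) ^ 2 * t q i j := by
      intro i hi j hj
      split_ifs with h
      · have e4 : (Nat.gcd i.1 q : ℝ) ≤ t q i j := by
          simp only [ht]
          by_cases hij : i = j
          · simp [hij, Nat.gcd_comm]
          · rw [if_neg hij, if_pos ⟨hij, h.2⟩, zero_add]
            have := hS1 i hi
            exact_mod_cast Nat.le_of_dvd (Nat.gcd_pos_of_pos_right _ (by omega))
              (Nat.dvd_gcd h.1.gcd_dvd (Nat.gcd_dvd_left _ _))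
        have e5 := mul_le_mul (hγ1 i hi) (hγ1 j hj) (norm_nonneg _) (by positivity)
        calc _ = 12 / q * (‖γ i‖ * ‖γ j‖) * (Nat.gcd i.1 q : ℝ) := by ring
          _ ≤ 12 / q * (θ * E * (θ * E)) * t q i j := by gcongr
          _ = _ := by ring
      · simp only [ht]
        positivity
    have e4 := sum_le_sum fun i hi => sum_le_sum (e3 i hi)
    simp only [← mul_sum] at e4
    have e5 : 0 ≤ ∑ i ∈ S, ∑ j ∈ S, t q i j :=
      sum_nonneg fun i _ => sum_nonneg fun j _ => by simp only [ht]; positivity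
    refine (mul_le_mul (mul_le_mul_of_nonneg_right e2 (by positivity)) e4
      (sum_nonneg fun i _ => sum_nonneg fun j _ => by positivity) (by positivity)).trans
      (le_of_eq ?_)
    field_simp
    ring
  have h2 : ∀ i ∈ S, ∑ j ∈ S, ∑ q ∈ Icc 1 Q, t q i j ≤ Q * E + 2 * A * E * P * E := by
    intro i hi
    have e0 := hS1 i hi
    have hEi := hE i.1 (by omega) (by omega)
    simp only [ht, sum_add_distrib]
    refine add_le_add ?_ ?_
    · rw [sum_comm]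
      simp only [sum_ite_eq, if_pos hi]
      exact (sum_gcd_le (by omega) Q).trans (by gcongr)
    have e1 : ∀ j ∈ S, ∑ q ∈ Icc 1 Q, (if i ≠ j ∧ (q : ℤ) ∣ (m i : ℤ) - m j then
        (Nat.gcd j.1 i.1 : ℝ) else 0) ≤ Nat.gcd j.1 i.1 * E := by
      intro j hj
      by_cases hij : i = j
      · simp only [hij, ne_eq, not_true, false_and, if_false, sum_const_zero]
        positivity
      simp only [ne_eq, hij, not_false_iff, true_and]
      rw [← sum_filter, sum_const, nsmul_eq_mul, mul_comm]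
      gcongr
      exact card_dvd_le hE (hmM i hi) (hmM j hj) fun h => hij (m_inj hAP hi hj h)
    refine (sum_le_sum e1).trans ?_
    rw [← sum_mul, hS, sum_product]
    simp only [sum_const, Nat.card_Ioc, nsmul_eq_mul, show 2 * P - P = P by omega, ← mul_sum]
    rw [mul_comm (P : ℝ)]
    gcongr
    refine le_trans (sum_le_sum_of_subset_of_nonneg (fun a ha => ?_) fun _ _ _ => by positivity)
      ((sum_gcd_le (by omega) (2 * A)).trans (by push_cast; gcongr))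
    have := mem_Ioc.1 ha
    exact mem_Icc.2 ⟨by omega, this.2⟩
  refine (sum_le_sum h1).trans ?_
  rw [← mul_sum, sum_comm, sum_congr rfl fun i _ => sum_comm]
  have h3 := sum_le_card_nsmul _ _ _ h2
  rw [hS, card_product, Nat.card_Ioc, Nat.card_Ioc, show 2 * P - P = P by omega,
    show 2 * A - A = A by omega, nsmul_eq_mul, ← hS] at h3
  refine (mul_le_mul_of_nonneg_left h3 (by positivity)).trans ?_
  have h4 : (Q : ℝ) * E ≤ 2 * (Q * E * E) := by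
    have : 0 ≤ (Q : ℝ) * E := by positivity
    nlinarith
  calc _ ≤ 24 * E ^ 5 * θ ^ 2 * (((A * P : ℕ) : ℝ) * (2 * (Q * E * E) + 2 * A * E * P * E)) := by
        gcongr
    _ = _ := by push_cast; ring

lemma card_two_cubes {P m : ℕ} (hm : m ≠ 0) :
    #((Ioc P (2 * P) ×ˢ Ioc P (2 * P)).filter fun i : ℕ × ℕ => i.1 ^ 3 + i.2 ^ 3 = m) ≤
      2 * #m.divisors := by
  have : #(m.divisors ×ˢ (univ : Finset Bool)) = 2 * #m.divisors := by simp [mul_comm]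
  rw [← this]
  refine card_le_card_of_injOn (fun i => (i.1 + i.2, decide (i.1 ≤ i.2))) (fun i hi => ?_) ?_
  · have h := (mem_filter.1 (mem_coe.1 hi)).2
    refine mem_coe.2 (mem_product.2 ⟨Nat.mem_divisors.2 ⟨?_, hm⟩, mem_univ _⟩)
    rw [← h]
    exact Odd.nat_add_dvd_pow_add_pow _ _ (by decide)
  rintro ⟨z, w⟩ hi ⟨z', w'⟩ hj h
  simp only [coe_filter, mem_product, mem_Ioc, Set.mem_ofPred_eq, Prod.mk.injEq,
    decide_eq_decide] at hi hj h ⊢
  have h1 : (z : ℤ) + w = z' + w' := by exact_mod_cast h.1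
  have h2 : (z : ℤ) ^ 3 + w ^ 3 = z' ^ 3 + w' ^ 3 := by exact_mod_cast hi.2.trans hj.2.symm
  have h3 : (3 * ((z : ℤ) + w)) * ((z - z') * (z - w')) = 0 := by
    obtain h4 : (w : ℤ) = z' + w' - z := by linarith
    rw [h4] at h2 ⊢
    linear_combination h2
  rcases mul_eq_zero.1 h3 with h4 | h4
  · omega
  rcases mul_eq_zero.1 h4 with h5 | h5 <;> omega

end Pool.Agent.Lib.MP_786755_nt
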