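import Pool.Agent.Lib.MP_786755_nt.HB

/-! Integrals: orthogonality, the Bessel inequality, arcs, the singular integral. -/

namespace Pool.Agent.Lib.MP_786755_nt

open Finset Pool.Agent.Lib.MP_028aa5_nt MeasureTheory
open scoped ComplexConjugate

@[fun_prop] lemma continuous_e : Continuous e := by unfold e; fun_prop

lemma int_e (m : ℤ) (τ : ℝ) : ∫ α in τ..τ + 1, e (α * m) = if m = 0 then 1 else 0 := by
  split_ifs with h
  · simp [h]
  have hc : (2 * Real.pi * Complex.I * m : ℂ) ≠ 0 := by simp [h, Real.pi_ne_zero]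
  have e1 : ∀ α : ℝ, e (α * m) = Complex.exp (2 * Real.pi * Complex.I * m * α) := fun α => by
    unfold e; congr 1; push_cast; ring
  simp only [e1]
  rw [integral_exp_mul_complex hc, ← e1, ← e1, add_mul, one_mul, e_add, e_int, mul_one, sub_self,
    zero_div]

lemma int_sum {ι : Type*} (S : Finset ι) (γ : ι → ℂ) (m : ι → ℤ) (τ : ℝ) :
    ∫ α in τ..τ + 1, ∑ i ∈ S, γ i * e (α * m i) = ∑ i ∈ S, if m i = 0 then γ i else 0 := by
  rw [intervalIntegral.integral_finsetSum fun i _ =>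
    Continuous.intervalIntegrable (by fun_prop) _ _]
  refine sum_congr rfl fun i _ => ?_
  rw [intervalIntegral.integral_const_mul, int_e]
  split_ifs <;> simp

lemma int_sq_le {ι : Type*} (S : Finset ι) (γ : ι → ℂ) (m : ι → ℤ) (τ : ℝ) :
    ∫ α in τ..τ + 1, ‖∑ i ∈ S, γ i * e (α * m i)‖ ^ 2 ≤
      ∑ i ∈ S, ∑ j ∈ S, if m i = m j then ‖γ i‖ * ‖γ j‖ else 0 := by
  have e1 : ∀ α : ℝ, ((‖∑ i ∈ S, γ i * e (α * m i)‖ ^ 2 : ℝ) : ℂ) =
      ∑ x ∈ S ×ˢ S, γ x.1 * conj (γ x.2) * e (α * (m x.1 - m x.2 : ℤ)) := fun α => by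
    rw [Complex.ofReal_pow, ← Complex.mul_conj', map_sum, sum_mul_sum, sum_product]
    refine sum_congr rfl fun i _ => sum_congr rfl fun j _ => ?_
    rw [map_mul, Int.cast_sub, mul_sub, ← e_mul_conj]
    ring
  have e2 := intervalIntegral.integral_ofReal (a := τ) (b := τ + 1) (μ := volume)
    (f := fun α => ‖∑ i ∈ S, γ i * e (α * m i)‖ ^ 2)
  simp only [e1] at e2
  rw [int_sum] at e2
  refine (le_abs_self _).trans ?_
  rw [← Real.norm_eq_abs, ← Complex.norm_real, ← e2, ← sum_product']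
  refine (norm_sum_le _ _).trans (sum_le_sum fun x _ => ?_)
  simp only [sub_eq_zero]
  split_ifs <;> simp

theorem bessel_int {h : ℝ → ℂ} (hh : Continuous h) (T : Finset ℕ) (τ : ℝ) :
    ∑ n ∈ T, ‖∫ α in τ..τ + 1, h α * e (-(α * n))‖ ^ 2 ≤ ∫ α in τ..τ + 1, ‖h α‖ ^ 2 := by
  set c : ℕ → ℂ := fun n => ∫ α in τ..τ + 1, h α * e (-(α * n)) with hc
  set g : ℝ → ℂ := fun α => ∑ n ∈ T, conj (c n) * e (α * (-n : ℤ)) with hg
  have hg' : Continuous g := by simp only [hg]; fun_prop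
  have e1 : ∫ α in τ..τ + 1, ‖g α‖ ^ 2 ≤ ∑ n ∈ T, ‖c n‖ ^ 2 := by
    refine (int_sq_le T _ (fun n => -n) τ).trans (sum_le_sum fun n hn => ?_)
    simp only [neg_inj, Nat.cast_inj, sum_ite_eq, if_pos hn, RCLike.norm_conj, sq, le_refl]
  have e2 : ((∑ n ∈ T, ‖c n‖ ^ 2 : ℝ) : ℂ) = ∫ α in τ..τ + 1, h α * g α := by
    simp only [hg, mul_sum]
    rw [intervalIntegral.integral_finsetSum fun i _ =>
      Continuous.intervalIntegrable (by fun_prop) _ _]
    push_cast
    refine sum_congr rfl fun n _ => ?_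
    rw [← Complex.conj_mul']
    simp only [mul_left_comm (h _), mul_neg]
    rw [intervalIntegral.integral_const_mul]
  have e3 : ∑ n ∈ T, ‖c n‖ ^ 2 ≤ ∫ α in τ..τ + 1, (‖h α‖ ^ 2 / 2 + ‖g α‖ ^ 2 / 2) := by
    refine (le_abs_self _).trans ?_
    rw [← Real.norm_eq_abs, ← Complex.norm_real, e2]
    refine (intervalIntegral.norm_integral_le_integral_norm (by linarith)).trans
      (intervalIntegral.integral_mono_on (by linarith)
        (Continuous.intervalIntegrable (by fun_prop) _ _)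
        (Continuous.intervalIntegrable (by fun_prop) _ _) fun α _ => ?_)
    rw [norm_mul]
    nlinarith [sq_nonneg (‖h α‖ - ‖g α‖)]
  rw [intervalIntegral.integral_add (Continuous.intervalIntegrable (by fun_prop) _ _)
    (Continuous.intervalIntegrable (by fun_prop) _ _), intervalIntegral.integral_div,
    intervalIntegral.integral_div] at e3
  linarith

@[fun_prop] lemma continuous_Fq (U a : ℕ) : Continuous (Fq U a) := by unfold Fq; fun_prop

@[fun_prop] lemma continuous_gc (P : ℕ) : Continuous (gc P) := by unfold gc; fun_prop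

@[fun_prop] lemma continuous_ga (P a : ℕ) : Continuous (ga P a) := by unfold ga; fun_prop

@[fun_prop] lemma continuous_Hs (A U P q : ℕ) (r : ℤ) : Continuous (Hs A U P q r) := by
  unfold Hs; fun_prop

theorem int_ga_gc {P a : ℕ} {E : ℝ} (ha : a ≠ 0) (hE' : (#(6 * a).divisors : ℝ) ≤ E)
    (hE : ∀ m, 1 ≤ m → m ≤ 16 * P ^ 3 → (#m.divisors : ℝ) ≤ E) (τ : ℝ) :
    ∫ α in τ..τ + 1, ‖ga P a α * gc P α‖ ^ 2 ≤ 2 * E ^ 3 * P ^ 2 := by
  set S := Ioc P (2 * P) ×ˢ Ioc P (2 * P) with hS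
  have hE0 : 0 ≤ E := (Nat.cast_nonneg _).trans hE'
  have e1 : ∀ α, ga P a α * gc P α =
      ∑ i ∈ S, (wt a i.1 : ℂ) * e (α * ((i.1 ^ 3 + i.2 ^ 3 : ℕ) : ℤ)) := fun α => by
    rw [ga, gc, sum_mul_sum, hS, sum_product]
    refine sum_congr rfl fun z _ => sum_congr rfl fun w _ => ?_
    push_cast
    rw [mul_add, e_add, mul_assoc]
  simp only [e1]
  refine (int_sq_le S _ _ τ).trans ((sum_le_card_nsmul _ _ (2 * E ^ 3) fun i hi => ?_).trans ?_)
  · obtain ⟨h1, h2⟩ := mem_product.1 hi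
    have h3 := mem_Ioc.1 h1
    have h4 := mem_Ioc.1 h2
    have h5 : i.1 ^ 3 ≤ (2 * P) ^ 3 := Nat.pow_le_pow_left h3.2 3
    have h6 : i.2 ^ 3 ≤ (2 * P) ^ 3 := Nat.pow_le_pow_left h4.2 3
    have h7 : 0 < i.1 ^ 3 := pow_pos (by omega) 3
    rw [show (2 * P) ^ 3 = 8 * P ^ 3 by ring] at h5 h6
    have h8 := hE (i.1 ^ 3 + i.2 ^ 3) (by omega) (by omega)
    have h9 : (#(S.filter fun j : ℕ × ℕ => j.1 ^ 3 + j.2 ^ 3 = i.1 ^ 3 + i.2 ^ 3) : ℝ) ≤
        2 * #(i.1 ^ 3 + i.2 ^ 3).divisors := by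
      exact_mod_cast card_two_cubes (P := P) (m := i.1 ^ 3 + i.2 ^ 3) (by omega)
    simp only [Nat.cast_inj, eq_comm (a := i.1 ^ 3 + i.2 ^ 3)]
    rw [← sum_filter]
    refine (sum_le_card_nsmul _ _ (E * E) fun j _ => ?_).trans ?_
    · simp only [Complex.norm_real, Real.norm_of_nonneg (wt_nonneg _ _)]
      exact mul_le_mul (wt_le ha hE' _) (wt_le ha hE' _) (wt_nonneg _ _) hE0
    · rw [nsmul_eq_mul]
      calc _ ≤ 2 * E * (E * E) := by gcongr; linarith
        _ = _ := by ring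
  · rw [hS, card_product, Nat.card_Ioc, show 2 * P - P = P by omega, nsmul_eq_mul]
    push_cast
    exact le_of_eq (by ring)

lemma sym_split {F : Type*} [NormedAddCommGroup F] [NormedSpace ℝ F] {g : ℝ → F}
    (hg : Continuous g) (δ : ℝ) : ∫ β in (-δ)..δ, g β = ∫ β in (0 : ℝ)..δ, (g β + g (-β)) := by
  rw [intervalIntegral.integral_add (hg.intervalIntegrable _ _)
    (Continuous.intervalIntegrable (by fun_prop) _ _), intervalIntegral.integral_comp_neg, neg_zero,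
    add_comm, intervalIntegral.integral_add_adjacent_intervals (hg.intervalIntegrable _ _)
      (hg.intervalIntegrable _ _)]

lemma int_decay {N η B : ℝ} (hN : 0 < N) (hη : 0 ≤ η) (hB : 0 ≤ B) :
    ∫ β in (-η)..η, B / (1 + N * |β|) ^ 2 ≤ 2 * B / N := by
  have hc : Continuous fun β : ℝ => B / (1 + N * |β|) ^ 2 :=
    Continuous.div (by fun_prop) (by fun_prop) fun β => by positivity
  rw [sym_split hc]
  have e1 : ∫ β in (0 : ℝ)..η, (B / (1 + N * |β|) ^ 2 + B / (1 + N * |-β|) ^ 2) =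
      -(2 * B / N) * (1 + N * η)⁻¹ - -(2 * B / N) * (1 + N * 0)⁻¹ := by
    refine intervalIntegral.integral_eq_sub_of_hasDerivAt
      (f := fun β => -(2 * B / N) * (1 + N * β)⁻¹) (fun x hx => ?_)
      ((hc.add (hc.comp continuous_neg)).intervalIntegrable _ _)
    rw [Set.uIcc_of_le hη] at hx
    have h0 : 0 < 1 + N * x := by have := hx.1; positivity
    refine ((((hasDerivAt_id x).const_mul N).const_add 1).inv h0.ne').const_mul _ |>.congr_deriv ?_
    rw [abs_neg, abs_of_nonneg hx.1]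
    simp only [id]
    field_simp
    ring
  rw [e1]
  have : 0 ≤ 2 * B / N * (1 + N * η)⁻¹ := by positivity
  simp only [mul_zero, add_zero, inv_one]
  linarith

theorem arc_int {ι : Type*} (S : Finset ι) (c : ι → ℝ) (Y : ι → ℝ → ℝ)
    (hY : ∀ i, Continuous (Y i)) (hY0 : ∀ i β, 0 ≤ Y i β) {η B N : ℝ} (hN : 0 < N) (hη : 0 ≤ η)
    (hB : ∀ β, |β| ≤ η → ∑ i ∈ S, Y i β ≤ B / (1 + N * |β|) ^ 2) (a : ℝ) :
    ∃ W : ℝ → ℝ, IntervalIntegrable W volume a (a + 1) ∧ (∀ α, 0 ≤ W α) ∧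
      (∀ i ∈ S, ∀ α, |α - c i| ≤ η → Y i (α - c i) ≤ W α) ∧
      ∫ α in a..a + 1, W α ≤ 2 * B / N := by
  set G : ι → ℝ → ℝ := fun i => (Set.Icc (-η) η).indicator (Y i) with hG
  have hG0 : ∀ i β, 0 ≤ G i β := fun i β => Set.indicator_nonneg (fun _ _ => hY0 _ _) _
  have hG1 : ∀ i, Integrable (G i) := fun i =>
    ((hY i).continuousOn.integrableOn_Icc).integrable_indicator measurableSet_Icc
  have hW : Integrable fun α => ∑ i ∈ S, G i (α - c i) :=
    integrable_finsetSum _ fun i _ => (hG1 i).comp_sub_right _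
  have hW0 : ∀ α, 0 ≤ ∑ i ∈ S, G i (α - c i) := fun α => sum_nonneg fun i _ => hG0 _ _
  have hB0 : 0 ≤ B := by
    simpa using (sum_nonneg fun i _ => hY0 i 0).trans (hB 0 (by simpa using hη))
  refine ⟨_, hW.intervalIntegrable, hW0, fun i hi α h => ?_, ?_⟩
  · refine le_trans ?_ (single_le_sum (f := fun i => G i (α - c i)) (fun i _ => hG0 _ _) hi)
    simp only [hG]
    rw [Set.indicator_of_mem (Set.mem_Icc.2 (abs_le.1 h))]
  rw [intervalIntegral.integral_of_le (by linarith)]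
  refine (setIntegral_le_integral hW (ae_of_all _ hW0)).trans ?_
  rw [integral_finsetSum _ fun i _ => (hG1 i).comp_sub_right _]
  simp only [integral_sub_right_eq_self, hG, integral_indicator measurableSet_Icc,
    integral_Icc_eq_integral_Ioc, ← intervalIntegral.integral_of_le (by linarith : -η ≤ η)]
  rw [← intervalIntegral.integral_finsetSum fun i _ => (hY i).intervalIntegrable _ _]
  refine le_trans (intervalIntegral.integral_mono_on (by linarith)
    (Continuous.intervalIntegrable (by fun_prop) _ _) (Continuous.intervalIntegrable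
      (Continuous.div (by fun_prop) (by fun_prop) fun β => by positivity) _ _)
    fun β hβ => hB β (abs_le.2 hβ)) (int_decay hN hη hB0)

/-- the tent function -/
noncomputable def tent (δ β : ℝ) : ℝ := max 0 (1 - |β| / δ)

@[fun_prop] lemma continuous_tent (δ : ℝ) : Continuous (tent δ) := by unfold tent; fun_prop

lemma tent_eq_zero {δ β : ℝ} (hδ : 0 < δ) (h : δ ≤ |β|) : tent δ β = 0 :=
  max_eq_left (by rw [sub_nonpos, one_le_div hδ]; exact h)

lemma one_sub_tent {δ : ℝ} (hδ : 0 < δ) (β : ℝ) : |1 - tent δ β| ≤ |β| / δ := by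
  have : 0 ≤ |β| / δ := by positivity
  unfold tent
  rw [abs_le]
  rcases max_cases 0 (1 - |β| / δ) with h | h <;> constructor <;> linarith [h.1, h.2]

lemma int_tent {δ : ℝ} (hδ : 0 < δ) (x : ℝ) : ∃ k : ℝ,
    ∫ β in (-δ)..δ, tent δ β * e (β * x) = k ∧ 0 ≤ k ∧ (2 * δ * |x| ≤ 1 → δ / 3 ≤ k) := by
  set c := 2 * Real.pi * x with hc
  have e1 : ∫ β in (-δ)..δ, tent δ β * e (β * x) =
      ((∫ β in (0 : ℝ)..δ, (1 - β / δ) * (2 * Real.cos (c * β)) : ℝ) : ℂ) := by
    rw [sym_split (by fun_prop), ← intervalIntegral.integral_ofReal]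
    refine intervalIntegral.integral_congr fun β hβ => ?_
    rw [Set.uIcc_of_le hδ.le] at hβ
    have h1 : tent δ β = 1 - β / δ := by
      rw [tent, abs_of_nonneg hβ.1, max_eq_right (by rw [sub_nonneg, div_le_one hδ]; exact hβ.2)]
    have h2 : tent δ (-β) = tent δ β := by simp [tent]
    simp only [h2, h1, e, hc]
    push_cast
    rw [Complex.two_cos, ← mul_add]
    congr 3 <;> ring
  refine ⟨_, e1, ?_⟩
  by_cases h0 : c = 0
  · have : ∫ β in (0 : ℝ)..δ, (1 - β / δ) * (2 * Real.cos (c * β)) =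
        (2 * δ - δ ^ 2 / δ) - (2 * 0 - 0 ^ 2 / δ) := by
      refine intervalIntegral.integral_eq_sub_of_hasDerivAt (f := fun β => 2 * β - β ^ 2 / δ)
        (fun y _ => ?_) (Continuous.intervalIntegrable (by fun_prop) _ _)
      refine (((hasDerivAt_id y).const_mul 2).sub ((hasDerivAt_pow 2 y).div_const δ)).congr_deriv ?_
      simp [h0]
      ring
    rw [this, show 2 * δ - δ ^ 2 / δ - (2 * 0 - 0 ^ 2 / δ) = δ by field_simp; ring]
    exact ⟨hδ.le, fun _ => by linarith⟩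
  have : ∫ β in (0 : ℝ)..δ, (1 - β / δ) * (2 * Real.cos (c * β)) =
      2 * ((1 - δ / δ) * Real.sin (c * δ) / c - Real.cos (c * δ) / (c ^ 2 * δ)) -
      2 * ((1 - 0 / δ) * Real.sin (c * 0) / c - Real.cos (c * 0) / (c ^ 2 * δ)) := by
    refine intervalIntegral.integral_eq_sub_of_hasDerivAt
      (f := fun β => 2 * ((1 - β / δ) * Real.sin (c * β) / c - Real.cos (c * β) / (c ^ 2 * δ)))
      (fun y _ => ?_) (Continuous.intervalIntegrable (by fun_prop) _ _)
    have d1 := (hasDerivAt_id y).const_mul c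
    refine (((((((hasDerivAt_id y).div_const δ).const_sub 1).mul d1.sin).div_const c).sub
      (d1.cos.div_const (c ^ 2 * δ))).const_mul 2).congr_deriv ?_
    simp only [id]
    field_simp
    ring
  rw [this, show 2 * ((1 - δ / δ) * Real.sin (c * δ) / c - Real.cos (c * δ) / (c ^ 2 * δ)) -
      2 * ((1 - 0 / δ) * Real.sin (c * 0) / c - Real.cos (c * 0) / (c ^ 2 * δ)) =
      2 * (1 - Real.cos (c * δ)) / (c ^ 2 * δ) by simp [hδ.ne']; ring]
  have h1 := Real.cos_le_one (c * δ)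
  refine ⟨by have : 0 ≤ 1 - Real.cos (c * δ) := by linarith
             positivity, fun h => ?_⟩
  have h2 : |c * δ| ≤ Real.pi := by
    rw [hc, show 2 * Real.pi * x * δ = Real.pi * (2 * δ * x) by ring, abs_mul, abs_mul,
      abs_of_pos Real.pi_pos, abs_of_pos (by positivity : 0 < 2 * δ)]
    exact mul_le_of_le_one_right Real.pi_pos.le h
  have h3 := Real.cos_le_one_sub_mul_cos_sq h2
  have h4 : 1 / 6 ≤ 2 / Real.pi ^ 2 := by
    rw [div_le_div_iff₀ (by norm_num) (by positivity)]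
    nlinarith [Real.pi_lt_d2, Real.pi_pos]
  have h5 := mul_le_mul_of_nonneg_right h4 (sq_nonneg (c * δ))
  rw [le_div_iff₀ (by positivity)]
  nlinarith

/-- the model generating function near `0` -/
noncomputable def f0 (A U P : ℕ) (β : ℝ) : ℂ :=
  (∑ a ∈ Ioc A (2 * A), Fq U a β * e (β * (2 * a ^ 3))) * gc P β ^ 2

@[fun_prop] lemma continuous_f0 (A U P : ℕ) : Continuous (f0 A U P) := by unfold f0; fun_prop

theorem J_lower {A U P l n : ℕ} {δ : ℝ} (hδ : 0 < δ) (hU : 1 ≤ U)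
    (h1 : 16 * A ^ 3 + 16 * P ^ 3 + 12 * A * (U + l) ^ 2 ≤ n) (h2 : n ≤ 96 * A * U ^ 2)
    (h3 : δ * (216 * A * U * l) ≤ 1) :
    A * P ^ 2 * l * δ / 3 ≤ ‖∫ β in (-δ)..δ, tent δ β * f0 A U P β * e (-(β * n))‖ := by
  choose k hk hk0 hk1 using int_tent hδ
  have e1 : ∀ β, tent δ β * f0 A U P β * e (-(β * n)) = ∑ a ∈ Ioc A (2 * A), ∑ z ∈ Ioc P (2 * P),
      ∑ w ∈ Ioc P (2 * P), ∑ u ∈ Ioc U (4 * U),
        tent δ β * e (β * (2 * a ^ 3 + z ^ 3 + w ^ 3 + 6 * a * u ^ 2 - n)) := fun β => by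
    simp only [f0, gc, Fq, sq, sum_mul, mul_sum]
    rw [sum_comm, sum_congr rfl fun z _ => sum_comm, sum_comm]
    refine sum_congr rfl fun a _ => sum_congr rfl fun z _ => sum_congr rfl fun w _ =>
      sum_congr rfl fun u _ => ?_
    simp only [mul_add, sub_eq_add_neg, e_add, mul_neg]
    ring
  simp only [e1]
  have hi : ∀ {g : ℝ → ℂ}, Continuous g → IntervalIntegrable g volume (-δ) δ :=
    fun h => h.intervalIntegrable _ _
  rw [intervalIntegral.integral_finsetSum fun _ _ => hi (by fun_prop),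
    sum_congr rfl fun a _ => intervalIntegral.integral_finsetSum fun _ _ => hi (by fun_prop),
    sum_congr rfl fun a _ => sum_congr rfl fun z _ =>
      intervalIntegral.integral_finsetSum fun _ _ => hi (by fun_prop),
    sum_congr rfl fun a _ => sum_congr rfl fun z _ => sum_congr rfl fun w _ =>
      intervalIntegral.integral_finsetSum fun _ _ => hi (by fun_prop)]
  simp only [hk, ← Complex.ofReal_sum, Complex.norm_real]
  refine le_trans ?_ (le_abs_self _)
  have e2 : ∀ a ∈ Ioc A (2 * A), ∀ z ∈ Ioc P (2 * P), ∀ w ∈ Ioc P (2 * P), l * (δ / 3) ≤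
      ∑ u ∈ Ioc U (4 * U), k (2 * a ^ 3 + z ^ 3 + w ^ 3 + 6 * a * u ^ 2 - n) := by
    intro a ha z hz w hw
    obtain ⟨a1, a2⟩ := mem_Ioc.1 ha
    have a3 : a ^ 3 ≤ (2 * A) ^ 3 := Nat.pow_le_pow_left a2 3
    have a4 : z ^ 3 ≤ (2 * P) ^ 3 := Nat.pow_le_pow_left (mem_Ioc.1 hz).2 3
    have a5 : w ^ 3 ≤ (2 * P) ^ 3 := Nat.pow_le_pow_left (mem_Ioc.1 hw).2 3
    have a6 : 6 * a * (U + l) ^ 2 ≤ 12 * A * (U + l) ^ 2 := Nat.mul_le_mul_right _ (by omega)
    rw [mul_pow] at a3 a4 a5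
    obtain ⟨t, ht⟩ : ∃ t, n = 2 * a ^ 3 + z ^ 3 + w ^ 3 + t := Nat.exists_eq_add_of_le (by omega)
    set v := Nat.sqrt (t / (6 * a)) with hv
    have b1 : U + l ≤ v := Nat.le_sqrt'.2 ((Nat.le_div_iff_mul_le (by omega)).2 (by
      rw [mul_comm]; omega))
    have b2 : 6 * a * v ^ 2 ≤ t := by
      rw [mul_comm]
      exact (Nat.le_div_iff_mul_le (by omega)).1 (Nat.sqrt_le' _)
    have b3 : t < 6 * a * (v + 1) ^ 2 := by
      rw [mul_comm]
      exact (Nat.div_lt_iff_lt_mul (by omega)).1 (Nat.lt_succ_sqrt' _)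
    have b4 : v ≤ 4 * U := by
      have : 96 * A * U ^ 2 ≤ 6 * a * (4 * U) ^ 2 := by
        rw [show 6 * a * (4 * U) ^ 2 = 96 * a * U ^ 2 by ring]
        gcongr
      exact (Nat.pow_le_pow_iff_left two_ne_zero).1
        (Nat.le_of_mul_le_mul_left (by omega : 6 * a * v ^ 2 ≤ 6 * a * (4 * U) ^ 2) (by omega))
    refine le_trans ?_ (sum_le_sum_of_subset_of_nonneg
      (Ioc_subset_Ioc (by omega : U ≤ v - l) b4) fun _ _ _ => hk0 _)
    refine le_trans (le_of_eq ?_) (card_nsmul_le_sum _ _ (δ / 3) fun u hu => hk1 _ ?_)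
    · rw [Nat.card_Ioc, show v - (v - l) = l by omega, nsmul_eq_mul]
    obtain ⟨u1, u2⟩ := mem_Ioc.1 hu
    have c1 : 6 * a * u ^ 2 ≤ t := le_trans (by gcongr) b2
    have c2 : (v + 1) ^ 2 ≤ u ^ 2 + l * (9 * U) := by
      obtain ⟨d, hd⟩ : ∃ d, v + 1 = u + d := Nat.exists_eq_add_of_le (by omega)
      have : d * (2 * u + d) ≤ l * (9 * U) := Nat.mul_le_mul (by omega) (by omega)
      rw [hd]
      linarith
    have c3 : t ≤ 6 * a * u ^ 2 + 108 * A * U * l := by
      have := Nat.mul_le_mul_left (6 * a) c2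
      have : 6 * a * (l * (9 * U)) ≤ 12 * A * (l * (9 * U)) := Nat.mul_le_mul_right _ (by omega)
      linarith
    have c4 : ((6 * a * u ^ 2 : ℕ) : ℝ) ≤ t := by exact_mod_cast c1
    have c5 : (t : ℝ) ≤ (6 * a * u ^ 2 + 108 * A * U * l : ℕ) := by exact_mod_cast c3
    have c6 : |2 * (a : ℝ) ^ 3 + z ^ 3 + w ^ 3 + 6 * a * u ^ 2 - n| ≤
        (108 * A * U * l : ℝ) := by
      rw [ht, abs_le]
      push_cast at c4 c5 ⊢
      have : (0 : ℝ) ≤ 108 * A * U * l := by positivity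
      constructor <;> linarith
    calc _ ≤ 2 * δ * (108 * A * U * l) := by gcongr
      _ ≤ 1 := by linarith
  refine le_trans (le_of_eq ?_) (card_nsmul_le_sum _ _ _ fun a ha =>
    card_nsmul_le_sum _ _ _ fun z hz => card_nsmul_le_sum _ _ _ (e2 a ha z hz))
  simp only [Nat.card_Ioc, show 2 * A - A = A by omega, show 2 * P - P = P by omega, nsmul_eq_mul]
  ring

end Pool.Agent.Lib.MP_786755_nt
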