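import Pool.Agent.Lib.MP_786755_nt.Rep

/-! The obstruction for integer polynomials. -/

namespace Pool.Agent.Lib.MP_786755_nt

open Polynomial

lemma Rep.cmul {D c : ℕ} {k : ℤ} {f : ℤ[X]} {P : (ZMod 3)[X]} (h : Rep D c k f P) (n : ℤ) :
    Rep D c k (C n * f) (C (n : ZMod 3) * P) := by
  simpa using (Rep.const n).mul h

lemma cube_add (A B : (ZMod 3)[X]) : (A + B) ^ 3 = A ^ 3 + B ^ 3 := add_pow_char A B 3

/-- at the first radius the leading forms of the two pair sums cancel. -/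
lemma key (a0 b0 M s : ℤ) (a b u v : ℤ[X]) (j c : ℕ) (A B : (ZMod 3)[X]) (hj : 0 < j)
    (hc : Odd c) (hA : Rep (2 * j) c j a A) (hB : Rep (2 * j) c j b B)
    (ha0 : (a0 : ZMod 3) = -1) (hb0 : (b0 : ZMod 3) = -1)
    (h : (C a0 + a) ^ 3 + (C b0 + b) ^ 3 + 3 * ((C a0 + a) * u ^ 2 + (C b0 + b) * v ^ 2) =
      C M * X + C (a0 ^ 3 + b0 ^ 3 + 9 * s)) : A + B = 0 := by
  by_contra hE
  have hD : 0 < 2 * j := by omega
  have hc0 : 0 < c := hc.pos
  have hj' : (0 : ℤ) < j := by exact_mod_cast hj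
  have hX : X ∣ A + B := by
    rw [X_dvd_iff]
    refine (hA.add hB).coeff_zero 0 fun i => ?_
    have : (0 : ℤ) ≤ c * i := by positivity
    push_cast
    omega
  have r3 : Rep (2 * j) c (2 * j) 3 X := by simpa using Rep.three (D := 2 * j) (c := c)
  -- the cubic part
  have g1 : ∀ (x0 : ℤ) (f : ℤ[X]) (P : (ZMod 3)[X]), (x0 : ZMod 3) = -1 → Rep (2 * j) c j f P →
      Rep (2 * j) c (3 * j) ((C x0 + f) ^ 3 - C (x0 ^ 3)) (P ^ 3 + X * P) := by
    intro x0 f P hx hP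
    have t1 : Rep (2 * j) c (3 * j) (f * f * f) (P * P * P) := by
      convert (hP.mul hP).mul hP using 1
      ring
    have t2 : Rep (2 * j) c (3 * j) (C (x0 ^ 2) * (3 * f)) (C ((x0 ^ 2 : ℤ) : ZMod 3) * (X * P)) := by
      refine Rep.cmul ?_ _
      convert r3.mul hP using 1
      ring
    have t3 : Rep (2 * j) c (3 * j) (C x0 * (3 * (f * f))) 0 :=
      ((r3.mul (hP.mul hP)).cmul x0).lower (by omega)
    convert (t1.add t2).add t3 using 1
    · simp only [map_pow]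
      ring
    · push_cast
      rw [hx]
      simp
      ring
  have g0 : Rep (2 * j) c (3 * j) (C (-s) * (3 * 3)) 0 :=
    ((r3.mul r3).cmul (-s)).lower (by omega)
  have G1 := ((g1 a0 a A ha0 hA).add (g1 b0 b B hb0 hB)).add g0
  have eP : A ^ 3 + X * A + (B ^ 3 + X * B) + 0 = (A + B) ^ 3 + X * (A + B) := by
    rw [cube_add]
    ring
  rw [eP] at G1
  -- the quadratic part
  obtain ⟨m, U, V, hU, hV, hm⟩ := rep_pair hD hc0 u v j
  have G3 : Rep (2 * j) c (2 * j + 2 * m)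
      (3 * ((C a0 + a) * u ^ 2 + (C b0 + b) * v ^ 2)) (-(X * (U ^ 2 + V ^ 2))) := by
    have t1 := ((Rep.const a0).add (hA.lower hj')).mul (hU.mul hU)
    have t2 := ((Rep.const b0).add (hB.lower hj')).mul (hV.mul hV)
    convert r3.mul (t1.add t2) using 1
    · ring
    · ring
    · rw [ha0, hb0]
      simp
      ring
  -- the linear part
  have G2 : ∃ (k : ℤ) (e : ZMod 3) (μ : ℕ), Odd k ∧
      Rep (2 * j) c k (-(C M * X)) (C e * X ^ μ) ∧ (k ≤ 3 * j → e ≠ 0) := by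
    by_cases hM : M = 0
    · exact ⟨2 * (3 * j) + 1, 0, 0, odd_two_mul_add_one _, by simpa [hM] using Rep.zero,
        fun h => by omega⟩
    · obtain ⟨n, hn⟩ := padicValInt_dvd (p := 3) (-M)
      have t := Rep.mono (D := 2 * j) (c := c) n (padicValInt 3 (-M)) 1 rfl
      have e1 : monomial 1 ((3 : ℤ) ^ padicValInt 3 (-M) * n) = -(C M * X) := by
        have hn' : (3 : ℤ) ^ padicValInt 3 (-M) * n = -M := by exact_mod_cast hn.symm
        rw [hn', ← C_mul_X_eq_monomial, map_neg, neg_mul]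
      rw [e1] at t
      refine ⟨_, n, padicValInt 3 (-M), ?_, by rwa [C_mul_X_pow_eq_monomial], fun _ h0 => ?_⟩
      · obtain ⟨w, hw⟩ := hc
        exact ⟨j * padicValInt 3 (-M) - w - 1, by rw [hw]; push_cast; ring⟩
      · refine t.ne_zero hD hc0 1 (by simpa using hM) ?_ (by simp [h0])
        simp
  obtain ⟨k, e, μ, hk, G2, he⟩ := G2
  have hz : (C a0 + a) ^ 3 - C (a0 ^ 3) + ((C b0 + b) ^ 3 - C (b0 ^ 3)) + C (-s) * (3 * 3) +
      -(C M * X) + 3 * ((C a0 + a) * u ^ 2 + (C b0 + b) * v ^ 2) = 0 := by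
    simp only [map_add, map_mul, map_neg, map_pow, map_ofNat] at h ⊢
    linear_combination h
  have fin : ∀ (l : ℤ) (P1 P2 P3 : (ZMod 3)[X]),
      Rep (2 * j) c l ((C a0 + a) ^ 3 - C (a0 ^ 3) + ((C b0 + b) ^ 3 - C (b0 ^ 3)) +
        C (-s) * (3 * 3)) P1 → Rep (2 * j) c l (-(C M * X)) P2 →
      Rep (2 * j) c l (3 * ((C a0 + a) * u ^ 2 + (C b0 + b) * v ^ 2)) P3 → P1 + P2 + P3 = 0 := by
    intro l P1 P2 P3 h1 h2 h3
    have := (h1.add h2).add h3
    rw [hz] at this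
    exact this.uniq hD hc0
  obtain ⟨w, hw⟩ := hk
  by_cases c1 : k < 3 * j ∧ k < 2 * j + 2 * m
  · have := fin k _ _ _ (G1.lower c1.1) G2 (G3.lower c1.2)
    simp [he c1.1.le] at this
  by_cases c2 : 2 * j + 2 * m < 3 * j ∧ 2 * j + 2 * m < k
  · have := fin _ _ _ _ (G1.lower c2.1) (G2.lower c2.2) G3
    simp [hm (by omega)] at this
  by_cases c3 : k = 3 * j
  · have := fin _ _ _ _ G1 (c3 ▸ G2) (G3.lower (by omega))
    exact no_sol2 _ e μ hE hX (he c3.le) (by simpa using this)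
  by_cases c4 : 2 * j + 2 * m = (3 * j : ℤ)
  · have := fin _ _ _ _ G1 (G2.lower (by omega)) (c4 ▸ G3)
    exact no_sol1 _ U V hE hX (by linear_combination this)
  · have := fin _ _ _ _ G1 (G2.lower (by omega)) (G3.lower (by omega))
    exact no_sol1 _ 0 0 hE hX (by linear_combination this)

lemma const_uv (a0 b0 : ℤ) (u v L : ℤ[X]) (hL : L.natDegree ≤ 1) (ha : ¬ (3 : ℤ) ∣ a0)
    (hb : (3 : ℤ) ∣ a0 - b0) (h : 3 * (C a0 * u ^ 2 + C b0 * v ^ 2) = L) :
    u.natDegree = 0 ∧ v.natDegree = 0 := by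
  by_contra hne
  set d := max u.natDegree v.natDegree with hd
  have hd0 : 0 < d := by omega
  have c1 : ∀ f : ℤ[X], f.natDegree ≤ d → (f ^ 2).coeff (2 * d) = f.coeff d ^ 2 :=
    fun f hf => coeff_pow_of_natDegree_le hf
  have e := congrArg (fun f => coeff f (2 * d)) h
  have c5 : L.coeff (2 * d) = 0 := coeff_eq_zero_of_natDegree_lt (by omega)
  have three : (3 : ℤ[X]) = C 3 := rfl
  simp only [three, coeff_C_mul, coeff_add, c1 u (le_max_left _ _), c1 v (le_max_right _ _),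
    c5] at e
  obtain ⟨h1, h2⟩ := aniso a0 b0 0 (u.coeff d) (v.coeff d) ha hb (by simp) (by linarith)
  rcases le_total u.natDegree v.natDegree with t | t
  · rw [hd, max_eq_right t] at h2 hd0
    have : v = 0 := leadingCoeff_eq_zero.mp h2
    simp [this] at hd0
  · rw [hd, max_eq_left t] at h1 hd0
    have : u = 0 := leadingCoeff_eq_zero.mp h1
    simp [this] at hd0

lemma classes (x y z w r : ℤ) (h : x ^ 3 + y ^ 3 + z ^ 3 + w ^ 3 = r) (hr : r % 9 = 4) :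
    x % 3 = 1 ∧ y % 3 = 1 ∧ z % 3 = 1 ∧ w % 3 = 1 := by
  have k : ∀ t : ℤ, (t % 3 = 0 ∧ t ^ 3 % 9 = 0) ∨ (t % 3 = 1 ∧ t ^ 3 % 9 = 1) ∨
      (t % 3 = 2 ∧ t ^ 3 % 9 = 8) := by
    intro t
    obtain ⟨q, rfl | rfl | rfl⟩ : ∃ q, t = 3 * q ∨ t = 3 * q + 1 ∨ t = 3 * q + 2 :=
      ⟨t / 3, by omega⟩
    · have : (3 * q) ^ 3 = 9 * (3 * q ^ 3) := by ring
      omega
    · have : (3 * q + 1) ^ 3 = 9 * (3 * q ^ 3 + 3 * q ^ 2 + q) + 1 := by ring
      omega
    · have : (3 * q + 2) ^ 3 = 9 * (3 * q ^ 3 + 6 * q ^ 2 + 4 * q) + 8 := by ring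
      omega
  have := k x
  have := k y
  have := k z
  have := k w
  omega

end Pool.Agent.Lib.MP_786755_nt
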