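import Pool.Agent.Lib.MP_786755_nt.Mean

/-! Complete exponential sums. -/

namespace Pool.Agent.Lib.MP_786755_nt

open Finset Pool.Agent.Lib.MP_028aa5_nt
open scoped ComplexConjugate

/-- normalised indicator of the integers not divisible by `p` -/
noncomputable def wp (p : ℕ) (z : ℤ) : ℝ := if (p : ℤ) ∣ z then 0 else (p : ℝ) / (p - 1)

/-- normalised indicator of the `z` that are not divisible by any prime factor of both `q` and `m` -/
noncomputable def wq (q : ℕ) (m z : ℤ) : ℝ :=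
  ∏ p ∈ q.primeFactors, if (p : ℤ) ∣ m then wp p z else 1

/-- normalised quadratic Gauss sum -/
noncomputable def s2 (q : ℕ) (c : ℤ) : ℂ := av q fun x => ec q (c * x ^ 2)

/-- normalised weighted cubic sum -/
noncomputable def s3 (q : ℕ) (r m : ℤ) : ℂ := av q fun z => wq q m z * ec q (r * z ^ 3)

lemma wp_nonneg {p : ℕ} (hp : p.Prime) (z : ℤ) : 0 ≤ wp p z := by
  have : (2 : ℝ) ≤ p := by exact_mod_cast hp.two_le
  unfold wp
  split_ifs
  · rfl
  · exact div_nonneg (by linarith) (by linarith)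

lemma wp_le {p : ℕ} (hp : p.Prime) (z : ℤ) : wp p z ≤ 2 := by
  have : (2 : ℝ) ≤ p := by exact_mod_cast hp.two_le
  unfold wp
  split_ifs
  · norm_num
  · rw [div_le_iff₀ (by linarith)]; linarith

lemma wp_congr {p : ℕ} {x y : ℤ} (h : x ≡ y [ZMOD p]) : wp p x = wp p y := by
  unfold wp
  simp only [h.dvd_iff]

lemma wq_nonneg (q : ℕ) (m z : ℤ) : 0 ≤ wq q m z :=
  prod_nonneg fun p hp => by
    split_ifs
    · exact wp_nonneg (Nat.prime_of_mem_primeFactors hp) z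
    · norm_num

lemma wq_le (q : ℕ) (m z : ℤ) : wq q m z ≤ 2 ^ #q.primeFactors := by
  rw [← prod_const]
  refine prod_le_prod (fun p hp => ?_) fun p hp => ?_
  · split_ifs
    · exact wp_nonneg (Nat.prime_of_mem_primeFactors hp) z
    · norm_num
  · split_ifs
    · exact wp_le (Nat.prime_of_mem_primeFactors hp) z
    · norm_num

lemma wq_one (q : ℕ) (z : ℤ) : wq q 1 z = 1 :=
  prod_eq_one fun p hp => if_neg fun h => by
    have := (Nat.prime_of_mem_primeFactors hp).two_le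
    have := Int.le_of_dvd one_pos h
    omega

lemma wq_congr {q : ℕ} {m m' x y : ℤ} (hm : ∀ p ∈ q.primeFactors, (p : ℤ) ∣ m ↔ (p : ℤ) ∣ m')
    (h : x ≡ y [ZMOD q]) : wq q m x = wq q m' y :=
  prod_congr rfl fun p hp => by
    simp only [hm p hp]
    rw [wp_congr (h.of_dvd (Int.natCast_dvd_natCast.2 (Nat.dvd_of_mem_primeFactors hp)))]

lemma dvd_iff_of_modEq {q : ℕ} {m m' : ℤ} (h : m ≡ m' [ZMOD q]) :
    ∀ p ∈ q.primeFactors, (p : ℤ) ∣ m ↔ (p : ℤ) ∣ m' := fun _ hp =>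
  (h.of_dvd (Int.natCast_dvd_natCast.2 (Nat.dvd_of_mem_primeFactors hp))).dvd_iff

lemma wq_mul {q₁ q₂ : ℕ} (h : q₁.Coprime q₂) (m z : ℤ) :
    wq (q₁ * q₂) m z = wq q₁ m z * wq q₂ m z := by
  unfold wq
  rw [h.primeFactors_mul, prod_union h.disjoint_primeFactors]

lemma per_cube (q : ℕ) (r m : ℤ) : Per q fun z => (wq q m z : ℂ) * ec q (r * z ^ 3) :=
  fun x y h => by
    simp only
    rw [wq_congr (fun _ _ => Iff.rfl) h, ec_congr ((h.pow 3).mul_left r)]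

lemma s3_congr {q : ℕ} {r r' m m' : ℤ} (hr : r ≡ r' [ZMOD q])
    (hm : ∀ p ∈ q.primeFactors, (p : ℤ) ∣ m ↔ (p : ℤ) ∣ m') : s3 q r m = s3 q r' m' :=
  av_congr fun z => by rw [wq_congr hm (Int.ModEq.refl z), ec_congr (hr.mul_right _)]

lemma s2_congr {q : ℕ} {c c' : ℤ} (h : c ≡ c' [ZMOD q]) : s2 q c = s2 q c' :=
  av_congr fun _ => ec_congr (h.mul_right _)

lemma norm_s2_le_one (q : ℕ) (c : ℤ) : ‖s2 q c‖ ≤ 1 := norm_av_le zero_le_one fun _ => by simp

lemma norm_s3_le (q : ℕ) (r m : ℤ) : ‖s3 q r m‖ ≤ 2 ^ #q.primeFactors :=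
  norm_av_le (by positivity) fun z => by
    rw [norm_mul, norm_ec, mul_one, Complex.norm_real, Real.norm_of_nonneg (wq_nonneg _ _ _)]
    exact wq_le _ _ _

lemma norm_s3_one_le (q : ℕ) (r : ℤ) : ‖s3 q r 1‖ ≤ 1 :=
  norm_av_le zero_le_one fun z => by simp [wq_one]

lemma s2_sq_mul {q : ℕ} {j : ℤ} (hj : IsCoprime j q) (c : ℤ) : s2 q (c * j ^ 2) = s2 q c := by
  unfold s2
  rw [← av_affine (f := fun x => ec q (c * x ^ 2))
    (fun x y h => ec_congr ((h.pow 2).mul_left c)) hj 0]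
  exact av_congr fun x => by congr 1; ring

lemma s3_split {q₁ q₂ : ℕ} (h : q₁.Coprime q₂) (h₁ : q₁ ≠ 0) (h₂ : q₂ ≠ 0) {k₁ k₂ : ℤ}
    (hk : k₁ * q₂ + k₂ * q₁ = 1) (r m : ℤ) :
    s3 (q₁ * q₂) r m = s3 q₁ (k₁ * r) m * s3 q₂ (k₂ * r) m := by
  unfold s3
  rw [← av_crt h (per_cube _ _ _) (per_cube _ _ _)]
  refine av_congr fun z => ?_
  rw [wq_mul h, ec_split h₁ h₂ hk]
  push_cast
  ring_nf

lemma s2_split {q₁ q₂ : ℕ} (h : q₁.Coprime q₂) (h₁ : q₁ ≠ 0) (h₂ : q₂ ≠ 0) {k₁ k₂ : ℤ}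
    (hk : k₁ * q₂ + k₂ * q₁ = 1) (c : ℤ) :
    s2 (q₁ * q₂) c = s2 q₁ (k₁ * c) * s2 q₂ (k₂ * c) := by
  unfold s2
  rw [← av_crt h (fun x y h => ec_congr ((h.pow 2).mul_left _))
    (fun x y h => ec_congr ((h.pow 2).mul_left _))]
  refine av_congr fun z => ?_
  rw [ec_split h₁ h₂ hk]
  ring_nf

lemma exists_bezout {q₁ q₂ : ℕ} (h : q₁.Coprime q₂) : ∃ k₁ k₂ : ℤ, k₁ * q₂ + k₂ * q₁ = 1 := by
  obtain ⟨a, b, hab⟩ := Nat.isCoprime_iff_coprime.2 h
  exact ⟨b, a, by linarith⟩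

lemma cop_split {q₁ q₂ : ℕ} {k₁ k₂ : ℤ} (hk : k₁ * q₂ + k₂ * q₁ = 1) (r : ℤ) :
    IsCoprime r ((q₁ * q₂ : ℕ) : ℤ) ↔ IsCoprime (k₁ * r) q₁ ∧ IsCoprime (k₂ * r) q₂ := by
  have h1 : IsCoprime k₁ q₁ := ⟨q₂, k₂, by linarith⟩
  have h2 : IsCoprime k₂ q₂ := ⟨q₁, k₁, by linarith⟩
  push_cast
  rw [IsCoprime.mul_right_iff, IsCoprime.mul_left_iff, IsCoprime.mul_left_iff]
  tauto

/-- orthogonality in mean square -/
lemma orth_le {ι : Type*} {q : ℕ} (hq : 0 < q) (S : Finset ι) (γ : ι → ℂ) (m : ι → ℤ) :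
    ∑ r ∈ range q, ‖∑ i ∈ S, γ i * ec q (r * m i)‖ ^ 2 ≤
      q * ∑ i ∈ S, ∑ j ∈ S, if (q : ℤ) ∣ m i - m j then ‖γ i‖ * ‖γ j‖ else 0 := by
  have h1 : ((∑ r ∈ range q, ‖∑ i ∈ S, γ i * ec q (r * m i)‖ ^ 2 : ℝ) : ℂ) =
      ∑ i ∈ S, ∑ j ∈ S, γ i * conj (γ j) * if (q : ℤ) ∣ m i - m j then (q : ℂ) else 0 := by
    push_cast
    simp only [← Complex.mul_conj', map_sum, map_mul, conj_ec, sum_mul_sum]
    simp only [← sum_ec hq, mul_sum]
    rw [sum_comm]
    refine sum_congr rfl fun i _ => ?_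
    rw [sum_comm]
    refine sum_congr rfl fun j _ => sum_congr rfl fun r _ => ?_
    rw [show (m i - m j) * (r : ℤ) = r * m i + -(r * m j) by ring, ec_add]
    ring
  have h2 := congrArg norm h1
  rw [Complex.norm_real, Real.norm_of_nonneg (by positivity)] at h2
  rw [h2, mul_sum]
  refine (norm_sum_le _ _).trans (sum_le_sum fun i _ => ?_)
  rw [mul_sum]
  refine (norm_sum_le _ _).trans (sum_le_sum fun j _ => ?_)
  split_ifs
  · simp [mul_comm]
  · simp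

lemma card_dvd_mul_le {q : ℕ} (hq : 0 < q) (c : ℤ) :
    #((range q).filter fun h : ℕ => (q : ℤ) ∣ c * h) ≤ Int.gcd c q := by
  set g := Int.gcd c q with hg
  have hg0 : 0 < g := Int.gcd_pos_of_ne_zero_right _ (by omega)
  obtain ⟨q', hq'⟩ : g ∣ q := by
    have := Int.gcd_dvd_right c q
    exact_mod_cast this
  obtain ⟨c', hc'⟩ : (g : ℤ) ∣ c := Int.gcd_dvd_left c q
  have hq0 : 0 < q' := Nat.pos_of_mul_pos_left (by rw [← hq']; exact hq)
  have hcop : IsCoprime (q' : ℤ) c' := by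
    rw [Int.isCoprime_iff_gcd_eq_one, Int.gcd_comm]
    have h1 : Int.gcd (g * c') (g * q') = g := by
      rw [← hc']
      have : (g : ℤ) * q' = q := by exact_mod_cast hq'.symm
      rw [this]
    rw [Int.gcd_mul_left, Int.natAbs_natCast] at h1
    exact Nat.eq_of_mul_eq_mul_left hg0 (by rw [h1, mul_one])
  have key : ∀ h : ℕ, (q : ℤ) ∣ c * h → q' ∣ h := by
    intro h hh
    rw [hc', hq', mul_assoc] at hh
    push_cast at hh
    have h1 := Int.dvd_of_mul_dvd_mul_left (by omega) hh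
    exact Int.natCast_dvd_natCast.1 (hcop.dvd_of_dvd_mul_left h1)
  rw [← card_range g]
  refine card_le_card_of_injOn (fun h => h / q') (fun h hh => ?_) fun h hh h' hh' e1 => ?_
  · have := mem_range.1 (mem_filter.1 hh).1
    refine mem_coe.2 (mem_range.2 ?_)
    rw [Nat.div_lt_iff_lt_mul hq0, ← hq']
    exact this
  · have e2 := Nat.div_mul_cancel (key h (mem_filter.1 hh).2)
    have e3 := Nat.div_mul_cancel (key h' (mem_filter.1 hh').2)
    simp only at e1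
    rw [← e2, ← e3, e1]

/-- the bound for complete quadratic sums -/
theorem quad_bound {q : ℕ} (hq : 0 < q) (c t : ℤ) :
    ‖∑ x ∈ range q, ec q (c * x ^ 2 + t * x)‖ ^ 2 ≤ q * Int.gcd (2 * c) q := by
  have hper : ∀ y : ℤ, Per q fun x => ec q (c * x ^ 2 + t * x) * ec q (-(c * y ^ 2 + t * y)) :=
    fun y x x' h => by
      simp only
      rw [ec_congr (((h.pow 2).mul_left c).add (h.mul_left t))]
  have h1 : ((‖∑ x ∈ range q, ec q (c * x ^ 2 + t * x)‖ ^ 2 : ℝ) : ℂ) =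
      ∑ h ∈ range q, ec q (c * h ^ 2 + t * h) * if (q : ℤ) ∣ 2 * c * h then (q : ℂ) else 0 := by
    push_cast
    simp only [← Complex.mul_conj', map_sum, conj_ec, sum_mul_sum]
    simp only [← sum_ec hq, mul_sum]
    rw [sum_comm, sum_comm (f := fun h y : ℕ => ec q (c * h ^ 2 + t * h) * ec q (2 * c * h * y))]
    refine sum_congr rfl fun y _ => ?_
    rw [← sum_shift (hper y) y]
    refine sum_congr rfl fun h _ => ?_
    rw [← ec_add, ← ec_add]
    congr 1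
    ring
  have h2 := congrArg norm h1
  rw [Complex.norm_real, Real.norm_of_nonneg (by positivity)] at h2
  rw [h2]
  refine (norm_sum_le _ _).trans ?_
  have h3 : ∀ h ∈ range q, ‖ec q (c * (h : ℤ) ^ 2 + t * h) *
      if (q : ℤ) ∣ 2 * c * h then (q : ℂ) else 0‖ = if (q : ℤ) ∣ 2 * c * h then (q : ℝ) else 0 := by
    intro h _
    split_ifs <;> simp
  rw [sum_congr rfl h3, ← sum_filter, sum_const, nsmul_eq_mul, mul_comm]
  gcongr
  exact card_dvd_mul_le hq (2 * c)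

lemma norm_s2_sq_le {q : ℕ} (hq : 0 < q) (c : ℤ) : ‖s2 q c‖ ^ 2 ≤ Int.gcd (2 * c) q / q := by
  have hq0 : (0 : ℝ) < q := by exact_mod_cast hq
  have := quad_bound hq c 0
  simp only [zero_mul, add_zero] at this
  unfold s2 av
  rw [norm_div, Complex.norm_natCast, div_pow, div_le_div_iff₀ (by positivity) hq0]
  nlinarith

lemma gcd_twelve_le {q : ℕ} (hq : 0 < q) {r : ℤ} (hr : IsCoprime r q) (a : ℕ) :
    Int.gcd (2 * (6 * a * r)) q ≤ 12 * Nat.gcd a q := by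
  have h1 : Int.gcd (2 * (6 * a * r)) q = Nat.gcd (12 * a) q := by
    rw [show 2 * (6 * (a : ℤ) * r) = ((12 * a : ℕ) : ℤ) * r by push_cast; ring,
      Int.gcd_mul_left_left_of_gcd_eq_one (Int.isCoprime_iff_gcd_eq_one.1 hr), Int.gcd_natCast_natCast]
  rw [h1]
  refine Nat.le_of_dvd (Nat.mul_pos (by norm_num) (Nat.gcd_pos_of_pos_right _ hq)) ?_
  rw [← Nat.gcd_mul_left]
  exact Nat.dvd_gcd (Nat.gcd_dvd_left _ _) ((Nat.gcd_dvd_right _ _).mul_left _)

/-- at most three cube roots modulo a prime -/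
lemma card_cube_roots {p : ℕ} (hp : p.Prime) {r : ℤ} (hr : ¬(p : ℤ) ∣ r) (s : ℤ) :
    #((range p).filter fun x : ℕ => (p : ℤ) ∣ r * x ^ 3 - s) ≤ 3 := by
  have := Fact.mk hp
  have hr0 : (r : ZMod p) ≠ 0 := fun h => hr ((ZMod.intCast_zmod_eq_zero_iff_dvd _ _).1 h)
  set f : Polynomial (ZMod p) := Polynomial.C (r : ZMod p) * Polynomial.X ^ 3 - Polynomial.C (s : ZMod p)
    with hf
  have hdeg : f.natDegree = 3 := by
    rw [hf, Polynomial.natDegree_sub_C, Polynomial.natDegree_C_mul_X_pow _ _ hr0]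
  have hf0 : f ≠ 0 := fun h => by rw [h] at hdeg; simp at hdeg
  calc #((range p).filter fun x : ℕ => (p : ℤ) ∣ r * x ^ 3 - s) ≤ #f.roots.toFinset := by
        refine card_le_card_of_injOn (fun x => (x : ZMod p)) (fun x hx => ?_) fun x hx y hy h => ?_
        · have h1 := (ZMod.intCast_zmod_eq_zero_iff_dvd _ _).2 (mem_filter.1 hx).2
          push_cast at h1
          refine mem_coe.2 (Multiset.mem_toFinset.2 ((Polynomial.mem_roots hf0).2 ?_))
          simp [hf, h1]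
        · have h1 := (ZMod.natCast_eq_natCast_iff' _ _ _).1 h
          rwa [Nat.mod_eq_of_lt (mem_range.1 (mem_filter.1 hx).1),
            Nat.mod_eq_of_lt (mem_range.1 (mem_filter.1 hy).1)] at h1
    _ ≤ 3 := (Multiset.toFinset_card_le _).trans ((Polynomial.card_roots' f).trans hdeg.le)

lemma isCoprime_of_not_dvd {p : ℕ} (hp : p.Prime) {r : ℤ} (hr : ¬(p : ℤ) ∣ r) : IsCoprime r p :=
  ((Nat.prime_iff_prime_int.1 hp).irreducible.coprime_iff_not_dvd.2 hr).symm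

lemma not_dvd_of_isCoprime {p q : ℕ} (hp : p.Prime) (hpq : p ∣ q) {r : ℤ} (hr : IsCoprime r q) :
    ¬(p : ℤ) ∣ r := fun h => by
  have := (hr.isUnit_of_dvd' h (Int.natCast_dvd_natCast.2 hpq))
  exact (Nat.prime_iff_prime_int.1 hp).not_isUnit this

/-- the complete cubic sum -/
noncomputable def T3 (q : ℕ) (r : ℤ) : ℂ := ∑ x ∈ range q, ec q (r * x ^ 3)

lemma T3_mul_cube {q : ℕ} {t : ℤ} (ht : IsCoprime t q) (r : ℤ) : T3 q (r * t ^ 3) = T3 q r := by
  unfold T3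
  rw [← sum_affine (f := fun x => ec q (r * x ^ 3))
    (fun x y h => ec_congr ((h.pow 3).mul_left r)) ht 0]
  exact sum_congr rfl fun x _ => by congr 1; ring

lemma T3_congr {q : ℕ} {r r' : ℤ} (h : r ≡ r' [ZMOD q]) : T3 q r = T3 q r' :=
  sum_congr rfl fun _ _ => ec_congr (h.mul_right _)

theorem T3_prime {p : ℕ} (hp : p.Prime) {r : ℤ} (hr : ¬(p : ℤ) ∣ r) : ‖T3 p r‖ ^ 2 ≤ 12 * p := by
  have hp0 := hp.pos
  have hp2 : (2 : ℝ) ≤ p := by exact_mod_cast hp.two_le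
  have h1 : ∑ s ∈ range p, ‖T3 p s‖ ^ 2 ≤ p * (p * 3) := by
    have := orth_le hp0 (range p) (fun _ => 1) (fun x => (x : ℤ) ^ 3)
    simp only [one_mul, norm_one] at this
    refine this.trans ?_
    gcongr
    rw [sum_comm]
    refine (sum_le_card_nsmul _ _ 3 fun y _ => ?_).trans (by simp)
    rw [← sum_filter, sum_const, nsmul_eq_mul, mul_one]
    have := card_cube_roots hp (r := 1) (fun h => by
      have := Int.le_of_dvd one_pos h
      have := hp.two_le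
      omega) ((y : ℤ) ^ 3)
    simp only [one_mul] at this
    exact_mod_cast this
  have h2 : ∑ s ∈ (range p).erase 0, ‖T3 p s‖ ^ 2 ≤ 2 * p ^ 2 := by
    rw [← add_sum_erase _ _ (mem_range.2 hp0)] at h1
    have : T3 p ((0 : ℕ) : ℤ) = p := by simp [T3]
    rw [this, Complex.norm_natCast] at h1
    linarith
  set i : ℕ → ℕ := fun t => ((r * t ^ 3) % p).toNat with hi0
  have hi : ∀ t, (i t : ℤ) = (r * t ^ 3) % p := fun x =>
    Int.toNat_of_nonneg (Int.emod_nonneg _ (by omega))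
  have hnd : ∀ t ∈ (range p).erase 0, ¬(p : ℤ) ∣ (t : ℤ) := fun t ht h => by
    have h3 := mem_erase.1 ht
    have := Nat.le_of_dvd (by omega) (Int.natCast_dvd_natCast.1 h)
    have := mem_range.1 h3.2
    omega
  have hmap : ∀ t ∈ (range p).erase 0, i t ∈ (range p).erase 0 := by
    intro t ht
    refine mem_erase.2 ⟨fun h => ?_, mem_range.2 ?_⟩
    · have h3 := hi t
      rw [h] at h3
      have h4 : (p : ℤ) ∣ r * t ^ 3 := Int.dvd_of_emod_eq_zero h3.symm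
      rcases (Nat.prime_iff_prime_int.1 hp).dvd_or_dvd h4 with h5 | h5
      · exact hr h5
      · exact hnd t ht ((Nat.prime_iff_prime_int.1 hp).dvd_of_dvd_pow h5)
    · have := Int.emod_lt_of_pos (r * t ^ 3) (by omega : (0 : ℤ) < p)
      rw [← hi] at this
      omega
  have h3 : ∑ t ∈ (range p).erase 0, ‖T3 p (i t)‖ ^ 2 ≤
      3 * ∑ s ∈ (range p).erase 0, ‖T3 p s‖ ^ 2 := by
    rw [← sum_fiberwise_of_maps_to hmap, mul_sum]
    refine sum_le_sum fun s _ => ?_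
    rw [sum_congr rfl (g := fun _ => ‖T3 p s‖ ^ 2) fun t ht => by rw [(mem_filter.1 ht).2],
      sum_const, nsmul_eq_mul]
    gcongr
    refine le_trans ?_ (Nat.cast_le.2 (card_cube_roots hp hr s))
    norm_cast
    refine card_le_card fun t ht => ?_
    obtain ⟨h4, h5⟩ := mem_filter.1 ht
    refine mem_filter.2 ⟨(mem_erase.1 h4).2, ?_⟩
    rw [← h5, hi]
    push_cast
    exact (Int.mod_modEq _ _).dvd
  have h4 : ∀ t ∈ (range p).erase 0, ‖T3 p (i t)‖ ^ 2 = ‖T3 p r‖ ^ 2 := by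
    intro t ht
    rw [hi, T3_congr (Int.mod_modEq _ _), T3_mul_cube (isCoprime_of_not_dvd hp (hnd t ht))]
  rw [sum_congr rfl h4, sum_const, card_erase_of_mem (mem_range.2 hp0), card_range, nsmul_eq_mul,
    Nat.cast_sub hp.one_le] at h3
  push_cast at h3
  nlinarith [sq_nonneg ‖T3 p r‖]

end Pool.Agent.Lib.MP_786755_nt
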