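import Pool.Agent.Lib.MP_786755_nt.Sing

/-! A lower bound for the truncated singular series. -/

namespace Pool.Agent.Lib.MP_786755_nt

open Finset Pool.Agent.Lib.MP_028aa5_nt

/-- the local density modulo `L` -/
noncomputable def dens (L : ℕ) (n : ℤ) : ℂ := ∑ r ∈ range L, cc L r * ec L (-(r * n))

lemma one_le_wq {L : ℕ} {m z : ℤ} (h : ∀ p : ℕ, p.Prime → p ∣ L → (p : ℤ) ∣ m → ¬(p : ℤ) ∣ z) :
    1 ≤ wq L m z := by
  rw [← prod_const_one (s := L.primeFactors)]
  refine prod_le_prod (fun _ _ => zero_le_one) fun p hp => ?_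
  have hp' := Nat.prime_of_mem_primeFactors hp
  have hp2 : (2 : ℝ) ≤ p := by exact_mod_cast hp'.two_le
  split_ifs with h1
  · rw [wp, if_neg (h p hp' (Nat.dvd_of_mem_primeFactors hp) h1), le_div_iff₀ (by linarith)]
    linarith
  · rfl

lemma exists_range {L : ℕ} (hL : L ≠ 0) (x : ℤ) : ∃ y ∈ range L, (y : ℤ) ≡ x [ZMOD L] := by
  have h1 := Int.emod_nonneg x (by omega : (L : ℤ) ≠ 0)
  have h2 := Int.emod_lt_of_pos x (by omega : (0 : ℤ) < L)
  refine ⟨(x % L).toNat, mem_range.2 (by omega), ?_⟩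
  rw [Int.toNat_of_nonneg h1]
  exact Int.mod_modEq _ _

theorem dens_ge {L : ℕ} (hL : L ≠ 0) {n a u z w : ℤ}
    (h1 : 2 * a ^ 3 + 6 * a * u ^ 2 + z ^ 3 + w ^ 3 ≡ n [ZMOD L])
    (h2 : ∀ p : ℕ, p.Prime → p ∣ L → (p : ℤ) ∣ 6 * a → ¬(p : ℤ) ∣ z) :
    ∃ x : ℝ, dens L n = x ∧ 1 / (L : ℝ) ^ 3 ≤ x := by
  have hL0 : (0 : ℝ) < L := by positivity
  have hLc : (L : ℂ) ≠ 0 := by exact_mod_cast hL
  set G : ℕ → ℕ → ℕ → ℕ → ℝ := fun a u z w =>
    if (L : ℤ) ∣ 2 * (a : ℤ) ^ 3 + 6 * a * u ^ 2 + z ^ 3 + w ^ 3 - n then wq L (6 * a) z else 0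
    with hG
  have hG0 : ∀ a u z w, 0 ≤ G a u z w := fun a u z w => by
    simp only [hG]
    split_ifs
    · exact wq_nonneg _ _ _
    · rfl
  refine ⟨(∑ a ∈ range L, ∑ u ∈ range L, ∑ z ∈ range L, ∑ w ∈ range L, G a u z w) / L ^ 3, ?_, ?_⟩
  · have e1 : ∀ r : ℕ, cc L r * ec L (-(r * n)) =
        (∑ a ∈ range L, ∑ u ∈ range L, ∑ z ∈ range L, ∑ w ∈ range L, (wq L (6 * a) z : ℂ) *
          ec L ((2 * (a : ℤ) ^ 3 + 6 * a * u ^ 2 + z ^ 3 + w ^ 3 - n) * r)) / L ^ 4 := by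
      intro r
      rw [eq_div_iff (pow_ne_zero 4 hLc)]
      have e2 : cc L r * ec L (-(r * n)) * L ^ 4 = (∑ a ∈ range L,
          (∑ u ∈ range L, ec L (6 * a * r * u ^ 2)) *
          (∑ z ∈ range L, (wq L (6 * a) z : ℂ) * ec L (r * z ^ 3)) * ec L (r * (2 * a ^ 3))) *
          (∑ w ∈ range L, ec L (r * w ^ 3)) * ec L (-(r * n)) := by
        simp only [cc, psi, s2, s3, av, wq_one, Complex.ofReal_one, one_mul, mul_div_assoc',
          div_mul_eq_mul_div, ← sum_div]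
        field_simp
      rw [e2]
      simp only [sum_mul, mul_sum]
      rw [sum_comm]
      refine sum_congr rfl fun a _ => ?_
      rw [sum_comm, sum_congr rfl fun z _ => sum_comm, sum_comm]
      refine sum_congr rfl fun u _ => sum_congr rfl fun z _ => sum_congr rfl fun w _ => ?_
      rw [show (2 * (a : ℤ) ^ 3 + 6 * a * u ^ 2 + z ^ 3 + w ^ 3 - n) * r =
        6 * a * r * u ^ 2 + r * z ^ 3 + r * (2 * a ^ 3) + r * w ^ 3 + -(r * n) by ring]
      simp only [ec_add]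
      ring
    unfold dens
    simp only [e1]
    rw [← sum_div, sum_comm]
    push_cast
    rw [div_eq_div_iff (pow_ne_zero 4 hLc) (pow_ne_zero 3 hLc), sum_mul, sum_mul]
    refine sum_congr rfl fun a _ => ?_
    rw [sum_comm, sum_mul, sum_mul]
    refine sum_congr rfl fun u _ => ?_
    rw [sum_comm, sum_mul, sum_mul]
    refine sum_congr rfl fun z _ => ?_
    rw [sum_comm, sum_mul, sum_mul]
    refine sum_congr rfl fun w _ => ?_
    rw [← mul_sum, sum_ec (by omega)]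
    simp only [hG]
    split_ifs
    · ring
    · simp
  · gcongr
    obtain ⟨a', ha, ha'⟩ := exists_range hL a
    obtain ⟨u', hu, hu'⟩ := exists_range hL u
    obtain ⟨z', hz, hz'⟩ := exists_range hL z
    obtain ⟨w', hw, hw'⟩ := exists_range hL w
    have e1 : 1 ≤ G a' u' z' w' := by
      have e2 : 2 * (a' : ℤ) ^ 3 + 6 * a' * u' ^ 2 + z' ^ 3 + w' ^ 3 ≡ n [ZMOD L] :=
        (((((ha'.pow 3).mul_left 2).add ((ha'.mul_left 6).mul (hu'.pow 2))).add (hz'.pow 3)).add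
          (hw'.pow 3)).trans h1
      simp only [hG]
      rw [if_pos e2.symm.dvd, wq_congr (dvd_iff_of_modEq (ha'.mul_left 6)) hz']
      exact one_le_wq h2
    refine e1.trans (le_trans ?_ (single_le_sum
      (f := fun a => ∑ u ∈ range L, ∑ z ∈ range L, ∑ w ∈ range L, G a u z w)
      (fun a _ => sum_nonneg fun u _ => sum_nonneg fun z _ => sum_nonneg fun w _ => hG0 _ _ _ _) ha))
    refine le_trans ?_ (single_le_sum (f := fun u => ∑ z ∈ range L, ∑ w ∈ range L, G a' u z w)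
      (fun u _ => sum_nonneg fun z _ => sum_nonneg fun w _ => hG0 _ _ _ _) hu)
    refine le_trans ?_ (single_le_sum (f := fun z => ∑ w ∈ range L, G a' u' z w)
      (fun z _ => sum_nonneg fun w _ => hG0 _ _ _ _) hz)
    exact single_le_sum (f := fun w => G a' u' z' w) (fun w _ => hG0 _ _ _ _) hw

lemma dens_prime {p : ℕ} (hp : p.Prime) (n : ℤ) : dens p n = 1 + An n p := by
  rw [dens, An, ← add_sum_erase _ _ (mem_range.2 hp.pos), ← add_sum_erase _ _ (mem_range.2 hp.pos),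
    if_neg (fun h => not_dvd_of_isCoprime hp dvd_rfl h (by simp))]
  simp only [Nat.cast_zero, zero_mul, neg_zero, ec_zero, mul_one, cc_prime_zero hp, zero_add]
  congr 1
  refine sum_congr rfl fun r hr => (if_pos (isCoprime_of_not_dvd hp fun h => ?_)).symm
  have h3 := mem_erase.1 hr
  have := Nat.le_of_dvd (by omega) (Int.natCast_dvd_natCast.1 h)
  have := mem_range.1 h3.2
  omega

lemma dens_nine (n : ℤ) : dens 9 n = 1 + An n 3 + An n 9 := by
  have h9 : (3 * 3 : ℕ).primeFactors = (3 : ℕ).primeFactors := by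
    rw [← sq, Nat.primeFactors_pow _ two_ne_zero]
  have e : ∀ r : ℤ, cc 9 (3 * r) * ec 9 (-(3 * r * n)) = cc 3 r * ec 3 (-(r * n)) := fun r => by
    have h1 := cc_mul (k := 3) (q := 3) (by norm_num) h9 r
    have h2 := ec_mul_left (k := 3) (by norm_num) 3 (-(r * n))
    push_cast at h1 h2
    rw [h1, ← h2]
    congr 2; ring
  have e0 := e 0
  have e1 := e 1
  have e2 := e 2
  rw [← dens_prime Nat.prime_three]
  simp only [dens, An, sum_range_succ, range_zero, sum_empty, Nat.isCoprime_iff_coprime]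
  norm_num at e0 e1 e2 ⊢
  rw [e0, e1, e2]
  ring

lemma sigma_prime {p : ℕ} (hp : p.Prime) (h3 : p ≠ 3) (n : ℤ) :
    ∃ x : ℝ, 1 + An n p = x ∧ 1 / (p : ℝ) ^ 3 ≤ x := by
  rw [← dens_prime hp]
  have hP := Nat.prime_iff_prime_int.1 hp
  by_cases h2 : p = 2
  · subst h2
    refine dens_ge (a := 0) (u := 0) (z := 1) (w := n - 1) two_ne_zero ?_
      fun l hl _ _ => (Nat.prime_iff_prime_int.1 hl).not_dvd_one
    refine Int.modEq_iff_dvd.2 ?_
    have := Int.even_mul_succ_self (n - 1)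
    exact ((even_iff_two_dvd.1 this).mul_right (2 - n)).trans (dvd_of_eq (by ring))
  have h6 : ¬(p : ℤ) ∣ 6 := fun h => by
    rcases hP.dvd_or_dvd (show (p : ℤ) ∣ 2 * 3 from h) with h | h
    · exact h2 ((Nat.prime_dvd_prime_iff_eq hp Nat.prime_two).1 (by exact_mod_cast h))
    · exact not_dvd_three hp h3 h
  obtain ⟨x, y, hxy⟩ := isCoprime_of_not_dvd hp h6
  refine dens_ge (a := -(x * n)) (u := 0) (z := x * n + 1) (w := x * n - 1) hp.ne_zero
    (Int.modEq_iff_dvd.2 ⟨y * n, by linear_combination (-n) * hxy⟩) fun l hl h1 h4 h5 => ?_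
  obtain rfl := (Nat.prime_dvd_prime_iff_eq hl hp).1 h1
  exact hP.not_dvd_one ((dvd_add_right (dvd_neg.1 ((hP.dvd_or_dvd h4).resolve_left h6))).1 h5)

lemma sigma_nine (n : ℤ) : ∃ x : ℝ, 1 + An n 3 + An n 9 = x ∧ 1 / (9 : ℝ) ^ 3 ≤ x := by
  rw [← dens_nine]
  have key : ∃ a z w : ℤ, 2 * a ^ 3 + 6 * a * 0 ^ 2 + z ^ 3 + w ^ 3 ≡ n [ZMOD (9 : ℕ)] ∧
      (z = 1 ∨ z = -1) := by
    have h1 := Int.emod_nonneg n (by norm_num : (9 : ℤ) ≠ 0)
    have h2 := Int.emod_lt_of_pos n (by norm_num : (0 : ℤ) < 9)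
    unfold Int.ModEq
    push_cast
    generalize n % 9 = k at h1 h2
    interval_cases k
    exacts [⟨0, 1, -1, by decide, by simp⟩, ⟨0, 1, 0, by decide, by simp⟩,
      ⟨0, 1, 1, by decide, by simp⟩, ⟨1, 1, 0, by decide, by simp⟩, ⟨1, 1, 1, by decide, by simp⟩,
      ⟨-1, -1, -1, by decide, by simp⟩, ⟨-1, -1, 0, by decide, by simp⟩,
      ⟨0, -1, -1, by decide, by simp⟩, ⟨0, -1, 0, by decide, by simp⟩]
  obtain ⟨a, z, w, h1, h2⟩ := key
  have := dens_ge (L := 9) (by norm_num) h1 fun l hl _ _ h => by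
    rcases h2 with rfl | rfl
    · exact (Nat.prime_iff_prime_int.1 hl).not_dvd_one h
    · exact (Nat.prime_iff_prime_int.1 hl).not_dvd_one (dvd_neg.1 h)
  exact_mod_cast this

lemma sum_div_mul {R : Type*} [CommSemiring R] (f : ℕ → R)
    (hf : ∀ a b : ℕ, a.Coprime b → f (a * b) = f a * f b) {m n : ℕ} (h : m.Coprime n) :
    ∑ d ∈ (m * n).divisors, f d = (∑ d ∈ m.divisors, f d) * ∑ d ∈ n.divisors, f d := by
  rw [Nat.divisors_mul, mul_def, sum_image h.mul_injOn_divisors, sum_mul_sum, sum_product]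
  exact sum_congr rfl fun a ha => sum_congr rfl fun b hb =>
    hf a b ((h.coprime_dvd_left (Nat.dvd_of_mem_divisors ha)).coprime_dvd_right
      (Nat.dvd_of_mem_divisors hb))

lemma euler {R : Type*} [CommSemiring R] (f : ℕ → R) (h1 : f 1 = 1)
    (hf : ∀ a b : ℕ, a.Coprime b → f (a * b) = f a * f b) (S : Finset ℕ)
    (hS : ∀ p ∈ S, p.Prime ∧ p ≠ 3) :
    ∑ d ∈ (9 * ∏ p ∈ S, p).divisors, f d = (1 + f 3 + f 9) * ∏ p ∈ S, (1 + f p) := by
  induction S using Finset.induction_on with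
  | empty =>
    have : (9 : ℕ).divisors = {1, 3, 9} := by decide
    simp [this, h1, add_assoc]
  | insert p S hpS ih =>
    obtain ⟨hp, h3⟩ := hS p (mem_insert_self _ _)
    have hcop : p.Coprime (9 * ∏ p ∈ S, p) := by
      refine Nat.Coprime.mul_right ?_ (Nat.Coprime.prod_right fun l hl => ?_)
      · exact ((Nat.coprime_primes hp Nat.prime_three).2 h3).pow_right 2
      · exact (Nat.coprime_primes hp (hS l (mem_insert_of_mem hl)).1).2 fun h => hpS (h ▸ hl)
    rw [prod_insert hpS, prod_insert hpS, mul_left_comm, sum_div_mul f hf hcop,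
      ih fun l hl => hS l (mem_insert_of_mem hl), hp.sum_divisors, h1]
    ring

lemma one_sub_sum_le (S : Finset ℕ) (x : ℕ → ℝ) (h0 : ∀ p ∈ S, 0 ≤ x p) (h1 : ∀ p ∈ S, x p ≤ 1) :
    1 - ∑ p ∈ S, x p ≤ ∏ p ∈ S, (1 - x p) := by
  induction S using Finset.induction_on with
  | empty => simp
  | insert p S hpS ih =>
    rw [sum_insert hpS, prod_insert hpS]
    have h2 := ih (fun l hl => h0 l (mem_insert_of_mem hl)) fun l hl => h1 l (mem_insert_of_mem hl)
    have h3 := h0 p (mem_insert_self _ _)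
    have h4 := h1 p (mem_insert_self _ _)
    have h5 : 0 ≤ ∑ p ∈ S, x p := sum_nonneg fun l hl => h0 l (mem_insert_of_mem hl)
    nlinarith

lemma dvd_of_An_ne {n : ℤ} {q Q : ℕ} (hq : q ∈ Icc 1 Q) (h : An n q ≠ 0) :
    q ∣ 9 * ∏ p ∈ (Icc 1 Q).filter (fun p => p.Prime ∧ p ≠ 3), p := by
  obtain ⟨h1, h2⟩ := mem_Icc.1 hq
  have hq0 : q ≠ 0 := by omega
  refine (Nat.dvd_iff_prime_pow_dvd_dvd _ _).2 fun p k hp hk => ?_
  obtain ⟨j, q', hq', rfl⟩ := Nat.exists_eq_pow_mul_and_not_dvd hq0 p hp.ne_one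
  have hcop : (p ^ j).Coprime q' := Nat.Coprime.pow_left _ ((hp.coprime_iff_not_dvd).2 hq')
  have hkj : k ≤ j := (Nat.pow_dvd_pow_iff_le_right hp.one_lt).1
    ((Nat.Coprime.pow_left k ((hp.coprime_iff_not_dvd).2 hq')).dvd_of_dvd_mul_right hk)
  have h3 : ¬((p ≠ 3 ∧ 2 ≤ j) ∨ 3 ≤ j) := fun h3 =>
    h (by rw [An_mul n hcop, An_pow_vanish hp h3, zero_mul])
  by_cases h4 : p = 3
  · subst h4
    exact (pow_dvd_pow 3 (by omega : k ≤ 2)).mul_right _
  · rcases Nat.eq_zero_or_pos k with rfl | hk0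
    · simp
    obtain rfl : k = 1 := by omega
    rw [pow_one] at hk ⊢
    exact (dvd_prod_of_mem _ (mem_filter.2 ⟨mem_Icc.2 ⟨hp.pos,
      (Nat.le_of_dvd h1 hk).trans h2⟩, hp, h4⟩)).mul_left _

lemma An_prime_rpow {p : ℕ} (hp : p.Prime) {n : ℤ} (hn : ¬(p : ℤ) ∣ n) :
    (p : ℝ) ^ (1 / 4 : ℝ) * ‖An n p‖ ≤ 2 ^ 19 * (p : ℝ) ^ (-(5 / 4) : ℝ) := by
  have hp0 : (0 : ℝ) < p := by exact_mod_cast hp.pos
  have h1 : ‖An n p‖ ≤ 2 ^ 19 * (p : ℝ) ^ (-(3 / 2) : ℝ) := by
    refine (pow_le_pow_iff_left₀ (norm_nonneg _) (by positivity) two_ne_zero).1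
      ((An_prime_sq_le hp hn).trans (le_of_eq ?_))
    rw [mul_pow, ← Real.rpow_natCast ((p : ℝ) ^ (-(3 / 2) : ℝ)), ← Real.rpow_mul hp0.le,
      show (-(3 / 2) : ℝ) * (2 : ℕ) = -(3 : ℕ) by norm_num, Real.rpow_neg hp0.le, Real.rpow_natCast]
    ring
  calc _ ≤ (p : ℝ) ^ (1 / 4 : ℝ) * (2 ^ 19 * (p : ℝ) ^ (-(3 / 2) : ℝ)) := by gcongr
    _ = _ := by
      rw [mul_left_comm, ← Real.rpow_add hp0]
      norm_num

theorem sing_lower : ∃ c C : ℝ, 0 < c ∧ 0 < C ∧ ∀ (n Q : ℕ) (E : ℝ), n ≠ 0 →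
    (#n.divisors : ℝ) ≤ E → 1 ≤ Q →
    c / E - C * E ^ 16 / (Q : ℝ) ^ (1 / 4 : ℝ) ≤ ‖∑ q ∈ Icc 1 Q, An n q‖ := by
  set v : ℕ → ℝ := fun m => 2 ^ 19 * (m : ℝ) ^ (-(5 / 4) : ℝ) with hv
  have hv0 : ∀ m, 0 ≤ v m := fun m => by positivity
  have hsum : Summable v := (Real.summable_nat_rpow.2 (by norm_num)).mul_left _
  obtain ⟨s₀, hs₀⟩ := summable_iff_vanishing_norm.1 hsum (1 / 2) (by norm_num)
  set p₀ : ℕ := s₀.sup id + 2 ^ 16 with hp₀
  have hp₀1 : (1 : ℝ) ≤ p₀ := by exact_mod_cast (by omega : 1 ≤ p₀)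
  set K : ℝ := 1 + 9 * 2 ^ 15 + 9 * 18 with hK
  refine ⟨1 / 9 ^ 3 * ((1 / (p₀ : ℝ) ^ 3) ^ p₀ * (1 / 2)), K * Real.exp (∑' m, v m),
    by positivity, by positivity, fun n Q E hn hE hQ => ?_⟩
  have hE1 := one_le_of_div hn hE
  have hQ0 : (0 : ℝ) < Q := by exact_mod_cast hQ
  set S := (Icc 1 Q).filter (fun p => p.Prime ∧ p ≠ 3) with hS
  have hS' : ∀ p ∈ S, p.Prime ∧ p ≠ 3 := fun p hp => (mem_filter.1 hp).2
  set W := 9 * ∏ p ∈ S, p with hW
  have hW0 : W ≠ 0 := mul_ne_zero (by norm_num) (prod_ne_zero_iff.2 fun p hp => (hS' p hp).1.ne_zero)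
  have hsub : ∀ p ∈ S.filter (fun p : ℕ => (p : ℤ) ∣ (n : ℤ)), p ∈ n.primeFactors := fun p hp =>
    Nat.mem_primeFactors.2 ⟨(hS' p (mem_filter.1 hp).1).1,
      Int.natCast_dvd_natCast.1 (mem_filter.1 hp).2, hn⟩
  -- the truncated series
  have h1 : ∑ q ∈ Icc 1 Q, An n q =
      ∑ q ∈ W.divisors, An n q - ∑ q ∈ W.divisors with ¬q ≤ Q, An n q := by
    rw [← sum_filter_add_sum_filter_not W.divisors (fun q => q ≤ Q), add_sub_cancel_right]
    refine (sum_subset (fun q hq => ?_) fun q hq h => ?_).symm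
    · obtain ⟨h2, h3⟩ := mem_filter.1 hq
      exact mem_Icc.2 ⟨Nat.pos_of_mem_divisors h2, h3⟩
    · by_contra h2
      exact h (mem_filter.2 ⟨Nat.mem_divisors.2 ⟨dvd_of_An_ne hq h2, hW0⟩, (mem_Icc.1 hq).2⟩)
  -- the main term
  have h2 : 1 / 9 ^ 3 * ((1 / (p₀ : ℝ) ^ 3) ^ p₀ * (1 / 2)) / E ≤ ‖∑ q ∈ W.divisors, An n q‖ := by
    rw [hW, euler (An n) (An_one n) (fun a b h => An_mul n h) S hS', norm_mul, norm_prod,
      mul_div_assoc]
    obtain ⟨x, hx, hx'⟩ := sigma_nine n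
    refine mul_le_mul (by rw [hx, Complex.norm_real]; exact hx'.trans (le_abs_self _)) ?_
      (by positivity) (norm_nonneg _)
    have hv1 : ∑ p ∈ S with ¬p < p₀, v p ≤ 1 / 2 := by
      refine (le_abs_self _).trans (hs₀ _ (disjoint_left.2 fun p hp h => ?_)).le
      have h3 := (mem_filter.1 hp).2
      have h4 : p ≤ s₀.sup id := le_sup (f := id) h
      omega
    have hv2 : ∀ p ∈ S, ¬p < p₀ → v p ≤ 1 / 2 := fun p hp h =>
      (single_le_sum (fun m _ => hv0 m) (mem_filter.2 ⟨hp, h⟩)).trans hv1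
    have k1 : ∀ p ∈ S, (if p < p₀ then 1 / (p₀ : ℝ) ^ 3 else 1) *
        (if ¬p < p₀ then 1 - v p else 1) * (if (p : ℤ) ∣ (n : ℤ) then 1 / 2 else 1) ≤
        ‖1 + An n p‖ := by
      intro p hp
      obtain ⟨hp1, hp3⟩ := hS' p hp
      have hp0 : (0 : ℝ) < p := by exact_mod_cast hp1.pos
      have k2 : 1 - ‖An n p‖ ≤ ‖1 + An n p‖ := by
        have := norm_sub_le (1 + An n p) (An n p)
        rw [add_sub_cancel_right, norm_one] at this
        linarith
      by_cases h : p < p₀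
      · obtain ⟨y, hy, hy'⟩ := sigma_prime hp1 hp3 n
        have k3 : 1 / (p₀ : ℝ) ^ 3 ≤ ‖1 + An n p‖ := by
          rw [hy, Complex.norm_real]
          refine le_trans ?_ (hy'.trans (le_abs_self _))
          gcongr
        have k4 : 0 ≤ 1 / (p₀ : ℝ) ^ 3 := by positivity
        simp only [h, if_true, not_true, if_false]
        split_ifs <;> linarith
      · simp only [h, if_false, not_false_iff, if_true, one_mul]
        split_ifs with h'
        · have k3 : (65536 : ℝ) ≤ p := by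
            have : 65536 ≤ p := by omega
            exact_mod_cast this
          have k4 : 2 ^ 15 / (p : ℝ) ≤ 1 / 2 := by rw [div_le_iff₀ hp0]; linarith
          have := An_prime_le hp1 n
          have := hv0 p
          linarith
        · have k3 := An_prime_rpow hp1 h'
          have k4 : 1 ≤ (p : ℝ) ^ (1 / 4 : ℝ) :=
            Real.one_le_rpow (by exact_mod_cast hp1.one_le) (by norm_num)
          have k5 := mul_le_mul_of_nonneg_right k4 (norm_nonneg (An n p))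
          have k6 : v p = 2 ^ 19 * (p : ℝ) ^ (-(5 / 4) : ℝ) := rfl
          linarith
    refine le_trans ?_ (prod_le_prod (fun p hp => ?_) k1)
    · rw [prod_mul_distrib, prod_mul_distrib, ← prod_filter, ← prod_filter, ← prod_filter,
        prod_const, prod_const, div_eq_mul_one_div]
      have k2 : (1 / (p₀ : ℝ) ^ 3) ^ p₀ ≤ (1 / (p₀ : ℝ) ^ 3) ^ #(S.filter fun p => p < p₀) := by
        refine pow_le_pow_of_le_one (by positivity) ?_ ?_
        · rw [div_le_one (by positivity)]; exact one_le_pow₀ hp₀1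
        · rw [← card_range p₀]
          exact card_le_card fun p hp => mem_range.2 (by simpa using (mem_filter.1 hp).2)
      have k3 : 1 / 2 ≤ ∏ p ∈ S with ¬p < p₀, (1 - v p) :=
        le_trans (by linarith) (one_sub_sum_le _ v (fun p _ => hv0 p) fun p hp =>
          (hv2 p (mem_filter.1 hp).1 (mem_filter.1 hp).2).trans (by norm_num))
      have k4 : 1 / E ≤ (1 / 2 : ℝ) ^ #(S.filter fun p : ℕ => (p : ℤ) ∣ (n : ℤ)) := by
        rw [one_div_pow]
        gcongr
        refine le_trans (pow_le_pow_right₀ one_le_two (card_le_card hsub)) ?_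
        simpa using pow_omega_le hn hE (c := 2) (k := 1) (by norm_num)
      gcongr
    · refine mul_nonneg (mul_nonneg (by positivity) ?_) (by positivity)
      split_ifs with h
      · norm_num
      · linarith [hv2 p hp h]
  -- the tail
  have h3 : ‖∑ q ∈ W.divisors with ¬q ≤ Q, An n q‖ ≤
      K * Real.exp (∑' m, v m) * E ^ 16 / (Q : ℝ) ^ (1 / 4 : ℝ) := by
    set f : ℕ → ℝ := fun q => (q : ℝ) ^ (1 / 4 : ℝ) * ‖An n q‖ with hf
    have hf0 : ∀ q, 0 ≤ f q := fun q => by positivity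
    have k1 : ‖∑ q ∈ W.divisors with ¬q ≤ Q, An n q‖ * (Q : ℝ) ^ (1 / 4 : ℝ) ≤
        ∑ q ∈ W.divisors, f q := by
      refine le_trans ?_ (sum_le_sum_of_subset_of_nonneg (filter_subset (fun q => ¬q ≤ Q) _)
        fun q _ _ => hf0 q)
      refine (mul_le_mul_of_nonneg_right (norm_sum_le _ _) (by positivity)).trans ?_
      rw [sum_mul]
      refine sum_le_sum fun q hq => ?_
      have : (Q : ℝ) ≤ q := by exact_mod_cast (not_le.1 (mem_filter.1 hq).2).le
      simp only [hf]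
      rw [mul_comm]
      gcongr
    rw [le_div_iff₀ (by positivity)]
    refine k1.trans ?_
    rw [hW, euler f (by simp [hf, An_one]) (fun a b h => by
      simp only [hf]
      rw [An_mul n h, norm_mul, Nat.cast_mul, Real.mul_rpow (by positivity) (by positivity)]
      ring) S hS', mul_assoc]
    have k2 : ∀ m : ℕ, 1 ≤ m → (m : ℝ) ^ (1 / 4 : ℝ) ≤ m := fun m hm => by
      have h : (1 : ℝ) ≤ m := by exact_mod_cast hm
      simpa using Real.rpow_le_rpow_of_exponent_le h (by norm_num : (1 / 4 : ℝ) ≤ 1)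
    refine mul_le_mul ?_ ?_ (prod_nonneg fun p _ => by have := hf0 p; linarith) (by positivity)
    · have k3 := An_prime_le Nat.prime_three n
      have k4 : ‖An n 9‖ ≤ 18 := by
        refine (norm_sum_le _ _).trans
          ((sum_le_card_nsmul _ _ 2 fun (r : ℕ) _ => ?_).trans (by norm_num))
        split_ifs
        · have := norm_cc_le_pow (3 ^ 2) r
          rw [Nat.primeFactors_prime_pow two_ne_zero Nat.prime_three] at this
          simpa using this
        · simp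
      have k5 := mul_le_mul (k2 3 (by norm_num)) k3 (norm_nonneg _) (by positivity)
      have k6 := mul_le_mul (k2 9 (by norm_num)) k4 (norm_nonneg _) (by positivity)
      simp only [hf, hK]
      push_cast at k5 k6 ⊢
      linarith
    · have k3 : ∀ p ∈ S, 1 + f p ≤
          Real.exp (v p) * if (p : ℤ) ∣ (n : ℤ) then (2 : ℝ) ^ 16 else 1 := by
        intro p hp
        have hp1 := (hS' p hp).1
        have hp0 : (0 : ℝ) < p := by exact_mod_cast hp1.pos
        have k4 := Real.add_one_le_exp (v p)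
        split_ifs with h
        · have k5 := mul_le_mul (k2 p hp1.one_le) (An_prime_le hp1 n) (norm_nonneg _) hp0.le
          rw [mul_div_cancel₀ _ hp0.ne'] at k5
          have := hv0 p
          have k6 : f p = (p : ℝ) ^ (1 / 4 : ℝ) * ‖An n p‖ := rfl
          linarith
        · have := An_prime_rpow hp1 h
          simp only [hf, hv] at k4 ⊢
          linarith
      refine (prod_le_prod (fun p _ => by have := hf0 p; linarith) k3).trans ?_
      rw [prod_mul_distrib, ← Real.exp_sum, ← prod_filter, prod_const]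
      gcongr
      · exact hsum.sum_le_tsum _ fun m _ => hv0 m
      · refine le_trans (pow_le_pow_right₀ (by norm_num) (card_le_card hsub)) ?_
        have := pow_omega_le hn hE (c := 2 ^ 16) (k := 16) le_rfl
        rwa [Nat.cast_pow, Nat.cast_ofNat] at this
  rw [h1]
  have := norm_sub_norm_le (∑ q ∈ W.divisors, An n q) (∑ q ∈ W.divisors with ¬q ≤ Q, An n q)
  linarith

end Pool.Agent.Lib.MP_786755_nt
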