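import Pool.Agent.Lib.MP_786755_nt.Int
import Pool.Agent.Lib.MP_786755_nt.Sing2

/-! The error of the model on the arcs with small denominators. -/

namespace Pool.Agent.Lib.MP_786755_nt

open Finset Pool.Agent.Lib.MP_028aa5_nt

lemma sq_three (x y z : ℂ) : ‖x + y + z‖ ^ 2 ≤ 3 * (‖x‖ ^ 2 + ‖y‖ ^ 2 + ‖z‖ ^ 2) := by
  have h : ‖x + y + z‖ ≤ ‖x‖ + ‖y‖ + ‖z‖ := norm_add₃_le
  refine (pow_le_pow_left₀ (norm_nonneg _) h 2).trans ?_
  nlinarith [sq_nonneg (‖x‖ - ‖y‖), sq_nonneg (‖x‖ - ‖z‖), sq_nonneg (‖y‖ - ‖z‖)]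

lemma sum_gcd_Ioc {A q : ℕ} (hq : 0 < q) {E : ℝ} (hE : (#q.divisors : ℝ) ≤ E) :
    ∑ a ∈ Ioc A (2 * A), (Nat.gcd a q : ℝ) ≤ 2 * A * E := by
  refine le_trans (sum_le_sum_of_subset_of_nonneg (fun a ha => ?_) fun _ _ _ => by positivity)
    ((sum_gcd_le hq.ne' (2 * A)).trans (by push_cast; gcongr))
  have := mem_Ioc.1 ha
  exact mem_Icc.2 ⟨by omega, this.2⟩

lemma s3_one_sq {q : ℕ} (hq : 0 < q) {E : ℝ} (hE : (#q.divisors : ℝ) ≤ E) {r : ℤ}
    (hr : IsCoprime r q) : ‖s3 q r 1‖ ^ 2 ≤ E ^ 7 * tq q / q := by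
  refine ((tq_spec hq.ne').2.2 r 1 hr).trans ?_
  gcongr
  exact_mod_cast pow_omega_le hq.ne' hE (c := 128) (k := 7) (by norm_num)

lemma cauchy_Ioc (A : ℕ) (f : ℕ → ℝ) :
    (∑ a ∈ Ioc A (2 * A), f a) ^ 2 ≤ A * ∑ a ∈ Ioc A (2 * A), f a ^ 2 := by
  simpa [show 2 * A - A = A by omega] using sq_sum_le_card_mul_sum_sq (s := Ioc A (2 * A)) (f := f)

section
variable {A U P q : ℕ} {β E : ℝ}

lemma T2_le (hA : 1 ≤ A) (hU : 1 ≤ U) (hP : 1 ≤ P) (hN : A * U ^ 2 = P ^ 3) (hq : 0 < q)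
    (hE : (#q.divisors : ℝ) ≤ E) (hE' : ∀ a ∈ Ioc A (2 * A), (#(6 * a).divisors : ℝ) ≤ E)
    (hβ : |β| * (216 * A * U) ≤ 1) (hβ' : |β| * (38 * P ^ 2) ≤ 1) {r : ℤ} (hr : IsCoprime r q) :
    ‖(∑ a ∈ Ioc A (2 * A), s2 q (6 * a * r) * Fq U a β * e ((r / q + β) * (2 * a ^ 3)) *
      (ga P a (r / q + β) - s3 q r (6 * a) * gc P β)) * s3 q r 1 * gc P β‖ ^ 2 ≤
      10 ^ 9 * E ^ 16 * (A * U * P) ^ 2 * tq q / (1 + P ^ 3 * |β|) ^ 2 := by
  have hE1 := one_le_of_div hq.ne' hE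
  have hq0 : (0 : ℝ) < q := by exact_mod_cast hq
  have hN' : (A * U ^ 2 : ℝ) = P ^ 3 := by exact_mod_cast hN
  set x := (P : ℝ) ^ 3 * |β| with hx
  have hx0 : 0 ≤ x := by positivity
  have h1 : ‖∑ a ∈ Ioc A (2 * A), s2 q (6 * a * r) * Fq U a β * e ((r / q + β) * (2 * a ^ 3)) *
      (ga P a (r / q + β) - s3 q r (6 * a) * gc P β)‖ ≤
      (∑ a ∈ Ioc A (2 * A), ‖s2 q (6 * a * r)‖) * (3192 * E ^ 4 * q * U) := by
    rw [sum_mul]
    refine (norm_sum_le _ _).trans (sum_le_sum fun a ha => ?_)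
    have e1 := Fq_decay hA hU ha hβ
    have e2 := ga_approx hq hP (by have := mem_Ioc.1 ha; omega) hE (hE' a ha) r β
    rw [hN'] at e1
    simp only [norm_mul, norm_e, mul_one, mul_assoc ‖s2 q _‖]
    refine mul_le_mul_of_nonneg_left ((mul_le_mul e1 e2 (norm_nonneg _) (by positivity)).trans ?_)
      (norm_nonneg _)
    calc _ ≤ 6 * U / (1 + x) * (E ^ 4 * (4 * q) * (133 * (1 + x))) := by gcongr; linarith
      _ = _ := by field_simp; ring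
  have h2 : (∑ a ∈ Ioc A (2 * A), ‖s2 q (6 * a * r)‖) ^ 2 ≤ A * (12 / q * (2 * A * E)) := by
    refine (cauchy_Ioc _ _).trans (mul_le_mul_of_nonneg_left ?_ (by positivity))
    refine le_trans ?_ (mul_le_mul_of_nonneg_left (sum_gcd_Ioc hq hE) (by positivity))
    rw [mul_sum]
    refine sum_le_sum fun a _ => (norm_s2_sq_le hq _).trans ?_
    rw [div_mul_eq_mul_div]
    gcongr
    exact_mod_cast gcd_twelve_le hq hr a
  have h3 := pow_le_pow_left₀ (norm_nonneg _) h1 2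
  have h4 := pow_le_pow_left₀ (norm_nonneg _) (gc_decay hP hβ') 2
  rw [mul_pow] at h3
  rw [norm_mul, norm_mul, mul_pow, mul_pow]
  calc _ ≤ A * (12 / q * (2 * A * E)) * (3192 * E ^ 4 * q * U) ^ 2 * (E ^ 7 * tq q / q) *
        (2 * P / (1 + x)) ^ 2 := by
        gcongr
        · exact h3.trans (by gcongr)
        · exact s3_one_sq hq hE hr
    _ = 978130944 * E ^ 16 * (A * U * P) ^ 2 * tq q / (1 + x) ^ 2 := by field_simp; ring
    _ ≤ _ := by gcongr; norm_num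

lemma gamma_var (hAU : A ≤ U) {a : ℕ} (ha : a < 2 * A) :
    ‖Fq U (a + 1) β * e (β * (2 * (a + 1 : ℕ) ^ 3)) - Fq U a β * e (β * (2 * a ^ 3))‖ ≤
      2520 * U ^ 3 * |β| := by
  simp only [Fq, sum_mul, ← sum_sub_distrib, ← e_add]
  refine (norm_sum_le _ _).trans ((sum_le_card_nsmul _ _ (7 * (|β| * (120 * U ^ 2)))
    fun u hu => (norm_e_sub_le _ _).trans ?_).trans (le_of_eq ?_))
  · have h1 : (u : ℝ) ≤ 4 * U := by exact_mod_cast (mem_Ioc.1 hu).2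
    have h2 : (a : ℝ) + 1 ≤ 2 * U := by exact_mod_cast (by omega : a + 1 ≤ 2 * U)
    have h3 := pow_le_pow_left₀ (by positivity) h1 2
    have h4 := pow_le_pow_left₀ (by positivity) h2 2
    have h5 : (0 : ℝ) ≤ a := by positivity
    push_cast
    rw [show β * (6 * ((a : ℝ) + 1) * u ^ 2) + β * (2 * (a + 1) ^ 3) -
      (β * (6 * a * u ^ 2) + β * (2 * a ^ 3)) = β * (6 * u ^ 2 + 6 * a ^ 2 + 6 * a + 2) by ring,
      abs_mul, abs_of_nonneg (by positivity : (0 : ℝ) ≤ 6 * u ^ 2 + 6 * a ^ 2 + 6 * a + 2)]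
    gcongr
    nlinarith
  · rw [Nat.card_Ioc, show 4 * U - U = 3 * U by omega, nsmul_eq_mul]
    push_cast
    ring

lemma T3_le {Q k : ℕ} (hAU : A ≤ U) (hN : A * U ^ 2 = P ^ 3) (hq : 0 < q)
    (hE : (#q.divisors : ℝ) ≤ E) (hk : 1 ≤ k) (hQ : A ≤ k * Q) :
    ∑ r ∈ Rq q, ‖∑ a ∈ Ioc A (2 * A), (psi q r a - if q ≤ Q then av q (psi q r) else 0) *
      (Fq U a β * e (β * (2 * a ^ 3)))‖ ^ 2 ≤
      5 * 10 ^ 9 * E ^ 15 * tq q * (U * k * (1 + P ^ 3 * |β|)) ^ 2 := by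
  have hE1 := one_le_of_div hq.ne' hE
  have hq0 : (0 : ℝ) < q := by exact_mod_cast hq
  have hN' : (A * U ^ 2 : ℝ) = P ^ 3 := by exact_mod_cast hN
  have hk' : (1 : ℝ) ≤ k := by exact_mod_cast hk
  set x := (P : ℝ) ^ 3 * |β| with hx
  have hx0 : 0 ≤ x := by positivity
  have hγ : ∀ a : ℕ, ‖Fq U a β * e (β * (2 * a ^ 3))‖ ≤ 3 * U := fun a => by
    simpa using norm_Fq_le U a β
  split_ifs with h
  · refine (abel_sq (Rq q) (fun (r : ℕ) (a : ℕ) => psi q r a - av q (psi q r))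
      (fun a => Fq U a β * e (β * (2 * a ^ 3))) (by omega) (D := 768 * E ^ 15 * tq q)
      (V := 2520 * U * (1 + x)) (fun y hy _ => ?_) ?_).trans ?_
    · have e1 : ∀ r : ℕ, ‖∑ a ∈ Ioc A y, (psi q r a - av q (psi q r))‖ ^ 2 ≤
          2 * ‖∑ a ∈ Ioc 0 y, psi q r a - y * av q (psi q r)‖ ^ 2 +
          2 * ‖∑ a ∈ Ioc 0 A, psi q r a - A * av q (psi q r)‖ ^ 2 := fun r => by
        have e2 : ∑ a ∈ Ioc A y, (psi q r a - av q (psi q r)) =
            (∑ a ∈ Ioc 0 y, psi q r a - y * av q (psi q r)) -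
            (∑ a ∈ Ioc 0 A, psi q r a - A * av q (psi q r)) := by
          rw [sum_sub_distrib, ← sum_Ioc_consecutive _ (Nat.zero_le A) hy, sum_const, Nat.card_Ioc,
            nsmul_eq_mul, Nat.cast_sub hy]
          ring
        rw [e2]
        refine (pow_le_pow_left₀ (norm_nonneg _) (norm_sub_le _ _) 2).trans ?_
        nlinarith [sq_nonneg (‖∑ a ∈ Ioc 0 y, psi q r a - y * av q (psi q r)‖ -
          ‖∑ a ∈ Ioc 0 A, psi q r a - A * av q (psi q r)‖)]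
      refine (sum_le_sum fun r _ => e1 r).trans ?_
      rw [sum_add_distrib, ← mul_sum, ← mul_sum]
      linarith [psi_disc hq hE y, psi_disc hq hE A]
    · have e1 := sum_le_card_nsmul (Ico A (2 * A)) _ _ fun a ha =>
        gamma_var (β := β) hAU (mem_Ico.1 ha).2
      rw [Nat.card_Ico, show 2 * A - A = A by omega, nsmul_eq_mul,
        show A * (2520 * (U : ℝ) ^ 3 * |β|) = 2520 * U * (A * U ^ 2 * |β|) by ring, hN'] at e1
      have : (0 : ℝ) ≤ U := by positivity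
      linarith [hγ (2 * A)]
    · calc _ = 4877107200 * E ^ 15 * tq q * (U * 1 * (1 + x)) ^ 2 := by ring
        _ ≤ _ := by gcongr; norm_num
  · simp only [sub_zero]
    refine (psi_ms (Y := 2 * A) hq hE _ (fun a ha => ?_) _ fun a _ => hγ a).trans ?_
    · have := mem_Ioc.1 ha
      exact mem_Icc.2 ⟨by omega, this.2⟩
    have e1 : (A : ℝ) / q ≤ k := by
      rw [div_le_iff₀ hq0]
      exact_mod_cast hQ.trans (Nat.mul_le_mul_left _ (by omega))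
    calc _ = 432 * E ^ 15 * tq q * (U ^ 2 * ((A / q) * (2 * (A / q) + 1))) := by
          push_cast; ring
      _ ≤ 432 * E ^ 15 * tq q * (U ^ 2 * (k * (2 * k + k))) := by gcongr
      _ = 1296 * E ^ 15 * tq q * (U * k * 1) ^ 2 := by ring
      _ ≤ _ := by gcongr <;> linarith

lemma T4_le {δ : ℝ} (hδ : 0 < δ) (hA : 1 ≤ A) (hU : 1 ≤ U) (hP : 1 ≤ P) (hN : A * U ^ 2 = P ^ 3)
    (hq : 0 < q) (hE : (#q.divisors : ℝ) ≤ E) (hβ : |β| * (216 * A * U) ≤ 1)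
    (hβ' : |β| * (38 * P ^ 2) ≤ 1) (r : ℤ) :
    ‖(1 - tent δ β) * cc q r * f0 A U P β‖ ^ 2 ≤
      (24 * E * A * U * P ^ 2 / (P ^ 3 * δ)) ^ 2 / (1 + P ^ 3 * |β|) ^ 2 := by
  have hE1 := one_le_of_div hq.ne' hE
  have hN' : (A * U ^ 2 : ℝ) = P ^ 3 := by exact_mod_cast hN
  have hP0 : (0 : ℝ) < P := by exact_mod_cast hP
  set x := (P : ℝ) ^ 3 * |β| with hx
  have hx0 : 0 ≤ x := by positivity
  rw [← div_pow]
  refine pow_le_pow_left₀ (norm_nonneg _) ?_ 2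
  have h1 : ‖1 - (tent δ β : ℂ)‖ ≤ (1 + x) / (P ^ 3 * δ) := by
    rw [← Complex.ofReal_one, ← Complex.ofReal_sub, Complex.norm_real]
    calc _ ≤ _ := one_sub_tent hδ β
      _ = x / (P ^ 3 * δ) := by rw [hx]; field_simp
      _ ≤ _ := by gcongr; linarith
  have h2 : ‖cc q r‖ ≤ E := (norm_cc_le_pow q r).trans (by
    simpa using pow_omega_le hq.ne' hE (c := 2) (k := 1) (by norm_num))
  have h3 : ‖∑ a ∈ Ioc A (2 * A), Fq U a β * e (β * (2 * a ^ 3))‖ ≤ A * (6 * U / (1 + x)) := by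
    refine (norm_sum_le _ _).trans ((sum_le_card_nsmul _ _ (6 * U / (1 + x)) fun a ha => ?_).trans
      (by simp [show 2 * A - A = A by omega]))
    have := Fq_decay hA hU ha hβ
    rw [hN'] at this
    simpa using this
  have h4 := gc_decay hP hβ'
  have h5 : ‖gc P β‖ ≤ 2 * P := (norm_gc_le P β).trans (by linarith)
  rw [f0, sq, norm_mul, norm_mul, norm_mul, norm_mul]
  calc _ ≤ (1 + x) / (P ^ 3 * δ) * E * (A * (6 * U / (1 + x)) * (2 * P * (2 * P / (1 + x)))) := by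
        gcongr
    _ = _ := by field_simp; ring

end

/-- the error of the model near `r / q` -/
noncomputable def Low (A U P Q : ℕ) (δ : ℝ) (q : ℕ) (r : ℤ) (β : ℝ) : ℂ :=
  Hs A U P q r β * s3 q r 1 * gc P β - if q ≤ Q then cc q r * tent δ β * f0 A U P β else 0

@[fun_prop] lemma continuous_Low (A U P Q : ℕ) (δ : ℝ) (q : ℕ) (r : ℤ) :
    Continuous (Low A U P Q δ q r) := by
  unfold Low
  split_ifs <;> fun_prop

theorem low_bound {A U P Q Q' k M : ℕ} {β E δ : ℝ} (hδ : 0 < δ) (hA : 1 ≤ A) (hAU : A ≤ U)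
    (hP : 1 ≤ P) (hN : A * U ^ 2 = P ^ 3) (hk : 1 ≤ k) (hQ : A ≤ k * Q)
    (hE : ∀ m, 1 ≤ m → m ≤ M → (#m.divisors : ℝ) ≤ E) (hL : 1 + Real.log Q' ≤ E) (hE1 : 1 ≤ E)
    (hQ' : Q' ≤ M) (hAM : 12 * A ≤ M) (hβ : |β| * (216 * A * U) ≤ 1)
    (hβ' : |β| * (38 * P ^ 2) ≤ 1) :
    ∑ q ∈ Icc 1 Q', ∑ r ∈ Rq q, ‖Low A U P Q δ q r β‖ ^ 2 ≤
      10 ^ 12 * E ^ 24 * ((A * U * P * Q') ^ 2 + (U * k * P ^ 2) ^ 2 +
        (A * U * P ^ 2 * Q / (P ^ 3 * δ)) ^ 2) / (1 + P ^ 3 * |β|) ^ 2 := by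
  have hU : 1 ≤ U := hA.trans hAU
  have hP0 : (0 : ℝ) < P := by exact_mod_cast hP
  set x := (P : ℝ) ^ 3 * |β| with hx
  have hx0 : 0 ≤ x := by positivity
  set c₁ := 6 * 10 ^ 9 * E ^ 16 * (A * U * P * Q') ^ 2 / (1 + x) ^ 2 with hc₁
  set c₂ := 24 * 10 ^ 10 * E ^ 22 * (U * k * P ^ 2) ^ 2 / (1 + x) ^ 2 with hc₂
  set c₃ := (24 * E * A * U * P ^ 2 / (P ^ 3 * δ)) ^ 2 / (1 + x) ^ 2 with hc₃
  have h1 : ∀ q ∈ Icc 1 Q', ∑ r ∈ Rq q, ‖Low A U P Q δ q r β‖ ^ 2 ≤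
      (c₁ + c₂) * ((tq q : ℝ) ^ 2 / q) + if q ≤ Q then 6 * Q * c₃ else 0 := by
    intro q hq
    obtain ⟨hq1, hq2⟩ := mem_Icc.1 hq
    have hq0 : (0 : ℝ) < q := by exact_mod_cast hq1
    have hq3 : (q : ℝ) ≤ Q' := by exact_mod_cast hq2
    have hEq := hE q hq1 (hq2.trans hQ')
    have ht : (1 : ℝ) ≤ tq q := by exact_mod_cast (tq_spec (by omega : q ≠ 0)).1
    set B : ℕ → ℂ := fun r => ∑ a ∈ Ioc A (2 * A), (psi q r a -
      if q ≤ Q then av q (psi q r) else 0) * (Fq U a β * e (β * (2 * a ^ 3))) with hB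
    have e1 : ∀ r ∈ Rq q, ‖Low A U P Q δ q r β‖ ^ 2 ≤
        3 * (10 ^ 9 * E ^ 16 * (A * U * P) ^ 2 * tq q / (1 + x) ^ 2 +
          ‖B r‖ ^ 2 * (E ^ 7 * tq q / q * ((2 * P / (1 + x)) ^ 2) ^ 2) +
          if q ≤ Q then c₃ else 0) := by
      intro r hr
      have e2 : Low A U P Q δ q r β = (∑ a ∈ Ioc A (2 * A), s2 q (6 * a * r) * Fq U a β *
          e (((r : ℤ) / q + β) * (2 * a ^ 3)) *
          (ga P a ((r : ℤ) / q + β) - s3 q r (6 * a) * gc P β)) * s3 q r 1 * gc P β +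
          B r * (s3 q r 1 * gc P β ^ 2) +
          if q ≤ Q then (1 - tent δ β) * cc q r * f0 A U P β else 0 := by
        have e3 : ∀ a : ℕ, e (((r : ℤ) / q + β) * (2 * a ^ 3)) =
            ec q (r * (2 * a ^ 3)) * e (β * (2 * a ^ 3)) := fun a => by
          have := e_add_div q r (2 * a ^ 3) β
          rwa [show ((2 * (a : ℤ) ^ 3 : ℤ) : ℝ) = 2 * a ^ 3 by push_cast; ring] at this
        have e4 : Hs A U P q r β = ∑ a ∈ Ioc A (2 * A), s2 q (6 * a * r) * Fq U a β *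
            e (((r : ℤ) / q + β) * (2 * a ^ 3)) *
            (ga P a ((r : ℤ) / q + β) - s3 q r (6 * a) * gc P β) +
            (∑ a ∈ Ioc A (2 * A), psi q r a * (Fq U a β * e (β * (2 * a ^ 3)))) * gc P β := by
          rw [Hs, sum_mul, ← sum_add_distrib]
          refine sum_congr rfl fun a _ => ?_
          rw [e3, psi]
          ring
        simp only [Low, e4, hB, sub_mul, sum_sub_distrib, ← mul_sum, cc, f0]
        split_ifs <;> ring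
      rw [e2]
      refine (sq_three _ _ _).trans (mul_le_mul_of_nonneg_left (add_le_add (add_le_add
        (T2_le hA hU hP hN hq1 hEq (fun a ha => ?_) hβ hβ' (Rq_cop hr)) ?_) ?_) (by norm_num))
      · have := mem_Ioc.1 ha
        exact hE _ (by omega) (by omega)
      · rw [norm_mul, norm_mul, norm_pow, mul_pow, mul_pow]
        gcongr
        · exact s3_one_sq hq1 hEq (Rq_cop hr)
        · exact gc_decay hP hβ'
      · split_ifs
        · exact T4_le hδ hA hU hP hN hq1 hEq hβ hβ' r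
        · simp
    refine (sum_le_sum e1).trans ?_
    rw [← mul_sum, sum_add_distrib, sum_add_distrib, ← sum_mul, sum_const, sum_const, nsmul_eq_mul,
      nsmul_eq_mul, mul_add, mul_add, add_mul]
    have e2 := card_Rq q
    refine add_le_add (add_le_add ?_ ?_) ?_
    · calc _ ≤ 3 * (2 * q * (10 ^ 9 * E ^ 16 * (A * U * P) ^ 2 * tq q / (1 + x) ^ 2)) := by gcongr
        _ = 6 * 10 ^ 9 * E ^ 16 * (A * U * P * q) ^ 2 / (1 + x) ^ 2 * (tq q * 1 / q) := by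
          field_simp; ring
        _ ≤ _ := by rw [hc₁, sq (tq q : ℝ)]; gcongr
    · calc _ ≤ 3 * (5 * 10 ^ 9 * E ^ 15 * tq q * (U * k * (1 + x)) ^ 2 *
            (E ^ 7 * tq q / q * ((2 * P / (1 + x)) ^ 2) ^ 2)) := by
            gcongr
            exact T3_le hAU hN hq1 hEq hk hQ
        _ = _ := by rw [hc₂]; field_simp; ring
    · split_ifs with h
      · have : (q : ℝ) ≤ Q := by exact_mod_cast h
        calc _ ≤ 3 * (2 * Q * c₃) := by gcongr; linarith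
          _ = _ := by ring
      · simp
  refine (sum_le_sum h1).trans ?_
  rw [sum_add_distrib, ← mul_sum, ← sum_filter, sum_const, nsmul_eq_mul]
  have h2 : (#((Icc 1 Q').filter fun q => q ≤ Q) : ℝ) ≤ Q := by
    have : #((Icc 1 Q').filter fun q => q ≤ Q) ≤ #(Icc 1 Q) := card_le_card fun q hq =>
      mem_Icc.2 ⟨(mem_Icc.1 (mem_filter.1 hq).1).1, (mem_filter.1 hq).2⟩
    simpa using this
  have h3 : ∑ q ∈ Icc 1 Q', (tq q : ℝ) ^ 2 / q ≤ E ^ 2 := (sum_tq_le Q').trans (by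
    have := Real.log_natCast_nonneg Q'
    gcongr)
  calc _ ≤ (c₁ + c₂) * E ^ 2 + Q * (6 * Q * c₃) := by gcongr
    _ = (6 * 10 ^ 9 * E ^ 18 * (A * U * P * Q') ^ 2 + 24 * 10 ^ 10 * E ^ 24 * (U * k * P ^ 2) ^ 2 +
        3456 * E ^ 2 * (A * U * P ^ 2 * Q / (P ^ 3 * δ)) ^ 2) / (1 + x) ^ 2 := by
      rw [hc₁, hc₂, hc₃]; ring
    _ ≤ _ := by
      rw [mul_add, mul_add]
      gcongr <;> norm_num

end Pool.Agent.Lib.MP_786755_nt
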