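import Pool.Agent.Lib.MP_786755_nt.Low

/-! The mean square of the difference between the generating function and its model. -/

namespace Pool.Agent.Lib.MP_786755_nt

open Finset Pool.Agent.Lib.MP_028aa5_nt MeasureTheory

/-- the generating function -/
noncomputable def ff (A U P : ℕ) (α : ℝ) : ℂ :=
  (∑ a ∈ Ioc A (2 * A), Fq U a α * e (α * (2 * a ^ 3)) * ga P a α) * gc P α

/-- the model -/
noncomputable def MM (A U P Q : ℕ) (δ α : ℝ) : ℂ :=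
  ∑ q ∈ Icc 1 Q, ∑ r ∈ (Icc 1 q).filter fun r => r.Coprime q,
    cc q r * tent δ (α - r / q) * f0 A U P (α - r / q)

/-- the sum of the squares of the products of cubic sums -/
noncomputable def Zs (A P : ℕ) (α : ℝ) : ℝ := ∑ a ∈ Ioc A (2 * A), ‖ga P a α * gc P α‖ ^ 2

@[fun_prop] lemma continuous_ff (A U P : ℕ) : Continuous (ff A U P) := by unfold ff; fun_prop

@[fun_prop] lemma continuous_MM (A U P Q : ℕ) (δ : ℝ) : Continuous (MM A U P Q δ) := by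
  unfold MM; fun_prop

@[fun_prop] lemma continuous_Zs (A P : ℕ) : Continuous (Zs A P) := by unfold Zs; fun_prop

lemma Zs_nonneg (A P : ℕ) (α : ℝ) : 0 ≤ Zs A P α := sum_nonneg fun _ _ => by positivity

lemma cs_Z (A P : ℕ) (α : ℝ) (F : ℕ → ℂ) :
    ‖(∑ a ∈ Ioc A (2 * A), F a * e (α * (2 * a ^ 3)) * ga P a α) * gc P α‖ ^ 2 ≤
      (∑ a ∈ Ioc A (2 * A), ‖F a‖ ^ 2) * Zs A P α := by
  refine le_trans (pow_le_pow_left₀ (norm_nonneg _) ?_ 2) (sum_mul_sq_le_sq_mul_sq _ _ _)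
  rw [sum_mul]
  refine (norm_sum_le _ _).trans (sum_le_sum fun a _ => le_of_eq ?_)
  simp [mul_assoc]

lemma dirich (α : ℝ) {Y : ℕ} (hY : 0 < Y) : ∃ (q : ℕ) (r : ℤ), 1 ≤ q ∧ q ≤ Y ∧ IsCoprime r q ∧
    |α - r / q| * (Y * q) ≤ 1 ∧ |α - r / q| ≤ 1 / (q : ℝ) ^ 2 := by
  obtain ⟨x, h1, h2⟩ := Real.exists_rat_abs_sub_le_and_den_le α hY
  have h3 : (0 : ℝ) < x.den := by exact_mod_cast x.pos
  have h4 : (x.den : ℝ) ≤ Y := by exact_mod_cast h2
  rw [Rat.cast_def, le_div_iff₀ (by positivity)] at h1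
  have h5 := abs_nonneg (α - x.num / x.den)
  refine ⟨x.den, x.num, x.pos, h2, Int.isCoprime_iff_gcd_eq_one.2 x.reduced,
    le_trans (by gcongr; linarith) h1, ?_⟩
  rw [le_div_iff₀ (by positivity), sq]
  exact le_trans (by gcongr; linarith) h1

lemma weyl2 {α E T : ℝ} {q P : ℕ} {r : ℤ} (hq : 1 ≤ q) (hr : IsCoprime r q)
    (hα : |α - r / q| ≤ 1 / (q : ℝ) ^ 2)
    (hE : ∀ k, 1 ≤ k → k ≤ 6 * P * P → (#k.divisors : ℝ) ≤ E) (hE1 : 1 ≤ E) (hP : 1 ≤ P)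
    (hL : 1 + Real.log q ≤ E) (hT : 1 ≤ T) (h1 : P ≤ q * T) (h2 : q ≤ P ^ 2 * T) {V : ℝ}
    (hV : P ^ 3 * T = V ^ 2) (hV0 : 0 ≤ V) : ‖gc P α‖ ^ 2 ≤ 55 * E * V := by
  have hq0 : (0 : ℝ) < q := by exact_mod_cast hq
  have hP1 : (1 : ℝ) ≤ P := by exact_mod_cast hP
  refine (pow_le_pow_iff_left₀ (by positivity) (by positivity) two_ne_zero).1 ?_
  rw [← pow_mul, mul_pow, ← hV]
  refine (weyl_cube hq hr hα hE (by linarith)).trans ?_
  have e1 : (12 * (P : ℝ) ^ 2 / q + 1) * (3 * P + 4 * q * (1 + Real.log q)) ≤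
      91 * (P ^ 2 * T * E) := by
    have e2 : (P : ℝ) / q ≤ T := by rw [div_le_iff₀ hq0]; linarith
    have e3 : (P : ℝ) ^ 2 * (P / q) ≤ P ^ 2 * T * E :=
      le_trans (by gcongr) (le_mul_of_one_le_right (by positivity) hE1)
    have e4 : (P : ℝ) ^ 2 * E ≤ P ^ 2 * T * E := by
      gcongr; exact le_mul_of_one_le_right (by positivity) hT
    have e5 : (P : ℝ) ≤ P ^ 2 * E := by nlinarith
    have e6 : q * E ≤ P ^ 2 * T * E := by gcongr
    calc _ ≤ (12 * (P : ℝ) ^ 2 / q + 1) * (3 * P + 4 * q * E) := by gcongr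
      _ = 36 * (P ^ 2 * (P / q)) + 48 * (P ^ 2 * E) + 3 * P + 4 * (q * E) := by field_simp; ring
      _ ≤ _ := by linarith
  have e2 : (P : ℝ) ^ 3 ≤ E ^ 2 * (P ^ 3 * T) :=
    (le_mul_of_one_le_right (by positivity) hT).trans
      (le_mul_of_one_le_left (by positivity) (one_le_pow₀ hE1))
  calc _ ≤ 10 * (E ^ 2 * (P ^ 3 * T)) + 32 * P * E * (91 * (P ^ 2 * T * E)) := by gcongr
    _ = 2922 * (E ^ 2 * (P ^ 3 * T)) := by ring
    _ ≤ 3025 * (E ^ 2 * (P ^ 3 * T)) := by gcongr; norm_num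
    _ = _ := by ring

lemma far2 {α E : ℝ} {q A U : ℕ} {r : ℤ} (hr : IsCoprime r q)
    (hα : |α - r / q| ≤ 1 / (q : ℝ) ^ 2)
    (hE : ∀ k, 1 ≤ k → k ≤ 12 * (2 * A) * (3 * U) → (#k.divisors : ℝ) ≤ E) (hE1 : 1 ≤ E)
    (hL : 1 + Real.log q ≤ E) (hA : 1 ≤ A) (hU : 1 ≤ U) (h1 : U ≤ q) (h2 : q ≤ 216 * A * U)
    (P : ℕ) : ‖ff A U P α‖ ^ 2 ≤ 11000 * E ^ 3 * (A * U) * Zs A P α := by
  have hq0 : (0 : ℝ) < q := by exact_mod_cast hU.trans h1
  have hA1 : (1 : ℝ) ≤ A := by exact_mod_cast hA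
  refine (cs_Z A P α _).trans (mul_le_mul_of_nonneg_right
    ((far_bound (hU.trans h1) hr hα hE (by linarith)).trans ?_) (Zs_nonneg _ _ _))
  have e0 : (A * U : ℝ) ≤ A * U * E := le_mul_of_one_le_right (by positivity) hE1
  have e1 : (144 * (A : ℝ) * U / q + 1) * (9 * U + 4 * q * (1 + Real.log q)) ≤
      2745 * (A * U * E) := by
    have e2 : (U : ℝ) / q ≤ 1 := by rw [div_le_one hq0]; exact_mod_cast h1
    have e3 : (A * U : ℝ) * (U / q) ≤ A * U := mul_le_of_le_one_right (by positivity) e2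
    have e5 : (U : ℝ) ≤ A * U := le_mul_of_one_le_left (by positivity) hA1
    have e6 : (q : ℝ) * E ≤ 216 * A * U * E := by gcongr; exact_mod_cast h2
    calc _ ≤ (144 * (A : ℝ) * U / q + 1) * (9 * U + 4 * q * E) := by gcongr
      _ = 1296 * (A * U * (U / q)) + 576 * (A * U * E) + 9 * U + 4 * (q * E) := by
        field_simp; ring
      _ ≤ _ := by linarith
  have e2 : (1 : ℝ) ≤ E ^ 3 := one_le_pow₀ hE1
  have e3 : E ^ 2 ≤ E ^ 3 := pow_le_pow_right₀ hE1 (by norm_num)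
  calc _ ≤ 3 * A * U + 4 * E * (2745 * (A * U * E)) := by gcongr
    _ = (3 + 10980 * E ^ 2) * (A * U) := by ring
    _ ≤ _ := by gcongr; linarith

lemma near2 {β E : ℝ} {q A U : ℕ} {r : ℤ} (hq : 1 ≤ q) (hr : IsCoprime r q)
    (hE : (#q.divisors : ℝ) ≤ E) (hL : 1 + Real.log q ≤ E) (h1 : q ≤ U)
    (hβ : |β| * (216 * A * U * q) ≤ 1) (P : ℕ) :
    ‖ff A U P (r / q + β) - Hs A U P q r β * gc P (r / q + β)‖ ^ 2 ≤
      11000 * E ^ 3 * (A * U) * Zs A P (r / q + β) := by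
  have hE1 := one_le_of_div (by omega) hE
  have e1 : ff A U P (r / q + β) - Hs A U P q r β * gc P (r / q + β) =
      (∑ a ∈ Ioc A (2 * A), (Fq U a (r / q + β) - s2 q (6 * a * r) * Fq U a β) *
        e ((r / q + β) * (2 * a ^ 3)) * ga P a (r / q + β)) * gc P (r / q + β) := by
    simp only [ff, Hs, sub_mul, sum_sub_distrib]
  rw [e1]
  refine (cs_Z A P _ _).trans (mul_le_mul_of_nonneg_right ((sum_le_sum fun a ha =>
    Fq_approx hq hr (hq.trans h1) (mem_Ioc.1 ha).2 hβ).trans ?_) (Zs_nonneg _ _ _))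
  rw [← mul_sum, ← mul_sum]
  have e2 := Real.log_natCast_nonneg q
  have e3 : (q : ℝ) ≤ U := by exact_mod_cast h1
  calc _ ≤ 192 * E ^ 2 * (U * (2 * A * E)) := by gcongr; exact sum_gcd_Ioc hq hE
    _ = 384 * E ^ 3 * (A * U) := by ring
    _ ≤ _ := by gcongr; norm_num

lemma to_nat {α : ℝ} {Q q : ℕ} {r : ℤ} (hQ : 1 ≤ Q) (hq : 1 ≤ q) (hr : IsCoprime r q)
    (hα : α ∈ Set.Icc (1 / (2 * Q : ℝ)) (1 / (2 * Q) + 1)) (h : |α - r / q| < 1 / (2 * Q)) :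
    ∃ s : ℕ, r = s ∧ s ∈ Rq q ∧ (q ≤ Q → s ∈ (Icc 1 q).filter fun r => r.Coprime q) := by
  have hq0 : (0 : ℝ) < q := by exact_mod_cast hq
  have hQ0 : (1 : ℝ) ≤ Q := by exact_mod_cast hQ
  obtain ⟨h1, h2⟩ := abs_lt.1 h
  have h3 : (0 : ℝ) < r / q := by linarith [hα.1]
  have h4 : (r : ℝ) / q < 1 + 1 / Q := by
    have : 1 / (Q : ℝ) = 1 / (2 * Q) + 1 / (2 * Q) := by field_simp; ring
    linarith [hα.2]
  have h5 : 0 < r := by exact_mod_cast (div_pos_iff_of_pos_right hq0).1 h3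
  lift r to ℕ using h5.le
  have hc := Nat.isCoprime_iff_coprime.1 hr
  rw [div_lt_iff₀ hq0, Int.cast_natCast] at h4
  refine ⟨r, rfl, mem_filter.2 ⟨mem_Ioc.2 ⟨by omega, ?_⟩, hc⟩, fun h6 =>
    mem_filter.2 ⟨mem_Icc.2 ⟨by omega, ?_⟩, hc⟩⟩
  · have : 1 / (Q : ℝ) ≤ 1 := by rw [div_le_one (by linarith)]; exact hQ0
    have : (r : ℝ) < 2 * q := h4.trans_le (by gcongr; linarith)
    exact_mod_cast this.le
  · have h7 : (q : ℝ) ≤ Q := by exact_mod_cast h6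
    have : 1 / (Q : ℝ) * q ≤ 1 := by rw [one_div_mul_eq_div, div_le_one (by linarith)]; exact h7
    have : (r : ℝ) < q + 1 := by linarith
    exact Nat.lt_succ_iff.1 (by exact_mod_cast this)

lemma frac_unique {q q' r r' : ℕ} (hq : 1 ≤ q) (hq' : 1 ≤ q') (h : r.Coprime q)
    (h' : r'.Coprime q') (hd : |(r : ℝ) / q - r' / q'| * (q * q') < 1) : q' = q ∧ r' = r := by
  have hq0 : (0 : ℝ) < q := by exact_mod_cast hq
  have hq1 : (0 : ℝ) < q' := by exact_mod_cast hq'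
  rw [← abs_of_pos (mul_pos hq0 hq1), ← abs_mul,
    show ((r : ℝ) / q - r' / q') * (q * q') = ((r * q' - r' * q : ℤ) : ℝ) by
      push_cast; field_simp, ← Int.cast_abs] at hd
  have h1 : (r : ℤ) * q' - r' * q = 0 := Int.abs_lt_one_iff.1 (by exact_mod_cast hd)
  have h2 : r * q' = r' * q := by exact_mod_cast sub_eq_zero.1 h1
  obtain rfl : q' = q := Nat.dvd_antisymm
    (h'.symm.dvd_of_dvd_mul_left (h2 ▸ dvd_mul_left q' r))
    (h.symm.dvd_of_dvd_mul_left (h2 ▸ dvd_mul_left q r'))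
  exact ⟨rfl, (Nat.eq_of_mul_eq_mul_right hq h2).symm⟩

lemma MM_eq {A U P Q q r : ℕ} {δ α : ℝ} (hδ : 0 < δ) (hq : 1 ≤ q) (hr : r.Coprime q)
    (h1 : q ≤ Q → r ∈ (Icc 1 q).filter fun r => r.Coprime q)
    (h2 : (|α - r / q| + δ) * (q * Q) ≤ 1) : MM A U P Q δ α =
      if q ≤ Q then cc q r * tent δ (α - r / q) * f0 A U P (α - r / q) else 0 := by
  have key : ∀ q' ∈ Icc 1 Q, ∀ r' ∈ (Icc 1 q').filter fun r => r.Coprime q', ¬(q' = q ∧ r' = r) →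
      cc q' r' * tent δ (α - r' / q') * f0 A U P (α - r' / q') = 0 := by
    intro q' hq' r' hr' hne
    obtain ⟨h3, h4⟩ := mem_Icc.1 hq'
    rw [tent_eq_zero hδ (not_lt.1 fun h => hne
      (frac_unique hq h3 hr (mem_filter.1 hr').2 (lt_of_lt_of_le ?_ h2)))]
    · simp
    have h5 : |(r : ℝ) / q - r' / q'| < |α - r / q| + δ := by
      have := abs_sub_le ((r : ℝ) / q) α (r' / q')
      rw [abs_sub_comm _ α] at this
      linarith
    have h6 : (0 : ℝ) < q' := by exact_mod_cast h3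
    have h7 : (0 : ℝ) < q := by exact_mod_cast hq
    calc _ < (|α - r / q| + δ) * (q * q') := by gcongr
      _ ≤ _ := by gcongr
  unfold MM
  split_ifs with h
  · rw [sum_eq_single_of_mem q (mem_Icc.2 ⟨hq, h⟩) fun q' hq' hne =>
      sum_eq_zero fun r' hr' => key q' hq' r' hr' fun h => hne h.1]
    exact sum_eq_single_of_mem r (h1 h) fun r' hr' hne =>
      key q (mem_Icc.2 ⟨hq, h⟩) r' hr' fun h => hne h.2
  · exact sum_eq_zero fun q' hq' => sum_eq_zero fun r' hr' =>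
      key q' hq' r' hr' fun h' => h (h'.1 ▸ (mem_Icc.1 hq').2)

lemma pw {X : ℕ} (hX : 100 ≤ X) {i j : ℕ} (h : i < j) : 100 * X ^ i ≤ X ^ j := by
  rw [mul_comm]
  exact (Nat.mul_le_mul_left _ hX).trans (Nat.pow_le_pow_right (by omega) h)

lemma arc_H {X Q : ℕ} {E V : ℝ} (hX' : 100 ≤ X)
    (hE : ∀ m, 1 ≤ m → m ≤ 1000 * X ^ 48 → (#m.divisors : ℝ) ≤ E) (hE1 : 1 ≤ E) (hV : 0 ≤ V)
    (hQ : X ^ 20 ≤ Q) (hQ' : Q ≤ X ^ 48) (hQV : Q * V = X ^ 46) (τ : ℝ) :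
    ∃ W : ℝ → ℝ, IntervalIntegrable W volume τ (τ + 1) ∧ (∀ α, 0 ≤ W α) ∧
      (∀ q ∈ Icc 1 Q, ∀ r ∈ Rq q, ∀ β : ℝ, |β| * (216 * X ^ 26) ≤ 1 →
        55 * E * V * ‖Hs (X ^ 4) (X ^ 22) (X ^ 16) q r β‖ ^ 2 ≤ W ((r : ℤ) / q + β)) ∧
      ∫ α in τ..τ + 1, W α ≤ 10 ^ 6 * E ^ 24 * X ^ 62 := by
  have hX : 1 ≤ X := by omega
  have hX0 : (0 : ℝ) < X := by exact_mod_cast hX
  have e0 : ∀ β : ℝ, (0 : ℝ) ≤ 6 * X ^ 22 / (1 + X ^ 48 * |β|) := fun β => by positivity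
  obtain ⟨W, h1, h2, h3, h4⟩ := arc_int ((Icc 1 Q).sigma Rq) (fun i => ((i.2 : ℤ) : ℝ) / i.1)
    (fun i β => 55 * E * V * ‖Hs (X ^ 4) (X ^ 22) (X ^ 16) i.1 i.2 β‖ ^ 2) (fun i => by fun_prop)
    (fun i β => by positivity) (η := 1 / (216 * X ^ 26)) (B := 190080 * E ^ 8 * X ^ 110)
    (N := X ^ 48) (by positivity) (by positivity) (fun β hβ => by
      rw [le_div_iff₀ (by positivity)] at hβ
      rw [← mul_sum, sum_sigma]
      have e1 := H_bound (U := X ^ 22) (Q := Q) (β := β) (θ := 6 * X ^ 22 / (1 + X ^ 48 * |β|)) hE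
        (A := X ^ 4) (P := X ^ 16)
        (by linarith [pw hX' (show 12 < 32 by norm_num), Nat.zero_le (X ^ 32)])
        (by omega) (by have := pw hX' (show 4 < 48 by norm_num); omega)
        (by linarith [pw hX' (show 12 < 48 by norm_num), Nat.zero_le (X ^ 48)])
        (fun a ha => by
          have := Fq_decay (Nat.one_le_pow _ _ hX) (Nat.one_le_pow 22 _ hX) ha
            (β := β) (le_trans (le_of_eq (by push_cast; ring)) hβ)
          push_cast at this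
          rwa [show (X : ℝ) ^ 4 * (X ^ 22) ^ 2 = X ^ 48 by ring] at this) (e0 β) hE1
      refine (mul_le_mul_of_nonneg_left e1 (by positivity)).trans ?_
      have e2 : (X : ℝ) ^ 20 ≤ Q := by exact_mod_cast hQ
      push_cast
      calc _ = 95040 * E ^ 8 * X ^ 64 * (V * (Q + X ^ 20)) / (1 + X ^ 48 * |β|) ^ 2 := by
            field_simp; ring
        _ ≤ 95040 * E ^ 8 * X ^ 64 * (V * (Q + Q)) / (1 + X ^ 48 * |β|) ^ 2 := by gcongr
        _ = _ := by rw [show V * (Q + Q) = 2 * (Q * V) by ring, hQV]; ring) τ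
  refine ⟨W, h1, h2, fun q hq r hr β hβ => ?_, h4.trans ?_⟩
  · have := h3 ⟨q, r⟩ (mem_sigma.2 ⟨hq, hr⟩) ((r : ℤ) / q + β) (by
      rwa [add_sub_cancel_left, le_div_iff₀ (by positivity)])
    rwa [add_sub_cancel_left] at this
  · calc _ = 380160 * E ^ 8 * X ^ 62 := by field_simp; ring
      _ ≤ _ := by gcongr <;> norm_num

lemma arc_Low {X : ℕ} {E : ℝ} (hX' : 100 ≤ X)
    (hE : ∀ m, 1 ≤ m → m ≤ 1000 * X ^ 48 → (#m.divisors : ℝ) ≤ E) (hE1 : 1 ≤ E)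
    (hL : 1 + Real.log (X ^ 12 : ℕ) ≤ E) (τ : ℝ) :
    ∃ W : ℝ → ℝ, IntervalIntegrable W volume τ (τ + 1) ∧ (∀ α, 0 ≤ W α) ∧
      (∀ q ∈ Icc 1 (X ^ 12), ∀ r ∈ Rq q, ∀ β : ℝ, |β| * X ^ 36 ≤ 1 →
        ‖Low (X ^ 4) (X ^ 22) (X ^ 16) (X ^ 3) (1 / (216 * X ^ 39)) q r β‖ ^ 2 ≤
          W ((r : ℤ) / q + β)) ∧
      ∫ α in τ..τ + 1, W α ≤ 6 * 10 ^ 12 * E ^ 24 * X ^ 62 := by
  have hX : 1 ≤ X := by omega
  have hX0 : (0 : ℝ) < X := by exact_mod_cast hX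
  have hX1 : (100 : ℝ) ≤ X := by exact_mod_cast hX'
  have e0 : (0 : ℝ) < 1 / (216 * X ^ 39) := by positivity
  have e1 : (216 : ℝ) ≤ X ^ 2 := by nlinarith
  have hp : ∀ {i j : ℕ}, i ≤ j → (X : ℝ) ^ i ≤ X ^ j := fun h => pow_le_pow_right₀ (by linarith) h
  have e2 : ∀ β : ℝ, |β| * X ^ 36 ≤ 1 → |β| * (216 * X ^ 34) ≤ 1 := fun β h =>
    le_trans (by rw [show (X : ℝ) ^ 36 = X ^ 2 * X ^ 34 by ring]; gcongr) h
  have e3 : (X : ℝ) ^ 108 + X ^ 110 + 216 ^ 2 * X ^ 104 ≤ 3 * X ^ 110 := by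
    have : 216 ^ 2 * (X : ℝ) ^ 104 ≤ (X ^ 2) ^ 2 * X ^ 104 := by gcongr
    linarith [hp (show 108 ≤ 110 by norm_num)]
  obtain ⟨W, h1, h2, h3, h4⟩ := arc_int ((Icc 1 (X ^ 12)).sigma Rq)
    (fun i => ((i.2 : ℤ) : ℝ) / i.1)
    (fun i β => ‖Low (X ^ 4) (X ^ 22) (X ^ 16) (X ^ 3) (1 / (216 * X ^ 39)) i.1 i.2 β‖ ^ 2)
    (fun i => by fun_prop) (fun i β => by positivity) (η := 1 / X ^ 36)
    (B := 10 ^ 12 * E ^ 24 * (3 * X ^ 110)) (N := X ^ 48) (by positivity) (by positivity)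
    (fun β hβ => by
      have hβ' := e2 β ((le_div_iff₀ (pow_pos hX0 _)).1 hβ)
      have e5 := hp (show 26 ≤ 34 by norm_num)
      have e6 := hp (show 32 ≤ 34 by norm_num)
      rw [sum_sigma]
      refine (low_bound (k := X) e0 (Nat.one_le_pow _ _ hX) (Nat.pow_le_pow_right hX (by norm_num))
        (Nat.one_le_pow _ _ hX) (by ring) hX (le_of_eq (by ring)) hE hL hE1
        (by have := pw hX' (show 12 < 48 by norm_num); omega)
        (by have := pw hX' (show 4 < 48 by norm_num); omega)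
        (le_trans (mul_le_mul_of_nonneg_left (by push_cast; linarith) (abs_nonneg _)) hβ')
        (le_trans (mul_le_mul_of_nonneg_left (by push_cast; linarith [pow_pos hX0 34])
          (abs_nonneg _)) hβ')).trans ?_
      push_cast
      rw [show ((X : ℝ) ^ 16) ^ 3 = X ^ 48 by ring]
      gcongr
      exact le_trans (le_of_eq (by field_simp)) e3) τ
  refine ⟨W, h1, h2, fun q hq r hr β hβ => ?_, h4.trans (le_of_eq (by field_simp; ring))⟩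
  have := h3 ⟨q, r⟩ (mem_sigma.2 ⟨hq, hr⟩) ((r : ℤ) / q + β) (by
    rwa [add_sub_cancel_left, le_div_iff₀ (pow_pos hX0 _)])
  rwa [add_sub_cancel_left] at this

theorem ms_bound {X : ℕ} {E τ : ℝ} (hX' : 100 ≤ X) (hτ : τ = 1 / (2 * (X ^ 3 : ℕ)))
    (hE : ∀ m, 1 ≤ m → m ≤ 1000 * X ^ 48 → (#m.divisors : ℝ) ≤ E)
    (hL : ∀ m : ℕ, 1 ≤ m → m ≤ 1000 * X ^ 48 → 1 + Real.log m ≤ E) :
    ∫ α in τ..τ + 1, ‖ff (X ^ 4) (X ^ 22) (X ^ 16) α -
      MM (X ^ 4) (X ^ 22) (X ^ 16) (X ^ 3) (1 / (216 * X ^ 39)) α‖ ^ 2 ≤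
      10 ^ 14 * E ^ 24 * X ^ 62 := by
  have hX : 1 ≤ X := by omega
  have hX0 : (0 : ℝ) < X := by exact_mod_cast hX
  have hX1 : (100 : ℝ) ≤ X := by exact_mod_cast hX'
  have hp : ∀ {i j : ℕ}, i ≤ j → X ^ i ≤ X ^ j := fun h => Nat.pow_le_pow_right hX h
  have hp' : ∀ {i j : ℕ}, i ≤ j → (X : ℝ) ^ i ≤ X ^ j := fun h => pow_le_pow_right₀ (by linarith) h
  have h1p : ∀ i, 1 ≤ X ^ i := fun i => Nat.one_le_pow _ _ hX
  have hM : ∀ {i : ℕ}, i ≤ 48 → ∀ {m : ℕ}, m ≤ 1000 * X ^ i → m ≤ 1000 * X ^ 48 := fun h m hm =>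
    hm.trans (Nat.mul_le_mul_left _ (hp h))
  have hE1 : 1 ≤ E := by simpa using hL 1 le_rfl (by have := h1p 48; omega)
  have e0 : (0 : ℝ) < 1 / (216 * X ^ 39) := by positivity
  have e1 : (216 : ℝ) * X ^ 26 ≤ X ^ 36 := by
    have : (216 : ℝ) ≤ X ^ 2 := by nlinarith
    calc _ ≤ (X : ℝ) ^ 2 * X ^ 26 := by gcongr
      _ ≤ _ := by linarith [hp' (show 28 ≤ 36 by norm_num)]
  obtain ⟨W₁, a1, a2, a3, a4⟩ := arc_H (Q := X ^ 22) (V := X ^ 24) hX' hE hE1 (by positivity)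
    (hp (by norm_num)) (hp (by norm_num)) (by push_cast; ring) τ
  obtain ⟨W₂, b1, b2, b3, b4⟩ := arc_H (Q := X ^ 20) (V := X ^ 26) hX' hE hE1 (by positivity)
    le_rfl (hp (by norm_num)) (by push_cast; ring) τ
  obtain ⟨W₃, c1, c2, c3, c4⟩ := arc_Low hX' hE hE1
    (hL _ (h1p _) (hM (i := 12) (by norm_num) (by omega))) τ
  set K : ℝ := 11000 * E ^ 3 * ((X ^ 4 : ℕ) * (X ^ 22 : ℕ)) with hK
  have hK0 : 0 ≤ K := by positivity
  have hZ : ∫ α in τ..τ + 1, K * Zs (X ^ 4) (X ^ 16) α ≤ 10 ^ 6 * E ^ 24 * X ^ 62 := by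
    rw [intervalIntegral.integral_const_mul]
    unfold Zs
    rw [intervalIntegral.integral_finsetSum fun i _ =>
      Continuous.intervalIntegrable (by fun_prop) _ _]
    have := sum_le_card_nsmul (Ioc (X ^ 4) (2 * X ^ 4)) _ _ fun a ha =>
      int_ga_gc (P := X ^ 16) (a := a) (E := E) (by have := mem_Ioc.1 ha; omega)
        (hE _ (by have := mem_Ioc.1 ha; omega) (hM (i := 4) (by norm_num)
          (by have := mem_Ioc.1 ha; omega)))
        (fun m h1 h2 => hE m h1 (by linarith [Nat.zero_le (X ^ 48)])) τ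
    refine (mul_le_mul_of_nonneg_left this hK0).trans ?_
    rw [Nat.card_Ioc, show 2 * X ^ 4 - X ^ 4 = X ^ 4 by omega, nsmul_eq_mul, hK]
    calc _ = 22000 * E ^ 6 * (X : ℝ) ^ 62 := by push_cast; ring
      _ ≤ _ := by gcongr <;> norm_num
  have hZi : IntervalIntegrable (fun α => K * Zs (X ^ 4) (X ^ 16) α) volume τ (τ + 1) :=
    Continuous.intervalIntegrable (by fun_prop) _ _
  refine (intervalIntegral.integral_mono_on (by linarith)
    (Continuous.intervalIntegrable (by fun_prop) _ _)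
    ((((hZi.add a1).add b1).add c1).const_mul 3) fun α hα => ?_).trans ?_
  swap
  · rw [intervalIntegral.integral_const_mul, intervalIntegral.integral_add ((hZi.add a1).add b1) c1,
      intervalIntegral.integral_add (hZi.add a1) b1, intervalIntegral.integral_add hZi a1]
    have : 0 ≤ E ^ 24 * (X : ℝ) ^ 62 := by positivity
    linarith
  have hKZ : 0 ≤ K * Zs (X ^ 4) (X ^ 16) α := mul_nonneg hK0 (Zs_nonneg _ _ _)
  have key : ∀ (q : ℕ) (r : ℤ), 1 ≤ q → q ≤ X ^ 22 → IsCoprime r q →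
      |α - r / q| * (216 * X ^ 26 * q) ≤ 1 → ∃ s : ℕ, r = s ∧ s ∈ Rq q ∧
      (q ≤ X ^ 3 → s ∈ (Icc 1 q).filter fun r => r.Coprime q) ∧ |α - r / q| * (216 * X ^ 26) ≤ 1 ∧
      ‖ff (X ^ 4) (X ^ 22) (X ^ 16) α - Hs (X ^ 4) (X ^ 22) (X ^ 16) q r (α - r / q) *
        gc (X ^ 16) α‖ ^ 2 ≤ K * Zs (X ^ 4) (X ^ 16) α := by
    intro q r h1 h2 h3 h4
    have h5 : (1 : ℝ) ≤ q := by exact_mod_cast h1
    have h6 : |α - r / q| * (216 * X ^ 26) ≤ 1 := le_trans (mul_le_mul_of_nonneg_left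
      (le_mul_of_one_le_right (by positivity) h5) (abs_nonneg _)) h4
    have h7 := hM (i := 22) (m := q) (by norm_num) (by omega)
    obtain ⟨s, h8, h9, h10⟩ := to_nat (h1p 3) h1 h3 (hτ ▸ hα) (by
      refine ((le_div_iff₀ (by positivity)).2 h6).trans_lt ?_
      push_cast
      refine one_div_lt_one_div_of_lt (by positivity) ?_
      linarith [hp' (show 3 ≤ 26 by norm_num), pow_pos hX0 26])
    refine ⟨s, h8, h9, h10, h6, ?_⟩
    have := near2 (A := X ^ 4) (β := α - r / q) h1 h3 (hE q h1 h7) (hL q h1 h7) h2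
      (le_trans (le_of_eq (by push_cast; ring)) h4) (X ^ 16)
    rwa [add_sub_cancel] at this
  by_cases hN : ∃ (q : ℕ) (r : ℤ), 1 ≤ q ∧ q ≤ X ^ 12 ∧ IsCoprime r q ∧
      |α - r / q| * (X ^ 36 * q) ≤ 1
  · obtain ⟨q, r, h1, h2, h3, h4⟩ := hN
    have h5 : (1 : ℝ) ≤ q := by exact_mod_cast h1
    have h6 : (q : ℝ) ≤ X ^ 12 := by exact_mod_cast h2
    obtain ⟨s, rfl, h8, h9, h10, h11⟩ := key q r h1 (h2.trans (hp (by norm_num))) h3
      (le_trans (by gcongr) h4)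
    set β := α - ((s : ℤ) : ℝ) / q with hβ
    have h12 : |β| * X ^ 36 ≤ 1 := le_trans (mul_le_mul_of_nonneg_left
      (le_mul_of_one_le_right (by positivity) h5) (abs_nonneg _)) h4
    have d1 := b3 q (mem_Icc.2 ⟨h1, h2.trans (hp (by norm_num))⟩) s h8 β h10
    have d2 := c3 q (mem_Icc.2 ⟨h1, h2⟩) s h8 β h12
    have d3 := gc_approx (P := X ^ 16) h1 (h1p _) s β
    rw [hβ, add_sub_cancel, ← hβ] at d1 d2 d3
    have d4 : ‖gc (X ^ 16) α - s3 q s 1 * gc (X ^ 16) β‖ ^ 2 ≤ 55 * E * X ^ 26 := by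
      have d5 : ‖gc (X ^ 16) α - s3 q s 1 * gc (X ^ 16) β‖ ≤ 536 * X ^ 12 := by
        have := mul_le_mul_of_nonneg_left h4 (pow_pos hX0 12).le
        push_cast at d3
        linarith
      calc _ ≤ (536 * (X : ℝ) ^ 12) ^ 2 := by gcongr
        _ = 287296 * X ^ 24 := by ring
        _ ≤ 55 * 1 * X ^ 2 * X ^ 24 := by gcongr; nlinarith
        _ ≤ 55 * E * X ^ 2 * X ^ 24 := by gcongr
        _ = _ := by ring
    have d5 : (|α - s / q| + 1 / (216 * X ^ 39)) * (q * (X ^ 3 : ℕ)) ≤ 1 := by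
      have d6 : |α - s / q| * (q * X ^ 3 * 2) ≤ 1 := by
        refine le_trans (mul_le_mul_of_nonneg_left ?_ (abs_nonneg _)) h4
        rw [mul_assoc, mul_comm]
        gcongr
        linarith [hp' (show 3 ≤ 26 by norm_num), pow_pos hX0 26]
      have d7 : 1 / (216 * (X : ℝ) ^ 39) * (q * X ^ 3) ≤ 1 / 2 := by
        rw [one_div_mul_eq_div, div_le_iff₀ (by positivity)]
        have : (q : ℝ) * X ^ 3 ≤ X ^ 12 * X ^ 3 := by gcongr
        linarith [hp' (show 15 ≤ 39 by norm_num), pow_pos hX0 39]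
      push_cast
      linarith
    rw [MM_eq e0 h1 (mem_filter.1 h8).2 h9 d5]
    have d6 := sq_three (ff (X ^ 4) (X ^ 22) (X ^ 16) α - Hs (X ^ 4) (X ^ 22) (X ^ 16) q s β *
      gc (X ^ 16) α) (Hs (X ^ 4) (X ^ 22) (X ^ 16) q s β * (gc (X ^ 16) α - s3 q s 1 * gc (X ^ 16) β))
      (Low (X ^ 4) (X ^ 22) (X ^ 16) (X ^ 3) (1 / (216 * X ^ 39)) q s β)
    rw [norm_mul, mul_pow] at d6
    have d7 := mul_le_mul_of_nonneg_left d4 (sq_nonneg ‖Hs (X ^ 4) (X ^ 22) (X ^ 16) q s β‖)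
    refine le_trans (le_of_eq ?_) (d6.trans (by linarith [a2 α]))
    rw [Low, hβ, Int.cast_natCast]
    congr 2
    ring
  have hM0 : MM (X ^ 4) (X ^ 22) (X ^ 16) (X ^ 3) (1 / (216 * X ^ 39)) α = 0 := by
    refine sum_eq_zero fun q hq => sum_eq_zero fun r hr => ?_
    obtain ⟨h1, h2⟩ := mem_Icc.1 hq
    rw [tent_eq_zero e0 (not_lt.1 fun h => hN ⟨q, r, h1, h2.trans (hp (by norm_num)),
      Nat.isCoprime_iff_coprime.2 (mem_filter.1 hr).2, ?_⟩)]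
    · simp
    have h3 : (q : ℝ) ≤ X ^ 3 := by exact_mod_cast h2
    rw [lt_div_iff₀ (by positivity)] at h
    refine le_trans (mul_le_mul_of_nonneg_left ?_ (abs_nonneg _)) h.le
    have : (X : ℝ) ^ 36 * q ≤ X ^ 36 * X ^ 3 := by gcongr
    linarith [pow_pos hX0 39]
  rw [hM0, sub_zero]
  have hE6 : ∀ k, 1 ≤ k → k ≤ 6 * X ^ 16 * X ^ 16 → (#k.divisors : ℝ) ≤ E := fun k h1 h2 =>
    hE k h1 (hM (i := 32) (by norm_num) (by linarith [Nat.zero_le (X ^ 32)]))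
  obtain ⟨q₁, r₁, f1, f2, f3, f4, f5⟩ := dirich α (h1p 36)
  have f6 : X ^ 12 ≤ q₁ := by
    by_contra h
    exact hN ⟨q₁, r₁, f1, by omega, f3, by exact_mod_cast f4⟩
  have f7 : ‖gc (X ^ 16) α‖ ^ 2 ≤ 55 * E * X ^ 26 :=
    weyl2 (T := X ^ 4) f1 f3 f5 hE6 hE1 (h1p _) (hL _ f1 (hM (i := 36) (by norm_num) (by omega)))
      (one_le_pow₀ (by linarith))
      (by exact_mod_cast (le_of_eq (by ring)).trans (Nat.mul_le_mul_right (X ^ 4) f6))
      (by exact_mod_cast f2.trans (le_of_eq (by ring))) (by push_cast; ring) (by positivity)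
  obtain ⟨q, r, h1, h2, h3, h4, h5⟩ := dirich α (Y := 216 * X ^ 26) (by positivity)
  have h6 := hM (i := 26) (m := q) (by norm_num) (by omega)
  rcases le_total (X ^ 22) q with h | h
  · have := far2 (A := X ^ 4) h3 h5 (fun k k1 k2 => hE k k1 (hM (i := 26) (by norm_num)
      (by linarith [Nat.zero_le (X ^ 26)]))) hE1 (hL q h1 h6) (h1p _) (h1p _) h
      (h2.trans (le_of_eq (by ring))) (X ^ 16)
    have := sq_nonneg ‖ff (X ^ 4) (X ^ 22) (X ^ 16) α‖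
    linarith [a2 α, b2 α, c2 α]
  obtain ⟨s, rfl, h8, -, h10, h11⟩ := key q r h1 h h3 (by exact_mod_cast h4)
  set β := α - ((s : ℤ) : ℝ) / q with hβ
  have d6 := sq_three (ff (X ^ 4) (X ^ 22) (X ^ 16) α - Hs (X ^ 4) (X ^ 22) (X ^ 16) q s β *
    gc (X ^ 16) α) (Hs (X ^ 4) (X ^ 22) (X ^ 16) q s β * gc (X ^ 16) α) 0
  rw [sub_add_cancel, add_zero, norm_mul, mul_pow, norm_zero] at d6
  refine d6.trans ?_
  rcases le_total q (X ^ 20) with h' | h'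
  · have d1 := b3 q (mem_Icc.2 ⟨h1, h'⟩) s h8 β h10
    rw [hβ, add_sub_cancel, ← hβ] at d1
    have d7 := mul_le_mul_of_nonneg_left f7 (sq_nonneg ‖Hs (X ^ 4) (X ^ 22) (X ^ 16) q s β‖)
    linarith [a2 α, c2 α]
  · have d1 := a3 q (mem_Icc.2 ⟨h1, h⟩) s h8 β h10
    rw [hβ, add_sub_cancel, ← hβ] at d1
    have f8 : ‖gc (X ^ 16) α‖ ^ 2 ≤ 55 * E * X ^ 24 :=
      weyl2 (T := 1) h1 h3 h5 hE6 hE1 (h1p _) (hL q h1 h6) le_rfl
        (by rw [mul_one]; exact_mod_cast (hp (by norm_num)).trans h')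
        (by rw [mul_one]; exact_mod_cast h.trans ((hp (show 22 ≤ 32 by norm_num)).trans
              (le_of_eq (by ring)))) (by push_cast; ring) (by positivity)
    have d7 := mul_le_mul_of_nonneg_left f8 (sq_nonneg ‖Hs (X ^ 4) (X ^ 22) (X ^ 16) q s β‖)
    linarith [b2 α, c2 α]

end Pool.Agent.Lib.MP_786755_nt
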