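import Pool.Agent.Lib.MP_786755_nt.Tools

/-! Periodic functions on the integers, additive characters, Chinese remainder theorem for sums. -/

namespace Pool.Agent.Lib.MP_786755_nt

open Finset Pool.Agent.Lib.MP_028aa5_nt
open scoped ComplexConjugate

/-- `e(m/q)` -/
noncomputable def ec (q : ℕ) (m : ℤ) : ℂ := e (m / q)

/-- `f` depends only on the class modulo `q` -/
def Per {M : Type*} (q : ℕ) (f : ℤ → M) : Prop := ∀ x y : ℤ, x ≡ y [ZMOD q] → f x = f y

lemma Per.mul_right {M : Type*} {q : ℕ} {f : ℤ → M} (h : Per q f) (k : ℕ) : Per (q * k) f :=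
  fun x y hxy => h x y (Int.ModEq.of_mul_right k (by exact_mod_cast hxy))

lemma Per.of_dvd {M : Type*} {q L : ℕ} {f : ℤ → M} (h : Per q f) (hL : q ∣ L) : Per L f := by
  obtain ⟨k, rfl⟩ := hL
  exact h.mul_right k

@[simp] lemma norm_ec (q : ℕ) (m : ℤ) : ‖ec q m‖ = 1 := norm_e _

@[simp] lemma ec_zero (q : ℕ) : ec q 0 = 1 := by simp [ec]

lemma ec_add (q : ℕ) (x y : ℤ) : ec q (x + y) = ec q x * ec q y := by
  unfold ec; rw [← e_add]; congr 1; push_cast; ring

lemma ec_of_dvd {q : ℕ} {m : ℤ} (h : (q : ℤ) ∣ m) : ec q m = 1 := by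
  obtain ⟨k, rfl⟩ := h
  rcases Nat.eq_zero_or_pos q with rfl | hq
  · simp
  have : (q : ℝ) ≠ 0 := by positivity
  unfold ec
  rw [show (((q : ℤ) * k : ℤ) : ℝ) / q = k by push_cast; field_simp, e_int]

lemma ec_congr {q : ℕ} {x y : ℤ} (h : x ≡ y [ZMOD q]) : ec q x = ec q y := by
  rw [show y = x + (y - x) by ring, ec_add, ec_of_dvd h.dvd, mul_one]

lemma conj_ec (q : ℕ) (m : ℤ) : conj (ec q m) = ec q (-m) := by
  unfold ec; rw [conj_e]; congr 1; push_cast; ring

lemma ec_mul_left {k : ℕ} (hk : k ≠ 0) (q : ℕ) (m : ℤ) : ec (k * q) (k * m) = ec q m := by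
  have : (k : ℝ) ≠ 0 := by positivity
  unfold ec; congr 1; push_cast
  rw [mul_div_mul_left _ _ this]

lemma ec_split {q₁ q₂ : ℕ} (h₁ : q₁ ≠ 0) (h₂ : q₂ ≠ 0) {k₁ k₂ : ℤ} (h : k₁ * q₂ + k₂ * q₁ = 1)
    (m : ℤ) : ec (q₁ * q₂) m = ec q₁ (k₁ * m) * ec q₂ (k₂ * m) := by
  have h1 : (q₁ : ℝ) ≠ 0 := by positivity
  have h2 : (q₂ : ℝ) ≠ 0 := by positivity
  have h3 : (k₁ : ℝ) * q₂ + k₂ * q₁ = 1 := by exact_mod_cast h
  unfold ec
  rw [← e_add]
  congr 1
  push_cast
  field_simp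
  linear_combination (-(m : ℝ)) * h3

lemma ec_ne_one {q : ℕ} (hq : 0 < q) {m : ℤ} (h : ¬(q : ℤ) ∣ m) : ec q m ≠ 1 := by
  intro h1
  have hq0 : (0 : ℝ) < q := by exact_mod_cast hq
  have h3 := le_norm_e_sub_one (abs_sub_round ((m : ℝ) / q))
  rw [e_sub_int] at h3
  unfold ec at h1
  rw [h1, sub_self, norm_zero] at h3
  have h4 : (m : ℝ) / q - round ((m : ℝ) / q) = 0 :=
    abs_eq_zero.1 (le_antisymm (by linarith) (abs_nonneg _))
  refine h ⟨round ((m : ℝ) / q), ?_⟩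
  have : (m : ℝ) = q * round ((m : ℝ) / q) := by
    rw [← sub_eq_zero.1 h4]; field_simp
  exact_mod_cast this

lemma sum_ec {q : ℕ} (hq : 0 < q) (m : ℤ) :
    ∑ y ∈ range q, ec q (m * y) = if (q : ℤ) ∣ m then (q : ℂ) else 0 := by
  split_ifs with h
  · rw [sum_congr rfl (g := fun _ => 1) fun y _ => ec_of_dvd (h.mul_right _)]
    simp
  · have h1 : ∀ n : ℕ, (∑ y ∈ range n, ec q (m * y)) * (ec q m - 1) = ec q (m * n) - 1 := by
      intro n
      induction n with
      | zero => simp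
      | succ n ih =>
        rw [sum_range_succ, add_mul, ih]
        push_cast
        rw [mul_add m, mul_one, ec_add]
        ring
    have h2 := h1 q
    rw [ec_of_dvd (dvd_mul_left _ _), sub_self] at h2
    exact (mul_eq_zero.1 h2).resolve_right (sub_ne_zero.2 (ec_ne_one hq h))

lemma sum_affine {M : Type*} [AddCommMonoid M] {q : ℕ} {f : ℤ → M} (hf : Per q f) {j : ℤ}
    (hj : IsCoprime j q) (c : ℤ) : ∑ x ∈ range q, f (j * x + c) = ∑ x ∈ range q, f x := by
  rcases Nat.eq_zero_or_pos q with rfl | hq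
  · simp
  set i : ℕ → ℕ := fun x => ((j * x + c) % q).toNat with hi0
  have hi : ∀ x, (i x : ℤ) = (j * x + c) % q := fun x =>
    Int.toNat_of_nonneg (Int.emod_nonneg _ (by omega))
  have hinj : Set.InjOn i (range q) := by
    intro x hx y hy h
    have h1 : j * x + c ≡ j * y + c [ZMOD q] := by
      unfold Int.ModEq
      rw [← hi, ← hi, h]
    have h2 : (q : ℤ) ∣ j * ((y : ℤ) - x) := by
      have := h1.dvd
      rwa [show j * y + c - (j * x + c) = j * ((y : ℤ) - x) by ring] at this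
    have h3 := hj.symm.dvd_of_dvd_mul_left h2
    have hx' := mem_range.1 hx
    have hy' := mem_range.1 hy
    have := Int.eq_zero_of_abs_lt_dvd h3 (by rw [abs_lt]; omega)
    omega
  have himg : (range q).image i = range q := by
    refine eq_of_subset_of_card_le (fun y hy => ?_) (by rw [card_image_of_injOn hinj])
    obtain ⟨x, -, rfl⟩ := mem_image.1 hy
    have := Int.emod_lt_of_pos (j * x + c) (by omega : (0 : ℤ) < q)
    rw [← hi] at this
    exact mem_range.2 (by omega)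
  have h4 := sum_image (f := fun x : ℕ => f x) hinj
  rw [himg] at h4
  rw [h4]
  refine sum_congr rfl fun x _ => hf _ _ ?_
  rw [hi]
  exact (Int.mod_modEq _ _).symm

lemma sum_shift {M : Type*} [AddCommMonoid M] {q : ℕ} {f : ℤ → M} (hf : Per q f) (c : ℤ) :
    ∑ x ∈ range q, f (x + c) = ∑ x ∈ range q, f x := by
  simpa using sum_affine hf (j := 1) isCoprime_one_left c

lemma sum_range_mul {M : Type*} [AddCommMonoid M] {q : ℕ} {f : ℤ → M} (hf : Per q f) (k : ℕ) :
    ∑ x ∈ range (k * q), f x = k • ∑ x ∈ range q, f x := by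
  induction k with
  | zero => simp
  | succ k ih =>
    rw [add_mul, one_mul, sum_range_add, ih, succ_nsmul]
    congr 1
    rw [← sum_shift hf ((k * q : ℕ) : ℤ)]
    refine sum_congr rfl fun x _ => ?_
    push_cast
    rw [add_comm]

lemma sum_Ioc_per {M : Type*} [AddCommMonoid M] {q : ℕ} {f : ℤ → M} (hf : Per q f) (k : ℕ) :
    ∑ x ∈ Ioc 0 (k * q), f x = k • ∑ x ∈ range q, f x := by
  rw [← sum_range_mul hf, ← sum_shift (hf.of_dvd (dvd_mul_left q k)) 1, range_eq_Ico,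
    ← Ico_add_one_add_one_eq_Ioc, ← sum_Ico_add' (fun x : ℕ => f x) 0 (k * q) 1]
  simp

lemma sum_Icc_per {M : Type*} [AddCommMonoid M] {q : ℕ} {f : ℤ → M} (hf : Per q f) :
    ∑ x ∈ Icc 1 q, f x = ∑ x ∈ range q, f x := by
  have := sum_Ioc_per hf 1
  rw [one_mul, one_nsmul] at this
  rw [← this]
  rfl

lemma sum_crt {R : Type*} [CommSemiring R] {q₁ q₂ : ℕ} (h : q₁.Coprime q₂) {f g : ℤ → R}
    (hf : Per q₁ f) (hg : Per q₂ g) :
    ∑ x ∈ range (q₁ * q₂), f x * g x = (∑ x ∈ range q₁, f x) * ∑ x ∈ range q₂, g x := by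
  rcases Nat.eq_zero_or_pos q₁ with rfl | h₁
  · simp
  rcases Nat.eq_zero_or_pos q₂ with rfl | h₂
  · simp
  set i : ℕ → ℕ × ℕ := fun x => (x % q₁, x % q₂) with hi
  have hinj : Set.InjOn i (range (q₁ * q₂)) := by
    intro x hx y hy hxy
    have h1 : x ≡ y [MOD q₁ * q₂] :=
      (Nat.modEq_and_modEq_iff_modEq_mul h).1 ⟨congrArg Prod.fst hxy, congrArg Prod.snd hxy⟩
    exact Nat.ModEq.eq_of_lt_of_lt h1 (mem_range.1 hx) (mem_range.1 hy)
  have himg : (range (q₁ * q₂)).image i = range q₁ ×ˢ range q₂ := by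
    refine eq_of_subset_of_card_le (fun y hy => ?_) (by rw [card_image_of_injOn hinj]; simp)
    obtain ⟨x, -, rfl⟩ := mem_image.1 hy
    exact mem_product.2 ⟨mem_range.2 (Nat.mod_lt _ h₁), mem_range.2 (Nat.mod_lt _ h₂)⟩
  rw [sum_mul_sum, ← sum_product', ← himg, sum_image hinj]
  refine sum_congr rfl fun x _ => ?_
  simp only [hi]
  push_cast
  rw [hf _ _ (Int.mod_modEq _ _), hg _ _ (Int.mod_modEq _ _)]

/-- the mean over one period -/
noncomputable def av (q : ℕ) (f : ℤ → ℂ) : ℂ := (∑ x ∈ range q, f x) / q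

lemma av_crt {q₁ q₂ : ℕ} (h : q₁.Coprime q₂) {f g : ℤ → ℂ} (hf : Per q₁ f) (hg : Per q₂ g) :
    av (q₁ * q₂) (fun x => f x * g x) = av q₁ f * av q₂ g := by
  unfold av
  rw [sum_crt h hf hg]
  push_cast
  rw [div_mul_div_comm]

lemma av_mul {q k : ℕ} (hk : k ≠ 0) {f : ℤ → ℂ} (hf : Per q f) : av (k * q) f = av q f := by
  unfold av
  rw [sum_range_mul hf, nsmul_eq_mul]
  push_cast
  rw [mul_div_mul_left _ _ (by exact_mod_cast hk)]

lemma av_affine {q : ℕ} {f : ℤ → ℂ} (hf : Per q f) {j : ℤ} (hj : IsCoprime j q) (c : ℤ) :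
    av q (fun x => f (j * x + c)) = av q f := by
  unfold av
  rw [sum_affine hf hj]

lemma av_congr {q : ℕ} {f g : ℤ → ℂ} (h : ∀ x, f x = g x) : av q f = av q g := by
  rw [funext h]

lemma norm_av_le {q : ℕ} {f : ℤ → ℂ} {B : ℝ} (hB : 0 ≤ B) (h : ∀ x, ‖f x‖ ≤ B) :
    ‖av q f‖ ≤ B := by
  rcases Nat.eq_zero_or_pos q with rfl | hq
  · simpa [av] using hB
  have hq0 : (0 : ℝ) < q := by exact_mod_cast hq
  unfold av
  rw [norm_div, Complex.norm_natCast, div_le_iff₀ hq0]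
  refine (norm_sum_le _ _).trans ((sum_le_card_nsmul _ _ B fun (x : ℕ) _ => h x).trans ?_)
  simp [mul_comm]

lemma av_const {q : ℕ} (hq : q ≠ 0) (c : ℂ) : av q (fun _ => c) = c := by
  have : (q : ℂ) ≠ 0 := by exact_mod_cast hq
  simp only [av, sum_const, card_range, nsmul_eq_mul]
  field_simp

lemma av_mul_const (q : ℕ) (f : ℤ → ℂ) (c : ℂ) : av q (fun x => f x * c) = av q f * c := by
  unfold av
  rw [← sum_mul]; ring

lemma av_const_mul (q : ℕ) (f : ℤ → ℂ) (c : ℂ) : av q (fun x => c * f x) = c * av q f := by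
  unfold av
  rw [← mul_sum]; ring

/-- reduction of an initial sum to an incomplete period -/
lemma sum_range_sub_av {q : ℕ} (hq : 0 < q) {f : ℤ → ℂ} (hf : Per q f) (y : ℕ) :
    ∑ x ∈ Ioc 0 y, f x - y * av q f =
      ∑ x ∈ Ioc 0 (y % q), f x - (y % q : ℕ) * av q f := by
  have hq0 : (q : ℂ) ≠ 0 := by exact_mod_cast hq.ne'
  have h1 : ∑ x ∈ Ioc 0 y, f x =
      ∑ x ∈ Ioc 0 (y / q * q), f x + ∑ x ∈ Ioc (y / q * q) (y / q * q + y % q), f x := by
    rw [sum_Ioc_consecutive _ (Nat.zero_le _) (Nat.le_add_right _ _), Nat.div_add_mod' y q]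
  have h2 : ∑ x ∈ Ioc (y / q * q) (y / q * q + y % q), f x = ∑ x ∈ Ioc 0 (y % q), f x := by
    generalize y % q = t
    induction t with
    | zero => simp
    | succ t ih =>
      rw [← add_assoc, sum_Ioc_succ_top (Nat.le_add_right _ _), sum_Ioc_succ_top (Nat.zero_le _), ih]
      congr 1
      refine hf _ _ (Int.ModEq.symm (Int.modEq_iff_dvd.2 ⟨(y / q : ℕ), ?_⟩))
      push_cast; ring
  rw [h1, h2, sum_Ioc_per hf, nsmul_eq_mul]
  have h3 : (y : ℂ) = (y / q : ℕ) * q + (y % q : ℕ) := by exact_mod_cast (Nat.div_add_mod' y q).symm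
  rw [h3]
  unfold av
  field_simp
  ring

lemma norm_sum_sub_av {q : ℕ} (hq : 0 < q) {f : ℤ → ℂ} (hf : Per q f) {B : ℝ}
    (h : ∀ x, ‖f x‖ ≤ B) (y : ℕ) : ‖∑ x ∈ Ioc 0 y, f x - y * av q f‖ ≤ 2 * q * B := by
  have hB : 0 ≤ B := le_trans (norm_nonneg _) (h 0)
  rw [sum_range_sub_av hq hf]
  have h1 : ((y % q : ℕ) : ℝ) ≤ q := by exact_mod_cast (Nat.mod_lt y hq).le
  have h2 : ‖∑ x ∈ Ioc 0 (y % q), f x‖ ≤ q * B := by
    refine (norm_sum_le _ _).trans ((sum_le_card_nsmul _ _ B fun (x : ℕ) _ => h x).trans ?_)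
    rw [Nat.card_Ioc, nsmul_eq_mul, Nat.sub_zero]
    gcongr
  have h3 : ‖((y % q : ℕ) : ℂ) * av q f‖ ≤ q * B := by
    rw [norm_mul, Complex.norm_natCast]
    gcongr
    exact norm_av_le hB h
  exact (norm_sub_le _ _).trans (by linarith)

/-- a sum vanishes if shifts multiply its terms by nontrivial characters -/
lemma sum_vanish {q p : ℕ} (hp : 0 < p) {f : ℤ → ℂ} (hf : Per q f) (h : ℤ) (c : ℤ → ℤ)
    (h1 : ∀ z y, f (z + h * y) = f z * ec p (c z * y)) (h2 : ∀ z, f z ≠ 0 → ¬(p : ℤ) ∣ c z) :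
    ∑ z ∈ range q, f z = 0 := by
  have h3 : ∑ y ∈ range p, ∑ z ∈ range q, f (z + h * y) = p * ∑ z ∈ range q, f z := by
    rw [sum_congr rfl fun (y : ℕ) _ => sum_shift hf (h * y)]
    simp
  have h4 : ∑ y ∈ range p, ∑ z ∈ range q, f (z + h * y) = 0 := by
    rw [sum_comm]
    refine sum_eq_zero fun z _ => ?_
    simp only [h1]
    rw [← mul_sum, sum_ec hp]
    by_cases h5 : f z = 0
    · rw [h5, zero_mul]
    · rw [if_neg (h2 z h5), mul_zero]
  rw [h4] at h3
  exact (mul_eq_zero.1 h3.symm).resolve_left (by exact_mod_cast hp.ne')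

/-- a multiplicative count bounded on prime powers -/
lemma count_le {C : ℕ} (P : ℕ → ℤ → Prop) [∀ q x, Decidable (P q x)] (G : ℕ → Prop)
    (hG : ∀ a b, G (a * b) → G a ∧ G b)
    (hper : ∀ q x y, x ≡ y [ZMOD (q : ℕ)] → (P q x ↔ P q y))
    (hmul : ∀ a b x, a.Coprime b → P (a * b) x → P a x ∧ P b x)
    (hpp : ∀ p k, p.Prime → 0 < k → G (p ^ k) →
      #((range (p ^ k)).filter fun x : ℕ => P (p ^ k) x) ≤ C) :
    ∀ q, q ≠ 0 → G q → #((range q).filter fun x : ℕ => P q x) ≤ C ^ #q.primeFactors := by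
  intro q
  induction q using Nat.recOnPosPrimePosCoprime with
  | zero => simp
  | one => intro _ _; simpa using card_filter_le (range 1) fun x : ℕ => P 1 x
  | prime_pow p k hp hk =>
    intro _ hg
    rw [Nat.primeFactors_prime_pow hk.ne' hp, card_singleton, pow_one]
    exact hpp p k hp hk hg
  | coprime a b ha hb hab iha ihb =>
    intro _ hg
    rw [hab.primeFactors_mul, card_union_of_disjoint hab.disjoint_primeFactors, pow_add]
    refine le_trans ?_ (Nat.mul_le_mul (iha (by omega) (hG a b hg).1) (ihb (by omega) (hG a b hg).2))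
    have h1 := sum_crt hab (f := fun x => if P a x then (1 : ℕ) else 0)
      (g := fun x => if P b x then (1 : ℕ) else 0)
      (fun x y h => by simp only [hper a x y h]) (fun x y h => by simp only [hper b x y h])
    rw [card_filter, card_filter, card_filter, ← h1]
    refine sum_le_sum fun x _ => ?_
    split_ifs with h2 h3 h4
    · rfl
    · exact absurd (hmul a b x hab h2).2 h4
    · exact absurd (hmul a b x hab h2).1 h3
    · exact absurd (hmul a b x hab h2).1 h3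
    all_goals exact Nat.zero_le _

lemma two_pow_le_divisors {q : ℕ} (hq : q ≠ 0) : 2 ^ #q.primeFactors ≤ #q.divisors := by
  rw [Nat.card_divisors hq, ← prod_const]
  refine prod_le_prod' fun p hp => ?_
  have := (Nat.prime_of_mem_primeFactors hp).factorization_pos_of_dvd hq
    (Nat.dvd_of_mem_primeFactors hp)
  omega

end Pool.Agent.Lib.MP_786755_nt
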