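import Mathlib

/-! Sums of two squares in `F_3[X]`, an anisotropy lemma and a Markoff descent. -/

namespace Pool.Agent.Lib.MP_786755_nt

open Polynomial

instance fact3 : Fact (Nat.Prime 3) := ⟨by norm_num⟩

lemma odd_irr (π U V : (ZMod 3)[X]) (hπ : Irreducible π) (ho : Odd π.natDegree)
    (h : π ∣ U ^ 2 + V ^ 2) : π ∣ U ∧ π ∣ V := by
  haveI : Fact (Irreducible π) := ⟨hπ⟩
  have pb := AdjoinRoot.powerBasis hπ.ne_zero
  haveI : Module.Finite (ZMod 3) (AdjoinRoot π) := pb.finite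
  haveI : Finite (AdjoinRoot π) := Module.finite_of_finite (ZMod 3)
  haveI : Fintype (AdjoinRoot π) := Fintype.ofFinite _
  have hcard : Fintype.card (AdjoinRoot π) = 3 ^ π.natDegree := by
    rw [Module.card_eq_pow_finrank (K := ZMod 3), ZMod.card,
      (AdjoinRoot.powerBasis hπ.ne_zero).finrank, AdjoinRoot.powerBasis_dim]
  have hns : ¬ IsSquare (-1 : AdjoinRoot π) := by
    rw [FiniteField.isSquare_neg_one_iff, hcard, not_not]
    obtain ⟨k, hk⟩ := ho
    rw [hk, pow_succ, pow_mul, Nat.mul_mod, Nat.pow_mod]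
    norm_num
  have h0 : AdjoinRoot.mk π U ^ 2 + AdjoinRoot.mk π V ^ 2 = 0 := by
    rw [← map_pow, ← map_pow, ← map_add]
    exact AdjoinRoot.mk_eq_zero.mpr h
  have hV : AdjoinRoot.mk π V = 0 := by
    by_contra hne
    refine hns ⟨AdjoinRoot.mk π U / AdjoinRoot.mk π V, ?_⟩
    field_simp
    linear_combination -h0
  have hU : AdjoinRoot.mk π U = 0 := by
    rw [hV] at h0
    simpa using h0
  exact ⟨AdjoinRoot.mk_eq_zero.mp hU, AdjoinRoot.mk_eq_zero.mp hV⟩

lemma exists_odd_irr (G : (ZMod 3)[X]) (ho : Odd G.natDegree) :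
    ∃ π : (ZMod 3)[X], Irreducible π ∧ Odd π.natDegree ∧ π ∣ G := by
  induction G using WfDvdMonoid.induction_on_irreducible with
  | zero => simp at ho
  | unit u hu =>
    rw [natDegree_eq_zero_of_isUnit hu] at ho
    simp at ho
  | mul a i ha hi ih =>
    rw [natDegree_mul hi.ne_zero ha] at ho
    rcases Nat.even_or_odd i.natDegree with h | h
    · obtain ⟨π, h1, h2, h3⟩ := ih ((Nat.odd_add'.mp ho).mpr h)
      exact ⟨π, h1, h2, h3.mul_left _⟩
    · exact ⟨i, hi, h, dvd_mul_right _ _⟩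

lemma even_deg (n : ℕ) : ∀ G H U V : (ZMod 3)[X], G.natDegree = n → IsCoprime G H →
    G * H = U ^ 2 + V ^ 2 → ¬ Odd G.natDegree := by
  induction n using Nat.strong_induction_on with
  | _ n ih =>
    intro G H U V hn hc h ho
    obtain ⟨π, h1, h2, h3⟩ := exists_odd_irr G ho
    obtain ⟨⟨U', hU⟩, ⟨V', hV⟩⟩ := odd_irr π U V h1 h2 (h ▸ h3.mul_right H)
    have hG0 : G ≠ 0 := by
      rintro rfl
      simp at ho
    have hcop : IsCoprime (π ^ 2) H := (hc.of_isCoprime_of_dvd_left h3).pow_left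
    have hd : π ^ 2 ∣ G * H := ⟨U' ^ 2 + V' ^ 2, by rw [h, hU, hV]; ring⟩
    obtain ⟨G', hG⟩ := hcop.dvd_of_dvd_mul_right hd
    have hG' : G' ≠ 0 := by
      rintro rfl
      simp [hG] at hG0
    have hdeg : G.natDegree = 2 * π.natDegree + G'.natDegree := by
      rw [hG, natDegree_mul (pow_ne_zero 2 h1.ne_zero) hG', natDegree_pow]
    have hpos : 0 < π.natDegree := h2.pos
    refine ih G'.natDegree (by omega) G' H U' V' rfl
      (hc.of_isCoprime_of_dvd_left ⟨π ^ 2, by rw [hG]; ring⟩) ?_ ?_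
    · apply mul_left_cancel₀ (pow_ne_zero 2 h1.ne_zero)
      rw [← mul_assoc, ← hG, h, hU, hV]
      ring
    · rw [hdeg] at ho
      exact (Nat.odd_add'.mp ho).mpr (even_two_mul _)

lemma deg_aux (E : (ZMod 3)[X]) (hE : E ≠ 0) : Odd (X * E ^ 2 + 1).natDegree := by
  have h1 : (X * E ^ 2 : (ZMod 3)[X]).natDegree = 2 * E.natDegree + 1 := by
    rw [natDegree_mul X_ne_zero (pow_ne_zero 2 hE), natDegree_X, natDegree_pow]
    ring
  rw [natDegree_add_eq_left_of_natDegree_lt (by rw [h1]; simp), h1]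
  exact odd_two_mul_add_one _

lemma no_sol1 (E U V : (ZMod 3)[X]) (hE : E ≠ 0) (hX : X ∣ E) :
    E ^ 3 + X * E ≠ X * (U ^ 2 + V ^ 2) := by
  obtain ⟨F, rfl⟩ := hX
  intro h
  have hF : F ≠ 0 := right_ne_zero_of_mul hE
  refine even_deg _ (X * F ^ 2 + 1) (X * F) U V rfl ⟨1, -F, by ring⟩ ?_ (deg_aux F hF)
  apply mul_left_cancel₀ (X_ne_zero (R := ZMod 3))
  rw [← h]
  ring

lemma no_sol2 (E : (ZMod 3)[X]) (c : ZMod 3) (μ : ℕ) (hE : E ≠ 0) (hX : X ∣ E) (hc : c ≠ 0) :
    E ^ 3 + X * E + C c * X ^ μ ≠ 0 := by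
  obtain ⟨F, rfl⟩ := hX
  intro h
  have hF : F ≠ 0 := right_ne_zero_of_mul hE
  have hcop : IsCoprime (X * F ^ 2 + 1) (X ^ μ : (ZMod 3)[X]) :=
    IsCoprime.pow_right ⟨1, -F ^ 2, by ring⟩
  have hd : (X * F ^ 2 + 1) ∣ C c * X ^ μ := ⟨-(X ^ 2 * F), by linear_combination h⟩
  have h2 := natDegree_le_of_dvd (hcop.dvd_of_dvd_mul_right hd) (C_ne_zero.mpr hc)
  have h3 := (deg_aux F hF).pos
  rw [natDegree_C] at h2
  omega

lemma sq_add_sq (U V : (ZMod 3)[X]) (h : U ^ 2 + V ^ 2 = 0) : U = 0 ∧ V = 0 := by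
  have key : ∀ a b : ZMod 3, a ^ 2 + b ^ 2 = 0 → a = 0 ∧ b = 0 := by decide
  have h1 : U ^ 2 = -V ^ 2 := by linear_combination h
  have h2 := congrArg leadingCoeff h1
  rw [leadingCoeff_neg, leadingCoeff_pow, leadingCoeff_pow] at h2
  obtain ⟨h3, h4⟩ := key U.leadingCoeff V.leadingCoeff (by rw [h2]; ring)
  exact ⟨leadingCoeff_eq_zero.mp h3, leadingCoeff_eq_zero.mp h4⟩

lemma aniso (A B R U V : ℤ) (hA : ¬ (3 : ℤ) ∣ A) (hB : (3 : ℤ) ∣ A - B) (hR : (3 : ℤ) ∣ R)
    (h : A * U ^ 2 + B * V ^ 2 + R * U * V = 0) : U = 0 ∧ V = 0 := by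
  by_contra hne
  have hg : 0 < Int.gcd U V := Int.gcd_pos_iff.mpr (by tauto)
  obtain ⟨U', V', hc, hU, hV⟩ := Int.exists_gcd_one hg
  set g : ℤ := (Int.gcd U V : ℤ) with hgd
  have hg0 : g ≠ 0 := by omega
  have h1 : A * U' ^ 2 + B * V' ^ 2 + R * U' * V' = 0 := by
    apply mul_left_cancel₀ (pow_ne_zero 2 hg0)
    rw [hU, hV] at h
    linear_combination h
  have key : ∀ a u v : ZMod 3, a ≠ 0 → a * u ^ 2 + a * v ^ 2 = 0 → u = 0 ∧ v = 0 := by decide
  have hA' : (A : ZMod 3) ≠ 0 := fun h => hA ((ZMod.intCast_zmod_eq_zero_iff_dvd A 3).mp h)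
  have hB' : (B : ZMod 3) = A := by
    have := (ZMod.intCast_zmod_eq_zero_iff_dvd (A - B) 3).mpr hB
    push_cast at this
    linear_combination -this
  have hR' : (R : ZMod 3) = 0 := (ZMod.intCast_zmod_eq_zero_iff_dvd R 3).mpr hR
  have h2 := congrArg (Int.cast : ℤ → ZMod 3) h1
  push_cast at h2
  rw [hB', hR'] at h2
  obtain ⟨h3, h4⟩ := key A U' V' hA' (by linear_combination h2)
  have h5 : (3 : ℤ) ∣ (Int.gcd U' V' : ℤ) := Int.dvd_coe_gcd
    ((ZMod.intCast_zmod_eq_zero_iff_dvd U' 3).mp h3)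
    ((ZMod.intCast_zmod_eq_zero_iff_dvd V' 3).mp h4)
  rw [hc] at h5
  norm_num at h5

/-- rationals of positive 3-adic valuation. -/
def Sm (x : ℚ) : Prop := ∃ n m : ℤ, ¬ (3 : ℤ) ∣ m ∧ x * m = 3 * n

lemma Sm.step {p q r : ℚ} (hp : Sm p) (hq : Sm q) (hr : Sm r) : Sm (-p - 2 * q * r) := by
  obtain ⟨n1, m1, a1, b1⟩ := hp
  obtain ⟨n2, m2, a2, b2⟩ := hq
  obtain ⟨n3, m3, a3, b3⟩ := hr
  have h3 : Prime (3 : ℤ) := Int.prime_three
  refine ⟨-n1 * m2 * m3 - 6 * m1 * n2 * n3, m1 * m2 * m3, ?_, ?_⟩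
  · intro h
    rcases h3.dvd_or_dvd h with h | h
    · rcases h3.dvd_or_dvd h with h | h
      · exact a1 h
      · exact a2 h
    · exact a3 h
  · push_cast
    linear_combination (-(m2 : ℚ) * m3) * b1 - 2 * (m1 : ℚ) * r * m3 * b2 - 6 * (m1 : ℚ) * n2 * b3

lemma Sm.aniso {ρ P Q : ℚ} (h : Sm ρ) (e : P ^ 2 + Q ^ 2 + 2 * ρ * P * Q = 0) : P = 0 := by
  obtain ⟨n, m, a, b⟩ := h
  have hP := Rat.mul_den_eq_num P
  have hQ := Rat.mul_den_eq_num Q
  have h1 : m * (P.num * Q.den) ^ 2 + m * (Q.num * P.den) ^ 2 +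
      6 * n * (P.num * Q.den) * (Q.num * P.den) = (0 : ℤ) := by
    have : ((m * (P.num * Q.den) ^ 2 + m * (Q.num * P.den) ^ 2 +
      6 * n * (P.num * Q.den) * (Q.num * P.den) : ℤ) : ℚ) = 0 := by
      push_cast
      rw [← hP, ← hQ]
      linear_combination ((m : ℚ) * P.den ^ 2 * Q.den ^ 2) * e -
        2 * P * Q * (P.den : ℚ) ^ 2 * (Q.den : ℚ) ^ 2 * b
    exact_mod_cast this
  have h2 := (MP_786755_nt.aniso m m (6 * n) _ _ a (by simp) ⟨2 * n, by ring⟩ h1).1
  rcases mul_eq_zero.mp h2 with h | h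
  · exact Rat.num_eq_zero.mp h
  · exact absurd h (by exact_mod_cast Q.den_nz)

lemma markoff_step (L p q r : ℚ[X]) (hL : L.natDegree ≤ 1)
    (h : p ^ 2 + q ^ 2 + r ^ 2 + 2 * p * q * r = L) (hr : Sm (r.coeff 0))
    (h1 : q.natDegree ≤ p.natDegree) (h2 : r.natDegree ≤ q.natDegree) (h0 : 0 < p.natDegree) :
    (-p - 2 * q * r).natDegree < p.natDegree := by
  have hp0 : p ≠ 0 := by
    rintro rfl
    simp at h0
  rcases h1.lt_or_eq with h1 | h1
  · by_cases hs : -p - 2 * q * r = 0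
    · rw [hs]
      simpa using h0
    have e : p * (-p - 2 * q * r) = q ^ 2 + r ^ 2 - L := by linear_combination -h
    have e1 := congrArg natDegree e
    rw [natDegree_mul hp0 hs] at e1
    have e2 : (q ^ 2 + r ^ 2 - L).natDegree ≤ max (2 * q.natDegree) 1 := by
      refine (natDegree_sub_le _ _).trans (max_le_max ?_ hL)
      refine (natDegree_add_le _ _).trans ?_
      rw [natDegree_pow, natDegree_pow]
      omega
    omega
  · exfalso
    have hq0 : q ≠ 0 := by
      rintro rfl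
      simp at h1
      omega
    rcases Nat.eq_zero_or_pos r.natDegree with h3 | h3
    · have hc := eq_C_of_natDegree_eq_zero h3
      set ρ := r.coeff 0
      have e := congrArg (fun f => coeff f (p.natDegree + p.natDegree)) h
      have c1 : (p ^ 2).coeff (p.natDegree + p.natDegree) = p.leadingCoeff ^ 2 := by
        rw [sq, coeff_mul_degree_add_degree, sq]
      have c2 : (q ^ 2).coeff (p.natDegree + p.natDegree) = q.leadingCoeff ^ 2 := by
        rw [sq, ← h1, coeff_mul_degree_add_degree, sq]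
      have c3 : (r ^ 2).coeff (p.natDegree + p.natDegree) = 0 := by
        apply coeff_eq_zero_of_natDegree_lt
        rw [natDegree_pow]
        omega
      have c4 : (2 * p * q * r).coeff (p.natDegree + p.natDegree) =
          2 * ρ * p.leadingCoeff * q.leadingCoeff := by
        have : 2 * p * q * r = C (2 * ρ) * (p * q) := by
          rw [hc, map_mul]
          simp only [coeff_C_zero, map_ofNat]
          ring
        rw [this, coeff_C_mul]
        nth_rewrite 2 [← h1]
        rw [coeff_mul_degree_add_degree]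
        ring
      have c5 : L.coeff (p.natDegree + p.natDegree) = 0 :=
        coeff_eq_zero_of_natDegree_lt (by omega)
      simp only [coeff_add, c1, c2, c3, c4, c5, add_zero] at e
      exact hp0 (leadingCoeff_eq_zero.mp (hr.aniso e))
    · have hr0 : r ≠ 0 := by
        rintro rfl
        simp at h3
      have e : 2 * p * q * r = L - p ^ 2 - q ^ 2 - r ^ 2 := by linear_combination h
      have e1 := congrArg natDegree e
      have two : (2 : ℚ[X]) ≠ 0 := two_ne_zero
      rw [natDegree_mul (mul_ne_zero (mul_ne_zero two hp0) hq0) hr0,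
        natDegree_mul (mul_ne_zero two hp0) hq0, natDegree_mul two hp0] at e1
      have e2 : (L - p ^ 2 - q ^ 2 - r ^ 2).natDegree ≤ 2 * p.natDegree := by
        refine (natDegree_sub_le _ _).trans (max_le ((natDegree_sub_le _ _).trans
          (max_le ((natDegree_sub_le _ _).trans (max_le ?_ ?_)) ?_)) ?_) <;>
          (try rw [natDegree_pow]) <;> omega
      omega

lemma markoff (L : ℚ[X]) (hL : L.natDegree ≤ 1) (n : ℕ) : ∀ p q r : ℚ[X],
    p.natDegree + q.natDegree + r.natDegree = n → p ^ 2 + q ^ 2 + r ^ 2 + 2 * p * q * r = L →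
    Sm (p.coeff 0) → Sm (q.coeff 0) → Sm (r.coeff 0) → n = 0 := by
  induction n using Nat.strong_induction_on with
  | _ n ih =>
    have main : ∀ p q r : ℚ[X], q.natDegree ≤ p.natDegree → r.natDegree ≤ q.natDegree →
        p.natDegree + q.natDegree + r.natDegree = n →
        p ^ 2 + q ^ 2 + r ^ 2 + 2 * p * q * r = L →
        Sm (p.coeff 0) → Sm (q.coeff 0) → Sm (r.coeff 0) → n = 0 := by
      intro p q r h1 h2 hn h hp hq hr
      rcases Nat.eq_zero_or_pos p.natDegree with h0 | h0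
      · omega
      have hs := markoff_step L p q r hL h hr h1 h2 h0
      have hz := ih _ (by omega) (-p - 2 * q * r) q r rfl (by linear_combination h)
        (by simpa [mul_assoc] using (by simpa [mul_assoc] using hp.step hq hr :
          Sm (-p.coeff 0 - 2 * (q.coeff 0 * r.coeff 0)))) hq hr
      have e : p = -(-p - 2 * q * r) - 2 * q * r := by ring
      have e2 : p.natDegree ≤ 0 := by
        rw [e]
        refine (natDegree_sub_le _ _).trans (max_le (by rw [natDegree_neg]; omega) ?_)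
        refine natDegree_mul_le.trans ?_
        have := natDegree_mul_le (p := (2 : ℚ[X])) (q := q)
        have t : (2 : ℚ[X]).natDegree = 0 := natDegree_ofNat 2
        omega
      omega
    intro p q r hn h hp hq hr
    rcases le_total q.natDegree p.natDegree with a | a <;>
      rcases le_total r.natDegree q.natDegree with b | b <;>
      rcases le_total r.natDegree p.natDegree with c | c
    · exact main p q r a b hn h hp hq hr
    · exact main p q r a b hn h hp hq hr
    · exact main p r q c b (by omega) (by linear_combination h) hp hr hq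
    · exact main r p q c a (by omega) (by linear_combination h) hr hp hq
    · exact main q p r a c (by omega) (by linear_combination h) hq hp hr
    · exact main q r p b c (by omega) (by linear_combination h) hq hr hp
    · exact main r q p b a (by omega) (by linear_combination h) hr hq hp
    · exact main r q p b a (by omega) (by linear_combination h) hr hq hp

end Pool.Agent.Lib.MP_786755_nt
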