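import Pool.Agent.Lib.MP_786755_nt.Key

/-! Both pair sums of degree at most one: Pell descent to lines. -/

namespace Pool.Agent.Lib.MP_786755_nt

open Polynomial

lemma line_int (a0 b0 k n1 n2 : ℤ) (ha : a0 % 3 = 2) (hb : b0 % 3 = 2) (hk : ¬ (3 : ℤ) ∣ k)
    (N : ℕ) : ∀ l m x y : ℤ, l.natAbs = N → l ^ 3 + m ^ 3 + 3 * (l * x ^ 2 + m * y ^ 2) = 0 →
    k * (a0 * (l ^ 2 + x ^ 2) + b0 * (m ^ 2 + y ^ 2)) + 6 * (n1 * l * x + n2 * m * y) = 0 →
    l = 0 := by
  induction N using Nat.strong_induction_on with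
  | _ N ih =>
    intro l m x y hN h1 h2
    have key : ∀ l m x y : ZMod 9, l ^ 3 + m ^ 3 + 3 * (l * x ^ 2 + m * y ^ 2) = 0 →
        3 * (l ^ 2 + x ^ 2 + m ^ 2 + y ^ 2) = 0 →
        3 * l = 0 ∧ 3 * m = 0 ∧ 3 * x = 0 ∧ 3 * y = 0 := by decide +kernel
    have h3 : (3 : ℤ) ∣ l ^ 2 + x ^ 2 + m ^ 2 + y ^ 2 := by
      have e1 : (3 : ℤ) ∣ k * (a0 * (l ^ 2 + x ^ 2) + b0 * (m ^ 2 + y ^ 2)) :=
        ⟨-2 * (n1 * l * x + n2 * m * y), by linear_combination h2⟩
      obtain ⟨c, hc⟩ := (Int.prime_three.dvd_or_dvd e1).resolve_left hk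
      obtain ⟨a1, rfl⟩ : ∃ a1, a0 = 3 * a1 + 2 := ⟨a0 / 3, by omega⟩
      obtain ⟨b1, rfl⟩ : ∃ b1, b0 = 3 * b1 + 2 := ⟨b0 / 3, by omega⟩
      exact ⟨(a1 + 1) * (l ^ 2 + x ^ 2) + (b1 + 1) * (m ^ 2 + y ^ 2) - c,
        by linear_combination -hc⟩
    have conv : ∀ t : ℤ, 3 * (t : ZMod 9) = 0 ↔ (3 : ℤ) ∣ t := by
      intro t
      have := ZMod.intCast_zmod_eq_zero_iff_dvd (3 * t) 9
      push_cast at this
      rw [this]
      omega
    obtain ⟨d1, d2, d3, d4⟩ := key l m x y (by exact_mod_cast congrArg (Int.cast : ℤ → ZMod 9) h1)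
      (by exact_mod_cast (conv _).mpr h3)
    obtain ⟨l, rfl⟩ := (conv _).mp d1
    obtain ⟨m, rfl⟩ := (conv _).mp d2
    obtain ⟨x, rfl⟩ := (conv _).mp d3
    obtain ⟨y, rfl⟩ := (conv _).mp d4
    by_contra hne
    have := ih l.natAbs (by omega) l m x y rfl (by linarith) (by linarith)
    omega

lemma line_rat (a0 b0 : ℤ) (ha : a0 % 3 = 2) (hb : b0 % 3 = 2) (l m x y u0 v0 : ℚ) (hu : Sm u0)
    (hv : Sm v0) (h1 : l ^ 3 + m ^ 3 + 3 * (l * x ^ 2 + m * y ^ 2) = 0)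
    (h2 : a0 * (l ^ 2 + x ^ 2) + b0 * (m ^ 2 + y ^ 2) + 2 * (u0 * l * x + v0 * m * y) = 0) :
    l = 0 := by
  obtain ⟨n1, m1, a1, b1⟩ := hu
  obtain ⟨n2, m2, a2, b2⟩ := hv
  obtain ⟨⟨d, hd⟩, hi⟩ := IsLocalization.exist_integer_multiples_of_finset (nonZeroDivisors ℤ)
    ({l, m, x, y} : Finset ℚ)
  obtain ⟨l', hl⟩ := hi l (by simp)
  obtain ⟨m', hm⟩ := hi m (by simp)
  obtain ⟨x', hx⟩ := hi x (by simp)
  obtain ⟨y', hy⟩ := hi y (by simp)
  simp only [algebraMap_int_eq, eq_intCast, zsmul_eq_mul] at hl hm hx hy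
  have hd0 : (d : ℚ) ≠ 0 := by exact_mod_cast nonZeroDivisors.ne_zero hd
  have := line_int a0 b0 (m1 * m2) (n1 * m2) (n2 * m1) ha hb
    (fun h => (Int.prime_three.dvd_or_dvd h).elim a1 a2) _ l' m' x' y' rfl
    (by
      have : ((l' ^ 3 + m' ^ 3 + 3 * (l' * x' ^ 2 + m' * y' ^ 2) : ℤ) : ℚ) = 0 := by
        push_cast
        rw [hl, hm, hx, hy]
        linear_combination (d : ℚ) ^ 3 * h1
      exact_mod_cast this)
    (by
      have : ((m1 * m2 * (a0 * (l' ^ 2 + x' ^ 2) + b0 * (m' ^ 2 + y' ^ 2)) +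
          6 * (n1 * m2 * l' * x' + n2 * m1 * m' * y') : ℤ) : ℚ) = 0 := by
        push_cast
        rw [hl, hm, hx, hy]
        linear_combination (d : ℚ) ^ 2 * m1 * m2 * h2 - 2 * (d : ℚ) ^ 2 * m2 * l * x * b1 -
          2 * (d : ℚ) ^ 2 * m1 * m * y * b2
      exact_mod_cast this)
  rw [this] at hl
  exact (mul_eq_zero.mp (by simpa using hl.symm)).resolve_left hd0

lemma Sm.comb {u v : ℚ} (hu : Sm u) (hv : Sm v) (p q g : ℤ) (hg : ¬ (3 : ℤ) ∣ g) :
    Sm ((p * u + q * v) / g) := by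
  obtain ⟨n1, m1, a1, b1⟩ := hu
  obtain ⟨n2, m2, a2, b2⟩ := hv
  have hg0 : (g : ℚ) ≠ 0 := by
    rintro h
    have : g = 0 := by exact_mod_cast h
    simp [this] at hg
  refine ⟨p * n1 * m2 + q * n2 * m1, g * (m1 * m2), fun h => ?_, ?_⟩
  · rcases Int.prime_three.dvd_or_dvd h with h | h
    · exact hg h
    · exact (Int.prime_three.dvd_or_dvd h).elim a1 a2
  · push_cast
    field_simp
    linear_combination (p : ℚ) * m2 * b1 + (q : ℚ) * m1 * b2

lemma coeff_lin (a l : ℚ) (f : ℚ[X]) (n : ℕ) :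
    ((C a + C l * X) * f).coeff (n + 1) = a * f.coeff (n + 1) + l * f.coeff n := by
  rw [add_mul, coeff_add, coeff_C_mul, mul_assoc, coeff_C_mul, coeff_X_mul]

lemma coeff_sq (f : ℚ[X]) (d : ℕ) (hf : f.natDegree ≤ d + 1) :
    (f ^ 2).coeff (2 * d + 3) = 0 ∧ (f ^ 2).coeff (2 * d + 2) = f.coeff (d + 1) ^ 2 ∧
      (f ^ 2).coeff (2 * d + 1) = 2 * f.coeff (d + 1) * f.coeff d := by
  refine ⟨coeff_eq_zero_of_natDegree_lt ?_, coeff_pow_of_natDegree_le hf, ?_⟩
  · rw [natDegree_pow]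
    omega
  · set g := f - monomial (d + 1) (f.coeff (d + 1)) with hg
    have hg1 : g.natDegree ≤ d := by
      rw [natDegree_le_iff_coeff_eq_zero]
      intro N hN
      rw [hg, coeff_sub, coeff_monomial]
      split_ifs with h
      · simp [h]
      · simpa using coeff_eq_zero_of_natDegree_lt (by omega)
    have hg2 : g.coeff d = f.coeff d := by simp [hg, coeff_monomial]
    have e : f ^ 2 = g ^ 2 + C (2 * f.coeff (d + 1)) * (g * X ^ (d + 1)) +
        monomial (2 * d + 2) (f.coeff (d + 1) ^ 2) := by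
      have e1 : f = g + C (f.coeff (d + 1)) * X ^ (d + 1) := by
        rw [hg, C_mul_X_pow_eq_monomial]
        ring
      rw [← C_mul_X_pow_eq_monomial, map_mul, map_pow, map_ofNat]
      nth_rewrite 1 [e1]
      ring
    have c1 : (g ^ 2).coeff (2 * d + 1) = 0 := by
      apply coeff_eq_zero_of_natDegree_lt
      rw [natDegree_pow]
      omega
    have c2 : (g * X ^ (d + 1)).coeff (2 * d + 1) = g.coeff d := by
      rw [show 2 * d + 1 = d + (d + 1) by ring, coeff_mul_X_pow]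
    rw [e, coeff_add, coeff_add, c1, coeff_C_mul, c2, hg2, coeff_monomial]
    simp

lemma pell (a0 b0 : ℤ) (ha : a0 % 3 = 2) (hb : b0 % 3 = 2) (l m : ℚ) (hl : l ≠ 0) (hm : m ≠ 0)
    (L : ℚ[X]) (hL : L.natDegree ≤ 1) (d : ℕ) : ∀ u v : ℚ[X], u.natDegree ≤ d + 1 →
    v.natDegree ≤ d + 1 → Sm (u.coeff 0) → Sm (v.coeff 0) →
    (C (a0 : ℚ) + C l * X) ^ 3 + (C (b0 : ℚ) + C m * X) ^ 3 +
      3 * ((C (a0 : ℚ) + C l * X) * u ^ 2 + (C (b0 : ℚ) + C m * X) * v ^ 2) ≠ L := by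
  have three : (3 : ℚ[X]) = C 3 := rfl
  have cube : ∀ a l : ℚ, (C a + C l * X) ^ 3 = C (a ^ 3) + C (3 * a ^ 2 * l) * X ^ 1 +
      C (3 * a * l ^ 2) * X ^ 2 + C (l ^ 3) * X ^ 3 := by
    intro a l
    simp only [map_mul, map_pow, map_ofNat]
    ring
  induction d with
  | zero =>
    intro u v hu hv su sv h
    obtain ⟨u1, u2, u3⟩ := coeff_sq u 0 hu
    obtain ⟨v1, v2, v3⟩ := coeff_sq v 0 hv
    simp only [mul_zero, zero_add] at u1 u2 u3 v1 v2 v3
    have e3 := congrArg (fun f => coeff f (2 + 1)) h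
    have e2 := congrArg (fun f => coeff f (1 + 1)) h
    simp only [cube, three, coeff_add, coeff_C_mul, coeff_lin, coeff_X_pow, coeff_C] at e3 e2
    rw [coeff_eq_zero_of_natDegree_lt (p := L) (by omega)] at e3 e2
    norm_num [u1, u2, u3, v1, v2, v3] at e3 e2
    exact hl (line_rat a0 b0 ha hb l m (u.coeff 1) (v.coeff 1) _ _ su sv (by linarith)
      (by linarith))
  | succ d ih =>
    intro u v hu hv su sv h
    obtain ⟨u1, u2, u3⟩ := coeff_sq u (d + 1) hu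
    obtain ⟨v1, v2, v3⟩ := coeff_sq v (d + 1) hv
    have e3 := congrArg (fun f => coeff f (2 * (d + 1) + 2 + 1)) h
    have e2 := congrArg (fun f => coeff f (2 * (d + 1) + 1 + 1)) h
    simp only [cube, three, coeff_add, coeff_C_mul, coeff_lin, coeff_X_pow, coeff_C] at e3 e2
    rw [coeff_eq_zero_of_natDegree_lt (p := L) (by omega)] at e3 e2
    rw [if_neg (by omega), if_neg (by omega), if_neg (by omega), if_neg (by omega),
      if_neg (by omega)] at e3 e2
    rw [u1, v1, u2, v2] at e3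
    rw [u2, v2, u3, v3] at e2
    set U := u.coeff (d + 1 + 1) with hU
    set V := v.coeff (d + 1 + 1) with hV
    have drop : ∀ f : ℚ[X], ∀ n, f.natDegree ≤ n + 1 → f.coeff (n + 1) = 0 → f.natDegree ≤ n :=
      fun f n h1 h2 => natDegree_le_pred h1 h2
    by_cases hV0 : V = 0
    · have hU0 : U = 0 := by
        rw [hV0] at e3
        have : l * U ^ 2 = 0 := by linarith
        simpa [hl] using this
      exact ih u v (drop u _ hu hU0) (drop v _ hv hV0) su sv h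
    obtain ⟨ρ, hρ⟩ : ∃ ρ, U = ρ * V := ⟨U / V, by field_simp⟩
    have hmρ : m = -l * ρ ^ 2 := by
      apply mul_left_cancel₀ (pow_ne_zero 2 hV0)
      rw [hρ] at e3
      linarith
    have hρ0 : ρ ≠ 0 := by
      rintro rfl
      simp [hmρ] at hm
    have hn := Rat.mul_den_eq_num ρ
    have hden : (ρ.den : ℚ) ≠ 0 := by exact_mod_cast ρ.den_nz
    set g : ℤ := a0 * ρ.num ^ 2 + b0 * (ρ.den : ℤ) ^ 2 with hg
    have hg3 : ¬ (3 : ℤ) ∣ g := by
      intro h3
      have key : ∀ x y : ZMod 3, 2 * x ^ 2 + 2 * y ^ 2 = 0 → x = 0 ∧ y = 0 := by decide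
      have h4 := (ZMod.intCast_zmod_eq_zero_iff_dvd g 3).mpr h3
      have ha' : (a0 : ZMod 3) = 2 := by
        have := (ZMod.intCast_zmod_eq_zero_iff_dvd (a0 - 2) 3).mpr (by omega)
        push_cast at this
        linear_combination this
      have hb' : (b0 : ZMod 3) = 2 := by
        have := (ZMod.intCast_zmod_eq_zero_iff_dvd (b0 - 2) 3).mpr (by omega)
        push_cast at this
        linear_combination this
      rw [hg] at h4
      push_cast at h4
      rw [ha', hb'] at h4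
      obtain ⟨k1, k2⟩ := key _ _ h4
      have k3 := (ZMod.intCast_zmod_eq_zero_iff_dvd ρ.num 3).mp k1
      have k4 := (ZMod.natCast_eq_zero_iff ρ.den 3).mp k2
      have k5 : 3 ∣ Nat.gcd ρ.num.natAbs ρ.den := Nat.dvd_gcd (by omega) k4
      rw [ρ.reduced] at k5
      omega
    have hgq : (g : ℚ) = (a0 * ρ ^ 2 + b0) * ρ.den ^ 2 := by
      rw [hg]
      push_cast
      rw [← hn]
      ring
    have hs : (a0 : ℚ) * ρ ^ 2 + b0 ≠ 0 := by
      intro h0
      rw [h0, zero_mul] at hgq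
      have : g = 0 := by exact_mod_cast hgq
      simp [this] at hg3
    set γ : ℚ := 2 * ρ / (a0 * ρ ^ 2 + b0) with hγ
    set δ : ℚ := (a0 * ρ ^ 2 - b0) / (2 * ρ) with hδ
    set u' : ℚ[X] := C γ * ((C (-δ) + C (-l * ρ) * X) * u - (C (b0 : ℚ) + C m * X) * v) with hu'
    set v' : ℚ[X] := C γ * ((C (a0 : ℚ) + C l * X) * u + (C (-δ) + C (-l * ρ) * X) * v) with hv'
    have lin : ∀ (a l : ℚ) (f : ℚ[X]), f.natDegree ≤ d + 1 + 1 →
        ((C a + C l * X) * f).natDegree ≤ d + 1 + 1 + 1 := by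
      intro a l f hf
      refine natDegree_mul_le.trans ?_
      have : (C a + C l * X).natDegree ≤ 1 := by
        rw [add_comm]
        exact natDegree_linear_le
      omega
    have zu : u.coeff (d + 1 + 1 + 1) = 0 := coeff_eq_zero_of_natDegree_lt (by omega)
    have zv : v.coeff (d + 1 + 1 + 1) = 0 := coeff_eq_zero_of_natDegree_lt (by omega)
    have e4 : l * (u.coeff (d + 1) - ρ * v.coeff (d + 1)) = -V * (a0 * ρ ^ 2 + b0) / (2 * ρ) := by
      rw [hρ, hmρ] at e2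
      field_simp
      apply mul_left_cancel₀ hV0
      linarith
    refine ih u' v' ?_ ?_ ?_ ?_ ?_
    · refine drop _ _ (drop _ _ ((natDegree_C_mul_le _ _).trans ((natDegree_sub_le _ _).trans
        (max_le (lin _ _ _ hu) (lin _ _ _ hv)))) ?_) ?_
      · rw [hu', coeff_C_mul, coeff_sub, coeff_lin, coeff_lin, zu, zv, ← hU, ← hV, hρ, hmρ]
        ring
      · rw [hu', coeff_C_mul, coeff_sub, coeff_lin, coeff_lin, ← hU, ← hV, hρ, hmρ, hδ]
        apply mul_eq_zero_of_right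
        have : (-ρ) * (l * (u.coeff (d + 1) - ρ * v.coeff (d + 1))) =
            V * (a0 * ρ ^ 2 + b0) / 2 := by
          rw [e4]
          field_simp
        field_simp
        linear_combination 2 * this
    · refine drop _ _ (drop _ _ ((natDegree_C_mul_le _ _).trans ((natDegree_add_le _ _).trans
        (max_le (lin _ _ _ hu) (lin _ _ _ hv)))) ?_) ?_
      · rw [hv', coeff_C_mul, coeff_add, coeff_lin, coeff_lin, zu, zv, ← hU, ← hV, hρ]
        ring
      · rw [hv', coeff_C_mul, coeff_add, coeff_lin, coeff_lin, ← hU, ← hV, hρ, hδ]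
        apply mul_eq_zero_of_right
        field_simp at e4 ⊢
        linear_combination e4
    · convert su.comb sv (-(a0 * ρ.num ^ 2 - b0 * (ρ.den : ℤ) ^ 2)) (-(2 * ρ.num * ρ.den * b0)) g
        hg3 using 1
      rw [hu', hgq]
      simp only [mul_coeff_zero, coeff_C_zero, coeff_sub, coeff_add, coeff_X_zero, hγ, hδ]
      push_cast
      rw [← hn]
      field_simp
      ring
    · convert su.comb sv (2 * ρ.num * ρ.den * a0) (-(a0 * ρ.num ^ 2 - b0 * (ρ.den : ℤ) ^ 2)) g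
        hg3 using 1
      rw [hv', hgq]
      simp only [mul_coeff_zero, coeff_C_zero, coeff_sub, coeff_add, coeff_X_zero, hγ, hδ]
      push_cast
      rw [← hn]
      field_simp
      ring
    · have i1 : γ ^ 2 * (δ ^ 2 + a0 * b0) = 1 := by
        have k1 : γ * (a0 * ρ ^ 2 + b0) = 2 * ρ := div_mul_cancel₀ _ hs
        have k2 : δ * (2 * ρ) = a0 * ρ ^ 2 - b0 := div_mul_cancel₀ _ (by simpa using hρ0)
        apply mul_left_cancel₀ (pow_ne_zero 2 (mul_ne_zero two_ne_zero hρ0))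
        linear_combination γ ^ 2 * (δ * (2 * ρ) + (a0 * ρ ^ 2 - b0)) * k2 +
          (γ * (a0 * ρ ^ 2 + b0) + 2 * ρ) * k1
      have i2 : 2 * δ * ρ = a0 * ρ ^ 2 - b0 := by
        rw [hδ]
        field_simp
      have j1 : C γ ^ 2 * (C δ ^ 2 + C (a0 : ℚ) * C (b0 : ℚ)) = 1 := by
        rw [← map_pow, ← map_pow, ← map_mul, ← map_add, ← map_mul, i1, map_one]
      have j2 : 2 * C δ * C ρ = C (a0 : ℚ) * C ρ ^ 2 - C (b0 : ℚ) := by
        have := congrArg (C : ℚ → ℚ[X]) i2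
        simpa only [map_mul, map_sub, map_pow, map_ofNat] using this
      rw [← h, hu', hv', hmρ]
      simp only [map_mul, map_neg, map_pow]
      linear_combination
        3 * ((C (a0 : ℚ) + C l * X) * u ^ 2 + (C (b0 : ℚ) + -C l * C ρ ^ 2 * X) * v ^ 2) * j1 +
        3 * ((C (a0 : ℚ) + C l * X) * u ^ 2 + (C (b0 : ℚ) + -C l * C ρ ^ 2 * X) * v ^ 2) *
          C γ ^ 2 * C l * X * j2

end Pool.Agent.Lib.MP_786755_nt
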