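import Pool.Agent.Lib.MP_786755_nt.Pow

/-! Square classes modulo `q` and the basic mean square inequality. -/

namespace Pool.Agent.Lib.MP_786755_nt

open Finset Pool.Agent.Lib.MP_028aa5_nt

/-- `a'` is `a` times the square of a unit modulo `q` -/
def Rel (q : ℕ) (a a' : ℤ) : Prop := ∃ j : ℤ, IsCoprime j q ∧ a' ≡ a * j ^ 2 [ZMOD q]

theorem exists_label {q : ℕ} (hq : q ≠ 0) : ∃ (L : Finset (ℕ × ℕ)) (lab : ℤ → ℕ × ℕ),
    #L ≤ #q.divisors * 4 ^ #q.primeFactors ∧ (∀ a, lab a ∈ L) ∧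
      ∀ a a', lab a = lab a' → Rel q a a' := by
  classical
  have : NeZero q := ⟨hq⟩
  set f : (ZMod q)ˣ →* (ZMod q)ˣ := powMonoidHom 2 with hf
  choose d hd u hu h using fun a : ℤ => ZMod.eq_unit_mul_divisor (a : ZMod q)
  set ρ : (ZMod q)ˣ ⧸ f.range → ℕ := fun c => ((c.out : (ZMod q)ˣ) : ZMod q).val with hρ
  refine ⟨q.divisors ×ˢ univ.image ρ, fun a => (d a, ρ (hu a).unit), ?_, fun a => ?_,
    fun a a' e => ?_⟩
  · rw [card_product]
    gcongr
    refine card_image_le.trans ?_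
    rw [card_univ, ← Nat.card_eq_fintype_card, ← Subgroup.index_eq_card, Subgroup.index_range,
      Nat.card_eq_fintype_card, ← card_univ]
    refine le_trans (card_le_card_of_injOn (fun x : f.ker => ((x : (ZMod q)ˣ) : ZMod q).val)
      (fun x _ => ?_) fun x _ y _ e => ?_) (card_sqrt_one_le hq)
    · refine mem_coe.2 (mem_filter.2 ⟨mem_range.2 (ZMod.val_lt _), ?_⟩)
      rw [← ZMod.intCast_zmod_eq_zero_iff_dvd]
      have h1 : (x : (ZMod q)ˣ) ^ 2 = 1 := x.2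
      have h2 := congrArg (fun y : (ZMod q)ˣ => (y : ZMod q)) h1
      push_cast at h2 ⊢
      rw [ZMod.natCast_zmod_val, h2, sub_self]
    · exact Subtype.ext (Units.ext (ZMod.val_injective q e))
  · exact mem_product.2 ⟨Nat.mem_divisors.2 ⟨hd a, hq⟩, mem_image_of_mem _ (mem_univ _)⟩
  · have e1 : d a = d a' := congrArg Prod.fst e
    have e2 : ρ (hu a).unit = ρ (hu a').unit := congrArg Prod.snd e
    have e3 := Quotient.out_injective (Units.ext (ZMod.val_injective q e2))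
    obtain ⟨j, hj⟩ := QuotientGroup.eq.1 e3
    have e4 : (hu a').unit = (hu a).unit * j ^ 2 := by
      rw [show j ^ 2 = f j from rfl, hj, mul_inv_cancel_left]
    have e5 := congrArg (fun y : (ZMod q)ˣ => (y : ZMod q)) e4
    simp only [IsUnit.unit_spec, Units.val_mul, Units.val_pow_eq_pow_val] at e5
    refine ⟨(j : ZMod q).val, Nat.isCoprime_iff_coprime.2 (ZMod.val_coe_unit_coprime j), ?_⟩
    rw [← ZMod.intCast_eq_intCast_iff]
    push_cast
    rw [ZMod.natCast_zmod_val, h a', h a, e5, e1]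
    ring

lemma Rel.s2_eq {q : ℕ} {a a' : ℤ} (h : Rel q a a') (r : ℤ) :
    s2 q (6 * a * r) = s2 q (6 * a' * r) := by
  obtain ⟨j, hj, h⟩ := h
  rw [← s2_sq_mul hj, s2_congr ((h.mul_left 6).mul_right r)]
  congr 1; ring

lemma Rel.s3_eq {q : ℕ} {a a' : ℤ} (h : Rel q a a') (r : ℤ) :
    s3 q r (6 * a) = s3 q r (6 * a') := by
  obtain ⟨j, hj, h⟩ := h
  refine s3_congr (Int.ModEq.refl r) fun p hp => ?_
  rw [dvd_iff_of_modEq (h.mul_left 6) p hp, ← mul_assoc]
  have hp' := Nat.prime_of_mem_primeFactors hp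
  have h1 := not_dvd_of_isCoprime hp' (Nat.dvd_of_mem_primeFactors hp) (hj.pow_left (m := 2))
  exact ⟨fun h => h.mul_right _,
    fun h => ((Nat.prime_iff_prime_int.1 hp').dvd_or_dvd h).resolve_right h1⟩

lemma Rel.gcd_dvd {q a a' : ℕ} (h : Rel q a a') : Nat.gcd a q ∣ a' := by
  obtain ⟨j, -, h⟩ := h
  have h1 : ((Nat.gcd a q : ℕ) : ℤ) ∣ a * j ^ 2 - a' :=
    (Int.natCast_dvd_natCast.2 (Nat.gcd_dvd_right a q)).trans h.dvd
  have h2 : ((Nat.gcd a q : ℕ) : ℤ) ∣ a * j ^ 2 :=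
    (Int.natCast_dvd_natCast.2 (Nat.gcd_dvd_left a q)).mul_right _
  have := h2.sub h1
  rw [sub_sub_cancel] at this
  exact Int.natCast_dvd_natCast.1 this

/-- numerators coprime to `q` in two periods -/
def Rq (q : ℕ) : Finset ℕ := (Ioc 0 (2 * q)).filter fun r => r.Coprime q

lemma Rq_cop {q r : ℕ} (h : r ∈ Rq q) : IsCoprime (r : ℤ) q :=
  Nat.isCoprime_iff_coprime.2 (mem_filter.1 h).2

lemma card_Rq (q : ℕ) : (#(Rq q) : ℝ) ≤ 2 * q := by
  have : #(Rq q) ≤ 2 * q := (card_filter_le _ _).trans (by simp)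
  exact_mod_cast this

lemma orth_le2 {ι : Type*} {q : ℕ} (hq : 0 < q) (S : Finset ι) (γ : ι → ℂ) (m : ι → ℤ) :
    ∑ r ∈ Rq q, ‖∑ i ∈ S, γ i * ec q (r * m i)‖ ^ 2 ≤
      2 * q * ∑ i ∈ S, ∑ j ∈ S, if (q : ℤ) ∣ m i - m j then ‖γ i‖ * ‖γ j‖ else 0 := by
  refine (sum_le_sum_of_subset_of_nonneg (filter_subset _ _) fun _ _ _ => by positivity).trans ?_
  rw [sum_Ioc_per (f := fun r => ‖∑ i ∈ S, γ i * ec q (r * m i)‖ ^ 2) (fun x y h => by
    simp only [ec_congr (h.mul_right _)]), nsmul_eq_mul, mul_assoc]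
  push_cast
  gcongr
  exact orth_le hq S γ m

open Classical in
/-- the basic mean square inequality -/
theorem ms {ι : Type*} {q : ℕ} (hq : 0 < q) (S : Finset ι) (a m : ι → ℤ) (γ : ι → ℂ)
    (lam : ℤ → ℤ → ℂ) (Λ : ι → ℝ) (hlam : ∀ r x y, Rel q x y → lam r x = lam r y)
    (hΛ : ∀ r : ℤ, IsCoprime r q → ∀ i ∈ S, ‖lam r (a i)‖ ^ 2 ≤ Λ i) :
    ∑ r ∈ Rq q, ‖∑ i ∈ S, lam r (a i) * (γ i * ec q (r * m i))‖ ^ 2 ≤
      (#q.divisors * 4 ^ #q.primeFactors) * (2 * q) * ∑ i ∈ S, ∑ j ∈ S,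
        if Rel q (a i) (a j) ∧ (q : ℤ) ∣ m i - m j then Λ i * (‖γ i‖ * ‖γ j‖) else 0 := by
  obtain ⟨L, lab, hL, hlab, hrel⟩ := exists_label hq.ne'
  have hΛ0 : ∀ i ∈ S, 0 ≤ Λ i := fun i hi => le_trans (by positivity) (hΛ 1 isCoprime_one_left i hi)
  set T : ι → ι → ℝ := fun i j =>
    if Rel q (a i) (a j) ∧ (q : ℤ) ∣ m i - m j then Λ i * (‖γ i‖ * ‖γ j‖) else 0 with hT
  have hT0 : ∀ i ∈ S, ∀ j, 0 ≤ T i j := fun i hi j => by
    simp only [hT]
    split_ifs
    · have := hΛ0 i hi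
      positivity
    · rfl
  have h1 : ∀ c ∈ L, ∑ r ∈ Rq q,
      ‖∑ i ∈ S with lab (a i) = c, lam r (a i) * (γ i * ec q (r * m i))‖ ^ 2 ≤
      2 * q * ∑ i ∈ S with lab (a i) = c, ∑ j ∈ S, T i j := by
    intro c _
    rcases (S.filter fun i => lab (a i) = c).eq_empty_or_nonempty with h0 | h0
    · rw [h0]; simp
    obtain ⟨i₀, hi₀, hmin⟩ := exists_min_image _ Λ h0
    obtain ⟨hi1, hi2⟩ := mem_filter.1 hi₀
    have h2 : ∀ r ∈ Rq q, ‖∑ i ∈ S with lab (a i) = c, lam r (a i) * (γ i * ec q (r * m i))‖ ^ 2 ≤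
        Λ i₀ * ‖∑ i ∈ S with lab (a i) = c, γ i * ec q (r * m i)‖ ^ 2 := by
      intro r hr
      rw [sum_congr rfl (g := fun i => lam r (a i₀) * (γ i * ec q (r * m i))) fun i hi => by
        rw [hlam r _ _ (hrel _ _ ((mem_filter.1 hi).2.trans hi2.symm))], ← mul_sum, norm_mul,
        mul_pow]
      gcongr
      exact hΛ r (Rq_cop hr) i₀ hi1
    refine (sum_le_sum h2).trans ?_
    rw [← mul_sum]
    refine (mul_le_mul_of_nonneg_left (orth_le2 hq _ γ m) (hΛ0 i₀ hi1)).trans ?_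
    rw [mul_left_comm, mul_sum]
    gcongr with i hi
    rw [mul_sum]
    refine le_trans (sum_le_sum fun j hj => ?_) (sum_le_sum_of_subset_of_nonneg (filter_subset _ _)
      fun j _ _ => hT0 i (mem_filter.1 hi).1 j)
    have h3 := hrel _ _ ((mem_filter.1 hi).2.trans (mem_filter.1 hj).2.symm)
    simp only [hT, h3, true_and]
    split_ifs
    · gcongr
      exact hmin i hi
    · simp
  have h2 : ∀ r ∈ Rq q, ‖∑ i ∈ S, lam r (a i) * (γ i * ec q (r * m i))‖ ^ 2 ≤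
      #L * ∑ c ∈ L, ‖∑ i ∈ S with lab (a i) = c, lam r (a i) * (γ i * ec q (r * m i))‖ ^ 2 := by
    intro r _
    rw [← sum_fiberwise_of_maps_to (g := fun i => lab (a i)) fun i _ => hlab (a i)]
    refine le_trans ?_ sq_sum_le_card_mul_sum_sq
    gcongr
    exact norm_sum_le _ _
  refine (sum_le_sum h2).trans ?_
  rw [← mul_sum, sum_comm, mul_assoc]
  have h3 := sum_le_sum h1
  rw [← mul_sum, sum_fiberwise_of_maps_to (g := fun i => lab (a i)) fun i _ => hlab (a i)] at h3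
  refine mul_le_mul (by exact_mod_cast hL) h3 (by positivity) (by positivity)

lemma pow_omega_le {q : ℕ} (hq : q ≠ 0) {E : ℝ} (hE : (#q.divisors : ℝ) ≤ E) {c k : ℕ}
    (hc : c ≤ 2 ^ k) : (c : ℝ) ^ #q.primeFactors ≤ E ^ k := by
  have h1 : (2 : ℝ) ^ #q.primeFactors ≤ E :=
    le_trans (by exact_mod_cast two_pow_le_divisors hq) hE
  calc (c : ℝ) ^ #q.primeFactors ≤ (2 ^ k) ^ #q.primeFactors := by gcongr; exact_mod_cast hc
    _ = (2 ^ #q.primeFactors) ^ k := by rw [← pow_mul, ← pow_mul, mul_comm]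
    _ ≤ _ := by gcongr

lemma one_le_of_div {q : ℕ} (hq : q ≠ 0) {E : ℝ} (hE : (#q.divisors : ℝ) ≤ E) : 1 ≤ E :=
  le_trans (by exact_mod_cast card_pos.2 ⟨1, Nat.one_mem_divisors.2 hq⟩) hE

lemma count_per {q : ℕ} (hq : 0 < q) (P : ℤ → Prop) [DecidablePred P]
    (hP : ∀ x y, x ≡ y [ZMOD q] → (P x ↔ P y)) (Y : ℕ) :
    (#((Icc 1 Y).filter fun x : ℕ => P x) : ℝ) ≤
      (Y / q + 1) * #((range q).filter fun x : ℕ => P x) := by
  have h1 := sum_Ioc_per (q := q) (f := fun x => if P x then 1 else 0)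
    (fun x y h => by simp only [hP x y h]) (Y / q + 1)
  rw [← card_filter, ← card_filter, smul_eq_mul] at h1
  have h2 : #((Icc 1 Y).filter fun x : ℕ => P x) ≤
      #((Ioc 0 ((Y / q + 1) * q)).filter fun x : ℕ => P x) := by
    refine card_le_card (filter_subset_filter _ fun x hx => ?_)
    have := Nat.lt_div_mul_add (a := Y) hq
    simp only [mem_Icc, mem_Ioc] at hx ⊢
    rw [add_mul, one_mul]
    omega
  rw [h1] at h2
  refine le_trans (Nat.cast_le.2 h2) ?_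
  push_cast
  gcongr
  exact Nat.cast_div_le

/-- the local factor of the pair of cubes and the third cube -/
noncomputable def psi (q : ℕ) (r a : ℤ) : ℂ :=
  s2 q (6 * a * r) * s3 q r (6 * a) * ec q (r * (2 * a ^ 3))

open Classical in
theorem psi_ms {q Y : ℕ} (hq : 0 < q) {E g : ℝ} (hE : (#q.divisors : ℝ) ≤ E) (S : Finset ℕ)
    (hS : S ⊆ Icc 1 Y) (γ : ℕ → ℂ) (hγ : ∀ a ∈ S, ‖γ a‖ ≤ g) :
    ∑ r ∈ Rq q, ‖∑ a ∈ S, psi q r a * γ a‖ ^ 2 ≤
      24 * E ^ 15 * (tq q / q) * g ^ 2 * (Y * (Y / q + 1)) := by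
  have hq0 : (0 : ℝ) < q := by exact_mod_cast hq
  have hE1 := one_le_of_div hq.ne' hE
  set K : ℝ := 12 / q * (E ^ 7 * (tq q / q)) with hK
  have hK0 : 0 ≤ K := by positivity
  have h1 := ms hq S (fun a => (a : ℤ)) (fun a => 2 * (a : ℤ) ^ 3) γ
    (fun r a => s2 q (6 * a * r) * s3 q r (6 * a))
    (fun a => if Nice q a then Nat.gcd a q * K else 0)
    (fun r x y h => by rw [h.s2_eq, h.s3_eq]) fun r hr a _ => by
      split_ifs with h
      · rw [norm_mul, mul_pow]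
        have e1 : ‖s2 q (6 * a * r)‖ ^ 2 ≤ 12 * Nat.gcd a q / q := by
          refine (norm_s2_sq_le hq _).trans ?_
          gcongr
          exact_mod_cast gcd_twelve_le hq hr a
        have e2 : ‖s3 q r (6 * a)‖ ^ 2 ≤ E ^ 7 * (tq q / q) := by
          refine ((tq_spec hq.ne').2.2 r _ hr).trans ?_
          rw [mul_div_assoc]
          gcongr
          exact_mod_cast pow_omega_le hq.ne' hE (c := 128) (k := 7) (by norm_num)
        refine (mul_le_mul e1 e2 (by positivity) (by positivity)).trans (le_of_eq ?_)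
        rw [hK]; ring
      · have : s3 q r (6 * a) = 0 := by
          by_contra h0
          exact h (nice_of_ne_zero hq.ne' hr h0)
        simp [this]
  have e0 : ∀ (r : ℤ) (a : ℕ), psi q r a * γ a =
      s2 q (6 * a * r) * s3 q r (6 * a) * (γ a * ec q (r * (2 * (a : ℤ) ^ 3))) := by
    intro r a; unfold psi; ring
  simp only [e0]
  refine h1.trans ?_
  have h2 : ∀ a ∈ S, (∑ j ∈ S, if Rel q a j ∧ (q : ℤ) ∣ 2 * (a : ℤ) ^ 3 - 2 * (j : ℤ) ^ 3 then
      (if Nice q a then Nat.gcd a q * K else 0) * (‖γ a‖ * ‖γ j‖) else 0) ≤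
      Nat.gcd a q * (K * g ^ 2 * ((Y / q + 1) * E ^ 4)) := by
    intro a ha
    have hg : 0 ≤ g := le_trans (norm_nonneg _) (hγ a ha)
    by_cases hn : Nice q a
    · simp only [hn, if_true]
      calc _ ≤ ∑ j ∈ S, if (q : ℤ) ∣ 2 * (j : ℤ) ^ 3 - 2 * (a : ℤ) ^ 3 then
            Nat.gcd a q * K * g ^ 2 else 0 := by
            refine sum_le_sum fun j hj => ?_
            split_ifs with h3 h4
            · rw [sq]
              gcongr
              exacts [hγ a ha, hγ j hj]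
            · exact absurd (dvd_sub_comm.1 h3.2) h4
            · positivity
            · rfl
        _ ≤ Nat.gcd a q * K * g ^ 2 * ((Y / q + 1) * E ^ 4) := by
            rw [← sum_filter, sum_const, nsmul_eq_mul, mul_comm]
            gcongr
            refine le_trans (Nat.cast_le.2 (card_le_card (filter_subset_filter _ hS))) ?_
            refine (count_per hq (fun x => (q : ℤ) ∣ 2 * x ^ 3 - 2 * (a : ℤ) ^ 3)
              (fun x y h => (((h.pow 3).mul_left 2).sub_right _).dvd_iff) Y).trans ?_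
            gcongr
            refine le_trans (Nat.cast_le.2 (card_cube_le hq.ne' hn)) ?_
            push_cast
            exact_mod_cast pow_omega_le hq.ne' hE (c := 9) (k := 4) (by norm_num)
        _ = _ := by ring
    · simp only [hn, if_false, zero_mul, ite_self, sum_const_zero]
      positivity
  have h3 := sum_le_sum h2
  rw [← sum_mul] at h3
  have h4 : ∑ a ∈ S, (Nat.gcd a q : ℝ) ≤ Y * E :=
    (sum_le_sum_of_subset_of_nonneg hS fun _ _ _ => by positivity).trans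
      ((sum_gcd_le hq.ne' Y).trans (by gcongr))
  have h5 : (#q.divisors * 4 ^ #q.primeFactors : ℝ) ≤ E * E ^ 2 := by
    gcongr
    exact_mod_cast pow_omega_le hq.ne' hE (c := 4) (k := 2) (by norm_num)
  calc _ ≤ E * E ^ 2 * (2 * q) * (Y * E * (K * g ^ 2 * ((Y / q + 1) * E ^ 4))) := by
        refine mul_le_mul (by gcongr) (h3.trans (by gcongr)) ?_ (by positivity)
        refine sum_nonneg fun i _ => sum_nonneg fun j _ => ?_
        split_ifs <;> positivity
    _ = _ := by rw [hK]; field_simp; ring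

lemma per_psi (q : ℕ) (r : ℤ) : Per q (psi q r) := fun x y h => by
  unfold psi
  rw [s2_congr ((h.mul_left 6).mul_right r), s3_congr (Int.ModEq.refl r)
    (dvd_iff_of_modEq (h.mul_left 6)), ec_congr (((h.pow 3).mul_left 2).mul_left r)]

/-- mean square of the discrepancy of `psi` -/
theorem psi_disc {q : ℕ} (hq : 0 < q) {E : ℝ} (hE : (#q.divisors : ℝ) ≤ E) (y : ℕ) :
    ∑ r ∈ Rq q, ‖∑ a ∈ Ioc 0 y, psi q r a - y * av q (psi q r)‖ ^ 2 ≤ 192 * E ^ 15 * tq q := by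
  have hq0 : (0 : ℝ) < q := by exact_mod_cast hq
  have hE1 := one_le_of_div hq.ne' hE
  have e1 : 24 * E ^ 15 * (tq q / q) * 1 ^ 2 * (q * (q / q + 1)) = 48 * E ^ 15 * tq q := by
    field_simp; ring
  have h1 := psi_ms hq hE (Ioc 0 (y % q)) (Y := q) (fun x hx => by
    have := Nat.mod_lt y hq
    simp only [mem_Ioc, mem_Icc] at hx ⊢
    omega) (fun _ => 1) (g := 1) (by simp)
  have h2 := psi_ms hq hE (Icc 1 q) (Y := q) Subset.rfl (fun _ => 1) (g := 1) (by simp)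
  rw [e1] at h1 h2
  simp only [mul_one] at h1 h2
  have h3 : ∀ r ∈ Rq q, ‖∑ a ∈ Ioc 0 y, psi q r a - y * av q (psi q r)‖ ^ 2 ≤
      2 * ‖∑ a ∈ Ioc 0 (y % q), psi q r a‖ ^ 2 + 2 * ‖∑ a ∈ Icc 1 q, psi q r a‖ ^ 2 := by
    intro r _
    rw [sum_range_sub_av hq (per_psi q r)]
    have h4 : ‖((y % q : ℕ) : ℂ) * av q (psi q r)‖ ≤ ‖∑ a ∈ Icc 1 q, psi q r a‖ := by
      rw [sum_Icc_per (per_psi q r), av, norm_mul, norm_div, Complex.norm_natCast,
        Complex.norm_natCast, mul_div_left_comm]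
      refine mul_le_of_le_one_right (norm_nonneg _) ?_
      rw [div_le_one hq0]
      exact_mod_cast (Nat.mod_lt y hq).le
    have h5 := (norm_sub_le (∑ a ∈ Ioc 0 (y % q), psi q r a) _).trans (add_le_add le_rfl h4)
    have h6 := pow_le_pow_left₀ (norm_nonneg _) h5 2
    nlinarith [sq_nonneg (‖∑ a ∈ Ioc 0 (y % q), psi q r a‖ - ‖∑ a ∈ Icc 1 q, psi q r a‖)]
  refine (sum_le_sum h3).trans ?_
  rw [sum_add_distrib, ← mul_sum, ← mul_sum]
  linarith

end Pool.Agent.Lib.MP_786755_nt
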