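import Pool.Agent.Lib.MP_786755_nt.Local

/-! Cubic sums modulo prime powers, the general bound, and root counts. -/

namespace Pool.Agent.Lib.MP_786755_nt

open Finset Pool.Agent.Lib.MP_028aa5_nt

lemma sum_dvd_range {M : Type*} [AddCommMonoid M] {p : ℕ} (hp : 0 < p) (L : ℕ) (F : ℤ → M) :
    ∑ z ∈ range (p * L), (if (p : ℤ) ∣ (z : ℤ) then F z else 0) = ∑ y ∈ range L, F (p * y) := by
  rw [← sum_filter]
  symm
  refine sum_bij (fun y _ => p * y) (fun y hy => ?_) (fun y _ y' _ h => ?_) (fun z hz => ?_)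
    fun y _ => by push_cast; rfl
  · exact mem_filter.2 ⟨mem_range.2 (Nat.mul_lt_mul_of_pos_left (mem_range.1 hy) hp), by simp⟩
  · exact Nat.eq_of_mul_eq_mul_left hp h
  · obtain ⟨h1, h2⟩ := mem_filter.1 hz
    obtain ⟨y, rfl⟩ := Int.natCast_dvd_natCast.1 h2
    exact ⟨y, mem_range.2 (Nat.lt_of_mul_lt_mul_left (mem_range.1 h1)), rfl⟩

lemma unit_vanish_aux {p q' : ℕ} (hp : p.Prime) (hq' : q' ≠ 0) {h c₀ r : ℤ}
    (h1 : 3 * h = c₀ * q') (h2 : ¬(p : ℤ) ∣ c₀) (h3 : ((q' * p : ℕ) : ℤ) ∣ 3 * h ^ 2)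
    (h4 : ((q' * p : ℕ) : ℤ) ∣ h ^ 3) (h5 : (p : ℤ) ∣ h) (hr : ¬(p : ℤ) ∣ r) :
    ∑ z ∈ range (q' * p), (if (p : ℤ) ∣ (z : ℤ) then 0 else ec (q' * p) (r * z ^ 3)) = 0 := by
  have hP := Nat.prime_iff_prime_int.1 hp
  refine sum_vanish hp.pos (f := fun z => if (p : ℤ) ∣ z then 0 else ec (q' * p) (r * z ^ 3))
    (fun x y hxy => ?_) h (fun z => c₀ * r * z ^ 2) (fun z y => ?_) fun z hz hd => ?_
  · have : x ≡ y [ZMOD p] := hxy.of_dvd (by push_cast; exact dvd_mul_left _ _)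
    simp only [this.dvd_iff]
    rw [ec_congr ((hxy.pow 3).mul_left r)]
  · have e1 : (p : ℤ) ∣ z + h * y ↔ (p : ℤ) ∣ z := dvd_add_left (h5.mul_right y)
    simp only [e1]
    split_ifs
    · simp
    · rw [← ec_mul_left hq' p (c₀ * r * z ^ 2 * y), ← ec_add]
      refine ec_congr (Int.ModEq.symm (Int.modEq_iff_dvd.2 ?_))
      have e2 : r * (z + h * y) ^ 3 - (r * z ^ 3 + q' * (c₀ * r * z ^ 2 * y)) =
          3 * h ^ 2 * (r * z * y ^ 2) + h ^ 3 * (r * y ^ 3) := by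
        linear_combination (r * z ^ 2 * y) * h1
      rw [e2]
      exact (h3.mul_right _).add (h4.mul_right _)
  · have hz' : ¬(p : ℤ) ∣ z := fun h => hz (if_pos h)
    rcases hP.dvd_or_dvd hd with h6 | h6
    · rcases hP.dvd_or_dvd h6 with h7 | h7
      · exact h2 h7
      · exact hr h7
    · exact hz' (hP.dvd_of_dvd_pow h6)

lemma not_dvd_three {p : ℕ} (hp : p.Prime) (h : p ≠ 3) : ¬(p : ℤ) ∣ 3 := fun h3 =>
  h ((Nat.prime_dvd_prime_iff_eq hp Nat.prime_three).1 (by exact_mod_cast h3))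

lemma unit_vanish {p j : ℕ} (hp : p.Prime) (hj : (p ≠ 3 ∧ 2 ≤ j) ∨ 3 ≤ j) {r : ℤ}
    (hr : ¬(p : ℤ) ∣ r) :
    ∑ z ∈ range (p ^ j), (if (p : ℤ) ∣ (z : ℤ) then 0 else ec (p ^ j) (r * z ^ 3)) = 0 := by
  by_cases h3 : p = 3
  · subst h3
    obtain ⟨i, rfl⟩ : ∃ i, j = i + 3 := ⟨j - 3, by omega⟩
    rw [pow_succ]
    refine unit_vanish_aux hp (by positivity) (h := 3 ^ (i + 1)) (c₀ := 1) (by push_cast; ring)
      (by norm_num) ⟨3 ^ i, by push_cast; ring⟩ ⟨3 ^ (2 * i), by push_cast; ring⟩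
      ⟨3 ^ i, by push_cast; ring⟩ hr
  · obtain ⟨i, rfl⟩ : ∃ i, j = i + 2 := ⟨j - 2, by omega⟩
    rw [pow_succ]
    have := hp.pos
    refine unit_vanish_aux hp (by positivity) (h := p ^ (i + 1)) (c₀ := 3) (by push_cast; ring)
      (not_dvd_three hp h3) ⟨3 * p ^ i, by push_cast; ring⟩ ⟨p ^ (2 * i + 1), by push_cast; ring⟩
      ⟨p ^ i, by ring⟩ hr

lemma T3_eq_dvd {p j : ℕ} (hp : p.Prime) (hj : (p ≠ 3 ∧ 2 ≤ j) ∨ 3 ≤ j) {r : ℤ}
    (hr : ¬(p : ℤ) ∣ r) :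
    T3 (p ^ j) r = ∑ y ∈ range (p ^ (j - 1)), ec (p ^ j) (r * (p * y) ^ 3) := by
  have h1 := unit_vanish hp hj hr
  have h2 := sum_dvd_range hp.pos (p ^ (j - 1)) fun z => ec (p ^ j) (r * z ^ 3)
  rw [← pow_succ', show j - 1 + 1 = j by omega] at h2
  have h3 : T3 (p ^ j) r =
      ∑ z ∈ range (p ^ j), (if (p : ℤ) ∣ (z : ℤ) then ec (p ^ j) (r * z ^ 3) else 0) +
      ∑ z ∈ range (p ^ j), (if (p : ℤ) ∣ (z : ℤ) then 0 else ec (p ^ j) (r * z ^ 3)) := by
    rw [← sum_add_distrib]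
    refine sum_congr rfl fun z _ => ?_
    split_ifs <;> simp
  rw [h3, h1, h2, add_zero]

theorem T3_pow {p : ℕ} (hp : p.Prime) {r : ℤ} (hr : ¬(p : ℤ) ∣ r) (j : ℕ) :
    ‖T3 (p ^ j) r‖ ^ 2 ≤ 12 * (p : ℝ) ^ (j / 3) * p ^ j := by
  have hp0 := hp.pos
  induction j using Nat.strong_induction_on with
  | _ j ih =>
  match j, ih with
  | 0, _ => simp [T3]
  | 1, _ => simpa using T3_prime hp hr
  | 2, _ =>
    by_cases h3 : p = 3
    · subst h3
      have : ‖T3 (3 ^ 2) r‖ ≤ 9 := (norm_sum_le _ _).trans (by simp)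
      have h := pow_le_pow_left₀ (norm_nonneg _) this 2
      refine h.trans ?_
      norm_num
    · rw [T3_eq_dvd hp (Or.inl ⟨h3, le_rfl⟩) hr]
      have : ‖∑ y ∈ range (p ^ (2 - 1)), ec (p ^ 2) (r * (p * y) ^ 3)‖ ≤ p :=
        (norm_sum_le _ _).trans (by simp)
      have h := pow_le_pow_left₀ (norm_nonneg _) this 2
      refine h.trans ?_
      norm_num
      nlinarith [sq_nonneg (p : ℝ)]
  | i + 3, ih =>
    rw [T3_eq_dvd hp (Or.inr (by omega)) hr]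
    have h1 : ∀ y : ℕ, ec (p ^ (i + 3)) (r * (p * y) ^ 3) = ec (p ^ i) (r * y ^ 3) := by
      intro y
      rw [← ec_mul_left (k := p ^ 3) (by positivity) (p ^ i), ← pow_add, add_comm 3 i]
      congr 1
      push_cast; ring
    simp only [h1]
    rw [show p ^ (i + 3 - 1) = p ^ 2 * p ^ i by rw [← pow_add]; congr 1; omega,
      sum_range_mul (f := fun y => ec (p ^ i) (r * y ^ 3))
        (fun x y h => ec_congr ((h.pow 3).mul_left r)), nsmul_eq_mul, norm_mul, mul_pow,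
      Complex.norm_natCast, show (i + 3) / 3 = i / 3 + 1 by omega]
    have := ih i (by omega)
    unfold T3 at this
    calc (((p ^ 2 : ℕ) : ℝ)) ^ 2 * ‖∑ x ∈ range (p ^ i), ec (p ^ i) (r * (x : ℤ) ^ 3)‖ ^ 2
        ≤ (((p ^ 2 : ℕ) : ℝ)) ^ 2 * (12 * (p : ℝ) ^ (i / 3) * p ^ i) := by gcongr
      _ = _ := by push_cast; ring

lemma wq_pow {p j : ℕ} (hp : p.Prime) (hj : j ≠ 0) (m z : ℤ) :
    wq (p ^ j) m z = if (p : ℤ) ∣ m then wp p z else 1 := by
  unfold wq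
  rw [Nat.primeFactors_prime_pow hj hp, prod_singleton]

lemma s3_pow_dvd {p j : ℕ} (hp : p.Prime) (hj : j ≠ 0) {m : ℤ} (hm : (p : ℤ) ∣ m) (r : ℤ) :
    s3 (p ^ j) r m = ((p : ℝ) / (p - 1) : ℝ) *
      (∑ z ∈ range (p ^ j), if (p : ℤ) ∣ (z : ℤ) then 0 else ec (p ^ j) (r * z ^ 3)) /
        (p ^ j : ℕ) := by
  unfold s3 av
  rw [mul_sum]
  congr 1
  refine sum_congr rfl fun z _ => ?_
  simp only
  rw [wq_pow hp hj, if_pos hm, wp]
  split_ifs <;> simp

lemma s3_pow_vanish {p j : ℕ} (hp : p.Prime) (hj : (p ≠ 3 ∧ 2 ≤ j) ∨ 3 ≤ j) {r m : ℤ}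
    (hr : ¬(p : ℤ) ∣ r) (hm : (p : ℤ) ∣ m) : s3 (p ^ j) r m = 0 := by
  rw [s3_pow_dvd hp (by omega) hm, unit_vanish hp hj hr]
  simp

lemma s3_pow_not_dvd {p j : ℕ} (hp : p.Prime) (hj : j ≠ 0) {m : ℤ} (hm : ¬(p : ℤ) ∣ m) (r : ℤ) :
    s3 (p ^ j) r m = T3 (p ^ j) r / (p ^ j : ℕ) := by
  unfold s3 av T3
  congr 1
  refine sum_congr rfl fun z _ => ?_
  simp only
  rw [wq_pow hp hj, if_neg hm]
  simp

theorem s3_pow_le {p j : ℕ} (hp : p.Prime) (hj : j ≠ 0) {r : ℤ} (hr : ¬(p : ℤ) ∣ r) (m : ℤ) :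
    ‖s3 (p ^ j) r m‖ ^ 2 ≤ 128 * (p : ℝ) ^ (j / 3) / p ^ j := by
  have hp2 : (2 : ℝ) ≤ p := by exact_mod_cast hp.two_le
  by_cases hm : (p : ℤ) ∣ m
  · by_cases h1 : (p ≠ 3 ∧ 2 ≤ j) ∨ 3 ≤ j
    · rw [s3_pow_vanish hp h1 hr hm]
      simp only [norm_zero, ne_eq, OfNat.ofNat_ne_zero, not_false_eq_true, zero_pow]
      positivity
    by_cases h2 : j = 1
    · subst h2
      rw [s3_pow_dvd hp hj hm, pow_one]
      have e1 : ∑ z ∈ range p, (if (p : ℤ) ∣ (z : ℤ) then 0 else ec p (r * z ^ 3)) =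
          T3 p r - 1 := by
        have h2 := sum_dvd_range hp.pos 1 fun z => ec p (r * z ^ 3)
        simp only [mul_one, range_one, sum_singleton, Nat.cast_zero, mul_zero, ne_eq,
          OfNat.ofNat_ne_zero, not_false_eq_true, zero_pow, ec_zero] at h2
        rw [← h2, T3, ← sum_sub_distrib]
        refine sum_congr rfl fun z _ => ?_
        split_ifs <;> simp
      have h3 := T3_prime hp hr
      have h4 : ‖T3 p r - 1‖ ^ 2 ≤ 32 * p := by
        have := norm_sub_le (T3 p r) 1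
        rw [norm_one] at this
        have h5 := pow_le_pow_left₀ (norm_nonneg _) this 2
        nlinarith [sq_nonneg (‖T3 p r‖ - 1)]
      have h5 : (p : ℝ) / (p - 1) ≤ 2 := by rw [div_le_iff₀ (by linarith)]; linarith
      have h6 : 0 ≤ (p : ℝ) / (p - 1) := div_nonneg (by linarith) (by linarith)
      rw [e1, norm_div, norm_mul, Complex.norm_real, Real.norm_of_nonneg h6, Complex.norm_natCast,
        div_pow, mul_pow]
      calc ((p : ℝ) / (p - 1)) ^ 2 * ‖T3 p r - 1‖ ^ 2 / (p : ℝ) ^ 2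
          ≤ 2 ^ 2 * (32 * p) / (p : ℝ) ^ 2 := by gcongr
        _ = _ := by norm_num; field_simp; norm_num
    · obtain rfl : p = 3 := by by_contra h; exact h1 (Or.inl ⟨h, by omega⟩)
      obtain rfl : j = 2 := by omega
      have := norm_s3_le (3 ^ 2) r m
      rw [Nat.primeFactors_prime_pow hj hp, card_singleton] at this
      refine (pow_le_pow_left₀ (norm_nonneg _) this 2).trans ?_
      norm_num
  · rw [s3_pow_not_dvd hp hj hm, norm_div, Complex.norm_natCast, div_pow]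
    have := T3_pow hp hr j
    push_cast
    rw [div_le_div_iff₀ (by positivity) (by positivity)]
    have h1 : (0 : ℝ) < (p : ℝ) ^ (j / 3) * p ^ j * p ^ j := by positivity
    have h2 := mul_le_mul_of_nonneg_right this (by positivity : (0 : ℝ) ≤ (p : ℝ) ^ j)
    nlinarith

lemma exists_t : ∀ q : ℕ, q ≠ 0 → ∃ t : ℕ, 1 ≤ t ∧ t ^ 3 ∣ q ∧ ∀ r m : ℤ, IsCoprime r q →
    ‖s3 q r m‖ ^ 2 ≤ 128 ^ #q.primeFactors * t / q := by
  intro q
  induction q using Nat.recOnPosPrimePosCoprime with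
  | zero => simp
  | one =>
    refine fun _ => ⟨1, le_rfl, by simp, fun r m _ => ?_⟩
    have := norm_s3_le 1 r m
    simp only [Nat.primeFactors_one, card_empty, pow_zero] at this
    simpa using this
  | prime_pow p k hp hk =>
    refine fun _ => ⟨p ^ (k / 3), Nat.one_le_pow _ _ hp.pos, ?_, fun r m hr => ?_⟩
    · rw [← pow_mul]; exact pow_dvd_pow _ (by omega)
    · rw [Nat.primeFactors_prime_pow hk.ne' hp, card_singleton, pow_one]
      push_cast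
      exact s3_pow_le hp hk.ne' (not_dvd_of_isCoprime hp (dvd_pow_self p hk.ne') hr) m
  | coprime a b ha hb hab iha ihb =>
    intro _
    obtain ⟨s, hs1, hs2, hs⟩ := iha (by omega)
    obtain ⟨t, ht1, ht2, ht⟩ := ihb (by omega)
    obtain ⟨k₁, k₂, hk⟩ := exists_bezout hab
    refine ⟨s * t, Nat.mul_pos hs1 ht1, by rw [mul_pow]; exact mul_dvd_mul hs2 ht2,
      fun r m hr => ?_⟩
    obtain ⟨h1, h2⟩ := (cop_split hk r).1 hr
    rw [s3_split hab (by omega) (by omega) hk, norm_mul, mul_pow, hab.primeFactors_mul,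
      card_union_of_disjoint hab.disjoint_primeFactors, pow_add]
    refine (mul_le_mul (hs _ m h1) (ht _ m h2) (by positivity) (by positivity)).trans (le_of_eq ?_)
    push_cast
    ring

/-- a cube root of a cube divisor of `q` that controls the cubic sums modulo `q` -/
noncomputable def tq (q : ℕ) : ℕ := if h : q ≠ 0 then (exists_t q h).choose else 1

lemma tq_spec {q : ℕ} (h : q ≠ 0) : 1 ≤ tq q ∧ tq q ^ 3 ∣ q ∧ ∀ r m : ℤ, IsCoprime r q →
    ‖s3 q r m‖ ^ 2 ≤ 128 ^ #q.primeFactors * tq q / q := by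
  rw [tq, dif_pos h]
  exact (exists_t q h).choose_spec

lemma sum_tq_le (Q : ℕ) : ∑ q ∈ Icc 1 Q, (tq q : ℝ) ^ 2 / q ≤ (1 + Real.log Q) ^ 2 := by
  set i : ℕ → ℕ × ℕ := fun q => (tq q, q / tq q ^ 3) with hi
  have h1 : ∀ q ∈ Icc 1 Q, q = (i q).1 ^ 3 * (i q).2 := fun q hq =>
    (Nat.mul_div_cancel' (tq_spec (by have := (mem_Icc.1 hq).1; omega)).2.1).symm
  have hinj : Set.InjOn i (Icc 1 Q : Finset ℕ) := fun q hq q' hq' h => by
    rw [h1 q hq, h1 q' hq', h]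
  have h2 : ∀ q ∈ Icc 1 Q, (tq q : ℝ) ^ 2 / q = 1 / (i q).1 * (1 / (i q).2) := by
    intro q hq
    have h3 := h1 q hq
    have h4 := (mem_Icc.1 hq).1
    have h5 : (i q).2 ≠ 0 := fun h => by rw [h, mul_zero] at h3; omega
    have h6 : tq q ≠ 0 := by have := (tq_spec (by omega : q ≠ 0)).1; omega
    have h7 : (q : ℝ) = (tq q : ℝ) ^ 3 * (i q).2 := by exact_mod_cast h3
    rw [h7]
    simp only [hi]
    field_simp
  have h3 : (Icc 1 Q).image i ⊆ Icc 1 Q ×ˢ Icc 1 Q := by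
    intro x hx
    obtain ⟨q, hq, rfl⟩ := mem_image.1 hx
    have h3 := h1 q hq
    obtain ⟨h4, h4'⟩ := mem_Icc.1 hq
    have h5 : (i q).2 ≠ 0 := fun h => by rw [h, mul_zero] at h3; omega
    have h6 := tq_spec (by omega : q ≠ 0)
    have h7 : tq q ≤ q := Nat.le_of_dvd h4 ((dvd_pow_self _ (by norm_num)).trans h6.2.1)
    have h8 : (i q).2 ≤ q := Nat.div_le_self _ _
    simp only [mem_product, mem_Icc]
    exact ⟨⟨h6.1, h7.trans h4'⟩, by omega, h8.trans h4'⟩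
  rw [sum_congr rfl h2, ← sum_image (f := fun x : ℕ × ℕ => (1 / x.1 * (1 / x.2) : ℝ)) hinj]
  refine (sum_le_sum_of_subset_of_nonneg h3 fun x _ _ => by positivity).trans ?_
  rw [sum_product' (f := fun x y : ℕ => (1 / x * (1 / y) : ℝ)), ← sum_mul_sum, sq]
  have := sum_inv_le_log Q
  have h0 : 0 ≤ ∑ j ∈ Icc 1 Q, (1 / j : ℝ) := by positivity
  gcongr

/-- no prime factor of `6 a` divides `q` to a high power -/
def Nice (q : ℕ) (a : ℤ) : Prop :=
  ∀ p k : ℕ, p.Prime → p ^ k ∣ q → (p : ℤ) ∣ 6 * a → p ^ k ≤ 9 ∨ k ≤ 1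

lemma nice_of_ne_zero {q : ℕ} (hq : q ≠ 0) {r a : ℤ} (hr : IsCoprime r q)
    (h : s3 q r (6 * a) ≠ 0) : Nice q a := by
  intro p k hp hk hm
  by_contra hne
  push Not at hne
  obtain ⟨j, q', hq', rfl⟩ := Nat.exists_eq_pow_mul_and_not_dvd hq p hp.ne_one
  have hcop : (p ^ j).Coprime q' := Nat.Coprime.pow_left _ ((hp.coprime_iff_not_dvd).2 hq')
  have hkj : k ≤ j := (Nat.pow_dvd_pow_iff_le_right hp.one_lt).1
    ((Nat.Coprime.pow_left k ((hp.coprime_iff_not_dvd).2 hq')).dvd_of_dvd_mul_right hk)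
  obtain ⟨k₁, k₂, hb⟩ := exists_bezout hcop
  have h1 := ((cop_split hb r).1 hr).1
  refine h ?_
  rw [s3_split hcop (right_ne_zero_of_mul (by rwa [mul_comm] at hq)) (right_ne_zero_of_mul hq) hb,
    s3_pow_vanish hp ?_ (not_dvd_of_isCoprime hp (dvd_pow_self p (by omega)) h1) hm, zero_mul]
  by_cases h3 : p = 3
  · subst h3
    refine Or.inr (le_trans ?_ hkj)
    by_contra h4
    have : k = 2 := by omega
    subst this
    omega
  · exact Or.inl ⟨h3, by omega⟩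

lemma card_le_of_lift {p k B : ℕ} (hp : p.Prime) (P Q : ℕ → Prop) [DecidablePred P]
    [DecidablePred Q] (h1 : ∀ x, P x → Q (x % p))
    (h2 : ∀ x y, P x → P y → (x : ℤ) ≡ y [ZMOD p] → (x : ℤ) ≡ y [ZMOD (p ^ k : ℕ)])
    (h3 : #((range p).filter Q) ≤ B) : #((range (p ^ k)).filter P) ≤ B := by
  refine le_trans (card_le_card_of_injOn (fun x => x % p) (fun x hx => ?_) fun x hx y hy h => ?_) h3
  · exact mem_coe.2 (mem_filter.2 ⟨mem_range.2 (Nat.mod_lt _ hp.pos), h1 x (mem_filter.1 hx).2⟩)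
  · have h4 := h2 x y (mem_filter.1 hx).2 (mem_filter.1 hy).2 (Int.natCast_modEq_iff.2 h)
    exact Nat.ModEq.eq_of_lt_of_lt (Int.natCast_modEq_iff.1 h4) (mem_range.1 (mem_filter.1 hx).1)
      (mem_range.1 (mem_filter.1 hy).1)

theorem card_cube_le {q : ℕ} (hq : q ≠ 0) {a : ℤ} (h : Nice q a) :
    #((range q).filter fun x : ℕ => (q : ℤ) ∣ 2 * (x : ℤ) ^ 3 - 2 * a ^ 3) ≤ 9 ^ #q.primeFactors := by
  refine count_le (fun q x => (q : ℤ) ∣ 2 * x ^ 3 - 2 * a ^ 3) (fun q => Nice q a)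
    (fun b c h => ⟨fun p k hp hk => h p k hp (hk.mul_right _),
      fun p k hp hk => h p k hp (hk.mul_left _)⟩)
    (fun q x y h => (((h.pow 3).mul_left 2).sub_right _).dvd_iff)
    (fun b c x _ h => by
      push_cast at h
      exact ⟨(dvd_mul_right _ _).trans h, (dvd_mul_left _ _).trans h⟩)
    (fun p k hp hk hn => ?_) q hq h
  have hP := Nat.prime_iff_prime_int.1 hp
  by_cases h9 : p ^ k ≤ 9
  · exact (card_filter_le _ _).trans (by simpa using h9)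
  by_cases h6 : (p : ℤ) ∣ 6 * a
  · obtain rfl : k = 1 := by have := hn p k hp dvd_rfl h6; omega
    rw [pow_one] at h9 ⊢
    refine (card_cube_roots hp (fun h2 => ?_) _).trans (by norm_num)
    have := Int.le_of_dvd two_pos h2
    omega
  have h2 : ¬(p : ℤ) ∣ 2 := fun h => h6 (by
    rw [show 6 * a = 2 * (3 * a) by ring]; exact h.mul_right _)
  have h3 : ¬(p : ℤ) ∣ 3 := fun h => h6 (by
    rw [show 6 * a = 3 * (2 * a) by ring]; exact h.mul_right _)
  have hpk : (p : ℤ) ∣ ((p ^ k : ℕ) : ℤ) := by exact_mod_cast dvd_pow_self p hk.ne'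
  refine card_le_of_lift hp _ (fun x : ℕ => (p : ℤ) ∣ 2 * (x : ℤ) ^ 3 - 2 * a ^ 3) (fun x hx => ?_)
    (fun x y hx hy hxy => ?_) ((card_cube_roots hp h2 _).trans (by norm_num))
  · push_cast
    exact ((((Int.mod_modEq x p).pow 3).mul_left 2).sub_right _).dvd_iff.2 (hpk.trans hx)
  · have e1 : ((p ^ k : ℕ) : ℤ) ∣ (y - x) * (2 * ((y : ℤ) ^ 2 + y * x + x ^ 2)) := by
      have := hy.sub hx
      rwa [show 2 * (y : ℤ) ^ 3 - 2 * a ^ 3 - (2 * (x : ℤ) ^ 3 - 2 * a ^ 3) =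
        (y - x) * (2 * ((y : ℤ) ^ 2 + y * x + x ^ 2)) by ring] at this
    have e2 : ¬(p : ℤ) ∣ 2 * ((y : ℤ) ^ 2 + y * x + x ^ 2) := by
      intro h
      have h4 := (hP.dvd_or_dvd h).resolve_left h2
      have h5 : (y : ℤ) ^ 2 + y * x + x ^ 2 ≡ 3 * x ^ 2 [ZMOD p] := by
        have := ((hxy.symm.pow 2).add (hxy.symm.mul_right x)).add_right ((x : ℤ) ^ 2)
        rwa [show (x : ℤ) ^ 2 + x * x + x ^ 2 = 3 * x ^ 2 by ring] at this
      have h7 := hP.dvd_of_dvd_pow ((hP.dvd_or_dvd (h5.dvd_iff.1 h4)).resolve_left h3)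
      have h8 : (p : ℤ) ∣ 2 * a ^ 3 := by
        have := ((dvd_pow h7 three_ne_zero).mul_left 2).sub (hpk.trans hx)
        rwa [sub_sub_cancel] at this
      exact h6 ((hP.dvd_of_dvd_pow ((hP.dvd_or_dvd h8).resolve_left h2)).mul_left 6)
    have e3 : IsCoprime ((p ^ k : ℕ) : ℤ) (2 * ((y : ℤ) ^ 2 + y * x + x ^ 2)) := by
      push_cast
      exact (isCoprime_of_not_dvd hp e2).symm.pow_left
    exact Int.modEq_iff_dvd.2 (e3.dvd_of_dvd_mul_right e1)

theorem card_sqrt_one_le {q : ℕ} (hq : q ≠ 0) :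
    #((range q).filter fun x : ℕ => (q : ℤ) ∣ (x : ℤ) ^ 2 - 1) ≤ 4 ^ #q.primeFactors := by
  refine count_le (fun q x => (q : ℤ) ∣ x ^ 2 - 1) (fun _ => True) (fun _ _ _ => ⟨trivial, trivial⟩)
    (fun q x y h => ((h.pow 2).sub_right _).dvd_iff)
    (fun b c x _ h => by
      push_cast at h
      exact ⟨(dvd_mul_right _ _).trans h, (dvd_mul_left _ _).trans h⟩)
    (fun p k hp hk _ => ?_) q hq trivial
  have hP := Nat.prime_iff_prime_int.1 hp
  -- every solution has `2 x` congruent to `2` or `-2`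
  have key : ∀ x : ℤ, ((p ^ k : ℕ) : ℤ) ∣ x ^ 2 - 1 →
      ((p ^ k : ℕ) : ℤ) ∣ 2 * (x - 1) ∨ ((p ^ k : ℕ) : ℤ) ∣ 2 * (x + 1) := by
    intro x hx
    push_cast at hx ⊢
    rw [show x ^ 2 - 1 = (x - 1) * (x + 1) by ring] at hx
    by_cases h1 : (p : ℤ) ∣ x + 1
    · by_cases h2 : (p : ℤ) ∣ x - 1
      · have h3 : (p : ℤ) ∣ 2 := by
          have := h1.sub h2
          rwa [show x + 1 - (x - 1) = 2 by ring] at this
        obtain rfl : p = 2 := (Nat.prime_dvd_prime_iff_eq hp Nat.prime_two).1 (by exact_mod_cast h3)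
        obtain ⟨y, hy⟩ := h2
        have h4 : x + 1 = 2 * (y + 1) := by push_cast at hy; linarith
        rw [hy, h4] at hx ⊢
        push_cast at hx ⊢
        rcases Int.even_or_odd y with h5 | h5
        · left
          have h6 : IsCoprime ((2 : ℤ) ^ k) (y + 1) :=
            (Int.isCoprime_two_left.2 h5.add_one).pow_left
          refine h6.dvd_of_dvd_mul_right ?_
          rwa [show 2 * (2 * y) * (y + 1) = 2 * y * (2 * (y + 1)) by ring]
        · right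
          have h6 : IsCoprime ((2 : ℤ) ^ k) y := (Int.isCoprime_two_left.2 h5).pow_left
          refine h6.dvd_of_dvd_mul_right ?_
          rwa [show 2 * (2 * (y + 1)) * y = 2 * y * (2 * (y + 1)) by ring]
      · exact Or.inr (((isCoprime_of_not_dvd hp h2).symm.pow_left.dvd_of_dvd_mul_left hx).mul_left 2)
    · exact Or.inl (((isCoprime_of_not_dvd hp h1).symm.pow_left.dvd_of_dvd_mul_right hx).mul_left 2)
  have two : ∀ c : ℤ, #((range (p ^ k)).filter fun x : ℕ => ((p ^ k : ℕ) : ℤ) ∣ 2 * (x + c)) ≤ 2 := by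
    intro c
    have h0 : 0 < p ^ k := pow_pos hp.pos k
    have h1 := sum_shift (q := p ^ k) (f := fun x => if ((p ^ k : ℕ) : ℤ) ∣ 2 * x then 1 else 0)
      (fun x y h => by simp only [(h.mul_left 2).dvd_iff]) c
    rw [card_filter, h1, ← card_filter]
    refine (card_dvd_mul_le h0 2).trans ?_
    exact Nat.le_of_dvd two_pos (Int.natCast_dvd_natCast.1 (Int.gcd_dvd_left 2 _))
  refine le_trans (card_le_card (t := ((range (p ^ k)).filter fun x : ℕ =>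
    ((p ^ k : ℕ) : ℤ) ∣ 2 * (x + (-1))) ∪ (range (p ^ k)).filter fun x : ℕ =>
    ((p ^ k : ℕ) : ℤ) ∣ 2 * (x + 1)) fun x hx => ?_) ?_
  · obtain ⟨h1, h2⟩ := mem_filter.1 hx
    rcases key x h2 with h | h
    · exact mem_union_left _ (mem_filter.2 ⟨h1, h⟩)
    · exact mem_union_right _ (mem_filter.2 ⟨h1, h⟩)
  · exact (card_union_le _ _).trans (by have := two (-1); have := two 1; omega)

end Pool.Agent.Lib.MP_786755_nt
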