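import Pool.Agent.Lib.MP_786755_nt.Norm

/-! Leading forms of integer polynomials on a 3-adic disc of rational radius. -/

namespace Pool.Agent.Lib.MP_786755_nt

open Polynomial

/-- `f` has weight at least `k` and leading form `P` in weight `k`, where `3 ^ v * t ^ i` has
weight `D v - c i` and leading form `X ^ v`. -/
inductive Rep (D c : ℕ) (k : ℤ) : ℤ[X] → (ZMod 3)[X] → Prop
  | mono (n : ℤ) (v i : ℕ) (h : (D : ℤ) * v - c * i = k) :
      Rep D c k (monomial i (3 ^ v * n)) (monomial v (n : ZMod 3))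
  | high (n : ℤ) (v i : ℕ) (h : k < (D : ℤ) * v - c * i) : Rep D c k (monomial i (3 ^ v * n)) 0
  | zero : Rep D c k 0 0
  | add {f g : ℤ[X]} {P Q : (ZMod 3)[X]} : Rep D c k f P → Rep D c k g Q →
      Rep D c k (f + g) (P + Q)

variable {D c : ℕ}

lemma Rep.lower {k l : ℤ} {f : ℤ[X]} {P : (ZMod 3)[X]} (h : Rep D c k f P) (hl : l < k) :
    Rep D c l f 0 := by
  induction h with
  | mono n v i h => exact Rep.high n v i (by omega)
  | high n v i h => exact Rep.high n v i (by omega)
  | zero => exact Rep.zero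
  | add _ _ h1 h2 => simpa using h1.add h2

lemma Rep.mul {k l : ℤ} {f g : ℤ[X]} {P Q : (ZMod 3)[X]} (h : Rep D c k f P)
    (h' : Rep D c l g Q) : Rep D c (k + l) (f * g) (P * Q) := by
  induction h with
  | zero => simpa using Rep.zero
  | add _ _ h1 h2 => simpa [add_mul] using h1.add h2
  | mono n v i h =>
    induction h' with
    | zero => simpa using Rep.zero
    | add _ _ h1 h2 => simpa [mul_add] using h1.add h2
    | mono n' v' i' h' =>
      have := Rep.mono (D := D) (c := c) (k := k + l) (n * n') (v + v') (i + i')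
        (by push_cast; linear_combination h + h')
      rw [monomial_mul_monomial, monomial_mul_monomial]
      convert this using 2
      · ring
      · push_cast; ring
    | high n' v' i' h' =>
      have := Rep.high (D := D) (c := c) (k := k + l) (n * n') (v + v') (i + i')
        (by push_cast; linarith)
      rw [monomial_mul_monomial, mul_zero]
      convert this using 2
      ring
  | high n v i h =>
    rw [zero_mul]
    induction h' with
    | zero => simpa using Rep.zero
    | add _ _ h1 h2 => simpa [mul_add] using h1.add h2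
    | mono n' v' i' h' =>
      have := Rep.high (D := D) (c := c) (k := k + l) (n * n') (v + v') (i + i')
        (by push_cast; linarith)
      rw [monomial_mul_monomial]
      convert this using 2
      ring
    | high n' v' i' h' =>
      have := Rep.high (D := D) (c := c) (k := k + l) (n * n') (v + v') (i + i')
        (by push_cast; linarith)
      rw [monomial_mul_monomial]
      convert this using 2
      ring

lemma Rep.const (n : ℤ) : Rep D c 0 (C n) (C (n : ZMod 3)) := by
  simpa using Rep.mono (D := D) (c := c) (k := 0) n 0 0 (by simp)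

lemma Rep.three : Rep D c D 3 X := by
  have := Rep.mono (D := D) (c := c) (k := D) 1 1 0 (by simp)
  simpa [← monomial_one_one_eq_X] using this

lemma Rep.coeff (hD : 0 < D) (hc : 0 < c) {k : ℤ} {f : ℤ[X]} {P : (ZMod 3)[X]}
    (h : Rep D c k f P) (v i : ℕ) (hv : (D : ℤ) * v - c * i = k) :
    ∃ n : ℤ, f.coeff i = 3 ^ v * n ∧ (n : ZMod 3) = P.coeff v := by
  have hD' : (0 : ℤ) < D := by exact_mod_cast hD
  have hc' : (0 : ℤ) < c := by exact_mod_cast hc
  induction h with
  | zero => exact ⟨0, by simp, by simp⟩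
  | add _ _ h1 h2 =>
    obtain ⟨n1, a1, b1⟩ := h1
    obtain ⟨n2, a2, b2⟩ := h2
    exact ⟨n1 + n2, by rw [coeff_add, a1, a2]; ring, by rw [coeff_add, ← b1, ← b2]; simp⟩
  | mono n v' i' h =>
    by_cases hi : i' = i
    · subst hi
      have : (v' : ℤ) = v := by
        apply mul_left_cancel₀ hD'.ne'
        linarith
      have hv' : v' = v := by exact_mod_cast this
      subst hv'
      exact ⟨n, by simp, by simp⟩
    · have hv' : v' ≠ v := by
        rintro rfl
        apply hi
        have : (i' : ℤ) = i := by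
          apply mul_left_cancel₀ hc'.ne'
          linarith
        exact_mod_cast this
      exact ⟨0, by simp [coeff_monomial, hi], by simp [coeff_monomial, hv']⟩
  | high n v' i' h =>
    by_cases hi : i' = i
    · subst hi
      have : (v : ℤ) < v' := by
        apply lt_of_mul_lt_mul_left _ hD'.le
        linarith
      have hv' : v < v' := by exact_mod_cast this
      obtain ⟨e, rfl⟩ := Nat.exists_eq_add_of_lt hv'
      refine ⟨3 ^ e * n * 3, by simp; ring, ?_⟩
      have : (3 : ZMod 3) = 0 := rfl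
      simp [this]
    · exact ⟨0, by simp [coeff_monomial, hi], by simp⟩

lemma Rep.coeff_zero {k : ℤ} {f : ℤ[X]} {P : (ZMod 3)[X]} (h : Rep D c k f P) (v : ℕ)
    (hv : ∀ i : ℕ, (D : ℤ) * v - c * i ≠ k) : P.coeff v = 0 := by
  induction h with
  | zero => simp
  | add _ _ h1 h2 => simp [h1, h2]
  | high => simp
  | mono n v' i' h =>
    have : v' ≠ v := by
      rintro rfl
      exact hv i' h
    simp [coeff_monomial, this]

lemma Rep.uniq (hD : 0 < D) (hc : 0 < c) {k : ℤ} {P : (ZMod 3)[X]} (h : Rep D c k 0 P) :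
    P = 0 := by
  ext v
  by_cases hv : ∃ i : ℕ, (D : ℤ) * v - c * i = k
  · obtain ⟨i, hi⟩ := hv
    obtain ⟨n, h1, h2⟩ := h.coeff hD hc v i hi
    have : n = 0 := by simpa using h1
    simp [← h2, this]
  · simpa using h.coeff_zero v (by simpa using hv)

lemma rep_exists (k : ℤ) (f : ℤ[X])
    (h : ∀ i, f.coeff i ≠ 0 → k ≤ (D : ℤ) * padicValInt 3 (f.coeff i) - c * i) :
    ∃ P, Rep D c k f P := by
  have key : ∀ s : Finset ℕ, ∃ P, Rep D c k (∑ i ∈ s, monomial i (f.coeff i)) P := by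
    intro s
    induction s using Finset.induction_on with
    | empty => exact ⟨0, by simpa using Rep.zero⟩
    | insert i s hi ih =>
      obtain ⟨P, hP⟩ := ih
      rw [Finset.sum_insert hi]
      by_cases h0 : f.coeff i = 0
      · exact ⟨P, by simpa [h0] using hP⟩
      obtain ⟨n, hn⟩ := padicValInt_dvd (p := 3) (f.coeff i)
      have hn' : monomial i (f.coeff i) = monomial i (3 ^ padicValInt 3 (f.coeff i) * n) := by
        congr 1
      rcases (h i h0).lt_or_eq with h1 | h1
      · exact ⟨_, hn' ▸ (Rep.high n _ i h1).add hP⟩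
      · exact ⟨_, hn' ▸ (Rep.mono n _ i h1.symm).add hP⟩
  have := key f.support
  rwa [← as_sum_support] at this

lemma Rep.ne_zero (hD : 0 < D) (hc : 0 < c) {k : ℤ} {f : ℤ[X]} {P : (ZMod 3)[X]}
    (h : Rep D c k f P) (i : ℕ) (h0 : f.coeff i ≠ 0)
    (hv : (D : ℤ) * padicValInt 3 (f.coeff i) - c * i = k) : P ≠ 0 := by
  obtain ⟨n, h1, h2⟩ := h.coeff hD hc _ i hv
  rintro rfl
  rw [Polynomial.coeff_zero, ZMod.intCast_zmod_eq_zero_iff_dvd] at h2
  obtain ⟨m, rfl⟩ := h2
  have : ((3 : ℕ) : ℤ) ^ (padicValInt 3 (f.coeff i) + 1) ∣ f.coeff i :=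
    ⟨m, by rw [pow_succ]; push_cast at h1 ⊢; linear_combination h1⟩
  rcases (padicValInt_dvd_iff _ _).mp this with h | h
  · exact h0 h
  · omega

lemma min_pair (f g : ℤ[X]) (h : f ≠ 0 ∨ g ≠ 0) (φ : ℤ → ℕ → ℚ) :
    ∃ x i, x ≠ 0 ∧ (x = f.coeff i ∨ x = g.coeff i) ∧
      (∀ j, f.coeff j ≠ 0 → φ x i ≤ φ (f.coeff j) j) ∧
      (∀ j, g.coeff j ≠ 0 → φ x i ≤ φ (g.coeff j) j) := by
  classical
  set s : Finset (ℤ × ℕ) := f.support.image (fun i => (f.coeff i, i)) ∪
    g.support.image (fun i => (g.coeff i, i)) with hs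
  have hne : s.Nonempty := by
    rcases h with h | h
    · exact ((support_nonempty.mpr h).image _).mono Finset.subset_union_left
    · exact ((support_nonempty.mpr h).image _).mono Finset.subset_union_right
  obtain ⟨⟨x, i⟩, h1, h2⟩ := s.exists_min_image (fun y => φ y.1 y.2) hne
  refine ⟨x, i, ?_, ?_, fun j hj => h2 (f.coeff j, j) ?_, fun j hj => h2 (g.coeff j, j) ?_⟩
  · simp only [hs, Finset.mem_union, Finset.mem_image, mem_support_iff, Prod.mk.injEq] at h1
    rcases h1 with ⟨j, a, b, rfl⟩ | ⟨j, a, b, rfl⟩ <;> exact b ▸ a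
  · simp only [hs, Finset.mem_union, Finset.mem_image, mem_support_iff, Prod.mk.injEq] at h1
    rcases h1 with ⟨j, a, b, rfl⟩ | ⟨j, a, b, rfl⟩
    · exact Or.inl b.symm
    · exact Or.inr b.symm
  · exact Finset.mem_union_left _ (Finset.mem_image_of_mem _ (mem_support_iff.mpr hj))
  · exact Finset.mem_union_right _ (Finset.mem_image_of_mem _ (mem_support_iff.mpr hj))

lemma rep_pair (hD : 0 < D) (hc : 0 < c) (u v : ℤ[X]) (B : ℤ) :
    ∃ (m : ℤ) (U V : (ZMod 3)[X]), Rep D c m u U ∧ Rep D c m v V ∧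
      (m ≤ B → U ^ 2 + V ^ 2 ≠ 0) := by
  by_cases h : u ≠ 0 ∨ v ≠ 0
  · obtain ⟨x, i, h0, h1, h2, h3⟩ := min_pair u v h
      (fun x i => (((D : ℤ) * padicValInt 3 x - c * i : ℤ) : ℚ))
    obtain ⟨U, hU⟩ := rep_exists (D := D) (c := c) ((D : ℤ) * padicValInt 3 x - c * i) u
      (fun j hj => by exact_mod_cast h2 j hj)
    obtain ⟨V, hV⟩ := rep_exists (D := D) (c := c) ((D : ℤ) * padicValInt 3 x - c * i) v
      (fun j hj => by exact_mod_cast h3 j hj)
    refine ⟨_, U, V, hU, hV, fun _ h4 => ?_⟩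
    obtain ⟨h5, h6⟩ := sq_add_sq U V h4
    rcases h1 with h1 | h1
    · exact hU.ne_zero hD hc i (h1 ▸ h0) (by rw [← h1]) h5
    · exact hV.ne_zero hD hc i (h1 ▸ h0) (by rw [← h1]) h6
  · push Not at h
    obtain ⟨rfl, rfl⟩ := h
    exact ⟨B + 1, 0, 0, Rep.zero, Rep.zero, fun h => by omega⟩

/-- the first radius at which one of two polynomials has weight one half. -/
lemma first_radius (a b : ℤ[X]) (h : a ≠ 0 ∨ b ≠ 0) (ha0 : a.coeff 0 = 0) (hb0 : b.coeff 0 = 0)
    (ha : ∀ i, (3 : ℤ) ∣ a.coeff i) (hb : ∀ i, (3 : ℤ) ∣ b.coeff i) :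
    ∃ (j c : ℕ) (A B : (ZMod 3)[X]), 0 < j ∧ Odd c ∧ Rep (2 * j) c j a A ∧ Rep (2 * j) c j b B ∧
      (A ≠ 0 ∨ B ≠ 0) := by
  obtain ⟨x, j, h0, h1, h2, h3⟩ := min_pair a b h
    (fun x i => (2 * (padicValInt 3 x : ℚ) - 1) / i)
  have hj : 0 < j := by
    rcases Nat.eq_zero_or_pos j with rfl | h
    · rcases h1 with h1 | h1
      · exact absurd (h1.trans ha0) h0
      · exact absurd (h1.trans hb0) h0
    · exact h
  have hx : 1 ≤ padicValInt 3 x := by
    have : ((3 : ℕ) : ℤ) ^ 1 ∣ x := by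
      rcases h1 with h1 | h1 <;> rw [h1] <;> simp [ha, hb]
    exact ((padicValInt_dvd_iff _ _).mp this).resolve_left h0
  obtain ⟨w, hw⟩ := Nat.exists_eq_add_of_le hx
  have key : ∀ f : ℤ[X], f.coeff 0 = 0 → (∀ i, f.coeff i ≠ 0 →
      (2 * (padicValInt 3 x : ℚ) - 1) / j ≤ (2 * (padicValInt 3 (f.coeff i) : ℚ) - 1) / i) →
      ∃ P, Rep (2 * j) (2 * w + 1) j f P := by
    intro f f0 hf
    refine rep_exists _ f fun i hi => ?_
    have hi0 : 0 < i := Nat.pos_of_ne_zero (by rintro rfl; exact hi f0)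
    have := hf i hi
    rw [div_le_div_iff₀ (by exact_mod_cast hj) (by exact_mod_cast hi0), hw] at this
    have h5 : (2 * ((1 + w : ℕ) : ℤ) - 1) * i ≤ (2 * (padicValInt 3 (f.coeff i) : ℤ) - 1) * j := by
      exact_mod_cast this
    push_cast at h5 ⊢
    linarith
  obtain ⟨A, hA⟩ := key a ha0 h2
  obtain ⟨B, hB⟩ := key b hb0 h3
  refine ⟨j, 2 * w + 1, A, B, hj, odd_two_mul_add_one w, hA, hB, ?_⟩
  rcases h1 with h1 | h1
  · exact Or.inl (hA.ne_zero (by omega) (by omega) j (h1 ▸ h0) (by rw [← h1, hw]; push_cast; ring))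
  · exact Or.inr (hB.ne_zero (by omega) (by omega) j (h1 ▸ h0) (by rw [← h1, hw]; push_cast; ring))

end Pool.Agent.Lib.MP_786755_nt
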