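import Pool.Agent.Lib.MP_786755_nt.Piece

/-! The terms of the singular series. -/

namespace Pool.Agent.Lib.MP_786755_nt

open Finset Pool.Agent.Lib.MP_028aa5_nt

/-- the complete sum in four variables -/
noncomputable def cc (q : ℕ) (r : ℤ) : ℂ := av q (psi q r) * s3 q r 1

open Classical in
/-- the term of the singular series -/
noncomputable def An (n : ℤ) (q : ℕ) : ℂ :=
  ∑ r ∈ range q, if IsCoprime (r : ℤ) q then cc q r * ec q (-(r * n)) else 0

lemma cc_congr {q : ℕ} {r r' : ℤ} (h : r ≡ r' [ZMOD q]) : cc q r = cc q r' := by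
  unfold cc
  rw [s3_congr h fun _ _ => Iff.rfl]
  congr 1
  refine av_congr fun a => ?_
  unfold psi
  rw [s2_congr (h.mul_left _), s3_congr h fun _ _ => Iff.rfl, ec_congr (h.mul_right _)]

lemma cop_congr {q : ℕ} {x y : ℤ} (h : x ≡ y [ZMOD q]) : IsCoprime x q ↔ IsCoprime y q := by
  obtain ⟨k, hk⟩ := h.dvd
  rw [show y = x + q * k by linarith, IsCoprime.add_mul_left_left_iff]

open Classical in
lemma per_An (n : ℤ) (q : ℕ) :
    Per q fun r => if IsCoprime r q then cc q r * ec q (-(r * n)) else 0 := fun x y h => by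
  simp only [cop_congr h]
  rw [cc_congr h, ec_congr (h.mul_right n).neg]

lemma norm_psi_le (q : ℕ) (r a : ℤ) : ‖psi q r a‖ ≤ 2 ^ #q.primeFactors := by
  unfold psi
  rw [norm_mul, norm_ec, mul_one, norm_mul]
  exact (mul_le_mul (norm_s2_le_one _ _) (norm_s3_le _ _ _) (norm_nonneg _) zero_le_one).trans
    (by rw [one_mul])

lemma norm_cc_le_pow (q : ℕ) (r : ℤ) : ‖cc q r‖ ≤ 2 ^ #q.primeFactors := by
  unfold cc
  rw [norm_mul]
  exact (mul_le_mul (norm_av_le (by positivity) (norm_psi_le q r)) (norm_s3_one_le _ _)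
    (norm_nonneg _) (by positivity)).trans (by rw [mul_one])

lemma cc_split {q₁ q₂ : ℕ} (h : q₁.Coprime q₂) (h₁ : q₁ ≠ 0) (h₂ : q₂ ≠ 0) {k₁ k₂ : ℤ}
    (hk : k₁ * q₂ + k₂ * q₁ = 1) (r : ℤ) :
    cc (q₁ * q₂) r = cc q₁ (k₁ * r) * cc q₂ (k₂ * r) := by
  unfold cc
  rw [s3_split h h₁ h₂ hk, mul_mul_mul_comm, ← av_crt h (per_psi _ _) (per_psi _ _)]
  congr 1
  refine av_congr fun a => ?_
  unfold psi
  rw [s2_split h h₁ h₂ hk, s3_split h h₁ h₂ hk, ec_split h₁ h₂ hk]
  ring_nf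

theorem An_mul (n : ℤ) {q₁ q₂ : ℕ} (h : q₁.Coprime q₂) : An n (q₁ * q₂) = An n q₁ * An n q₂ := by
  classical
  rcases eq_or_ne q₁ 0 with rfl | h₁
  · simp [An]
  rcases eq_or_ne q₂ 0 with rfl | h₂
  · simp [An]
  obtain ⟨k₁, k₂, hk⟩ := exists_bezout h
  have c1 : IsCoprime k₁ q₁ := ⟨q₂, k₂, by linarith⟩
  have c2 : IsCoprime k₂ q₂ := ⟨q₁, k₁, by linarith⟩
  unfold An
  rw [← sum_affine (per_An n q₁) c1 0, ← sum_affine (per_An n q₂) c2 0,
    ← sum_crt h (f := fun x => if IsCoprime (k₁ * x + 0) q₁ then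
        cc q₁ (k₁ * x + 0) * ec q₁ (-((k₁ * x + 0) * n)) else 0)
      (g := fun x => if IsCoprime (k₂ * x + 0) q₂ then
        cc q₂ (k₂ * x + 0) * ec q₂ (-((k₂ * x + 0) * n)) else 0)
      (fun x y e => per_An n q₁ _ _ ((e.mul_left _).add_right _))
      (fun x y e => per_An n q₂ _ _ ((e.mul_left _).add_right _))]
  refine sum_congr rfl fun r _ => ?_
  simp only [add_zero, cop_split hk]
  rw [cc_split h h₁ h₂ hk, ec_split h₁ h₂ hk]
  by_cases e1 : IsCoprime (k₁ * r) q₁ <;> by_cases e2 : IsCoprime (k₂ * r) q₂ <;>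
    simp only [e1, e2, and_self, and_false, and_true, if_true, if_false, mul_zero, zero_mul]
  ring_nf

lemma cc_mul {k q : ℕ} (hk : k ≠ 0) (h : (k * q).primeFactors = q.primeFactors) (r : ℤ) :
    cc (k * q) (k * r) = cc q r := by
  have h3 : ∀ m, s3 (k * q) (k * r) m = s3 q r m := by
    intro m
    unfold s3
    rw [← av_mul hk (per_cube q r m)]
    refine av_congr fun z => ?_
    rw [mul_assoc, ec_mul_left hk, wq, h, wq]
  have h2 : ∀ c, s2 (k * q) (k * c) = s2 q c := by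
    intro c
    unfold s2
    rw [← av_mul hk (f := fun x => ec q (c * x ^ 2)) fun x y h => ec_congr ((h.pow 2).mul_left c)]
    refine av_congr fun z => ?_
    rw [mul_assoc, ec_mul_left hk]
  unfold cc
  rw [h3, ← av_mul hk (per_psi q r)]
  congr 1
  refine av_congr fun a => ?_
  unfold psi
  rw [h3, ← h2, mul_assoc (k : ℤ), ec_mul_left hk]
  congr 3; ring

lemma s3_prime_zero {p : ℕ} (hp : p.Prime) (m : ℤ) : s3 p 0 m = 1 := by
  have hp2 : (2 : ℝ) ≤ p := by exact_mod_cast hp.two_le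
  have hp0 : (p : ℂ) ≠ 0 := by exact_mod_cast hp.ne_zero
  by_cases hm : (p : ℤ) ∣ m
  · have h := s3_pow_dvd hp one_ne_zero hm 0
    rw [pow_one] at h
    have h2 := sum_dvd_range hp.pos 1 fun _ => (1 : ℂ)
    simp only [mul_one, range_one, sum_singleton] at h2
    have h3 : ∑ z ∈ range p, (if (p : ℤ) ∣ (z : ℤ) then 0 else ec p (0 * z ^ 3)) = p - 1 := by
      rw [← h2, eq_sub_iff_add_eq, ← sum_add_distrib, sum_congr rfl (g := fun _ => (1 : ℂ))]
      · simp
      · intro z _; split_ifs <;> simp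
    have h4 : (p : ℂ) - 1 ≠ 0 := by
      have : (p : ℝ) - 1 ≠ 0 := by linarith
      exact_mod_cast this
    rw [h, h3]
    push_cast
    field_simp
  · have h := s3_pow_not_dvd hp one_ne_zero hm 0
    rw [pow_one] at h
    rw [h]
    simp [T3, hp0]

lemma cc_prime_zero {p : ℕ} (hp : p.Prime) : cc p 0 = 1 := by
  unfold cc
  rw [s3_prime_zero hp, mul_one, ← av_const hp.ne_zero 1]
  refine av_congr fun a => ?_
  unfold psi s2
  rw [s3_prime_zero hp]
  simp [av_const hp.ne_zero]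

lemma An_one (n : ℤ) : An n 1 = 1 := by
  simp [An, cc, psi, s2, s3, av, wq, isCoprime_one_right]

/-- the terms vanish at higher prime powers -/
theorem cc_pow_vanish {p j : ℕ} (hp : p.Prime) (hj : (p ≠ 3 ∧ 2 ≤ j) ∨ 3 ≤ j) {r : ℤ}
    (hr : ¬(p : ℤ) ∣ r) : cc (p ^ j) r = 0 := by
  have hP := Nat.prime_iff_prime_int.1 hp
  suffices h : ∑ a ∈ range (p ^ j), psi (p ^ j) r a = 0 by rw [cc, av, h]; simp
  by_cases h6 : (p : ℤ) ∣ 6
  · refine sum_eq_zero fun a _ => ?_
    rw [psi, s3_pow_vanish hp hj hr (h6.mul_right _)]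
    simp
  obtain ⟨i, rfl⟩ : ∃ i, j = i + 2 := ⟨j - 2, by omega⟩
  have hp0 := hp.pos
  set q := p ^ (i + 2) with hq
  have hq' : q = p ^ (i + 1) * p := pow_succ _ _
  have hpq : (p : ℤ) ∣ (q : ℤ) := by rw [hq']; push_cast; exact dvd_mul_left _ _
  set F : ℤ → ℤ → ℂ := fun a u =>
    if (p : ℤ) ∣ a then 0 else ec q (r * (2 * a ^ 3 + 6 * a * u ^ 2)) with hF
  have h1 : ∀ a : ℤ, psi q r a = (∑ u ∈ range q, F a u) * (s3 q r 1 / q) := by
    intro a
    by_cases ha : (p : ℤ) ∣ a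
    · rw [psi, s3_pow_vanish hp hj hr (ha.mul_left _)]
      simp [hF, ha]
    · have e1 : s3 q r (6 * a) = s3 q r 1 := s3_congr (Int.ModEq.refl r) fun l hl => by
        rw [hq, Nat.primeFactors_prime_pow (by omega) hp, mem_singleton] at hl
        subst hl
        exact iff_of_false (fun h => (hP.dvd_or_dvd h).elim h6 ha) hP.not_dvd_one
      have e2 : ∑ u ∈ range q, F a u =
          (∑ u ∈ range q, ec q (6 * a * r * u ^ 2)) * ec q (r * (2 * a ^ 3)) := by
        rw [sum_mul]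
        refine sum_congr rfl fun u _ => ?_
        simp only [hF, if_neg ha]
        rw [← ec_add]
        congr 1; ring
      rw [psi, e1, e2, s2, av]
      ring
  simp only [h1]
  rw [← sum_mul]
  have key : ∀ (x y c : ℤ), ((q : ℕ) : ℤ) ∣ x - (y + (p ^ (i + 1) : ℕ) * c) →
      ec q x = ec q y * ec p c := by
    intro x y c h
    rw [← ec_mul_left (k := p ^ (i + 1)) (by positivity) p c, ← hq', ← ec_add]
    exact ec_congr (Int.modEq_iff_dvd.2 h).symm
  have hsq : ((q : ℕ) : ℤ) ∣ ((p : ℤ) ^ (i + 1)) ^ 2 := ⟨p ^ i, by rw [hq]; push_cast; ring⟩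
  have hph : ∀ y : ℤ, (p : ℤ) ∣ (p : ℤ) ^ (i + 1) * y := fun y =>
    (dvd_pow_self _ (by omega)).mul_right _
  have v1 : ∀ a : ℤ, ∑ u ∈ range q, (if (p : ℤ) ∣ (u : ℤ) then 0 else F a u) = 0 := by
    intro a
    refine sum_vanish hp0 (f := fun u => if (p : ℤ) ∣ u then 0 else F a u) (fun x y h => ?_)
      ((p : ℤ) ^ (i + 1)) (fun u => 12 * a * r * u) (fun z y => ?_) fun z hz hd => ?_
    · simp only [(h.of_dvd hpq).dvd_iff, hF]
      rw [ec_congr ((((h.pow 2).mul_left _).add_left _).mul_left r)]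
    · simp only [dvd_add_left (hph y), hF]
      split_ifs
      · simp
      · simp
      · refine key _ _ _ ?_
        push_cast
        exact (hsq.mul_right (6 * a * r * y ^ 2)).trans (dvd_of_eq (by ring))
    · have h2 : ¬(p : ℤ) ∣ z := fun h => hz (if_pos h)
      have h3 : ¬(p : ℤ) ∣ a := fun h => hz (by simp [hF, h])
      have h4 : ¬(p : ℤ) ∣ 12 := fun h => by
        rcases hP.dvd_or_dvd (show (p : ℤ) ∣ 6 * 2 from h) with h | h
        · exact h6 h
        · exact h6 (h.trans (by norm_num))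
      exact h4 ((hP.dvd_or_dvd ((hP.dvd_or_dvd ((hP.dvd_or_dvd hd).resolve_right h2)).resolve_right
        hr)).resolve_right h3)
  have v2 : ∀ u : ℤ, ∑ a ∈ range q, (if (p : ℤ) ∣ u then F a u else 0) = 0 := by
    intro u
    by_cases hu : (p : ℤ) ∣ u
    · simp only [if_pos hu]
      refine sum_vanish hp0 (f := fun a => F a u) (fun x y h => ?_)
        ((p : ℤ) ^ (i + 1)) (fun a => 6 * r * (a ^ 2 + u ^ 2)) (fun z y => ?_) fun z hz hd => ?_
      · simp only [(h.of_dvd hpq).dvd_iff, hF]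
        rw [ec_congr ((((h.pow 3).mul_left _).add ((h.mul_left _).mul_right _)).mul_left r)]
      · simp only [dvd_add_left (hph y), hF]
        split_ifs
        · simp
        · refine key _ _ _ ?_
          push_cast
          exact (hsq.mul_right (r * (6 * z * y ^ 2 + 2 * p ^ (i + 1) * y ^ 3))).trans
            (dvd_of_eq (by ring))
      · have h3 : ¬(p : ℤ) ∣ z := fun h => hz (by simp [hF, h])
        rcases hP.dvd_or_dvd hd with h | h
        · exact (hP.dvd_or_dvd h).elim h6 hr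
        · exact h3 (hP.dvd_of_dvd_pow ((dvd_add_left (dvd_pow hu two_ne_zero)).1 h))
    · simp [hu]
  have h2 : ∑ a ∈ range q, ∑ u ∈ range q, F a u =
      ∑ a ∈ range q, ∑ u ∈ range q, (if (p : ℤ) ∣ (u : ℤ) then 0 else F a u) +
      ∑ u ∈ range q, ∑ a ∈ range q, (if (p : ℤ) ∣ (u : ℤ) then F a u else 0) := by
    rw [sum_comm (f := fun u a : ℕ => if (p : ℤ) ∣ (u : ℤ) then F a u else 0), ← sum_add_distrib]
    refine sum_congr rfl fun a _ => ?_
    rw [← sum_add_distrib]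
    refine sum_congr rfl fun u _ => ?_
    split_ifs <;> simp
  rw [h2]
  simp [v1, v2]

lemma An_pow_vanish {p j : ℕ} (hp : p.Prime) (hj : (p ≠ 3 ∧ 2 ≤ j) ∨ 3 ≤ j) (n : ℤ) :
    An n (p ^ j) = 0 := by
  refine sum_eq_zero fun r _ => ?_
  split_ifs with h
  · rw [cc_pow_vanish hp hj (not_dvd_of_isCoprime hp (dvd_pow_self p (by omega)) h), zero_mul]
  · rfl

theorem cc_prime_le {p : ℕ} (hp : p.Prime) {r : ℤ} (hr : ¬(p : ℤ) ∣ r) :
    ‖cc p r‖ ≤ 2 ^ 15 / (p : ℝ) ^ 2 := by
  have hP := Nat.prime_iff_prime_int.1 hp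
  have hp0 : (0 : ℝ) < p := by exact_mod_cast hp.pos
  have hpc : (p : ℂ) ≠ 0 := by exact_mod_cast hp.ne_zero
  by_cases h6 : (p : ℤ) ∣ 6
  · have h1 : (p : ℝ) ≤ 6 := by exact_mod_cast Int.le_of_dvd (by norm_num) h6
    have h2 := norm_cc_le_pow p r
    rw [hp.primeFactors, card_singleton, pow_one] at h2
    refine h2.trans ?_
    rw [le_div_iff₀ (by positivity)]
    nlinarith
  have h3 : ∀ m, ‖s3 p r m‖ ^ 2 ≤ 128 / p := fun m => by
    simpa using s3_pow_le hp one_ne_zero hr m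
  set s := s3 p r 1 with hs
  have hT : ∑ x ∈ range p, ec p (r * x ^ 3) = p * s := by
    simp only [hs, s3, av, wq_one, Complex.ofReal_one, one_mul]
    field_simp
  have hper : Per p fun x => ec p (r * x ^ 3) := fun x y h => ec_congr ((h.pow 3).mul_left r)
  have h2 : IsCoprime (-2 : ℤ) p :=
    isCoprime_of_not_dvd hp fun h => h6 (h.trans (by norm_num))
  have e1 : ∑ a ∈ range p, s2 p (6 * a * r) * ec p (r * (2 * a ^ 3)) = p * s ^ 2 := by
    have e2 : ∀ a : ℕ, s2 p (6 * a * r) * ec p (r * (2 * a ^ 3)) =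
        (∑ u ∈ range p, ec p (r * (a + u) ^ 3) * ec p (r * (a + u + -2 * u) ^ 3)) / p := by
      intro a
      rw [s2, av, div_mul_eq_mul_div, sum_mul]
      congr 1
      refine sum_congr rfl fun u _ => ?_
      rw [← ec_add, ← ec_add]
      congr 1; ring
    simp only [e2]
    rw [← sum_div, sum_comm, sum_congr rfl fun (u : ℕ) _ => sum_shift
      (f := fun x => ec p (r * x ^ 3) * ec p (r * (x + -2 * u) ^ 3))
      (fun x y h => by simp only [hper _ _ h, hper _ _ (h.add_right (-2 * u))]) u, sum_comm]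
    simp only [← mul_sum, add_comm _ (-2 * (_ : ℤ))]
    simp only [sum_affine hper h2, ← sum_mul, hT]
    field_simp
  have e3 : ∑ a ∈ range p, psi p r a = p * s ^ 3 + (s3 p r 0 - s) := by
    have e4 : ∀ a ∈ range p, psi p r a = s2 p (6 * a * r) * ec p (r * (2 * a ^ 3)) * s +
        if a = 0 then s3 p r 0 - s else 0 := by
      intro a ha
      split_ifs with h
      · subst h
        simp [psi, s2, av_const hp.ne_zero]
      · have : s3 p r (6 * a) = s := s3_congr (Int.ModEq.refl r) fun l hl => by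
          rw [hp.primeFactors, mem_singleton] at hl
          subst hl
          refine iff_of_false (fun h' => (hP.dvd_or_dvd h').elim h6 fun h'' => ?_) hP.not_dvd_one
          have := Nat.le_of_dvd (by omega) (Int.natCast_dvd_natCast.1 h'')
          have := mem_range.1 ha
          omega
        rw [psi, this]; ring
    rw [sum_congr rfl e4, sum_add_distrib, ← sum_mul, e1, sum_ite_eq' (range p) 0,
      if_pos (mem_range.2 hp.pos)]
    ring
  have e5 : cc p r = s ^ 4 + (s3 p r 0 - s) * s / p := by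
    rw [cc, av, e3, ← hs]
    field_simp
  have n1 : ‖s ^ 4‖ ≤ (128 / p) ^ 2 := by
    rw [norm_pow, show 4 = 2 * 2 by rfl, pow_mul]
    gcongr
    exact h3 1
  have n2 : ‖(s3 p r 0 - s) * s / p‖ ≤ 256 / p / p := by
    rw [norm_div, Complex.norm_natCast, norm_mul]
    gcongr
    have := norm_sub_le (s3 p r 0) s
    have h4 := h3 0
    have h5 := h3 1
    have h7 : (256 : ℝ) / p = 2 * (128 / p) := by ring
    nlinarith [norm_nonneg s, sq_nonneg (‖s3 p r 0‖ - ‖s‖)]
  rw [e5]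
  refine (norm_add_le _ _).trans ((add_le_add n1 n2).trans ?_)
  rw [div_pow, div_div, ← sq, ← add_div]
  gcongr
  norm_num

lemma wq_mul_unit {q : ℕ} {t : ℤ} (ht : IsCoprime t q) (m z : ℤ) : wq q m (t * z) = wq q m z := by
  refine prod_congr rfl fun p hp => ?_
  have hp' := Nat.prime_of_mem_primeFactors hp
  have h1 := not_dvd_of_isCoprime hp' (Nat.dvd_of_mem_primeFactors hp) ht
  have : (p : ℤ) ∣ t * z ↔ (p : ℤ) ∣ z :=
    ⟨fun h => ((Nat.prime_iff_prime_int.1 hp').dvd_or_dvd h).resolve_left h1, fun h => h.mul_left _⟩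
  simp only [wp, this]

lemma cc_mul_cube {q : ℕ} {t : ℤ} (ht : IsCoprime t q) (r : ℤ) : cc q (t ^ 3 * r) = cc q r := by
  have h3 : ∀ m, s3 q (t ^ 3 * r) m = s3 q r m := by
    intro m
    unfold s3
    rw [← av_affine (per_cube q r m) ht 0]
    refine av_congr fun z => ?_
    rw [add_zero, wq_mul_unit ht]
    congr 2; ring
  unfold cc
  rw [h3, ← av_affine (per_psi q r) ht 0]
  congr 1
  refine av_congr fun a => ?_
  have hR : Rel q (t * a) (t ^ 3 * a) := ⟨t, ht, by rw [show t * a * t ^ 2 = t ^ 3 * a by ring]⟩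
  have e1 : s3 q r (6 * (t * a)) = s3 q r (6 * a) := s3_congr (Int.ModEq.refl r) fun p hp => by
    have hp' := Nat.prime_of_mem_primeFactors hp
    have h1 := not_dvd_of_isCoprime hp' (Nat.dvd_of_mem_primeFactors hp) ht
    rw [mul_left_comm]
    exact ⟨fun h => ((Nat.prime_iff_prime_int.1 hp').dvd_or_dvd h).resolve_left h1,
      fun h => h.mul_left _⟩
  unfold psi
  rw [add_zero, h3, hR.s2_eq, e1]
  congr 2
  · congr 1; ring
  · ring

theorem An_prime_le {p : ℕ} (hp : p.Prime) (n : ℤ) : ‖An n p‖ ≤ 2 ^ 15 / p := by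
  have hp0 : (0 : ℝ) < p := by exact_mod_cast hp.pos
  refine (norm_sum_le _ _).trans
    ((sum_le_card_nsmul _ _ (2 ^ 15 / (p : ℝ) ^ 2) fun (r : ℕ) _ => ?_).trans (le_of_eq ?_))
  · split_ifs with h
    · rw [norm_mul, norm_ec, mul_one]
      exact cc_prime_le hp (not_dvd_of_isCoprime hp dvd_rfl h)
    · simp only [norm_zero]; positivity
  · rw [card_range, nsmul_eq_mul]; field_simp

theorem An_prime_sq_le {p : ℕ} (hp : p.Prime) {n : ℤ} (hn : ¬(p : ℤ) ∣ n) :
    ‖An n p‖ ^ 2 ≤ 2 ^ 38 / (p : ℝ) ^ 3 := by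
  classical
  have hP := Nat.prime_iff_prime_int.1 hp
  have hp2 : (2 : ℝ) ≤ p := by exact_mod_cast hp.two_le
  have h1 : ∀ t ∈ (range p).erase 0, An n p = ∑ r ∈ range p,
      if IsCoprime (r : ℤ) p then cc p r * ec p (-(r * n) * t ^ 3) else 0 := by
    intro t ht
    have h2 : IsCoprime (t : ℤ) p := isCoprime_of_not_dvd hp fun h => by
      have h3 := mem_erase.1 ht
      have := Nat.le_of_dvd (by omega) (Int.natCast_dvd_natCast.1 h)
      have := mem_range.1 h3.2
      omega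
    rw [An, ← sum_affine (per_An n p) (h2.pow_left (m := 3)) 0]
    refine sum_congr rfl fun r _ => ?_
    simp only [add_zero, IsCoprime.mul_left_iff, h2.pow_left, true_and, cc_mul_cube h2]
    congr 3; ring
  have h2 : ((p : ℂ) - 1) * An n p = ∑ r ∈ range p,
      if IsCoprime (r : ℤ) p then cc p r * (T3 p (-(r * n)) - 1) else 0 := by
    have h3 := sum_congr rfl h1
    rw [sum_const, card_erase_of_mem (mem_range.2 hp.pos), card_range, nsmul_eq_mul,
      Nat.cast_sub hp.one_le, Nat.cast_one, sum_comm] at h3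
    rw [h3]
    refine sum_congr rfl fun r _ => ?_
    split_ifs
    · rw [← mul_sum, T3, ← add_sum_erase _ _ (mem_range.2 hp.pos)]
      simp
    · simp
  set G : ℝ := √(32 * p) with hG
  have h3 : ‖((p : ℂ) - 1) * An n p‖ ≤ p * (2 ^ 15 / (p : ℝ) ^ 2 * G) := by
    rw [h2]
    refine (norm_sum_le _ _).trans
      ((sum_le_card_nsmul _ _ (2 ^ 15 / (p : ℝ) ^ 2 * G) fun (r : ℕ) _ => ?_).trans (by simp))
    split_ifs with h
    · have h4 := not_dvd_of_isCoprime hp dvd_rfl h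
      rw [norm_mul]
      refine mul_le_mul (cc_prime_le hp h4) (Real.le_sqrt_of_sq_le ?_) (norm_nonneg _) (by positivity)
      have h5 := T3_prime hp (r := -(r * n)) fun h => (hP.dvd_or_dvd (dvd_neg.1 h)).elim h4 hn
      have := norm_sub_le (T3 p (-(r * n))) 1
      rw [norm_one] at this
      have h6 := pow_le_pow_left₀ (norm_nonneg _) this 2
      nlinarith [sq_nonneg (‖T3 p (-(r * n))‖ - 1)]
    · simp only [norm_zero]; positivity
  have h4 : ‖(p : ℂ) - 1‖ = p - 1 := by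
    rw [show (p : ℂ) - 1 = ((p - 1 : ℝ) : ℂ) by push_cast; rfl, Complex.norm_real,
      Real.norm_of_nonneg (by linarith)]
  rw [norm_mul, h4] at h3
  have h5 : ‖An n p‖ ≤ 2 ^ 16 / (p : ℝ) ^ 2 * G := by
    have h6 : 0 ≤ 2 ^ 15 / (p : ℝ) ^ 2 * G := by positivity
    rw [show 2 ^ 16 / (p : ℝ) ^ 2 * G = 2 * (2 ^ 15 / (p : ℝ) ^ 2 * G) by ring]
    nlinarith [norm_nonneg (An n p)]
  refine (pow_le_pow_left₀ (norm_nonneg _) h5 2).trans ?_
  rw [mul_pow, hG, Real.sq_sqrt (by positivity), le_div_iff₀ (by positivity)]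
  field_simp
  norm_num

end Pool.Agent.Lib.MP_786755_nt
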