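import Pool.Agent.Lib.MP_028aa5_nt.Weyl

/-! Kusmin-Landau inequality, summation by parts in mean square, sums of minima. -/

namespace Pool.Agent.Lib.MP_786755_nt

open Finset Pool.Agent.Lib.MP_028aa5_nt
open scoped ComplexConjugate

/-- half of the cotangent of `pi x` -/
noncomputable def ct (x : ℝ) : ℝ := Real.cos (Real.pi * x) / (2 * Real.sin (Real.pi * x))

lemma sin_pi_pos {x : ℝ} (h0 : 0 < x) (h1 : x < 1) : 0 < Real.sin (Real.pi * x) :=
  Real.sin_pos_of_pos_of_lt_pi (by positivity) (by nlinarith [Real.pi_pos])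

lemma e_sub_one_mul {x : ℝ} (h0 : 0 < x) (h1 : x < 1) :
    (-(1 / 2 : ℂ) - (ct x : ℂ) * Complex.I) * (e x - 1) = 1 := by
  have hs := sin_pi_pos h0 h1
  set s := Real.sin (Real.pi * x) with hs'
  set c := Real.cos (Real.pi * x) with hc'
  have hsc : s ^ 2 + c ^ 2 = 1 := Real.sin_sq_add_cos_sq _
  have he : e x = ((c : ℂ) + s * Complex.I) ^ 2 := by
    rw [e_eq, hs', hc', Complex.ofReal_cos, Complex.ofReal_sin, ← Complex.exp_mul_I,
      ← Complex.exp_nat_mul]
    congr 1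
    push_cast
    ring
  have hs0 : (s : ℂ) ≠ 0 := by exact_mod_cast hs.ne'
  have hsc' : (s : ℂ) ^ 2 + (c : ℂ) ^ 2 = 1 := by exact_mod_cast hsc
  have hct : (ct x : ℂ) = c / (2 * s) := by
    rw [ct]; push_cast; rw [hs', hc']; push_cast; rfl
  rw [he, hct]
  field_simp
  have hI : Complex.I ^ 2 = -1 := Complex.I_sq
  linear_combination (-(s : ℂ) ^ 3 - 2 * s * c ^ 2 - c * s ^ 2 * Complex.I) * hI +
    (s - c * Complex.I) * hsc'

lemma ct_anti {x y : ℝ} (h0 : 0 < x) (hxy : x ≤ y) (h1 : y < 1) : ct y ≤ ct x := by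
  have hx := sin_pi_pos h0 (by linarith)
  have hy := sin_pi_pos (by linarith) h1
  unfold ct
  rw [div_le_div_iff₀ (by positivity) (by positivity)]
  have : 0 ≤ Real.sin (Real.pi * y - Real.pi * x) :=
    Real.sin_nonneg_of_nonneg_of_le_pi (by nlinarith [Real.pi_pos]) (by nlinarith [Real.pi_pos])
  rw [Real.sin_sub] at this
  nlinarith

lemma four_le_norm {x l : ℝ} (h0 : l ≤ x) (h1 : x ≤ 1 - l) (hl : 0 < l) : 4 * l ≤ ‖e x - 1‖ := by
  rcases le_total x (1 / 2) with h | h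
  · have := le_norm_e_sub_one (x := x) (by rw [abs_of_pos (by linarith)]; exact h)
    rw [abs_of_pos (by linarith)] at this
    linarith
  · have := le_norm_e_sub_one (x := x - ((1 : ℤ) : ℝ))
      (by push_cast; rw [abs_of_neg (by linarith)]; linarith)
    rw [e_sub_int] at this
    push_cast at this
    rw [abs_of_neg (by linarith)] at this
    linarith

lemma norm_cc_le {x l : ℝ} (h0 : l ≤ x) (h1 : x ≤ 1 - l) (hl : 0 < l) :
    ‖-(1 / 2 : ℂ) - (ct x : ℂ) * Complex.I‖ ≤ 1 / (4 * l) ∧ |ct x| ≤ 1 / (4 * l) := by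
  have h := congrArg norm (e_sub_one_mul (x := x) (by linarith) (by linarith))
  rw [norm_mul, norm_one] at h
  have h4 := four_le_norm h0 h1 hl
  have h5 : ‖-(1 / 2 : ℂ) - (ct x : ℂ) * Complex.I‖ ≤ 1 / (4 * l) := by
    rw [le_div_iff₀ (by positivity)]
    nlinarith [norm_nonneg (-(1 / 2 : ℂ) - (ct x : ℂ) * Complex.I)]
  refine ⟨h5, le_trans ?_ h5⟩
  have := Complex.abs_im_le_norm (-(1 / 2 : ℂ) - (ct x : ℂ) * Complex.I)
  simpa using this

/-- the Kusmin-Landau inequality -/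
theorem KL (φ : ℕ → ℝ) {a b : ℕ} {l : ℝ} (hl : 0 < l)
    (h1 : ∀ n, a < n → n ≤ b → l ≤ φ (n + 1) - φ n ∧ φ (n + 1) - φ n ≤ 1 - l)
    (hm : (∀ n, a < n → n < b → φ (n + 1) - φ n ≤ φ (n + 2) - φ (n + 1)) ∨
      (∀ n, a < n → n < b → φ (n + 2) - φ (n + 1) ≤ φ (n + 1) - φ n)) :
    ‖∑ n ∈ Ioc a b, e (φ n)‖ ≤ 1 / l := by
  rcases le_or_gt b a with hab | hab
  · rw [Ioc_eq_empty (by omega)]; simp; positivity
  set δ : ℕ → ℝ := fun n => φ (n + 1) - φ n with hδ
  set c : ℕ → ℂ := fun n => -(1 / 2 : ℂ) - (ct (δ n) : ℂ) * Complex.I with hc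
  obtain ⟨s, hs1, hs⟩ : ∃ s : ℝ, |s| = 1 ∧ ∀ n, a < n → n < b →
      |ct (δ n) - ct (δ (n + 1))| = s * (ct (δ n) - ct (δ (n + 1))) := by
    rcases hm with hm | hm
    · refine ⟨1, by simp, fun n h h' => ?_⟩
      have := ct_anti (x := δ n) (y := δ (n + 1)) (by have := (h1 n h h'.le).1; linarith)
        (hm n h h') (by have := (h1 (n + 1) (by omega) h').2; simp only [hδ]; linarith)
      rw [abs_of_nonneg (by linarith), one_mul]
    · refine ⟨-1, by simp, fun n h h' => ?_⟩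
      have := ct_anti (x := δ (n + 1)) (y := δ n)
        (by have := (h1 (n + 1) (by omega) h').1; simp only [hδ]; linarith)
        (hm n h h') (by have := (h1 n h h'.le).2; simp only [hδ]; linarith)
      rw [abs_of_nonpos (by linarith)]; ring
  have hE : ∀ n, a < n → n ≤ b → e (φ n) = c n * (e (φ (n + 1)) - e (φ n)) := by
    intro n h h'
    have h2 := h1 n h h'
    have h3 := e_sub_one_mul (x := δ n) (by simp only [hδ]; linarith) (by simp only [hδ]; linarith)
    have h4 : e (φ (n + 1)) = e (δ n) * e (φ n) := by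
      rw [← e_add]; congr 1; simp only [hδ]; ring
    rw [h4]
    simp only [hc]
    linear_combination (-e (φ n)) * h3
  have key : ∀ m, a + 1 ≤ m → m ≤ b →
      ‖∑ n ∈ Ioc a m, e (φ n) - c m * e (φ (m + 1))‖ ≤
        ‖c (a + 1)‖ + s * (ct (δ (a + 1)) - ct (δ m)) := by
    intro m hm1
    induction m, hm1 using Nat.le_induction with
    | base =>
      intro hb
      rw [Nat.Ioc_succ_singleton, sum_singleton]
      have : e (φ (a + 1)) - c (a + 1) * e (φ (a + 1 + 1)) = -(c (a + 1) * e (φ (a + 1))) := by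
        have := hE (a + 1) (by omega) hb
        linear_combination this
      rw [this, norm_neg, norm_mul, norm_e]
      simp
    | succ m hm1 ih =>
      intro hb
      have ih' := ih (by omega)
      rw [sum_Ioc_succ_top (by omega)]
      have h5 : ∑ n ∈ Ioc a m, e (φ n) + e (φ (m + 1)) - c (m + 1) * e (φ (m + 1 + 1)) =
          (∑ n ∈ Ioc a m, e (φ n) - c m * e (φ (m + 1))) + (c m - c (m + 1)) * e (φ (m + 1)) := by
        have := hE (m + 1) (by omega) hb
        linear_combination this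
      rw [h5]
      refine (norm_add_le _ _).trans ?_
      have h6 : ‖(c m - c (m + 1)) * e (φ (m + 1))‖ = |ct (δ m) - ct (δ (m + 1))| := by
        have : c m - c (m + 1) = -(((ct (δ m) - ct (δ (m + 1)) : ℝ) : ℂ) * Complex.I) := by
          simp only [hc]; push_cast; ring
        rw [norm_mul, norm_e, mul_one, this, norm_neg, norm_mul, Complex.norm_I, mul_one,
          Complex.norm_real, Real.norm_eq_abs]
      rw [h6, hs m (by omega) (by omega)]
      linarith
  have k1 := key b hab le_rfl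
  have n1 := norm_cc_le (h1 (a + 1) (by omega) hab).1 (h1 (a + 1) (by omega) hab).2 hl
  have n2 := norm_cc_le (h1 b hab le_rfl).1 (h1 b hab le_rfl).2 hl
  have k2 : s * (ct (δ (a + 1)) - ct (δ b)) ≤ |ct (δ (a + 1))| + |ct (δ b)| := by
    refine (le_abs_self _).trans ?_
    rw [abs_mul, hs1, one_mul]
    exact abs_sub _ _
  have k3 : ‖∑ n ∈ Ioc a b, e (φ n)‖ ≤
      ‖∑ n ∈ Ioc a b, e (φ n) - c b * e (φ (b + 1))‖ + ‖c b‖ := by
    have := norm_add_le (∑ n ∈ Ioc a b, e (φ n) - c b * e (φ (b + 1))) (c b * e (φ (b + 1)))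
    rwa [sub_add_cancel, norm_mul, norm_e, mul_one] at this
  have k4 : 1 / l = 4 * (1 / (4 * l)) := by field_simp
  have n3 : ‖c (a + 1)‖ ≤ 1 / (4 * l) := n1.1
  have n4 : ‖c b‖ ≤ 1 / (4 * l) := n2.1
  have n5 : |ct (δ (a + 1))| ≤ 1 / (4 * l) := n1.2
  have n6 : |ct (δ b)| ≤ 1 / (4 * l) := n2.2
  linarith

lemma norm_sum_e_neg (S : Finset ℕ) (φ : ℕ → ℝ) :
    ‖∑ n ∈ S, e (-φ n)‖ = ‖∑ n ∈ S, e (φ n)‖ := by
  rw [← Complex.norm_conj (∑ n ∈ S, e (φ n)), map_sum]
  simp only [conj_e]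

/-- the Kusmin-Landau inequality for a phase `β * g n` with `g` convex -/
theorem KL' (g : ℕ → ℝ) {a b : ℕ} {β l : ℝ} (hl : 0 < l) (hβ : β ≠ 0)
    (h1 : ∀ n, a < n → n ≤ b → l ≤ g (n + 1) - g n ∧ |β| * (g (n + 1) - g n) ≤ 1 / 2)
    (hm : ∀ n, a < n → n < b → g (n + 1) - g n ≤ g (n + 2) - g (n + 1)) :
    ‖∑ n ∈ Ioc a b, e (β * g n)‖ ≤ 1 / (|β| * l) := by
  have hb : 0 < |β| := abs_pos.2 hβ
  have main : ‖∑ n ∈ Ioc a b, e (|β| * g n)‖ ≤ 1 / (|β| * l) := by
    refine KL (fun n => |β| * g n) (by positivity) (fun n h h' => ?_) (Or.inl fun n h h' => ?_)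
    · obtain ⟨h2, h3⟩ := h1 n h h'
      have := mul_le_mul_of_nonneg_left h2 hb.le
      constructor <;> nlinarith
    · have := mul_le_mul_of_nonneg_left (hm n h h') hb.le
      linarith
  rcases abs_choice β with h | h
  · rwa [h] at main ⊢
  · rw [← norm_sum_e_neg]
    simp only [← neg_mul]
    rw [← h]
    exact main

/-- weighted Cauchy-Schwarz in mean square -/
lemma wcs {ι κ : Type*} (R : Finset ι) (J : Finset κ) (w : κ → ℂ) (Ψ : ι → κ → ℂ) {D : ℝ}
    (hD : ∀ j ∈ J, ∑ r ∈ R, ‖Ψ r j‖ ^ 2 ≤ D) :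
    ∑ r ∈ R, ‖∑ j ∈ J, w j * Ψ r j‖ ^ 2 ≤ D * (∑ j ∈ J, ‖w j‖) ^ 2 := by
  have h1 : ∀ r ∈ R, ‖∑ j ∈ J, w j * Ψ r j‖ ^ 2 ≤
      (∑ j ∈ J, ‖w j‖) * ∑ j ∈ J, ‖w j‖ * ‖Ψ r j‖ ^ 2 := by
    intro r _
    refine le_trans ?_ (sum_sq_le_sum_mul_sum_of_sq_le_mul J (r := fun j => ‖w j‖ * ‖Ψ r j‖)
      (fun j _ => norm_nonneg _) (fun j _ => by positivity) (fun j _ => le_of_eq (by ring)))
    gcongr
    exact (norm_sum_le _ _).trans (by simp)
  refine (sum_le_sum h1).trans ?_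
  rw [← mul_sum, sum_comm, sq, ← mul_assoc, mul_comm]
  gcongr
  rw [mul_sum]
  refine sum_le_sum fun j hj => ?_
  rw [← mul_sum, mul_comm]
  gcongr
  exact hD j hj

/-- summation by parts in mean square -/
theorem abel_sq {ι : Type*} (R : Finset ι) (c : ι → ℕ → ℂ) (φ : ℕ → ℂ) {a b : ℕ} (hab : a ≤ b)
    {D V : ℝ} (hD : ∀ x, a ≤ x → x ≤ b → ∑ r ∈ R, ‖∑ n ∈ Ioc a x, c r n‖ ^ 2 ≤ D)
    (hV : ‖φ b‖ + ∑ n ∈ Ico a b, ‖φ (n + 1) - φ n‖ ≤ V) :
    ∑ r ∈ R, ‖∑ n ∈ Ioc a b, c r n * φ n‖ ^ 2 ≤ D * V ^ 2 := by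
  have hD0 : 0 ≤ D := le_trans (by positivity) (hD a le_rfl hab)
  have id : ∀ r, ∀ m, a ≤ m → ∑ n ∈ Ioc a m, c r n * φ n =
      φ m * ∑ n ∈ Ioc a m, c r n - ∑ x ∈ Ico a m, (φ (x + 1) - φ x) * ∑ n ∈ Ioc a x, c r n := by
    intro r m hm
    induction m, hm using Nat.le_induction with
    | base => simp
    | succ m hm ih =>
      rw [sum_Ioc_succ_top hm, sum_Ioc_succ_top hm, sum_Ico_succ_top hm, ih]
      ring
  set w : ℕ → ℂ := fun x => if x = b then φ b else -(φ (x + 1) - φ x) with hw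
  have hb : b ∉ Ico a b := by simp
  have h2 : ∀ r, ∑ n ∈ Ioc a b, c r n * φ n =
      ∑ x ∈ insert b (Ico a b), w x * ∑ n ∈ Ioc a x, c r n := by
    intro r
    rw [id r b hab, sum_insert hb, sub_eq_add_neg, ← sum_neg_distrib]
    congr 1
    · simp [hw]
    · refine sum_congr rfl fun x hx => ?_
      have : x ≠ b := by have := (mem_Ico.1 hx).2; omega
      simp only [hw, if_neg this]; ring
  simp only [h2]
  refine (wcs R _ w (fun r x => ∑ n ∈ Ioc a x, c r n) (D := D) fun x hx => ?_).trans ?_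
  · rcases mem_insert.1 hx with rfl | hx
    · exact hD _ hab le_rfl
    · exact hD _ (mem_Ico.1 hx).1 (mem_Ico.1 hx).2.le
  · gcongr
    refine le_trans (le_of_eq ?_) hV
    rw [sum_insert hb]
    congr 1
    · simp [hw]
    · refine sum_congr rfl fun x hx => ?_
      have : x ≠ b := by have := (mem_Ico.1 hx).2; omega
      simp only [hw, if_neg this, norm_neg]

/-- summation by parts -/
theorem abel_one (c φ : ℕ → ℂ) {a b : ℕ} (hab : a ≤ b) {D V : ℝ}
    (hD : ∀ x, a ≤ x → x ≤ b → ‖∑ n ∈ Ioc a x, c n‖ ≤ D)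
    (hV : ‖φ b‖ + ∑ n ∈ Ico a b, ‖φ (n + 1) - φ n‖ ≤ V) :
    ‖∑ n ∈ Ioc a b, c n * φ n‖ ≤ D * V := by
  have hD0 : 0 ≤ D := le_trans (by positivity) (hD a le_rfl hab)
  have hV0 : 0 ≤ V := le_trans (by positivity) hV
  have := abel_sq ({()} : Finset Unit) (fun _ => c) φ hab (D := D ^ 2) (V := V)
    (fun x h h' => by
      rw [sum_singleton]
      exact pow_le_pow_left₀ (norm_nonneg _) (hD x h h') 2) hV
  rw [sum_singleton, ← mul_pow] at this
  exact (pow_le_pow_iff_left₀ (norm_nonneg _) (by positivity) two_ne_zero).1 this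

/-- a smooth form of `min(Y, 1/dist(x,Z))` -/
noncomputable def gm (Y x : ℝ) : ℝ := Y / (1 + Y * |x - round x|)

lemma gm_nonneg {Y : ℝ} (hY : 0 ≤ Y) (x : ℝ) : 0 ≤ gm Y x := by unfold gm; positivity

lemma gm_le {Y : ℝ} (hY : 0 ≤ Y) (x : ℝ) : gm Y x ≤ Y := by
  unfold gm
  exact div_le_self hY (by have : 0 ≤ Y * |x - round x| := by positivity
                           linarith)

lemma gm_mul_le {Y : ℝ} (hY : 0 ≤ Y) (x : ℝ) : gm Y x * |x - round x| ≤ 1 := by
  unfold gm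
  rw [div_mul_eq_mul_div, div_le_one (by positivity)]
  linarith

/-- geometric sums -/
lemma geom_gm (φ : ℕ → ℝ) {θ Y : ℝ} {a b : ℕ} (hφ : ∀ n, φ (n + 1) = φ n + θ) (hY : 0 ≤ Y)
    (hb : (b : ℝ) ≤ a + Y) : ‖∑ n ∈ Ioc a b, e (φ n)‖ ≤ 2 * gm Y θ := by
  have h1 : ‖∑ n ∈ Ioc a b, e (φ n)‖ ≤ Y := by
    refine (norm_sum_e_le _ _).trans ?_
    rw [Nat.card_Ioc]
    rcases le_total a b with h | h
    · rw [Nat.cast_sub h]; linarith
    · rw [Nat.sub_eq_zero_of_le h]; simpa using hY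
  have h2 : ‖∑ n ∈ Ioc a b, e (φ n)‖ * ‖e θ - 1‖ ≤ 2 := by
    rcases le_or_gt a b with hab | hab
    · have : (∑ n ∈ Ioc a b, e (φ n)) * (e θ - 1) = e (φ (b + 1)) - e (φ (a + 1)) := by
        clear h1 hb
        induction b, hab using Nat.le_induction with
        | base => simp
        | succ b hb ih =>
          rw [sum_Ioc_succ_top hb, add_mul, ih, hφ (b + 1), e_add]
          ring
      rw [← norm_mul, this]
      exact (norm_sub_le _ _).trans (by simp; norm_num)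
    · rw [Ioc_eq_empty (by omega)]
      simp
  have h3 := le_norm_e_sub_one (abs_sub_round θ)
  rw [e_sub_int] at h3
  set S := ‖∑ n ∈ Ioc a b, e (φ n)‖
  have hS : 0 ≤ S := norm_nonneg _
  set d := |θ - round θ|
  have hd : 0 ≤ d := abs_nonneg _
  have h4 : S * d ≤ 1 / 2 := by nlinarith
  unfold gm
  rw [← mul_div_assoc, le_div_iff₀ (by positivity)]
  nlinarith

lemma sum_inv_le_log (q : ℕ) : ∑ j ∈ Icc 1 q, (1 / j : ℝ) ≤ 1 + Real.log q := by
  have := harmonic_le_one_add_log q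
  rw [harmonic_eq_sum_Icc] at this
  push_cast at this
  simpa [one_div] using this

lemma vino_block {α Y : ℝ} {q : ℕ} {r : ℤ} (hq : 1 ≤ q) (hr : IsCoprime r q)
    (hα : |α - r / q| ≤ 1 / (q : ℝ) ^ 2) (hY : 0 ≤ Y) (B : Finset ℕ)
    (hB : ∀ k ∈ B, ∀ k' ∈ B, k < k' → 2 * (k' - k) ≤ q) :
    ∑ k ∈ B, gm Y (k * α) ≤ 3 * Y + 4 * q * (1 + Real.log q) := by
  have hq0 : (0 : ℝ) < q := by exact_mod_cast hq
  set y : ℕ → ℝ := fun k => k * α - round (k * α) with hy
  set j : ℕ → ℤ := fun k => ⌊2 * q * y k⌋ with hj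
  have sep : ∀ k ∈ B, ∀ k' ∈ B, k < k' → j k ≠ j k' := by
    intro k hk k' hk' hlt heq
    have h1 : |2 * q * y k' - 2 * q * y k| < 1 := Int.abs_sub_lt_one_of_floor_eq_floor heq.symm
    have hd := hB k hk k' hk' hlt
    set m : ℤ := round (k' * α) - round (k * α) with hm
    set d : ℕ := k' - k with hd'
    have hdr : (d : ℝ) = k' - k := by rw [hd', Nat.cast_sub hlt.le]
    have hne : (d : ℤ) * r - m * q ≠ 0 := by
      intro h0
      have h2 : (q : ℤ) ∣ (d : ℤ) * r := ⟨m, by linarith⟩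
      have h3 : (q : ℤ) ∣ (d : ℤ) := hr.symm.dvd_of_dvd_mul_right h2
      have h4 := Nat.le_of_dvd (by omega) (Int.natCast_dvd_natCast.1 h3)
      omega
    have h5 : (1 : ℝ) ≤ |(d : ℝ) * r - m * q| := by
      have := Int.one_le_abs hne
      exact_mod_cast this
    have h6 : 2 * q * y k' - 2 * q * y k = 2 * ((d : ℝ) * r - m * q) + 2 * q * d * (α - r / q) := by
      simp only [hy, hm, hdr]; push_cast; field_simp; ring
    have h7 : |2 * q * d * (α - r / q)| ≤ 1 := by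
      rw [abs_mul, abs_of_nonneg (by positivity : (0 : ℝ) ≤ 2 * q * d)]
      have hd2 : 2 * (d : ℝ) ≤ q := by exact_mod_cast hd
      calc 2 * q * d * |α - r / q| ≤ 2 * q * d * (1 / (q : ℝ) ^ 2) := by gcongr
        _ = 2 * d / q := by field_simp
        _ ≤ 1 := by rw [div_le_one hq0]; exact hd2
    have h8 : |2 * ((d : ℝ) * r - m * q)| ≤
        |2 * q * y k' - 2 * q * y k| + |2 * q * d * (α - r / q)| := by
      have := abs_sub (2 * q * y k' - 2 * q * y k) (2 * q * d * (α - r / q))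
      rwa [h6, add_sub_cancel_right, ← h6] at this
    rw [abs_mul, abs_two] at h8
    linarith
  set ψ : ℤ → ℝ := fun i => if |i| ≤ 1 then Y else 2 * q / (|(i : ℝ)| - 1) with hψ
  have hψ0 : ∀ i, 0 ≤ ψ i := by
    intro i
    simp only [hψ]
    split_ifs with h
    · exact hY
    · have : (2 : ℝ) ≤ |(i : ℝ)| := by
        have : (2 : ℤ) ≤ |i| := by omega
        exact_mod_cast this
      have : 0 ≤ |(i : ℝ)| - 1 := by linarith
      positivity
  have h1 : ∀ k ∈ B, gm Y (k * α) ≤ ψ (j k) := by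
    intro k _
    simp only [hψ]
    split_ifs with h
    · exact gm_le hY _
    · have h2 : (2 : ℝ) ≤ |(j k : ℝ)| := by
        have : (2 : ℤ) ≤ |j k| := by omega
        exact_mod_cast this
      have h3 : |(j k : ℝ)| - 1 ≤ 2 * q * |y k| := by
        have h4 := Int.floor_le (2 * q * y k)
        have h5 := Int.lt_floor_add_one (2 * q * y k)
        have h6 : |(j k : ℝ)| ≤ |2 * q * y k| + 1 := by
          rw [abs_le]
          have := le_abs_self (2 * q * y k)
          have := neg_abs_le (2 * q * y k)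
          simp only [hj]
          constructor <;> linarith
        rw [abs_mul, abs_of_pos (by positivity : (0 : ℝ) < 2 * q)] at h6
        linarith
      rw [le_div_iff₀ (by linarith)]
      have h7 := gm_mul_le hY (k * α)
      have h8 := gm_nonneg hY (k * α)
      calc gm Y (k * α) * (|(j k : ℝ)| - 1) ≤ gm Y (k * α) * (2 * q * |y k|) := by gcongr
        _ = 2 * q * (gm Y (k * α) * |y k|) := by ring
        _ ≤ 2 * q * 1 := by gcongr
        _ = _ := by ring
  have hinj : Set.InjOn j B := by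
    intro k hk k' hk' h
    by_contra hne
    rcases lt_or_gt_of_ne hne with h' | h'
    · exact sep k hk k' hk' h' h
    · exact sep k' hk' k hk h' h.symm
  have hsub : B.image j ⊆ Icc (-(q : ℤ) - 1) (q + 1) := by
    intro i hi
    obtain ⟨k, -, rfl⟩ := mem_image.1 hi
    have h2 := abs_le.1 (abs_sub_round (k * α))
    have h4 := Int.floor_le (2 * q * y k)
    have h5 := Int.lt_floor_add_one (2 * q * y k)
    have h6 : -(q : ℝ) ≤ 2 * q * y k := by simp only [hy]; nlinarith [h2.1]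
    have h7 : 2 * q * y k ≤ q := by simp only [hy]; nlinarith [h2.2]
    rw [mem_Icc]
    constructor
    · have : (-(q : ℝ) - 1) ≤ (j k : ℝ) := by simp only [hj]; linarith
      exact_mod_cast this
    · have : (j k : ℝ) ≤ q + 1 := by simp only [hj]; linarith
      exact_mod_cast this
  have h2 : ∑ k ∈ B, gm Y (k * α) ≤ ∑ i ∈ Icc (-(q : ℤ) - 1) (q + 1), ψ i := by
    refine (sum_le_sum h1).trans ?_
    rw [← sum_image (f := ψ) hinj]
    exact sum_le_sum_of_subset_of_nonneg hsub fun i _ _ => hψ0 i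
  refine h2.trans ?_
  have h3 : ∀ n : ℕ, ∑ i ∈ Icc (-(n : ℤ) - 1) (n + 1), ψ i =
      3 * Y + 4 * q * ∑ i ∈ Icc 1 n, (1 / i : ℝ) := by
    intro n
    induction n with
    | zero =>
      have : Icc (-((0 : ℕ) : ℤ) - 1) ((0 : ℕ) + 1) = {-1, 0, 1} := by decide
      rw [this]
      simp [hψ]
      ring
    | succ n ih =>
      have e1 : Icc (-((n + 1 : ℕ) : ℤ) - 1) ((n + 1 : ℕ) + 1) =
          insert (-(n : ℤ) - 2) (insert ((n : ℤ) + 2) (Icc (-(n : ℤ) - 1) (n + 1))) := by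
        ext i
        simp only [mem_Icc, mem_insert]
        push_cast
        omega
      rw [e1, sum_insert (by simp only [mem_Icc, mem_insert]; omega),
        sum_insert (by simp only [mem_Icc]; omega), ih, sum_Icc_succ_top (by omega)]
      have e2 : ψ (-(n : ℤ) - 2) = 2 * q / (n + 1) := by
        simp only [hψ]
        rw [if_neg (by rw [abs_le]; omega)]
        push_cast
        rw [abs_of_neg (by have : (0 : ℝ) ≤ n := by positivity
                           linarith)]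
        congr 1; ring
      have e3 : ψ ((n : ℤ) + 2) = 2 * q / (n + 1) := by
        simp only [hψ]
        rw [if_neg (by rw [abs_le]; omega)]
        push_cast
        rw [abs_of_pos (by positivity)]
        congr 1; ring
      rw [e2, e3]
      push_cast
      ring
  rw [h3]
  gcongr
  exact sum_inv_le_log q

/-- Vinogradov's bound for sums of minima -/
theorem vino_sum {α Y : ℝ} {q : ℕ} {r : ℤ} (hq : 1 ≤ q) (hr : IsCoprime r q)
    (hα : |α - r / q| ≤ 1 / (q : ℝ) ^ 2) (hY : 0 ≤ Y) (K : ℕ) :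
    ∑ k ∈ Icc 1 K, gm Y (k * α) ≤ (2 * K / q + 1) * (3 * Y + 4 * q * (1 + Real.log q)) := by
  have hq0 : (0 : ℝ) < q := by exact_mod_cast hq
  set l := (q + 1) / 2 with hl
  have hl0 : 0 < l := by omega
  have h1 : ∀ k ∈ Icc 1 K, k / l ∈ range (K / l + 1) := fun k hk =>
    mem_range.2 (Nat.lt_succ_of_le (Nat.div_le_div_right (mem_Icc.1 hk).2))
  rw [← sum_fiberwise_of_maps_to h1]
  refine (sum_le_card_nsmul _ _ _ fun i _ => vino_block hq hr hα hY _ ?_).trans ?_
  · intro k hk k' hk' hlt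
    have e1 := (mem_filter.1 hk).2
    have e2 := (mem_filter.1 hk').2
    have e3 := Nat.div_add_mod k l
    have e4 := Nat.div_add_mod k' l
    have e5 := Nat.mod_lt k' hl0
    rw [e1] at e3
    rw [e2] at e4
    omega
  · rw [card_range, nsmul_eq_mul]
    have hlog : 0 ≤ Real.log q := Real.log_nonneg (by exact_mod_cast hq)
    gcongr
    push_cast
    gcongr
    have h2 : ((K / l : ℕ) : ℝ) ≤ K / l := Nat.cast_div_le
    have h3 : (q : ℝ) ≤ 2 * l := by exact_mod_cast (by omega : q ≤ 2 * l)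
    have hl1 : (0 : ℝ) < l := by exact_mod_cast hl0
    refine h2.trans ?_
    rw [div_le_div_iff₀ hl1 hq0]
    nlinarith [(by positivity : (0 : ℝ) ≤ K)]

/-- sums of greatest common divisors -/
lemma sum_gcd_le {b : ℕ} (hb : b ≠ 0) (X : ℕ) :
    ∑ k ∈ Icc 1 X, (Nat.gcd k b : ℝ) ≤ X * #b.divisors := by
  have h1 : ∀ k ∈ Icc 1 X, Nat.gcd k b ∈ b.divisors := fun k _ =>
    Nat.mem_divisors.2 ⟨Nat.gcd_dvd_right _ _, hb⟩
  rw [← sum_fiberwise_of_maps_to h1, mul_comm]
  refine (sum_le_card_nsmul _ _ (X : ℝ) fun d hd => ?_).trans (by rw [nsmul_eq_mul])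
  have hd0 : 0 < d := Nat.pos_of_mem_divisors hd
  calc ∑ k ∈ Icc 1 X with Nat.gcd k b = d, (Nat.gcd k b : ℝ)
      = #{k ∈ Icc 1 X | Nat.gcd k b = d} * (d : ℝ) := by
        rw [sum_congr rfl (g := fun _ => (d : ℝ)) fun k hk => by rw [(mem_filter.1 hk).2]]
        simp
    _ ≤ (X / d : ℕ) * (d : ℝ) := by
        gcongr
        rw [← Nat.Ioc_filter_dvd_card_eq_div]
        refine card_le_card fun k hk => ?_
        obtain ⟨h2, h3⟩ := mem_filter.1 hk
        rw [mem_Icc] at h2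
        exact mem_filter.2 ⟨mem_Ioc.2 ⟨by omega, h2.2⟩, h3 ▸ Nat.gcd_dvd_left _ _⟩
    _ ≤ X := by exact_mod_cast Nat.div_mul_le_self X d

end Pool.Agent.Lib.MP_786755_nt
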